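import Pool.Agent.helper98.NIG.B05

/-!
# NIG-Q02: compactness

PROOF of `compact2`. Suppose not: for every `n : ℕ` there are `x n`, `y n` with `C (x n) (y n)` and
`¬ P n (x n) (y n)`. Let `U = Filter.hyperfilter ℕ` and `x`, `y` limits of `x n`, `y n` along `U`
(`exists_ulim` twice). For `U`-almost all `n` the points agree on the window `N0`, so `C x y` (`hC`, with
`Agree.symm`). Take `m` with `P m x y` and `N` from `hP`. For `U`-almost all `n` we have `Agree N x (x n)`,
`Agree N y (y n)` and `m ≤ n` (`Filter.hyperfilter_le_cofinite`, `Nat.cofinite_eq_atTop`, or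
`Filter.Eventually.filter_mono`), so `P m (x n) (y n)` and `P n (x n) (y n)` by `hm`: contradiction (take one such `n`,
`Filter.Eventually.exists`).
`compact1`: apply `compact2` with `C x y := C x`, `P n x y := P n x` (if `C x` holds use `y = x`).
-/

namespace Pool.Agent.helper98.NIG

variable {b : Base} {F : Type}

/-- compactness for pairs of points: an increasing union of open conditions which covers a clopen
set covers it after finitely many steps -/
theorem compact2 [Finite F] (C : Pt b F → Pt b F → Prop) (N0 : ℕ)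
    (hC : ∀ x y x' y', Agree N0 x x' → Agree N0 y y' → C x y → C x' y')
    (P : ℕ → Pt b F → Pt b F → Prop) (hm : ∀ n m x y, n ≤ m → P n x y → P m x y)
    (hP : ∀ n x y, C x y → P n x y →
      ∃ N : ℕ, ∀ x' y', C x' y' → Agree N x x' → Agree N y y' → P n x' y')
    (h : ∀ x y, C x y → ∃ n, P n x y) : ∃ n, ∀ x y, C x y → P n x y := by
  by_contra hcon
  push Not at hcon
  choose u v huv hn using hcon
  obtain ⟨x, hx⟩ := exists_ulim (Filter.hyperfilter ℕ) u
  obtain ⟨y, hy⟩ := exists_ulim (Filter.hyperfilter ℕ) v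
  have hCxy : C x y := by
    obtain ⟨i, hi, hi'⟩ := ((hx N0).and (hy N0)).exists
    exact hC _ _ _ _ hi hi' (huv i)
  obtain ⟨m, hPm⟩ := h x y hCxy
  obtain ⟨N, hN⟩ := hP m x y hCxy hPm
  have hm' : ∀ᶠ i in (Filter.hyperfilter ℕ : Filter ℕ), m ≤ i := by
    have h1 : (Filter.hyperfilter ℕ : Filter ℕ) ≤ Filter.atTop := by
      rw [← Nat.cofinite_eq_atTop]
      exact Filter.hyperfilter_le_cofinite
    exact h1 (Filter.eventually_ge_atTop m)
  obtain ⟨i, ⟨hi, hi'⟩, hi''⟩ := (((hx N).and (hy N)).and hm').exists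
  exact hn i (hm m i _ _ hi'' (hN _ _ (huv i) hi.symm hi'.symm))

/-- compactness for points -/
theorem compact1 [Finite F] (C : Pt b F → Prop) (N0 : ℕ)
    (hC : ∀ x x', Agree N0 x x' → C x → C x')
    (P : ℕ → Pt b F → Prop) (hm : ∀ n m x, n ≤ m → P n x → P m x)
    (hP : ∀ n x, C x → P n x → ∃ N : ℕ, ∀ x', C x' → Agree N x x' → P n x')
    (h : ∀ x, C x → ∃ n, P n x) : ∃ n, ∀ x, C x → P n x := by
  obtain ⟨n, hn⟩ := compact2 (fun x _ => C x) N0 (fun x _ x' _ h1 _ h2 => hC x x' h1 h2)
    (fun n x _ => P n x) (fun n m x _ h1 h2 => hm n m x h1 h2)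
    (fun n x _ h1 h2 => by
      obtain ⟨N, hN⟩ := hP n x h1 h2
      exact ⟨N, fun x' _ h3 h4 _ => hN x' h3 h4⟩)
    (fun x _ h1 => h x h1)
  exact ⟨n, fun x hx => hn x x hx⟩

end Pool.Agent.helper98.NIG
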