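import Pool.Agent.helper35.NIG.Q01
import Pool.Agent.helper35.NIG.Q02
import Pool.Agent.helper98.NIG.C04

/-!
# NIG-Q03: unbounded orbits of finitely generated groups

PROOFS.
* `exists_list_closure`: every element of `Subgroup.closure T` is a product of a list of elements of `T` and
  of inverses of elements of `T` (`Subgroup.exists_list_of_mem_closure`).
* `closure_le_PW`: `Subgroup.closure_le`.
* `hit_gen`: as `PSys.hit` (helper98/NIG/C01): take `g0` with `disp g0 x < n` and `g1` with `n - 1 < disp g1 x`; write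
  `g1 * g0⁻¹` as the product of a list of elements `t` with `PWr r t` (`exists_list_closure`) and prove by
  induction on the list: if `n ≤ disp (l.prod * g0) x` then there is `g` in the closure with
  `n ≤ disp g x ≤ n + r`: (`disp_mul`, `abs_disp_le`).
* `hit_Stb`: `hit_gen` with `T = {g | g ∈ W M ∧ ..}` and `r = ρ M` (`W_isPW` for `g` and for `g⁻¹`, `W_inv`).
* `unb_open`: `Gen` with `S = T ∪ T⁻¹ ∪ {1}` (`Finset.image`, `classical`) and radius `r`; its group is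
  `Subgroup.closure T` (`Subgroup.closure_le` in both directions). Let `R1` be the constant of
  `Gen.big_imp_infinite`. Choose `g` in the group with `R1 < disp g x`; it is in `PW b F`, of some radius `r'`. If
  `Agree r' x x'` then `disp g x' = disp g x` (`disp_eq_of_agree`), so `R1 ≤ |disp g x'|` and
  `big_imp_infinite` gives `Unb` at `x'`.
* `unb_Stb_open`: `unb_open` for the finite set `{g ∈ W M | ∀ z ∈ Z, g z = z}` (`W_finite`, `Set.Finite.toFinset`).
* `unb_mono`: clear.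
* `unb_unif`: `compact1` with `C y := y ∈ D ∧ NE N Z y` (radius `ρ (N + 1)`: `A.clopen`, `E_congr`) and
  `P M y := Unb (Stb M Z) y` (`Stb_mono`, `unb_Stb_open`; `NR_of_NE`).
* `free2_of_fr`: `compact2` with `C z y := z ∈ D ∧ y ∈ D ∧ ¬ E N z y` and `P M z y := Unb (Stb M {z}) y`; openness:
  if `Agree (ρ M) z z'` then `Stb M {z'} = Stb M {z}` (`Stb_eq_of_agree`), and `unb_Stb_open`.
* `fr1_of_free2`: a finset with at most one element is `∅` or `{z}` (`Finset.card_le_one_iff_subset_singleton` or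
  `Finset.card_eq_one`). For `∅`: `Stb 1 ∅ = G` (`mem_W_one`), `A.right`, `A.left`. For `{z}`: by `rel_iff` there is `N` with
  `¬ E N z y`.
-/

namespace Pool.Agent.helper98.NIG

variable {b : Base} {F : Type}

theorem unb_mono {H H' : Subgroup (Equiv.Perm (Pt b F))} (h : H ≤ H') {x : Pt b F}
    (hx : Unb H x) : Unb H' x := by
  intro K
  obtain ⟨⟨g, hg, h1⟩, ⟨g', hg', h2⟩⟩ := hx K
  exact ⟨⟨g, h hg, h1⟩, ⟨g', h hg', h2⟩⟩

theorem closure_le_PW {T : Set (Equiv.Perm (Pt b F))} {r : ℕ} (hT : ∀ t ∈ T, PWr r t) :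
    Subgroup.closure T ≤ PW b F :=
  (Subgroup.closure_le _).2 fun t ht => ⟨r, hT t ht⟩

/-- every element of the group generated by `T` is a product of elements of `T` and of inverses of
elements of `T` -/
theorem Q03_exists_list_closure {T : Set (Equiv.Perm (Pt b F))} {g : Equiv.Perm (Pt b F)}
    (hg : g ∈ Subgroup.closure T) :
    ∃ l : List (Equiv.Perm (Pt b F)), (∀ s ∈ l, s ∈ T ∨ s⁻¹ ∈ T) ∧ l.prod = g := by
  induction hg using Subgroup.closure_induction with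
  | mem s hs =>
    exact ⟨[s], fun t ht => Or.inl (by rw [List.mem_singleton.1 ht]; exact hs), by simp⟩
  | one => exact ⟨[], by simp, rfl⟩
  | mul g h _ _ ihg ihh =>
    obtain ⟨l, hl, rfl⟩ := ihg
    obtain ⟨l', hl', rfl⟩ := ihh
    refine ⟨l ++ l', fun s hs => ?_, by rw [List.prod_append]⟩
    rcases List.mem_append.1 hs with h | h
    · exact hl s h
    · exact hl' s h
  | inv g _ ih =>
    obtain ⟨l, hl, rfl⟩ := ih
    refine ⟨(l.map fun x => x⁻¹).reverse, fun s hs => ?_, by rw [List.prod_inv_reverse]⟩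
    rw [List.mem_reverse, List.mem_map] at hs
    obtain ⟨t, ht, rfl⟩ := hs
    rw [inv_inv]
    exact (hl t ht).symm

theorem hit_gen {T : Set (Equiv.Perm (Pt b F))} {r : ℕ} (hT : ∀ t ∈ T, PWr r t) {x : Pt b F}
    (hx : Unb (Subgroup.closure T) x) (n : ℤ) :
    ∃ g ∈ Subgroup.closure T, n ≤ disp g x ∧ disp g x ≤ n + r := by
  obtain ⟨g0, hg0, h0⟩ := (hx n).2
  obtain ⟨g1, hg1, h1⟩ := (hx n).1
  have hle := closure_le_PW hT
  obtain ⟨l, hl, e⟩ := Q03_exists_list_closure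
    (mul_mem hg1 (Subgroup.inv_mem _ hg0))
  have hmem : ∀ s : Equiv.Perm (Pt b F), (s ∈ T ∨ s⁻¹ ∈ T) → s ∈ Subgroup.closure T ∧ IsPW r s := by
    rintro s (hs | hs)
    · exact ⟨Subgroup.subset_closure hs, (hT s hs).1⟩
    · refine ⟨(Subgroup.inv_mem_iff _).1 (Subgroup.subset_closure hs), ?_⟩
      have h2 : IsPW r (s⁻¹).symm := (hT _ hs).2
      exact h2
  have key : ∀ l : List (Equiv.Perm (Pt b F)), (∀ s ∈ l, s ∈ T ∨ s⁻¹ ∈ T) →
      n ≤ disp (l.prod * g0) x →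
      ∃ g ∈ Subgroup.closure T, n ≤ disp g x ∧ disp g x ≤ n + r := by
    intro l hl h
    induction l with
    | nil =>
      rw [List.prod_nil, one_mul] at h
      exact absurd h0 (not_lt.2 h)
    | cons s l ih =>
      have hl' : ∀ t ∈ l, t ∈ T ∨ t⁻¹ ∈ T := fun t ht => hl t (by simp [ht])
      obtain ⟨hs, hsr⟩ := hmem s (hl s (by simp))
      have hlG : l.prod * g0 ∈ Subgroup.closure T :=
        mul_mem (Subgroup.list_prod_mem _ fun t ht => (hmem t (hl' t ht)).1) hg0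
      by_cases hc : n ≤ disp (l.prod * g0) x
      · exact ih hl' hc
      · rw [List.prod_cons, mul_assoc] at h
        refine ⟨s * (l.prod * g0), mul_mem hs hlG, h, ?_⟩
        rw [disp_mul (hle hs) (hle hlG)]
        have h2 := (abs_le.1 (abs_disp_le hsr ((l.prod * g0) x))).2
        push Not at hc
        linarith
  refine key l hl ?_
  rw [e, inv_mul_cancel_right]
  exact h1.le

/-- unboundedness of an orbit of a finitely generated group is an open condition -/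
theorem unb_open [Finite F] {T : Finset (Equiv.Perm (Pt b F))} {r : ℕ}
    (hT : ∀ t ∈ T, PWr r t) {x : Pt b F}
    (hx : Unb (Subgroup.closure (T : Set (Equiv.Perm (Pt b F)))) x) :
    ∃ N : ℕ, ∀ x' : Pt b F, Agree N x x' →
      Unb (Subgroup.closure (T : Set (Equiv.Perm (Pt b F)))) x' := by
  classical
  have hmem : ∀ s, s ∈ T ∪ T.image (fun t => t⁻¹) ∪ {1} ↔ s ∈ T ∨ (∃ t ∈ T, t⁻¹ = s) ∨ s = 1 := by
    intro s
    simp only [Finset.mem_union, Finset.mem_image, Finset.mem_singleton, or_assoc]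
  let A : Gen b F :=
    { S := T ∪ T.image (fun t => t⁻¹) ∪ {1}
      ρ := r
      pw := by
        intro s hs
        rcases (hmem s).1 hs with h | ⟨t, ht, rfl⟩ | rfl
        · exact hT s h
        · exact ⟨(hT t ht).2, (hT t ht).1⟩
        · exact ⟨IsPW.one.mono (Nat.zero_le _), IsPW.one.mono (Nat.zero_le _)⟩
      one_mem := (hmem 1).2 (Or.inr (Or.inr rfl))
      inv_mem := by
        intro s hs
        rw [hmem]
        rcases (hmem s).1 hs with h | ⟨t, ht, rfl⟩ | rfl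
        · exact Or.inr (Or.inl ⟨s, h, rfl⟩)
        · exact Or.inl (by rw [inv_inv]; exact ht)
        · exact Or.inr (Or.inr inv_one) }
  have hG : A.G = Subgroup.closure (T : Set (Equiv.Perm (Pt b F))) := by
    refine le_antisymm ((Subgroup.closure_le _).2 fun s hs => ?_) (Subgroup.closure_mono fun s hs => ?_)
    · rcases (hmem s).1 hs with h | ⟨t, ht, rfl⟩ | rfl
      · exact Subgroup.subset_closure h
      · exact Subgroup.inv_mem _ (Subgroup.subset_closure ht)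
      · exact Subgroup.one_mem _
    · exact (hmem s).2 (Or.inl hs)
  obtain ⟨R1, -, hR⟩ := A.big_imp_infinite
  obtain ⟨g, hg, hgx⟩ := (hx R1).1
  rw [← hG] at hg ⊢
  obtain ⟨r', hr', -⟩ := A.G_le_PW hg
  refine ⟨r', fun x' hx' => ?_⟩
  have h1 : (R1 : ℤ) ≤ |disp g x'| := by
    rw [← disp_eq_of_agree hr' hx']
    exact hgx.le.trans (le_abs_self _)
  exact hR x' g hg h1

namespace Sys

theorem hit_Stb {A : Sys b F} {M : ℕ} {Z : Set (Pt b F)} {x : Pt b F}
    (hx : Unb (A.Stb M Z) x) (n : ℤ) :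
    ∃ g ∈ A.Stb M Z, n ≤ disp g x ∧ disp g x ≤ n + (A.ρ * M : ℕ) :=
  hit_gen (T := {g | g ∈ A.W M ∧ ∀ z ∈ Z, g z = z}) (r := A.ρ * M)
    (fun _ ht => ⟨A.W_isPW ht.1, A.W_isPW (A.W_inv ht.1)⟩) hx n

theorem unb_Stb_open [Finite F] {A : Sys b F} {M : ℕ} {Z : Set (Pt b F)} {x : Pt b F}
    (hx : Unb (A.Stb M Z) x) : ∃ N : ℕ, ∀ x' : Pt b F, Agree N x x' → Unb (A.Stb M Z) x' := by
  have hfin : {g | g ∈ A.W M ∧ ∀ z ∈ Z, g z = z}.Finite :=
    (A.W_finite M).subset fun g hg => hg.1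
  have hcl : A.Stb M Z = Subgroup.closure (hfin.toFinset : Set (Equiv.Perm (Pt b F))) := by
    rw [hfin.coe_toFinset]
    rfl
  rw [hcl] at hx ⊢
  refine unb_open (r := A.ρ * M) (fun t ht => ?_) hx
  have h1 : t ∈ A.W M := ((hfin.mem_toFinset).1 ht).1
  exact ⟨A.W_isPW h1, A.W_isPW (A.W_inv h1)⟩

theorem unb_unif [Finite F] {A : Sys b F} {Z : Set (Pt b F)}
    (h : ∀ y ∈ A.D, A.NR Z y → ∃ M : ℕ, Unb (A.Stb M Z) y) (N : ℕ) :
    ∃ M : ℕ, ∀ y ∈ A.D, A.NE N Z y → Unb (A.Stb M Z) y := by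
  have hρ1 : A.ρ ≤ A.ρ * (N + 1) := Nat.le_mul_of_pos_right _ (Nat.succ_pos _)
  have hρ2 : A.ρ * N ≤ A.ρ * (N + 1) := Nat.mul_le_mul_left _ (Nat.le_succ _)
  obtain ⟨M, hM⟩ := compact1 (fun y => y ∈ A.D ∧ A.NE N Z y) (A.ρ * (N + 1))
    (fun x x' hxx' hx => ⟨(A.clopen _ _ (hxx'.mono hρ1)).1 hx.1, fun z hz hE =>
      hx.2 z hz ((E_congr hρ2 (Agree.refl _ _) hxx').2 hE)⟩)
    (fun M y => Unb (A.Stb M Z) y)
    (fun n m x hnm hx => unb_mono (A.Stb_mono hnm Z) hx)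
    (fun n x _ hx => by
      obtain ⟨N', hN'⟩ := unb_Stb_open hx
      exact ⟨N', fun x' _ h' => hN' x' h'⟩)
    (fun x hx => h x hx.1 (NR_of_NE hx.2))
  exact ⟨M, fun y hy hNE => hM y ⟨hy, hNE⟩⟩

theorem free2_of_fr [Finite F] {A : Sys b F}
    (h : ∀ z ∈ A.D, ∀ y ∈ A.D, ¬ A.Rel z y → ∃ M : ℕ, Unb (A.Stb M {z}) y) : A.FREE2 := by
  intro N
  have hρ1 : A.ρ ≤ A.ρ * (N + 1) := Nat.le_mul_of_pos_right _ (Nat.succ_pos _)
  have hρ2 : A.ρ * N ≤ A.ρ * (N + 1) := Nat.mul_le_mul_left _ (Nat.le_succ _)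
  obtain ⟨M, hM⟩ := compact2 (fun z y => z ∈ A.D ∧ y ∈ A.D ∧ ¬ A.E N z y) (A.ρ * (N + 1))
    (fun z y z' y' hz hy hC => ⟨(A.clopen _ _ (hz.mono hρ1)).1 hC.1,
      (A.clopen _ _ (hy.mono hρ1)).1 hC.2.1, fun hE => hC.2.2 ((E_congr hρ2 hz hy).2 hE)⟩)
    (fun M z y => Unb (A.Stb M {z}) y)
    (fun n m z y hnm hx => unb_mono (A.Stb_mono hnm _) hx)
    (fun n z y _ hx => by
      obtain ⟨N', hN'⟩ := unb_Stb_open hx
      refine ⟨max (A.ρ * n) N', fun z' y' _ hz' hy' => ?_⟩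
      rw [← Stb_eq_of_agree (hz'.mono (le_max_left _ _))]
      exact hN' y' (hy'.mono (le_max_right _ _)))
    (fun z y hC => h z hC.1 y hC.2.1 fun hr => hC.2.2 (rel_iff.1 hr N))
  exact ⟨M, fun z hz y hy hE => hM z y ⟨hz, hy, hE⟩⟩

theorem fr1_of_free2 {A : Sys b F} (h : A.FREE2) : A.Fr 1 := by
  intro Z hZ hc y hy hNR
  have : Nonempty (Pt b F) := ⟨y⟩
  rcases Finset.card_le_one_iff_subset_singleton.1 hc with ⟨z, hz⟩
  rcases Finset.subset_singleton_iff.1 hz with rfl | rfl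
  · have hle : A.G ≤ A.Stb 1 ((∅ : Finset (Pt b F)) : Set (Pt b F)) := by
      refine Subgroup.closure_mono fun s hs => ⟨A.mem_W_one hs, fun z hz => ?_⟩
      exact absurd hz (by simp)
    refine ⟨1, fun K => ?_⟩
    obtain ⟨g, hg, h1⟩ := A.right y hy K
    obtain ⟨g', hg', h2⟩ := A.left y hy K
    exact ⟨⟨g, hle hg, h1⟩, ⟨g', hle hg', h2⟩⟩
  · have hzD : z ∈ A.D := hZ (by simp)
    have hnr : ¬ A.Rel z y := hNR z (by simp)
    rw [rel_iff] at hnr
    push Not at hnr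
    obtain ⟨N, hN⟩ := hnr
    obtain ⟨M, hM⟩ := h N
    refine ⟨M, ?_⟩
    rw [Finset.coe_singleton]
    exact hM z hzD y hy hN

end Sys

end Pool.Agent.helper98.NIG
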