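import Pool.Agent.helper35.NIG.QDefs

/-!
# NIG-Q01: basic facts on `Fix`, `Stb`, `orbz`

PROOFS. `mem_Fix`: `Iff.rfl`. `Stb_mono`, `Stb_anti`: `Subgroup.closure_mono`, `W_mono`. `Stb_le_Fix`:
`Subgroup.closure_le`, `W_le_G`. `exists_Stb`: `exists_W`, `Subgroup.subset_closure`. `mem_Fix_map`: compute.
`rel_map_iff`: `Rel.map` for `g` and `g⁻¹` (`pinv_apply`). `rel_Fix`: `h z = z`, so `Rel z (h y) = Rel (h z) (h y)`.
`Stb_le_of_agree`: a word `g` of length at most `M` with `g z = z` satisfies `g x = x`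
(`fix_iff_of_agree` and `W_isPW`). `E_congr`: `E_of_agree`, `E_trans`.
`orbz_*`: group facts; `orbz_map`: `h ∈ Fix {z} ↔ g h g⁻¹ ∈ Fix {g z}`. `orbz_disj`: orbits are equal or
disjoint. `disp_Stb_gen`: `abs_disp_W`. `conn_fin`: `CONN K` gives a word of length at most
`K (|disp| + 1)`. `recur`: every point returns near every point by a bounded word: by
`Sys.minimal`, `agree_map` and compactness: suppose not; for every `n` there is `x n ∈ D` such that no `h ∈ W n` has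
`Agree N (h (x n)) z`; let `x` be a limit along `U = Filter.hyperfilter ℕ` (`exists_ulim`, `mem_D_of_ulim`); by `minimal`
there is `h ∈ A.G` with `Agree N (h x) z`, `h ∈ W m` (`exists_W`); for `U`-almost all `n` `Agree N (h (x n)) (h x)`
(`agree_W`) and `m ≤ n`: contradiction.
-/

namespace Pool.Agent.helper98.NIG

variable {b : Base} {F : Type}

namespace Sys

variable (A : Sys b F)

theorem mem_Fix {Z : Set (Pt b F)} {g : Equiv.Perm (Pt b F)} :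
    g ∈ A.Fix Z ↔ g ∈ A.G ∧ ∀ z ∈ Z, g z = z := Iff.rfl

theorem mem_Fix_singleton {z : Pt b F} {g : Equiv.Perm (Pt b F)} :
    g ∈ A.Fix {z} ↔ g ∈ A.G ∧ g z = z := by
  rw [mem_Fix]
  simp only [Set.mem_singleton_iff, forall_eq]

theorem Stb_mono {M M' : ℕ} (h : M ≤ M') (Z : Set (Pt b F)) : A.Stb M Z ≤ A.Stb M' Z := by
  refine Subgroup.closure_mono ?_
  rintro g ⟨hg, hg'⟩
  exact ⟨A.W_mono h hg, hg'⟩

theorem Stb_anti (M : ℕ) {Z Z' : Set (Pt b F)} (h : Z ⊆ Z') : A.Stb M Z' ≤ A.Stb M Z := by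
  refine Subgroup.closure_mono ?_
  rintro g ⟨hg, hg'⟩
  exact ⟨hg, fun z hz => hg' z (h hz)⟩

theorem Fix_anti {Z Z' : Set (Pt b F)} (h : Z ⊆ Z') : A.Fix Z' ≤ A.Fix Z := by
  rintro g ⟨hg, hg'⟩
  exact ⟨hg, fun z hz => hg' z (h hz)⟩

theorem Stb_le_Fix (M : ℕ) (Z : Set (Pt b F)) : A.Stb M Z ≤ A.Fix Z := by
  refine (Subgroup.closure_le _).2 ?_
  rintro g ⟨hg, hg'⟩
  exact ⟨A.W_le_G hg, hg'⟩

theorem exists_Stb {Z : Set (Pt b F)} {g : Equiv.Perm (Pt b F)} (hg : g ∈ A.Fix Z) :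
    ∃ M : ℕ, g ∈ A.W M ∧ g ∈ A.Stb M Z := by
  obtain ⟨M, hM⟩ := A.exists_W hg.1
  exact ⟨M, hM, Subgroup.subset_closure ⟨hM, hg.2⟩⟩

theorem mem_Stb {M : ℕ} {Z : Set (Pt b F)} {g : Equiv.Perm (Pt b F)} (hg : g ∈ A.W M)
    (h : ∀ z ∈ Z, g z = z) : g ∈ A.Stb M Z := Subgroup.subset_closure ⟨hg, h⟩

theorem mem_Fix_map {g : Equiv.Perm (Pt b F)} (hg : g ∈ A.G) (Z : Set (Pt b F))
    (h : Equiv.Perm (Pt b F)) : g * h * g⁻¹ ∈ A.Fix (g '' Z) ↔ h ∈ A.Fix Z := by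
  have key : ∀ z : Pt b F, (g * h * g⁻¹) (g z) = g z ↔ h z = z := by
    intro z
    have e : g⁻¹ (g z) = z := g.symm_apply_apply z
    rw [Equiv.Perm.mul_apply, Equiv.Perm.mul_apply, e]
    exact g.injective.eq_iff
  rw [mem_Fix, mem_Fix]
  constructor
  · rintro ⟨h1, h2⟩
    refine ⟨?_, fun z hz => (key z).1 (h2 _ (Set.mem_image_of_mem _ hz))⟩
    have h3 := A.G.mul_mem (A.G.mul_mem (A.G.inv_mem hg) h1) hg
    have e : g⁻¹ * (g * h * g⁻¹) * g = h := by group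
    rwa [e] at h3
  · rintro ⟨h1, h2⟩
    refine ⟨A.G.mul_mem (A.G.mul_mem hg h1) (A.G.inv_mem hg), ?_⟩
    rintro _ ⟨z, hz, rfl⟩
    exact (key z).2 (h2 z hz)

theorem mem_Fix_map_singleton {g : Equiv.Perm (Pt b F)} (hg : g ∈ A.G) (z : Pt b F)
    (h : Equiv.Perm (Pt b F)) : g * h * g⁻¹ ∈ A.Fix {g z} ↔ h ∈ A.Fix {z} := by
  rw [← mem_Fix_map A hg {z} h, Set.image_singleton]

variable {A}

theorem rel_map_iff {g : Equiv.Perm (Pt b F)} (hg : g ∈ A.G) {x y : Pt b F} :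
    A.Rel (g x) (g y) ↔ A.Rel x y := by
  constructor
  · intro h
    have h1 := h.map (A.G.inv_mem hg)
    have e : ∀ z : Pt b F, g⁻¹ (g z) = z := fun z => g.symm_apply_apply z
    rwa [e, e] at h1
  · intro h
    exact h.map hg

theorem rel_apply {x y : Pt b F} (h : A.Rel x y) {g : Equiv.Perm (Pt b F)}
    (hg : g ∈ A.Fix {x}) : g y = y := by
  rw [mem_Fix_singleton] at hg
  exact (h g hg.1).1 hg.2

theorem rel_Fix {z y : Pt b F} {g : Equiv.Perm (Pt b F)} (hg : g ∈ A.Fix {z}) :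
    A.Rel z (g y) ↔ A.Rel z y := by
  rw [mem_Fix_singleton] at hg
  have h := rel_map_iff (x := z) (y := y) hg.1
  rwa [hg.2] at h

theorem NR_Fix {Z : Set (Pt b F)} {y : Pt b F} {g : Equiv.Perm (Pt b F)} (hg : g ∈ A.Fix Z) :
    A.NR Z (g y) ↔ A.NR Z y := by
  refine forall₂_congr fun z hz => ?_
  have h1 : g ∈ A.Fix {z} := (A.mem_Fix_singleton).2 ⟨hg.1, hg.2 z hz⟩
  rw [rel_Fix h1]

theorem NR_of_NE {N : ℕ} {Z : Set (Pt b F)} {x : Pt b F} (h : A.NE N Z x) : A.NR Z x := by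
  intro z hz hr
  exact h z hz (rel_iff.1 hr N)

/-- a point which is not related to finitely many points is not locked to them -/
theorem exists_NE {Z : Set (Pt b F)} (hZ : Z.Finite) {x : Pt b F} (h : A.NR Z x) :
    ∃ N : ℕ, A.NE N Z x := by
  classical
  have h1 : ∀ z : Pt b F, ∃ N : ℕ, z ∈ Z → ¬ A.E N z x := by
    intro z
    by_cases hz : z ∈ Z
    · have h2 := h z hz
      rw [rel_iff, not_forall] at h2
      obtain ⟨N, hN⟩ := h2
      exact ⟨N, fun _ => hN⟩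
    · exact ⟨0, fun hz' => absurd hz' hz⟩
  choose f hf using h1
  refine ⟨hZ.toFinset.sup f, fun z hz hE => hf z hz (E_mono ?_ hE)⟩
  exact Finset.le_sup (hZ.mem_toFinset.2 hz)

theorem NE_mono {n m : ℕ} (h : n ≤ m) {Z : Set (Pt b F)} {x : Pt b F} (hx : A.NE n Z x) :
    A.NE m Z x := by
  intro z hz hE
  exact hx z hz (E_mono h hE)

theorem E_congr {n N : ℕ} (hN : A.ρ * n ≤ N) {x x' y y' : Pt b F} (h : Agree N x x')
    (h' : Agree N y y') : A.E n x y ↔ A.E n x' y' := by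
  have h1 := E_of_agree hN h
  have h2 := E_of_agree hN h'
  constructor
  · intro h3
    exact E_trans (E_trans (E_symm h1) h3) h2
  · intro h3
    exact E_trans (E_trans h1 h3) (E_symm h2)

/-- the short words which fix `z` also fix the points close to `z` -/
theorem Stb_le_of_agree {M : ℕ} {Z : Set (Pt b F)} {z x : Pt b F} (hz : z ∈ Z)
    (h : Agree (A.ρ * M) z x) : A.Stb M Z ≤ A.Fix (insert x Z) := by
  refine (Subgroup.closure_le _).2 ?_
  rintro g ⟨hg, hg'⟩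
  refine ⟨A.W_le_G hg, ?_⟩
  rintro y (rfl | hy)
  · exact (fix_iff_of_agree (A.W_isPW hg) h).1 (hg' z hz)
  · exact hg' y hy

theorem Stb_eq_of_agree {M : ℕ} {z z' : Pt b F} (h : Agree (A.ρ * M) z z') :
    A.Stb M {z} = A.Stb M {z'} := by
  unfold Stb
  congr 1
  ext g
  simp only [Set.mem_ofPred_eq, Set.mem_singleton_iff, forall_eq]
  exact and_congr_right fun hg => fix_iff_of_agree (A.W_isPW hg) h

theorem orbz_self (z y : Pt b F) : y ∈ A.orbz z y :=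
  ⟨1, (A.Fix {z}).one_mem, rfl⟩

theorem orbz_eq {z y a : Pt b F} (h : a ∈ A.orbz z y) : A.orbz z a = A.orbz z y := by
  obtain ⟨g, hg, rfl⟩ := h
  ext c
  constructor
  · rintro ⟨k, hk, rfl⟩
    exact ⟨k * g, (A.Fix {z}).mul_mem hk hg, rfl⟩
  · rintro ⟨k, hk, rfl⟩
    refine ⟨k * g⁻¹, (A.Fix {z}).mul_mem hk ((A.Fix {z}).inv_mem hg), ?_⟩
    rw [Equiv.Perm.mul_apply, pinv_apply]

theorem orbz_disj {z y y' : Pt b F} (h : y' ∉ A.orbz z y) :
    Disjoint (A.orbz z y) (A.orbz z y') := by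
  rw [Set.disjoint_left]
  intro c hc hc'
  apply h
  rw [← orbz_eq hc, orbz_eq hc']
  exact orbz_self z y'

theorem orbz_sub (z y : Pt b F) : A.orbz z y ⊆ A.orb y := by
  rintro _ ⟨g, hg, rfl⟩
  exact ⟨g, hg.1, rfl⟩

theorem orbz_map {g : Equiv.Perm (Pt b F)} (hg : g ∈ A.G) (z y : Pt b F) :
    A.orbz (g z) (g y) = g '' A.orbz z y := by
  ext c
  constructor
  · rintro ⟨k, hk, rfl⟩
    refine ⟨(g⁻¹ * k * g) y, ⟨g⁻¹ * k * g, ?_, rfl⟩, ?_⟩
    · rw [← A.mem_Fix_map_singleton hg]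
      have h1 : g * (g⁻¹ * k * g) * g⁻¹ = k := by group
      rw [h1]
      exact hk
    · rw [Equiv.Perm.mul_apply, Equiv.Perm.mul_apply, papply_inv]
  · rintro ⟨_, ⟨k, hk, rfl⟩, rfl⟩
    refine ⟨g * k * g⁻¹, (A.mem_Fix_map_singleton hg z k).2 hk, ?_⟩
    rw [Equiv.Perm.mul_apply, Equiv.Perm.mul_apply, pinv_apply]

theorem orbz_rel {z y a : Pt b F} (h : a ∈ A.orbz z y) : A.Rel z a ↔ A.Rel z y := by
  obtain ⟨g, hg, rfl⟩ := h
  exact rel_Fix hg

/-- `CONN` with a bound for the displacement -/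
theorem conn_fin {K : ℕ} (hK : A.CONN K) {x : Pt b F} (hx : x ∈ A.D)
    {g : Equiv.Perm (Pt b F)} (hg : g ∈ A.G) {d : ℕ} (hd : |disp g x| ≤ d) :
    ∃ g' ∈ A.W (K * (d + 1)), g' x = g x := by
  obtain ⟨g', h1, h2⟩ := hK x hx g hg
  refine ⟨g', A.W_mono ?_ h1, h2⟩
  apply Nat.mul_le_mul_left
  have h3 : ((disp g x).natAbs : ℤ) ≤ d := by
    rw [← Int.abs_eq_natAbs]
    exact hd
  omega

theorem exists_CONN [Finite F] (A : Sys b F) : ∃ K : ℕ, 0 < K ∧ A.CONN K := by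
  obtain ⟨R, hR⟩ := A.BC
  exact conn_W (R := R) hR

theorem exists_SYN (A : Sys b F) : A.SYN (A.ρ + 1) := by
  intro x hx n
  obtain ⟨g, hg, h1, h2⟩ := A.syn hx n
  exact ⟨g, hg, h1, by push_cast; linarith⟩

/-- bounded recurrence -/
theorem recur [Finite F] (A : Sys b F) (N : ℕ) : ∃ w : ℕ, ∀ x ∈ A.D, ∀ z ∈ A.D,
    ∃ h ∈ A.W w, Agree N (h x) z := by
  by_contra hcon
  push Not at hcon
  choose u hu v hv hno using hcon
  let U : Ultrafilter ℕ := Filter.hyperfilter ℕ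
  have hUtop : (U : Filter ℕ) ≤ Filter.atTop := by
    rw [← Nat.cofinite_eq_atTop]
    exact Filter.hyperfilter_le_cofinite
  obtain ⟨x, hx⟩ := exists_ulim U u
  obtain ⟨z, hz⟩ := exists_ulim U v
  have hxD : x ∈ A.D := A.mem_D_of_ulim hx (Filter.Eventually.of_forall hu)
  have hzD : z ∈ A.D := A.mem_D_of_ulim hz (Filter.Eventually.of_forall hv)
  obtain ⟨g, hg, hgz⟩ := A.minimal x hxD z hzD N
  obtain ⟨m, hm⟩ := A.exists_W hg
  obtain ⟨i, ⟨h1, h2⟩, h3⟩ := (((ulim_map (A.G_le_PW hg) hx N).and (hz N)).and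
    (hUtop (Filter.eventually_ge_atTop m))).exists
  exact hno i g (A.W_mono h3 hm) (h1.trans (hgz.trans h2.symm))

end Sys

end Pool.Agent.helper98.NIG
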