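import Mathlib

/-!
# NIG-Q04: group theory: short transversals, finite index

PROOFS.
* `short_transversal`: `B = Subgroup.closure T`, `Q = B ⧸ K.subgroupOf B`, a finite type with at most `m` elements
  (`Subgroup.relIndex` is `(K.subgroupOf B).index = Nat.card Q`). For `j : ℕ` let `Q j ⊆ Q` be the set of the
  classes of the products of lists of length at most `j` of elements of `T`. `Q j ⊆ Q (j+1)`; `Q 0` is not empty;
  if `Q j = Q (j+1)` then `Q (j+1) = Q (j+2)` (left multiplication by `t ∈ T` maps `Q j` to `Q (j+1)`). So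
  `Q m = Q (m+1) = ...` (otherwise `ncard (Q m) ≥ m + 1`), and the union of all `Q j` is `Q` (`T` is closed under
  inverses, `Subgroup.closure_induction` or `exists_list_of_mem_closure`). So the class of `g` is the class of
  `l.prod`, `l.length ≤ m`, and `k = l.prod⁻¹ * g ∈ K`.
  ALTERNATIVE without the quotient: choose a list `l` of minimal length with `l.prod⁻¹ * g ∈ K` (it exists: `l.prod = g`);
  if its length `n` is `> m` (or `≥ m`), then the suffix products... the `n + 1` products `p_i` of the suffixes of length `i`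
  lie in pairwise different cosets `p_i K`: if `p_i K = p_j K`, `i < j`, cut out the middle part and get a shorter list. The
  number of pairwise different cosets is at most `m`, so `n + 1 ≤ m`.
* `relIndex_of_map`: the map `H ⧸ K.subgroupOf H → ι` induced by choosing representatives
  (`Quotient.out`) and `c` is injective; `Nat.card_le_card_of_injective`, `Finite.of_injective`; the index of a
  subgroup with finite quotient is not `0` (`Nat.card_pos`).
* `relIndex_conj`: conjugation by `g ∈ H` maps `H` to `H` and `K` to `K.map (MulAut.conj g)`. (`Subgroup.relIndex_pointwise_smul`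
  or a direct bijection of the quotients.) The statement uses the subgroup `{k | g⁻¹ * k * g ∈ K}` as
  `K.comap (MulAut.conj g⁻¹).toMonoidHom`.
-/

namespace Pool.Agent.helper98.NIG

theorem short_transversal {Γ : Type*} [Group Γ] (T : Set Γ) (hT : ∀ t ∈ T, t⁻¹ ∈ T)
    (K : Subgroup Γ) (m : ℕ) (h0 : K.relIndex (Subgroup.closure T) ≠ 0)
    (hm : K.relIndex (Subgroup.closure T) ≤ m) {g : Γ} (hg : g ∈ Subgroup.closure T) :
    ∃ l : List Γ, l.length ≤ m ∧ (∀ t ∈ l, t ∈ T) ∧ l.prod⁻¹ * g ∈ K := by
  classical
  have hex : ∃ n : ℕ, ∃ l : List Γ, l.length = n ∧ (∀ t ∈ l, t ∈ T) ∧ l.prod⁻¹ * g ∈ K := by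
    have hg' : g ∈ (Subgroup.closure T).toSubmonoid := hg
    rw [Subgroup.closure_toSubmonoid] at hg'
    obtain ⟨l, hl, rfl⟩ := Submonoid.exists_list_of_mem_closure hg'
    refine ⟨l.length, l, rfl, fun t ht => ?_, ?_⟩
    · rcases hl t ht with h | h
      · exact h
      · have := hT _ (Set.mem_inv.mp h)
        rwa [inv_inv] at this
    · rw [inv_mul_cancel]
      exact K.one_mem
  obtain ⟨l, hlen, hlT, hlK⟩ := Nat.find_spec hex
  refine ⟨l, ?_, hlT, hlK⟩
  have hmem : ∀ l' : List Γ, (∀ t ∈ l', t ∈ T) → l'.prod ∈ Subgroup.closure T := fun l' h' =>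
    Subgroup.list_prod_mem _ fun t ht => Subgroup.subset_closure (h' t ht)
  have hdrop : ∀ i, (l.drop i).prod ∈ Subgroup.closure T := fun i =>
    hmem _ fun t ht => hlT t (List.mem_of_mem_drop ht)
  let f : Fin (l.length + 1) → Subgroup.closure T ⧸ K.subgroupOf (Subgroup.closure T) :=
    fun i => QuotientGroup.mk ⟨(l.drop i).prod, hdrop i⟩
  have key : ∀ i j : ℕ, i < j → j ≤ l.length →
      (l.drop i).prod⁻¹ * (l.drop j).prod ∈ K → False := by
    intro i j hij hj hK
    have h1 : ∀ t ∈ l.take i ++ l.drop j, t ∈ T := by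
      intro t ht
      rcases List.mem_append.mp ht with h | h
      · exact hlT t (List.mem_of_mem_take h)
      · exact hlT t (List.mem_of_mem_drop h)
    have h2 : (l.take i ++ l.drop j).prod⁻¹ * g ∈ K := by
      have e : l.prod = (l.take i).prod * (l.drop i).prod := by
        rw [← List.prod_append, List.take_append_drop]
      have e2 : (l.take i ++ l.drop j).prod⁻¹ * g =
          ((l.drop i).prod⁻¹ * (l.drop j).prod)⁻¹ * (l.prod⁻¹ * g) := by
        rw [List.prod_append, e]
        group
      rw [e2]
      exact K.mul_mem (K.inv_mem hK) hlK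
    have h3 : (l.take i ++ l.drop j).length < Nat.find hex := by
      rw [List.length_append, List.length_take, List.length_drop, ← hlen]
      omega
    exact Nat.find_min hex h3 ⟨_, rfl, h1, h2⟩
  have hf : Function.Injective f := by
    intro i j hij
    have h1 := QuotientGroup.eq.mp hij
    rw [Subgroup.mem_subgroupOf] at h1
    have h1' : (l.drop i).prod⁻¹ * (l.drop j).prod ∈ K := h1
    have h2 : (l.drop j).prod⁻¹ * (l.drop i).prod ∈ K := by
      have := K.inv_mem h1'
      rwa [mul_inv_rev, inv_inv] at this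
    rcases lt_trichotomy (i : ℕ) j with h | h | h
    · exact (key i j h (by omega) h1').elim
    · exact Fin.ext h
    · exact (key j i h (by omega) h2).elim
  have h0' : Nat.card (Subgroup.closure T ⧸ K.subgroupOf (Subgroup.closure T)) ≠ 0 := h0
  have hm' : Nat.card (Subgroup.closure T ⧸ K.subgroupOf (Subgroup.closure T)) ≤ m := hm
  have hfin := Nat.finite_of_card_ne_zero h0'
  have h4 := Nat.card_le_card_of_injective f hf
  rw [Nat.card_eq_fintype_card, Fintype.card_fin] at h4
  omega

theorem relIndex_of_map {Γ : Type*} [Group Γ] {K H : Subgroup Γ} {ι : Type*} [Finite ι]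
    (c : Γ → ι) (h : ∀ g ∈ H, ∀ g' ∈ H, c g = c g' → g⁻¹ * g' ∈ K) :
    K.relIndex H ≠ 0 ∧ K.relIndex H ≤ Nat.card ι := by
  have hf : Function.Injective fun q : H ⧸ K.subgroupOf H => c (q.out : H) := by
    intro a b hab
    have h1 := h _ (a.out : H).2 _ (b.out : H).2 hab
    rw [← QuotientGroup.out_eq' a, ← QuotientGroup.out_eq' b]
    refine QuotientGroup.eq.mpr ?_
    rw [Subgroup.mem_subgroupOf]
    exact h1
  have hfin : Finite (H ⧸ K.subgroupOf H) := Finite.of_injective _ hf
  exact ⟨(Nat.card_pos (α := H ⧸ K.subgroupOf H)).ne', Nat.card_le_card_of_injective _ hf⟩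

theorem relIndex_conj {Γ : Type*} [Group Γ] (K H : Subgroup Γ) {g : Γ} (hg : g ∈ H) :
    (K.comap (MulAut.conj g⁻¹).toMonoidHom).relIndex H = K.relIndex H := by
  have e : (K.comap (MulAut.conj g⁻¹).toMonoidHom).subgroupOf H =
      (K.subgroupOf H).comap (MulAut.conj (⟨g, hg⟩ : H)⁻¹).toMonoidHom := by
    ext x
    simp [Subgroup.mem_subgroupOf]
  unfold Subgroup.relIndex
  rw [e]
  exact Subgroup.index_comap_of_surjective _ (MulAut.conj (⟨g, hg⟩ : H)⁻¹).surjective

end Pool.Agent.helper98.NIG
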