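import Pool.Agent.helper35.NIG.Q01

/-!
# NIG-Q05: unrelated pairs can be separated by a fixed word length (loop filling)

PROOF. Let `K` be the constant of `exists_CONN`, `w = ρ + 1` (`exists_SYN`), and
`N0 = ρ * (K * (1 + w + 1)) + 2 * K * (w + 1) + 1` (any larger number is fine; below only `E_mono` is used).
LEMMA `det`: let `z, y ∈ D` and `E N0 (g z) (g y)` for all `g ∈ G`. Then for all `g ∈ G` with `g z = z` we have `g y = y`.
Proof: `exists_run` (L16) with `Q = 1`, `x = z`: `h : ℤ → G`, `h 0 = 1`, `m ≤ disp (h m) z < m + w`,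
`h (m + 1) = u m * h m` with `u m ∈ W (K (1 + w + 1))`.
(1) For `m ≤ m'`, `m' - m ≤ ρ`: `h m' = u * h m` with `u ∈ W (ρ K (w + 2))` (induction, `W_mul`, `W_mono`); the same for
    `m' ≤ m` with the inverse (`W_inv`).
(2) For every `a ∈ G` let `n = disp a z`; `h n z` and `a z` are in the orbit, the displacement of `a (h n)⁻¹` at `h n z` is
    at most `w` in absolute value, so by `conn_fin` there is `v ∈ W (K (w + 1))` with `v (h n z) = a z`.
(3) CLAIM: for every list `l` of generators, every `v ∈ W (K (w + 1))` and `n = disp l.prod z` with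
    `v (h n z) = l.prod z` we have `v (h n y) = l.prod y`. Induction on `l`. For `l = []`: `n = 0`, `h 0 = 1`, `v z = z`, and
    `E N0 z y` gives `v y = y` (as `K (w + 1) ≤ N0`). For `s :: l`: let `n = disp l.prod z`, `n' = disp (s * l.prod) z`,
    `|n' - n| ≤ ρ`; let `v` be given by (2) for `l.prod`, so by induction `v (h n y) = l.prod y`. Let `v'` satisfy
    `v' (h n' z) = s (l.prod z)`, and `h n' = u * h n` by (1). Then `(v' * u)⁻¹ * s * v` fixes `h n z` and is a word of length at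
    most `N0`; by `E N0 (h n z) (h n y)` it fixes `h n y`: `v' (h n' y) = s (v (h n y)) = s (l.prod y)`.
(4) If `g = l.prod` and `g z = z` take `v = 1`, `n = disp g z = 0`: `g y = 1 (h 0 y) = y`.
The theorem: if `E N0 (g z) (g y)` for all `g ∈ G` then `Rel z y` by `det` for `(z, y)` and for `(y, z)` (`E_symm`).
-/

namespace Pool.Agent.helper98.NIG

variable {b : Base} {F : Type}

namespace Sys

/-- steps of length `k` in a run -/
theorem q05_step {A : Sys b F} {K Q w1 : ℕ} {x : Pt b F} {h : ℤ → Equiv.Perm (Pt b F)}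
    (hr : A.Run K Q w1 x h) (m : ℤ) (k : ℕ) :
    ∃ u ∈ A.W (k * (K * (Q + w1 + 1))), h (m + k) = u * h m := by
  induction k with
  | zero => exact ⟨1, A.one_mem_W _, by simp⟩
  | succ k ih =>
    obtain ⟨u, hu, hu'⟩ := ih
    obtain ⟨t, ht, ht'⟩ := hr.step (m + k)
    refine ⟨t * u, A.W_mono ?_ (A.W_mul ht hu), ?_⟩
    · rw [Nat.succ_mul, Nat.add_comm]
    · rw [mul_assoc, ← hu', ← ht']
      congr 1
      push_cast
      ring

/-- steps of length at most `r` in a run, in both directions -/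
theorem q05_near {A : Sys b F} {K Q w1 : ℕ} {x : Pt b F} {h : ℤ → Equiv.Perm (Pt b F)}
    (hr : A.Run K Q w1 x h) {m m' : ℤ} {r : ℕ} (hm : |m' - m| ≤ r) :
    ∃ u ∈ A.W (r * (K * (Q + w1 + 1))), h m' = u * h m := by
  rw [abs_le] at hm
  rcases le_total m m' with hle | hle
  · obtain ⟨u, hu, hu'⟩ := q05_step hr m (m' - m).toNat
    refine ⟨u, A.W_mono (Nat.mul_le_mul_right _ (by omega)) hu, ?_⟩
    rw [← hu']
    congr 1
    omega
  · obtain ⟨u, hu, hu'⟩ := q05_step hr m' (m - m').toNat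
    refine ⟨u⁻¹, A.W_mono (Nat.mul_le_mul_right _ (by omega)) (A.W_inv hu), ?_⟩
    have e : m' + ((m - m').toNat : ℤ) = m := by omega
    rw [e] at hu'
    rw [hu', inv_mul_cancel_left]

theorem det [Finite F] (A : Sys b F) : ∃ N0 : ℕ, ∀ z ∈ A.D, ∀ y ∈ A.D,
    (∀ g ∈ A.G, A.E N0 (g z) (g y)) → ∀ g ∈ A.G, g z = z → g y = y := by
  obtain ⟨K, -, hK⟩ := exists_CONN A
  have hw := exists_SYN A
  generalize A.ρ + 1 = w at hw
  refine ⟨(K * (w + 1) + A.ρ * (K * (1 + w + 1))) + (1 + K * (w + 1)), fun z hz y hy hE => ?_⟩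
  obtain ⟨h, hr⟩ := exists_run hw hK 1 hz
  -- (2)
  have h2 : ∀ a ∈ A.G, ∃ v ∈ A.W (K * (w + 1)), v (h (disp a z) z) = a z := by
    intro a ha
    have hn := hr.mem (disp a z)
    have hg : a * (h (disp a z))⁻¹ ∈ A.G := mul_mem ha (A.G.inv_mem hn)
    have e2 : disp (a * (h (disp a z))⁻¹ * h (disp a z)) z =
        disp (a * (h (disp a z))⁻¹) (h (disp a z) z) + disp (h (disp a z)) z :=
      disp_mul (A.G_le_PW hg) (A.G_le_PW hn) z
    rw [inv_mul_cancel_right] at e2
    have h3 := hr.low (disp a z)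
    have h4 := hr.up (disp a z)
    push_cast at h3 h4
    have hd : |disp (a * (h (disp a z))⁻¹) (h (disp a z) z)| ≤ w := by
      rw [abs_le]
      constructor <;> linarith
    obtain ⟨v, hv, hv'⟩ := conn_fin hK (A.map_mem hn hz) hg hd
    refine ⟨v, hv, ?_⟩
    rw [hv', Equiv.Perm.mul_apply]
    congr 1
    exact (h (disp a z)).symm_apply_apply z
  -- (3)
  have h3 : ∀ k : ℕ, ∀ a ∈ A.W k, ∀ v ∈ A.W (K * (w + 1)),
      v (h (disp a z) z) = a z → v (h (disp a z) y) = a y := by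
    intro k
    induction k with
    | zero =>
      intro a ha v hv hva
      have h1 : a = 1 := ha
      subst h1
      rw [disp_one, hr.zero] at hva ⊢
      exact (E_mono (by omega) (hE 1 A.G.one_mem) v hv).1 hva
    | succ k ih =>
      rintro a ⟨s, hs, a0, ha0, rfl⟩ v' hv' hva
      have hsG := A.mem_G_of_mem_S hs
      have ha0G := A.W_le_G ha0
      obtain ⟨v, hv, hv0⟩ := h2 a0 ha0G
      have hvy := ih a0 ha0 v hv hv0
      have hd : disp (s * a0) z = disp s (a0 z) + disp a0 z :=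
        disp_mul (A.G_le_PW hsG) (A.G_le_PW ha0G) z
      have hd2 := A.abs_disp_W (A.mem_W_one hs) (a0 z)
      have hd3 : |disp (s * a0) z - disp a0 z| ≤ A.ρ := by
        rw [hd, add_sub_cancel_right]
        simpa using hd2
      obtain ⟨u, hu, hu'⟩ := q05_near hr hd3
      rw [hu', Equiv.Perm.mul_apply] at hva ⊢
      rw [Equiv.Perm.mul_apply] at hva ⊢
      rw [← hv0] at hva
      rw [← hvy]
      exact (E_eq (hE _ (hr.mem (disp a0 z))) (A.W_mul hv' hu)
        (A.W_mul (A.mem_W_one hs) hv)).1 hva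
  intro g hg hgz
  obtain ⟨k, hk⟩ := A.exists_W hg
  have hd : disp g z = 0 := by
    rw [disp, hgz]
    exact disp_one z
  have h4 := h3 k g hk 1 (A.one_mem_W _)
  rw [hd, hr.zero] at h4
  exact (h4 hgz.symm).symm

theorem exists_sep [Finite F] (A : Sys b F) : ∃ N0 : ℕ, ∀ z ∈ A.D, ∀ y ∈ A.D,
    ¬ A.Rel z y → ∃ g ∈ A.G, ¬ A.E N0 (g z) (g y) := by
  obtain ⟨N0, hN0⟩ := A.det
  refine ⟨N0, fun z hz y hy hzy => ?_⟩
  by_contra hcon
  push Not at hcon
  exact hzy fun g hg => ⟨hN0 z hz y hy hcon g hg, hN0 y hy z hz (fun g hg => E_symm (hcon g hg)) g hg⟩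

end Sys

end Pool.Agent.helper98.NIG
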