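import Pool.Agent.helper35.NIG.QDefs

/-!
# NIG-Q06: sets of small upper Banach density on a line

`cnt x S u v`: the number of the points of `S` on the line of `x` at positions in `[u, v)`.
PROOFS.
* `cnt_finite`: subset of `Set.Ico u v ×ˢ Set.univ`.
* `sml_mono`: `Set.ncard_le_ncard`. `sml_union`: `Set.ncard_union_le`, the constants add.
* `sml_base`: `x' = (sh k x.1, _)`: the count of `S` on `[u, v)` with respect to `x'` is the count on
  `[u + k, v + k)` with respect to `x` (bijection `q ↦ (q.1 + k, q.2)`, `sh_sh`).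
* `sml_map`: `g ∈ PW b F`, so `g⁻¹` has a radius `r`: if `(sh q.1 x.1, q.2) ∈ g '' S` then `g⁻¹` of this point is in `S`,
  on the line of `x` (`sameLine_of_mem_PW`), at a position in `[u - r, v + r)`; the map `q ↦` coordinates of `g⁻¹ (..)` is
  injective. So the count of `g '' S` on `[u, v)` is at most the count of `S` on `[u - r, v + r)`:
  `≤ ε (v - u + 2 r) + C` (note `ε` may be negative only if everything is; use the constant `C + 2 r |ε|`).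
* `sml_syn`: `S` has a point in each of the disjoint windows `[i (L+1), (i+1) (L+1))`, `0 ≤ i < n`: the count on
  `[0, n (L+1))` is at least `n`. So `n ≤ ε n (L+1) + C` for all `n`, hence `1 ≤ ε (L + 1)`.
* `sml_of_sparse`: `[u, v)` is covered by `⌈(v - u) / W⌉₊` windows of length `W`, each contains at most two points:
  count `≤ 2 ((v - u) / W + 1)`. (Induction on the number of windows: for all `n : ℕ`, count on `[u, u + n W)` is
  at most `2 n`.)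
* `sml_of_finite`: if all points of `S` on the line of `x` are at positions in a bounded set (here: `S` finite)
  then the count is at most `S.ncard` (the map `q ↦ (sh q.1 x.1, q.2)` is injective by `sh_inj`).
* `sml_compl_pos`: if `S` is not small and `S \ T` is small then `S ∩ T` is not empty (`S ⊆ (S \ T) ∪ (S ∩ T)`).
* `sml_iInter`: by induction on the finset `I`: if `¬ Sml x S ε`... is stated as: if `Sml x (S \ T i) ε'` for all `ε' > 0`
  and all `i ∈ I` then `Sml x (S \ ⋂ i ∈ I, T i) ε'` for all `ε' > 0`.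
-/

namespace Pool.Agent.helper98.NIG

variable {b : Base} {F : Type}

theorem sml_cnt_finite [Finite F] (x : Pt b F) (S : Set (Pt b F)) (u v : ℤ) :
    {q : ℤ × F | u ≤ q.1 ∧ q.1 < v ∧ ((sh q.1 x.1, q.2) : Pt b F) ∈ S}.Finite := by
  apply ((Set.finite_Ico u v).prod (Set.finite_univ (α := F))).subset
  rintro ⟨n, φ⟩ ⟨h1, h2, -⟩
  exact ⟨⟨h1, h2⟩, Set.mem_univ _⟩

theorem sml_mono {x : Pt b F} {S S' : Set (Pt b F)} {ε ε' : ℝ} [Finite F] (hS : S ⊆ S')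
    (hε : ε' ≤ ε) (h : Sml x S' ε') : Sml x S ε := by
  obtain ⟨C, hC⟩ := h
  refine ⟨C, fun u v huv => ?_⟩
  have h1 : (({q : ℤ × F | u ≤ q.1 ∧ q.1 < v ∧ ((sh q.1 x.1, q.2) : Pt b F) ∈ S}.ncard : ℕ) : ℝ)
      ≤ (({q : ℤ × F | u ≤ q.1 ∧ q.1 < v ∧ ((sh q.1 x.1, q.2) : Pt b F) ∈ S'}.ncard : ℕ) : ℝ) := by
    have h2 : {q : ℤ × F | u ≤ q.1 ∧ q.1 < v ∧ ((sh q.1 x.1, q.2) : Pt b F) ∈ S}.ncard ≤
        {q : ℤ × F | u ≤ q.1 ∧ q.1 < v ∧ ((sh q.1 x.1, q.2) : Pt b F) ∈ S'}.ncard :=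
      Set.ncard_le_ncard (fun q hq => ⟨hq.1, hq.2.1, hS hq.2.2⟩) (sml_cnt_finite x S' u v)
    exact_mod_cast h2
  have h3 : (0 : ℝ) ≤ ((v - u : ℤ) : ℝ) := by exact_mod_cast sub_nonneg.2 huv
  have h4 := mul_le_mul_of_nonneg_right hε h3
  linarith [hC u v huv]

theorem sml_union [Finite F] {x : Pt b F} {S S' : Set (Pt b F)} {ε ε' : ℝ}
    (h : Sml x S ε) (h' : Sml x S' ε') : Sml x (S ∪ S') (ε + ε') := by
  obtain ⟨C, hC⟩ := h
  obtain ⟨C', hC'⟩ := h'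
  refine ⟨C + C', fun u v huv => ?_⟩
  have h1 : {q : ℤ × F | u ≤ q.1 ∧ q.1 < v ∧ ((sh q.1 x.1, q.2) : Pt b F) ∈ S ∪ S'} =
      {q : ℤ × F | u ≤ q.1 ∧ q.1 < v ∧ ((sh q.1 x.1, q.2) : Pt b F) ∈ S} ∪
      {q : ℤ × F | u ≤ q.1 ∧ q.1 < v ∧ ((sh q.1 x.1, q.2) : Pt b F) ∈ S'} := by
    ext q
    simp only [Set.mem_ofPred_eq, Set.mem_union]
    tauto
  rw [h1]
  have h2 := Set.ncard_union_le
    {q : ℤ × F | u ≤ q.1 ∧ q.1 < v ∧ ((sh q.1 x.1, q.2) : Pt b F) ∈ S}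
    {q : ℤ × F | u ≤ q.1 ∧ q.1 < v ∧ ((sh q.1 x.1, q.2) : Pt b F) ∈ S'}
  have h3 : (({q : ℤ × F | u ≤ q.1 ∧ q.1 < v ∧ ((sh q.1 x.1, q.2) : Pt b F) ∈ S} ∪
      {q : ℤ × F | u ≤ q.1 ∧ q.1 < v ∧ ((sh q.1 x.1, q.2) : Pt b F) ∈ S'}).ncard : ℝ) ≤
      ({q : ℤ × F | u ≤ q.1 ∧ q.1 < v ∧ ((sh q.1 x.1, q.2) : Pt b F) ∈ S}.ncard : ℝ) +
      ({q : ℤ × F | u ≤ q.1 ∧ q.1 < v ∧ ((sh q.1 x.1, q.2) : Pt b F) ∈ S'}.ncard : ℝ) := by
    exact_mod_cast h2
  have h4 := hC u v huv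
  have h5 := hC' u v huv
  have h6 : (ε + ε') * ((v - u : ℤ) : ℝ) = ε * ((v - u : ℤ) : ℝ) + ε' * ((v - u : ℤ) : ℝ) := by ring
  linarith

private theorem sml_base_aux {x x' : Pt b F} (hx : SameLine x x') {S : Set (Pt b F)} {ε : ℝ}
    (h : Sml x S ε) : Sml x' S ε := by
  obtain ⟨k, hk⟩ := hx
  obtain ⟨C, hC⟩ := h
  refine ⟨C, fun u v huv => ?_⟩
  have h1 := hC (u + k) (v + k) (by linarith)
  have hinj : Function.Injective (fun q : ℤ × F => (q.1 + k, q.2)) := by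
    rintro ⟨n, φ⟩ ⟨m, ψ⟩ h
    simp only [Prod.mk.injEq, add_left_inj] at h
    exact Prod.ext h.1 h.2
  have h2 : (fun q : ℤ × F => (q.1 + k, q.2)) ''
      {q : ℤ × F | u ≤ q.1 ∧ q.1 < v ∧ ((sh q.1 x'.1, q.2) : Pt b F) ∈ S} =
      {q : ℤ × F | u + k ≤ q.1 ∧ q.1 < v + k ∧ ((sh q.1 x.1, q.2) : Pt b F) ∈ S} := by
    ext ⟨n, φ⟩
    simp only [Set.mem_image, Set.mem_ofPred_eq, Prod.exists, Prod.mk.injEq]
    constructor
    · rintro ⟨a, c, ⟨ha1, ha2, ha3⟩, rfl, rfl⟩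
      refine ⟨by linarith, by linarith, ?_⟩
      rw [hk, sh_sh] at ha3
      exact ha3
    · rintro ⟨h1, h2, h3⟩
      refine ⟨n - k, φ, ⟨by linarith, by linarith, ?_⟩, by ring, rfl⟩
      rw [hk, sh_sh, sub_add_cancel]
      exact h3
  rw [← h2, Set.ncard_image_of_injective _ hinj] at h1
  have h3 : v + k - (u + k) = v - u := by ring
  rw [h3] at h1
  exact h1

theorem sml_base {x x' : Pt b F} (hx : SameLine x x') {S : Set (Pt b F)} {ε : ℝ} :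
    Sml x S ε ↔ Sml x' S ε :=
  ⟨sml_base_aux hx, sml_base_aux (sameLine_symm hx)⟩

theorem sml_map [Finite F] {g : Equiv.Perm (Pt b F)} (hg : g ∈ PW b F) {x : Pt b F}
    {S : Set (Pt b F)} {ε : ℝ} (h : Sml x S ε) : Sml x (g '' S) ε := by
  obtain ⟨ρ, -, hρ⟩ := hg
  obtain ⟨C, hC⟩ := h
  have hsh : ∀ n : ℤ, ∀ φ : F, ∃ k : ℤ, |k| ≤ ρ ∧
      (g.symm (sh n x.1, φ)).1 = sh (k + n) x.1 := by
    intro n φ
    obtain ⟨k, hk, H⟩ := hρ (sh n x.1, φ)
    refine ⟨k, hk, ?_⟩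
    have h1 := (H (sh n x.1, φ) (Agree.refl _ _)).1
    rw [sh_sh] at h1
    exact h1
  choose K hK1 hK2 using hsh
  refine ⟨C + 2 * ρ * ε, fun u v huv => ?_⟩
  have h1 := hC (u - ρ) (v + ρ) (by linarith)
  have h2 : {q : ℤ × F | u ≤ q.1 ∧ q.1 < v ∧ ((sh q.1 x.1, q.2) : Pt b F) ∈ g '' S}.ncard ≤
      {q : ℤ × F | u - ρ ≤ q.1 ∧ q.1 < v + ρ ∧ ((sh q.1 x.1, q.2) : Pt b F) ∈ S}.ncard := by
    apply Set.ncard_le_ncard_of_injOn
      (fun q : ℤ × F => (K q.1 q.2 + q.1, (g.symm (sh q.1 x.1, q.2)).2)) _ _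
      (sml_cnt_finite x S (u - ρ) (v + ρ))
    · rintro ⟨n, φ⟩ ⟨ha1, ha2, ha3⟩
      have hb := abs_le.1 (hK1 n φ)
      simp only at ha1 ha2
      refine ⟨?_, ?_, ?_⟩
      · simp only
        linarith
      · simp only
        linarith
      · simp only
        rw [← hK2 n φ]
        obtain ⟨a, ha, ha'⟩ := ha3
        simp only at ha'
        rw [← ha', Equiv.symm_apply_apply]
        exact ha
    · rintro ⟨n, φ⟩ - ⟨m, ψ⟩ - hq
      simp only [Prod.mk.injEq] at hq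
      have h3 : g.symm (sh n x.1, φ) = g.symm (sh m x.1, ψ) := by
        apply Prod.ext
        · rw [hK2, hK2, hq.1]
        · exact hq.2
      have h4 := g.symm.injective h3
      simp only [Prod.mk.injEq] at h4
      exact Prod.ext (sh_inj h4.1) h4.2
  have h3 : ({q : ℤ × F | u ≤ q.1 ∧ q.1 < v ∧ ((sh q.1 x.1, q.2) : Pt b F) ∈ g '' S}.ncard : ℝ) ≤
      ({q : ℤ × F | u - ρ ≤ q.1 ∧ q.1 < v + ρ ∧ ((sh q.1 x.1, q.2) : Pt b F) ∈ S}.ncard : ℝ) := by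
    exact_mod_cast h2
  push_cast at h1 ⊢
  linarith

private theorem Q06b_finite [Finite F] (x : Pt b F) (S : Set (Pt b F)) (u v : ℤ) :
    {q : ℤ × F | u ≤ q.1 ∧ q.1 < v ∧ ((sh q.1 x.1, q.2) : Pt b F) ∈ S}.Finite :=
  ((Set.finite_Ico u v).prod Set.finite_univ).subset
    fun _ hq => ⟨⟨hq.1, hq.2.1⟩, Set.mem_univ _⟩

/-- a set with bounded gaps is not small -/
theorem sml_syn [Finite F] {x : Pt b F} {S : Set (Pt b F)} {ε : ℝ} {L : ℕ}
    (hS : ∀ n : ℤ, ∃ a ∈ S, SameLine x a ∧ n ≤ pos x a ∧ pos x a ≤ n + L) (h : Sml x S ε) :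
    1 ≤ ε * (L + 1) := by
  obtain ⟨C, hC⟩ := h
  choose a ha1 ha2 ha3 ha4 using hS
  have key : ∀ n : ℕ, (n : ℝ) ≤ ε * ((n * (L + 1) : ℕ) : ℝ) + C := by
    intro n
    have h1 := hC 0 ((n * (L + 1) : ℕ) : ℤ) (by positivity)
    refine le_trans ?_ (h1.trans (le_of_eq (by push_cast; ring)))
    have h2 : n ≤ {q : ℤ × F | 0 ≤ q.1 ∧ q.1 < ((n * (L + 1) : ℕ) : ℤ) ∧
        ((sh q.1 x.1, q.2) : Pt b F) ∈ S}.ncard := by
      set f : ℕ → ℤ × F := fun i => (pos x (a ((i * (L + 1) : ℕ) : ℤ)),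
        (a ((i * (L + 1) : ℕ) : ℤ)).2) with hf
      have hinj : Function.Injective f := by
        intro i j hij
        have h3 := congrArg Prod.fst hij
        simp only [hf] at h3
        have h4 := ha3 ((i * (L + 1) : ℕ) : ℤ)
        have h5 := ha4 ((i * (L + 1) : ℕ) : ℤ)
        have h6 := ha3 ((j * (L + 1) : ℕ) : ℤ)
        have h7 := ha4 ((j * (L + 1) : ℕ) : ℤ)
        rw [h3] at h4 h5
        push_cast at h4 h5 h6 h7
        rcases lt_trichotomy i j with hlt | heq | hgt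
        · exfalso
          have h8 : ((i : ℤ) + 1) * (L + 1) ≤ j * (L + 1) :=
            mul_le_mul_of_nonneg_right (by exact_mod_cast hlt) (by positivity)
          nlinarith
        · exact heq
        · exfalso
          have h8 : ((j : ℤ) + 1) * (L + 1) ≤ i * (L + 1) :=
            mul_le_mul_of_nonneg_right (by exact_mod_cast hgt) (by positivity)
          nlinarith
      have h3 : (f '' (Finset.range n : Set ℕ)).ncard = n := by
        rw [Set.ncard_image_of_injective _ hinj, Set.ncard_coe_finset, Finset.card_range]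
      rw [← h3]
      refine Set.ncard_le_ncard ?_ (Q06b_finite x S 0 _)
      rintro _ ⟨i, hi, rfl⟩
      rw [Finset.mem_coe, Finset.mem_range] at hi
      rw [h3]
      have h4 := ha3 ((i * (L + 1) : ℕ) : ℤ)
      have h5 := ha4 ((i * (L + 1) : ℕ) : ℤ)
      have h8 : ((i : ℤ) + 1) * (L + 1) ≤ n * (L + 1) :=
        mul_le_mul_of_nonneg_right (by exact_mod_cast hi) (by positivity)
      refine ⟨le_trans (by positivity) h4, ?_, ?_⟩
      · simp only [hf]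
        push_cast at h5 ⊢
        linarith
      · simp only [hf]
        rw [← eq_of_pos (ha2 ((i * (L + 1) : ℕ) : ℤ))]
        exact ha1 _
    exact_mod_cast h2
  by_contra hlt
  push Not at hlt
  obtain ⟨n, hn⟩ := exists_nat_gt (C / (1 - ε * (L + 1)))
  have h1 := key n
  have h2 : 0 < 1 - ε * (L + 1) := by linarith
  rw [div_lt_iff₀ h2] at hn
  push_cast at h1
  nlinarith

private theorem Q06b_two [Finite F] {x : Pt b F} {S : Set (Pt b F)} {W : ℕ}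
    (hS : ∀ a ∈ S, ∀ a' ∈ S, ∀ a'' ∈ S, SameLine x a → SameLine a a' → SameLine a a'' →
      |pos a a'| < W → |pos a a''| < W → a = a' ∨ a = a'' ∨ a' = a'') (u : ℤ) :
    {q : ℤ × F | u ≤ q.1 ∧ q.1 < u + W ∧ ((sh q.1 x.1, q.2) : Pt b F) ∈ S}.ncard ≤ 2 := by
  by_contra hlt
  push Not at hlt
  rw [Set.two_lt_ncard_iff (Q06b_finite x S u _)] at hlt
  obtain ⟨p, q, r, hp, hq, hr, hpq, hpr, hqr⟩ := hlt
  have hs : ∀ s t : ℤ × F, (sh t.1 x.1 : b.Hull) = sh (t.1 - s.1) (sh s.1 x.1) := by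
    intro s t
    rw [sh_sh]
    congr 1
    ring
  have hpos : ∀ s t : ℤ × F, pos ((sh s.1 x.1, s.2) : Pt b F) (sh t.1 x.1, t.2) = t.1 - s.1 :=
    fun s t => pos_eq (hs s t)
  have heq : ∀ s t : ℤ × F, ((sh s.1 x.1, s.2) : Pt b F) = (sh t.1 x.1, t.2) → s = t := by
    intro s t e
    have e1 := congrArg Prod.fst e
    have e2 := congrArg Prod.snd e
    exact Prod.ext (sh_inj e1) e2
  have habs : ∀ s t : ℤ × F, u ≤ s.1 → s.1 < u + W → u ≤ t.1 → t.1 < u + W →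
      |t.1 - s.1| < W := by
    intro s t h1 h2 h3 h4
    rw [abs_lt]
    constructor <;> linarith
  rcases hS _ hp.2.2 _ hq.2.2 _ hr.2.2 (sameLine_sh x p.1 p.2) ⟨_, hs p q⟩ ⟨_, hs p r⟩
    (by rw [hpos]; exact habs p q hp.1 hp.2.1 hq.1 hq.2.1)
    (by rw [hpos]; exact habs p r hp.1 hp.2.1 hr.1 hr.2.1) with h | h | h
  · exact hpq (heq _ _ h)
  · exact hpr (heq _ _ h)
  · exact hqr (heq _ _ h)

private theorem Q06b_count [Finite F] {x : Pt b F} {S : Set (Pt b F)} {W : ℕ}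
    (hS : ∀ a ∈ S, ∀ a' ∈ S, ∀ a'' ∈ S, SameLine x a → SameLine a a' → SameLine a a'' →
      |pos a a'| < W → |pos a a''| < W → a = a' ∨ a = a'' ∨ a' = a'') (u : ℤ) (n : ℕ) :
    {q : ℤ × F | u ≤ q.1 ∧ q.1 < u + n * W ∧ ((sh q.1 x.1, q.2) : Pt b F) ∈ S}.ncard ≤
      2 * n := by
  induction n with
  | zero =>
    have h0 : {q : ℤ × F | u ≤ q.1 ∧ q.1 < u + ((0 : ℕ) : ℤ) * W ∧
        ((sh q.1 x.1, q.2) : Pt b F) ∈ S} = ∅ := by
      ext q
      simp only [Set.mem_ofPred_eq, Set.mem_empty_iff_false, iff_false]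
      rintro ⟨h1, h2, -⟩
      push_cast at h2
      linarith
    rw [h0, Set.ncard_empty]
  | succ n ih =>
    have hsub : {q : ℤ × F | u ≤ q.1 ∧ q.1 < u + ((n + 1 : ℕ) : ℤ) * W ∧
        ((sh q.1 x.1, q.2) : Pt b F) ∈ S} ⊆
        {q : ℤ × F | u ≤ q.1 ∧ q.1 < u + n * W ∧ ((sh q.1 x.1, q.2) : Pt b F) ∈ S} ∪
        {q : ℤ × F | u + n * W ≤ q.1 ∧ q.1 < u + n * W + W ∧
          ((sh q.1 x.1, q.2) : Pt b F) ∈ S} := by
      rintro q ⟨h1, h2, h3⟩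
      push_cast at h2
      rcases lt_or_ge q.1 (u + n * W) with h | h
      · exact Or.inl ⟨h1, h, h3⟩
      · exact Or.inr ⟨h, by linarith, h3⟩
    have h1 := Set.ncard_le_ncard hsub ((Q06b_finite x S _ _).union (Q06b_finite x S _ _))
    have h2 := Set.ncard_union_le
      {q : ℤ × F | u ≤ q.1 ∧ q.1 < u + n * W ∧ ((sh q.1 x.1, q.2) : Pt b F) ∈ S}
      {q : ℤ × F | u + n * W ≤ q.1 ∧ q.1 < u + n * W + W ∧ ((sh q.1 x.1, q.2) : Pt b F) ∈ S}
    have h3 := Q06b_two hS (u + n * W)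
    omega

/-- a set with at most two points in every window of length `W` is small -/
theorem sml_of_sparse [Finite F] {x : Pt b F} {S : Set (Pt b F)} {W : ℕ} (hW : 0 < W)
    (hS : ∀ a ∈ S, ∀ a' ∈ S, ∀ a'' ∈ S, SameLine x a → SameLine a a' → SameLine a a'' →
      |pos a a'| < W → |pos a a''| < W → a = a' ∨ a = a'' ∨ a' = a'') : Sml x S (2 / W) := by
  refine ⟨2, fun u v huv => ?_⟩
  have hW0 : (0 : ℤ) < W := by exact_mod_cast hW
  have hd0 : 0 ≤ (v - u) / (W : ℤ) := Int.ediv_nonneg (by linarith) hW0.le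
  obtain ⟨m, hm⟩ := Int.eq_ofNat_of_zero_le hd0
  have hlt : v - u < ((m + 1 : ℕ) : ℤ) * W := by
    have h1 := Int.lt_ediv_add_one_mul_self (v - u) hW0
    rw [hm] at h1
    push_cast
    exact h1
  have hle : (m : ℤ) * W ≤ v - u := by
    have h1 := Int.ediv_mul_le (v - u) hW0.ne'
    rw [hm] at h1
    exact h1
  have h1 : {q : ℤ × F | u ≤ q.1 ∧ q.1 < v ∧ ((sh q.1 x.1, q.2) : Pt b F) ∈ S}.ncard ≤
      2 * (m + 1) := by
    refine le_trans (Set.ncard_le_ncard ?_ (Q06b_finite x S u (u + ((m + 1 : ℕ) : ℤ) * W)))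
      (Q06b_count hS u (m + 1))
    rintro q ⟨h1, h2, h3⟩
    exact ⟨h1, by linarith, h3⟩
  have hWr : (0 : ℝ) < W := by exact_mod_cast hW
  have h2 : ((m : ℝ)) * W ≤ ((v - u : ℤ) : ℝ) := by exact_mod_cast hle
  have h3 : (({q : ℤ × F | u ≤ q.1 ∧ q.1 < v ∧
      ((sh q.1 x.1, q.2) : Pt b F) ∈ S}.ncard : ℕ) : ℝ) ≤ 2 * ((m : ℝ) + 1) := by
    exact_mod_cast h1
  have h4 : (m : ℝ) ≤ ((v - u : ℤ) : ℝ) / W := by
    rw [le_div_iff₀ hWr]
    exact h2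
  have h5 : 2 / (W : ℝ) * ((v - u : ℤ) : ℝ) = 2 * (((v - u : ℤ) : ℝ) / W) := by ring
  rw [h5]
  linarith

theorem sml_of_finite {x : Pt b F} {S : Set (Pt b F)} (hS : S.Finite) {ε : ℝ}
    (hε : 0 ≤ ε) : Sml x S ε := by
  refine ⟨S.ncard, fun u v huv => ?_⟩
  have h2 : {q : ℤ × F | u ≤ q.1 ∧ q.1 < v ∧ ((sh q.1 x.1, q.2) : Pt b F) ∈ S}.ncard ≤
      S.ncard := by
    apply Set.ncard_le_ncard_of_injOn (fun q : ℤ × F => ((sh q.1 x.1, q.2) : Pt b F)) _ _ hS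
    · rintro q ⟨-, -, h⟩
      exact h
    · rintro ⟨n, φ⟩ - ⟨m, ψ⟩ - hq
      simp only [Prod.mk.injEq] at hq
      exact Prod.ext (sh_inj hq.1) hq.2
  have h3 : ({q : ℤ × F | u ≤ q.1 ∧ q.1 < v ∧ ((sh q.1 x.1, q.2) : Pt b F) ∈ S}.ncard : ℝ) ≤
      (S.ncard : ℝ) := by
    exact_mod_cast h2
  have h4 : (0 : ℝ) ≤ ((v - u : ℤ) : ℝ) := by exact_mod_cast sub_nonneg.2 huv
  have h5 := mul_nonneg hε h4
  linarith

theorem sml_empty (x : Pt b F) {ε : ℝ} (hε : 0 ≤ ε) : Sml x ∅ ε :=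
  sml_of_finite Set.finite_empty hε

theorem sml_inter_nonempty [Finite F] {x : Pt b F} {S T : Set (Pt b F)} {ε : ℝ}
    (hε : 0 ≤ ε) (hS : ¬ Sml x S ε) (h : Sml x (S \ T) ε) : (S ∩ T).Nonempty := by
  by_contra hn
  rw [Set.not_nonempty_iff_eq_empty] at hn
  apply hS
  refine sml_mono (S' := S \ T) (fun a ha => ⟨ha, fun haT => ?_⟩) le_rfl h
  have h1 : a ∈ S ∩ T := ⟨ha, haT⟩
  rw [hn] at h1
  exact h1

theorem sml_iInter [Finite F] {ι : Type*} (I : Finset ι) {x : Pt b F} {S : Set (Pt b F)}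
    {T : ι → Set (Pt b F)} (h : ∀ i ∈ I, ∀ ε : ℝ, 0 < ε → Sml x (S \ T i) ε) :
    ∀ ε : ℝ, 0 < ε → Sml x (S \ ⋂ i ∈ I, T i) ε := by
  classical
  induction I using Finset.induction_on with
  | empty =>
    intro ε hε
    simp only [Finset.notMem_empty, Set.iInter_of_empty, Set.iInter_univ, Set.sdiff_univ]
    exact sml_empty x hε.le
  | insert a I ha ih =>
    intro ε hε
    rw [Finset.set_biInter_insert, Set.sdiff_inter]
    have h1 := h a (Finset.mem_insert_self a I) (ε / 2) (half_pos hε)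
    have h2 := ih (fun i hi => h i (Finset.mem_insert_of_mem hi)) (ε / 2) (half_pos hε)
    have h3 := sml_union h1 h2
    rw [add_halves] at h3
    exact h3

end Pool.Agent.helper98.NIG
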