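import Pool.Agent.helper35.NIG.Q01
import Pool.Agent.helper35.NIG.Q02
import Pool.Agent.helper35.NIG.Q06

/-!
# NIG-Q07: at most two points of a line are related to a given point; locked points are sparse

PROOFS.
* `rel_three`: `rel_drift` (L16; `BCon` and `SYN` from `A.BC`, `exists_SYN`) gives `B` and signs `σ1, σ2, σ3` for `(z, y1)`,
  `(z, y2)`, `(z, y3)` with `|disp g yi - σi disp g z| ≤ B` for all `g ∈ G`. Two of the signs are equal, say
  `σi = σj`; then `|disp g yi - disp g yj| ≤ 2 B` for all `g`, so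
  `|pos (g yi) (g yj)| ≤ |pos yi yj| + 2 B` (`pos (g yi) (g yj) = pos yi yj + disp g yj - disp g yi` by `pos_add`, `pos_neg`,
  `sameLine_of_mem_PW`; see `Sys.pos_map` in helper97/NIG/PRel) and `yi = yj` by `A.Reduced`.
* `sparse`: compactness. The points `y2`, `y3` are `(sh d y1.1, φ)`, `(sh d' y1.1, φ')` with `|d|, |d'| ≤ W`: finitely many
  possibilities; so it is enough to find `N` for fixed `d, φ, d', φ'` and to take the maximum (or pass to a
  constant choice along an ultrafilter). Fix them and suppose that the three points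
  `y1, y2 = (sh d y1.1, φ), y3 = (sh d' y1.1, φ')` are different (this does not depend on the line: `y1 = y2` iff `d = 0` and
  `φ = y1.2`, by `sh_inj`). Apply `compact2` to the pairs `(z, y1)` with
  `C z y1 := z ∈ D ∧ y1 ∈ D ∧ (sh d y1.1, φ) ∈ D ∧ (sh d' y1.1, φ') ∈ D ∧ y1.2 = φ1` (for a fixed `φ1`; radius `W + ρ`, `agree_sh`)
  and `P N z y1 := ¬ (E N z y1 ∧ E N z y2 ∧ E N z y3)`: it is monotone (`E_mono`), open (`E_congr`, `agree_sh`), and for every pair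
  some `N` works by `rel_three` and `rel_iff`.
* `sml_E`: `sparse` with `W` such that `2 / (W + 1) ≤ ε`, and `sml_of_sparse`.
* `rel_finite`: a set in which every three elements contain two equal ones has at most two elements.
* `exists_not_E`: let `N` be given by `sparse (3 * (L + 1))`. The set `S` has points `a1`, `a2`, `a3` at positions in the
  windows `[n, n + L]`, `[n + L + 1, n + 2 L + 1]`, `[n + 2 L + 2, n + 3 L + 2]`; they are different (different positions relative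
  to `y`, `pos_sh`/`eq_of_pos`), in `D` (the orbit of `y`), and at mutual distances `≤ 3 (L + 1)`. So they are not all three
  locked to `z`.
-/

namespace Pool.Agent.helper98.NIG

variable {b : Base} {F : Type}

namespace Sys

private theorem Q07_pos_map {A : Sys b F} {g : Equiv.Perm (Pt b F)} (hg : g ∈ A.G) {x y : Pt b F}
    (h : SameLine x y) : pos (g x) (g y) = pos x y + disp g y - disp g x := by
  have hx := sameLine_of_mem_PW (A.G_le_PW hg) x
  have hy := sameLine_of_mem_PW (A.G_le_PW hg) y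
  have e1 := pos_add h hy
  have e2 := pos_add hx (sameLine_trans (sameLine_trans (sameLine_symm hx) h) hy)
  unfold disp
  linarith

private theorem Q07_eq_of_sign {A : Sys b F} (hA : A.Reduced) {z x y : Pt b F} (hx : x ∈ A.D)
    (hy : y ∈ A.D) (h : SameLine x y) {B : ℕ} {σ : ℤ}
    (h1 : ∀ g ∈ A.G, |disp g x - σ * disp g z| ≤ B)
    (h2 : ∀ g ∈ A.G, |disp g y - σ * disp g z| ≤ B) : x = y := by
  refine hA x hx y hy h ⟨|pos x y| + 2 * B, fun g hg => ?_⟩
  rw [Q07_pos_map hg h]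
  have e1 := abs_le.1 (h1 g hg)
  have e2 := abs_le.1 (h2 g hg)
  have e3 := neg_abs_le (pos x y)
  have e4 := le_abs_self (pos x y)
  rw [abs_le]
  constructor <;> linarith

theorem rel_three [Finite F] {A : Sys b F} (hA : A.Reduced) {z y1 y2 y3 : Pt b F}
    (hz : z ∈ A.D) (h1 : y1 ∈ A.D) (h2 : y2 ∈ A.D) (h3 : y3 ∈ A.D) (h12 : SameLine y1 y2)
    (h13 : SameLine y1 y3) (r1 : A.Rel z y1) (r2 : A.Rel z y2) (r3 : A.Rel z y3) :
    y1 = y2 ∨ y1 = y3 ∨ y2 = y3 := by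
  obtain ⟨R, hR⟩ := A.BC
  obtain ⟨B, hB⟩ := rel_drift hA (R := R) (w := A.ρ + 1) hR (exists_SYN A)
  obtain ⟨σ1, hσ1, e1⟩ := hB z hz y1 h1 r1
  obtain ⟨σ2, hσ2, e2⟩ := hB z hz y2 h2 r2
  obtain ⟨σ3, hσ3, e3⟩ := hB z hz y3 h3 r3
  have h23 : SameLine y2 y3 := sameLine_trans (sameLine_symm h12) h13
  have hcase : σ1 = σ2 ∨ σ1 = σ3 ∨ σ2 = σ3 := by
    rcases hσ1 with rfl | rfl <;> rcases hσ2 with rfl | rfl <;> rcases hσ3 with rfl | rfl <;> simp
  rcases hcase with h | h | h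
  · subst h
    exact Or.inl (Q07_eq_of_sign hA h1 h2 h12 e1 e2)
  · subst h
    exact Or.inr (Or.inl (Q07_eq_of_sign hA h1 h3 h13 e1 e3))
  · subst h
    exact Or.inr (Or.inr (Q07_eq_of_sign hA h2 h3 h23 e2 e3))

/-- limits of two sequences at a bounded distance -/
private theorem Q07_lim {U : Ultrafilter ℕ} {u v : ℕ → Pt b F} {x y : Pt b F} {W : ℕ}
    (hu : ∀ N : ℕ, ∀ᶠ i in (U : Filter ℕ), Agree N (u i) x)
    (hv : ∀ N : ℕ, ∀ᶠ i in (U : Filter ℕ), Agree N (v i) y)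
    (hl : ∀ i, SameLine (u i) (v i)) (hb : ∀ i, |pos (u i) (v i)| ≤ W) :
    ∃ d : ℤ, (∀ᶠ i in (U : Filter ℕ), (v i).1 = sh d (u i).1) ∧ y.1 = sh d x.1 := by
  have h1 : (⋃ d ∈ Set.Icc (-(W : ℤ)) W, {i : ℕ | (v i).1 = sh d (u i).1}) ∈ U := by
    have : (⋃ d ∈ Set.Icc (-(W : ℤ)) W, {i : ℕ | (v i).1 = sh d (u i).1}) = Set.univ := by
      refine Set.eq_univ_of_forall fun i => ?_
      rw [Set.mem_iUnion₂]
      exact ⟨pos (u i) (v i), abs_le.1 (hb i), pos_spec (hl i)⟩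
    rw [this]
    exact Filter.univ_mem
  rw [Ultrafilter.finite_biUnion_mem_iff (Set.finite_Icc _ _)] at h1
  obtain ⟨d, -, hd⟩ := h1
  refine ⟨d, hd, ?_⟩
  apply Subtype.ext
  funext k
  have h2 := (hu (k.natAbs + d.natAbs)).and ((hv (k.natAbs + d.natAbs)).and hd)
  obtain ⟨i, hi1, hi2, hi3⟩ := h2.exists
  have hk : |k| ≤ ((k.natAbs + d.natAbs : ℕ) : ℤ) := by
    push_cast
    have := abs_nonneg d
    linarith
  have hkd : |k + d| ≤ ((k.natAbs + d.natAbs : ℕ) : ℤ) := by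
    push_cast
    exact abs_add_le k d
  have e1 := hi2.2 k hk
  have e2 := hi1.2 (k + d) hkd
  have e3 : (v i).1.1 k = (u i).1.1 (k + d) := by
    have h4 : (v i).1 = sh d (u i).1 := hi3
    rw [h4, sh_apply]
  show y.1.1 k = x.1.1 (k + d)
  rw [← e1, e3, e2]

/-- if the limits are equal then the sequences are equal from time to time -/
private theorem Q07_eq {U : Ultrafilter ℕ} {s u v : ℕ → Pt b F} {w x y : Pt b F} {d e : ℤ}
    (hu : ∀ N : ℕ, ∀ᶠ i in (U : Filter ℕ), Agree N (u i) x)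
    (hv : ∀ N : ℕ, ∀ᶠ i in (U : Filter ℕ), Agree N (v i) y)
    (hud : ∀ᶠ i in (U : Filter ℕ), (u i).1 = sh d (s i).1)
    (hve : ∀ᶠ i in (U : Filter ℕ), (v i).1 = sh e (s i).1)
    (hx : x.1 = sh d w.1) (hy : y.1 = sh e w.1) (hxy : x = y) : ∃ i, u i = v i := by
  have hde : d = e := by
    subst hxy
    rw [hx] at hy
    exact sh_inj hy
  subst hde
  obtain ⟨i, h1, h2, h3, h4⟩ := ((hu 0).and ((hv 0).and (hud.and hve))).exists
  refine ⟨i, Prod.ext (h3.trans h4.symm) ?_⟩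
  rw [h1.1, h2.1, hxy]

theorem sparse [Finite F] {A : Sys b F} (hA : A.Reduced) (W : ℕ) : ∃ N : ℕ, ∀ z ∈ A.D,
    ∀ y1 ∈ A.D, ∀ y2 ∈ A.D, ∀ y3 ∈ A.D, SameLine y1 y2 → SameLine y1 y3 →
      |pos y1 y2| ≤ W → |pos y1 y3| ≤ W → A.E N z y1 → A.E N z y2 → A.E N z y3 →
        y1 = y2 ∨ y1 = y3 ∨ y2 = y3 := by
  by_contra hcon
  push Not at hcon
  choose z hz y1 h1 y2 h2 y3 h3 h12 h13 p12 p13 E1 E2 E3 n12 n13 n23 using hcon
  let U : Ultrafilter ℕ := Filter.hyperfilter ℕ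
  obtain ⟨z', hz'⟩ := exists_ulim U z
  obtain ⟨y1', hy1'⟩ := exists_ulim U y1
  obtain ⟨y2', hy2'⟩ := exists_ulim U y2
  obtain ⟨y3', hy3'⟩ := exists_ulim U y3
  have hev : ∀ n : ℕ, ∀ᶠ i in (U : Filter ℕ), n ≤ i := by
    intro n
    have h : ∀ᶠ i in (Filter.cofinite : Filter ℕ), n ≤ i := by
      rw [Nat.cofinite_eq_atTop]
      exact Filter.eventually_ge_atTop n
    exact Filter.hyperfilter_le_cofinite h
  have D0 := mem_D_of_ulim A hz' (Filter.Eventually.of_forall hz)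
  have D1 := mem_D_of_ulim A hy1' (Filter.Eventually.of_forall h1)
  have D2 := mem_D_of_ulim A hy2' (Filter.Eventually.of_forall h2)
  have D3 := mem_D_of_ulim A hy3' (Filter.Eventually.of_forall h3)
  have R1 : A.Rel z' y1' := rel_of_ulim_E hz' hy1' fun n => (hev n).mono fun i hi => E_mono hi (E1 i)
  have R2 : A.Rel z' y2' := rel_of_ulim_E hz' hy2' fun n => (hev n).mono fun i hi => E_mono hi (E2 i)
  have R3 : A.Rel z' y3' := rel_of_ulim_E hz' hy3' fun n => (hev n).mono fun i hi => E_mono hi (E3 i)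
  obtain ⟨d, hd, hd'⟩ := Q07_lim hy1' hy2' h12 p12
  obtain ⟨e, he, he'⟩ := Q07_lim hy1' hy3' h13 p13
  have h0 : ∀ᶠ i in (U : Filter ℕ), (y1 i).1 = sh 0 (y1 i).1 :=
    Filter.Eventually.of_forall fun i => (sh_zero _).symm
  have h0' : y1'.1 = sh 0 y1'.1 := (sh_zero _).symm
  rcases rel_three hA D0 D1 D2 D3 ⟨d, hd'⟩ ⟨e, he'⟩ R1 R2 R3 with h | h | h
  · obtain ⟨i, hi⟩ := Q07_eq hy1' hy2' h0 hd h0' hd' h
    exact n12 i hi
  · obtain ⟨i, hi⟩ := Q07_eq hy1' hy3' h0 he h0' he' h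
    exact n13 i hi
  · obtain ⟨i, hi⟩ := Q07_eq hy2' hy3' hd he hd' he' h
    exact n23 i hi

theorem sml_E [Finite F] {A : Sys b F} (hA : A.Reduced) {ε : ℝ} (hε : 0 < ε) : ∃ N : ℕ,
    ∀ z ∈ A.D, ∀ y0 : Pt b F, Sml y0 {y | y ∈ A.D ∧ A.E N z y} ε := by
  obtain ⟨W, hW⟩ := exists_nat_gt (2 / ε)
  have hW0 : (0 : ℝ) < W := lt_trans (by positivity) hW
  have hW1 : 0 < W := by exact_mod_cast hW0
  obtain ⟨N, hN⟩ := sparse hA W
  refine ⟨N, fun z hz y0 => ?_⟩
  have hle : 2 / (W : ℝ) ≤ ε := by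
    rw [div_le_iff₀ hW0]
    rw [div_lt_iff₀ hε] at hW
    linarith
  refine sml_mono (S' := {y | y ∈ A.D ∧ A.E N z y}) le_rfl hle (sml_of_sparse hW1 ?_)
  rintro a ⟨ha, ea⟩ a' ⟨ha', ea'⟩ a'' ⟨ha'', ea''⟩ - l1 l2 p1 p2
  exact hN z hz a ha a' ha' a'' ha'' l1 l2 p1.le p2.le ea ea' ea''

theorem rel_finite [Finite F] {A : Sys b F} (hA : A.Reduced) {z : Pt b F} (hz : z ∈ A.D)
    {y0 : Pt b F} (hy : y0 ∈ A.D) : {y | y ∈ A.orb y0 ∧ A.Rel z y}.Finite := by
  classical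
  by_contra hinf
  obtain ⟨t, ht, hcard⟩ := Set.Infinite.exists_subset_card_eq hinf 3
  obtain ⟨y1, y2, y3, n12, n13, n23, rfl⟩ := Finset.card_eq_three.1 hcard
  obtain ⟨⟨g1, hg1, e1⟩, r1⟩ := ht (show y1 ∈ (({y1, y2, y3} : Finset (Pt b F)) : Set (Pt b F)) by simp)
  obtain ⟨⟨g2, hg2, e2⟩, r2⟩ := ht (show y2 ∈ (({y1, y2, y3} : Finset (Pt b F)) : Set (Pt b F)) by simp)
  obtain ⟨⟨g3, hg3, e3⟩, r3⟩ := ht (show y3 ∈ (({y1, y2, y3} : Finset (Pt b F)) : Set (Pt b F)) by simp)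
  have l1 : SameLine y0 y1 := by rw [e1]; exact sameLine_of_mem_PW (A.G_le_PW hg1) y0
  have l2 : SameLine y0 y2 := by rw [e2]; exact sameLine_of_mem_PW (A.G_le_PW hg2) y0
  have l3 : SameLine y0 y3 := by rw [e3]; exact sameLine_of_mem_PW (A.G_le_PW hg3) y0
  have D1 : y1 ∈ A.D := by rw [e1]; exact A.map_mem hg1 hy
  have D2 : y2 ∈ A.D := by rw [e2]; exact A.map_mem hg2 hy
  have D3 : y3 ∈ A.D := by rw [e3]; exact A.map_mem hg3 hy
  rcases rel_three hA hz D1 D2 D3 (sameLine_trans (sameLine_symm l1) l2)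
    (sameLine_trans (sameLine_symm l1) l3) r1 r2 r3 with h | h | h
  · exact n12 h
  · exact n13 h
  · exact n23 h

/-- among the points of a set with bounded gaps there is one in every long window which is not
locked to `z` -/
theorem exists_not_E [Finite F] {A : Sys b F} (hA : A.Reduced) (L : ℕ) : ∃ N : ℕ, ∀ z ∈ A.D,
    ∀ y ∈ A.D, ∀ S : Set (Pt b F), S ⊆ A.orb y →
      (∀ n : ℤ, ∃ a ∈ S, n ≤ pos y a ∧ pos y a ≤ n + L) →
        ∀ n : ℤ, ∃ a ∈ S, n ≤ pos y a ∧ pos y a ≤ n + (3 * (L + 1) : ℕ) ∧ ¬ A.E N z a := by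
  obtain ⟨N, hN⟩ := sparse hA (3 * (L + 1))
  refine ⟨N, fun z hz y hy S hS hgap n => ?_⟩
  obtain ⟨a1, m1, l1, u1⟩ := hgap n
  obtain ⟨a2, m2, l2, u2⟩ := hgap (n + L + 1)
  obtain ⟨a3, m3, l3, u3⟩ := hgap (n + 2 * L + 2)
  have hline : ∀ a ∈ S, a ∈ A.D ∧ SameLine y a := by
    intro a ha
    obtain ⟨g, hg, rfl⟩ := hS ha
    exact ⟨A.map_mem hg hy, sameLine_of_mem_PW (A.G_le_PW hg) y⟩
  obtain ⟨D1, s1⟩ := hline a1 m1
  obtain ⟨D2, s2⟩ := hline a2 m2
  obtain ⟨D3, s3⟩ := hline a3 m3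
  have s12 := sameLine_trans (sameLine_symm s1) s2
  have s13 := sameLine_trans (sameLine_symm s1) s3
  have p12 : pos a1 a2 = pos y a2 - pos y a1 := by
    have := pos_add s1 s12
    linarith
  have p13 : pos a1 a3 = pos y a3 - pos y a1 := by
    have := pos_add s1 s13
    linarith
  have hL : (0 : ℤ) ≤ L := by positivity
  by_cases c1 : A.E N z a1
  · by_cases c2 : A.E N z a2
    · by_cases c3 : A.E N z a3
      · exfalso
        have b12 : |pos a1 a2| ≤ ((3 * (L + 1) : ℕ) : ℤ) := by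
          rw [p12, abs_le]
          push_cast
          constructor <;> linarith
        have b13 : |pos a1 a3| ≤ ((3 * (L + 1) : ℕ) : ℤ) := by
          rw [p13, abs_le]
          push_cast
          constructor <;> linarith
        rcases hN z hz a1 D1 a2 D2 a3 D3 s12 s13 b12 b13 c1 c2 c3 with h | h | h
        · rw [h] at u1
          linarith
        · rw [h] at u1
          linarith
        · rw [h] at u2
          linarith
      · exact ⟨a3, m3, by linarith, by push_cast; linarith, c3⟩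
    · exact ⟨a2, m2, by linarith, by push_cast; linarith, c2⟩
  · exact ⟨a1, m1, by linarith, by push_cast; linarith, c1⟩

end Sys

end Pool.Agent.helper98.NIG
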