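import Pool.Agent.helper35.NIG.Q03
import Pool.Agent.helper35.NIG.Q04
import Pool.Agent.helper35.NIG.Q05
import Pool.Agent.helper35.NIG.Q07

/-!
# NIG-Q08: the orbits of the stabilisers have uniformly bounded gaps (also for subgroups of finite index)

PROOFS.
* `syn_local`: `M` from `FREE2` for `N`, `L = ρ M (2 m + 1)`. Let `T = {g | g ∈ W M ∧ g z = z}` and `B = Stb M {z}` its closure
  (`B ≤ A.G`). `K.relIndex B ≠ 0` and `≤ m` (`Subgroup.relIndex_le_of_le_right`, `Subgroup.relIndex_ne_zero..`). By `hit_Stb`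
  there is `g ∈ B` with `n + ρ M m ≤ disp g y ≤ n + ρ M m + ρ M`. By `short_transversal` (`T` is closed under inverses by
  `W_inv`) there is a list `l` of at most `m` elements of `T` with `k = l.prod⁻¹ * g ∈ K`. `k z = z`, and
  `disp k y = disp g y + disp l.prod⁻¹ (g y)`, where the last term is at most `ρ M m` in absolute value.
* `orb_K_unif` is `syn2`: let `N0` be the constant of `exists_sep`, `L1` the constant of `syn_local N0 m`,
  `ε = 1 / (2 (L1 + 1))`, `N1` from `sml_E ε`, `L2` from `syn_local N1 m`, `N` from `exists_not_E L2`, `L = 3 (L2 + 1)`.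
  Let `K`, `z`, `y` be given.
  (1) CLAIM: there is `h ∈ K` with `h z = z` and `¬ E N1 z (h y)`. Let `g0 ∈ G` with `¬ E N0 (g0 z) (g0 y)`,
    `K' = K.comap (MulAut.conj g0⁻¹).toMonoidHom = {k | g0⁻¹ k g0 ∈ K}`; `K' ≤ G`, `K'.relIndex G = K.relIndex G` (`relIndex_conj`). Let
    `S = {h y | h ∈ K, h z = z}`. By `syn_local` for `K'` at `(g0 z, g0 y)`: the set
    `{k (g0 y) | k ∈ K', k (g0 z) = g0 z} = g0 '' S` has a point in every window `[n, n + L1]` (positions relative to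
    `g0 y`). If all points of `S` were in `{a | a ∈ D ∧ E N1 z a}` then `Sml y S ε` (`sml_mono`), so
    `Sml y (g0 '' S) ε` (`sml_map`), `Sml (g0 y) (g0 '' S) ε` (`sml_base`), and `1 ≤ ε (L1 + 1) = 1/2` by `sml_syn`.
  (2) Now `syn_local N1 m` at `(z, h y)` and `K`: the set `S` has a point in every window `[n, n + L2]` (relative to `y`:
    `disp (g h) y = disp g (h y) + disp h y`).
  (3) `exists_not_E L2` for `S ⊆ orb y`.
-/

namespace Pool.Agent.helper98.NIG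

variable {b : Base} {F : Type}

namespace Sys

theorem Q08_prod_W {A : Sys b F} {M : ℕ} {l : List (Equiv.Perm (Pt b F))}
    (h : ∀ t ∈ l, t ∈ A.W M) : l.prod ∈ A.W (M * l.length) := by
  induction l with
  | nil => exact A.one_mem_W _
  | cons t l ih =>
    rw [List.prod_cons, List.length_cons, Nat.mul_succ, Nat.add_comm]
    exact A.W_mul (h t List.mem_cons_self) (ih fun s hs => h s (List.mem_cons_of_mem _ hs))

theorem syn_local [Finite F] {A : Sys b F} (h2 : A.FREE2) (N m : ℕ) : ∃ L : ℕ,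
    ∀ K : Subgroup (Equiv.Perm (Pt b F)), K ≤ A.G → K.relIndex A.G ≠ 0 →
      K.relIndex A.G ≤ m → ∀ z ∈ A.D, ∀ y ∈ A.D, ¬ A.E N z y → ∀ n : ℤ,
        ∃ g ∈ K, g z = z ∧ n ≤ disp g y ∧ disp g y ≤ n + L := by
  obtain ⟨M, hM⟩ := h2 N
  refine ⟨A.ρ * M * (2 * m + 1), ?_⟩
  intro K hKG hK0 hKm z hz y hy hE n
  have hBF : A.Stb M {z} ≤ A.Fix {z} := A.Stb_le_Fix M {z}
  have hBG : A.Stb M {z} ≤ A.G := fun g hg => (hBF hg).1
  have hi0 : K.relIndex (A.Stb M {z}) ≠ 0 := fun h =>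
    hK0 (Subgroup.relIndex_eq_zero_of_le_right hBG h)
  have him : K.relIndex (A.Stb M {z}) ≤ m :=
    (Subgroup.relIndex_le_of_le_right hBG hK0).trans hKm
  obtain ⟨g, hg, g1, g2⟩ := hit_Stb (hM z hz y hy hE) (n + (A.ρ * M * m : ℕ))
  obtain ⟨l, l1, l2, l3⟩ := short_transversal {g | g ∈ A.W M ∧ ∀ x ∈ ({z} : Set (Pt b F)), g x = x}
    (fun t ht => ⟨A.W_inv ht.1, fun x hx => by
      rw [Equiv.Perm.inv_eq_iff_eq]
      exact (ht.2 x hx).symm⟩) K m hi0 him hg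
  have hlW : l.prod ∈ A.W (M * l.length) := Q08_prod_W fun t ht => (l2 t ht).1
  have hlB : l.prod ∈ A.Stb M {z} :=
    Subgroup.list_prod_mem _ fun t ht => Subgroup.subset_closure (l2 t ht)
  have hgz : g z = z := (hBF hg).2 z rfl
  have hlz : l.prod z = z := (hBF hlB).2 z rfl
  refine ⟨l.prod⁻¹ * g, l3, ?_, ?_, ?_⟩
  · rw [Equiv.Perm.mul_apply, hgz, Equiv.Perm.inv_eq_iff_eq]
    exact hlz.symm
  all_goals
    rw [disp_mul (A.G_le_PW (A.G.inv_mem (hBG hlB))) (A.G_le_PW (hBG hg))]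
    have h1 := A.abs_disp_W (A.W_inv hlW) (g y)
    have h3 : (A.ρ : ℤ) * ((M * l.length : ℕ) : ℤ) ≤ (A.ρ * M * m : ℕ) := by
      rw [mul_assoc]
      have h4 : M * l.length ≤ M * m := Nat.mul_le_mul_left M l1
      have h5 : A.ρ * (M * l.length) ≤ A.ρ * (M * m) := Nat.mul_le_mul_left A.ρ h4
      exact_mod_cast h5
    have h4 := abs_le.1 (h1.trans h3)
    push_cast at h4 g1 g2 ⊢
    nlinarith

theorem syn2 [Finite F] {A : Sys b F} (hA : A.Reduced) (h2 : A.FREE2) (m : ℕ) :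
    ∃ N L : ℕ, ∀ K : Subgroup (Equiv.Perm (Pt b F)), K ≤ A.G → K.relIndex A.G ≠ 0 →
      K.relIndex A.G ≤ m → ∀ z ∈ A.D, ∀ y ∈ A.D, ¬ A.Rel z y → ∀ n : ℤ,
        ∃ g ∈ K, g z = z ∧ n ≤ disp g y ∧ disp g y ≤ n + L ∧ ¬ A.E N z (g y) := by
  obtain ⟨N0, hN0⟩ := exists_sep A
  obtain ⟨L1, hL1⟩ := syn_local h2 N0 m
  have hL1r : (0 : ℝ) < 2 * ((L1 : ℝ) + 1) := by positivity
  obtain ⟨N1, hN1⟩ := sml_E hA (ε := 1 / (2 * ((L1 : ℝ) + 1))) (by positivity)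
  obtain ⟨L2, hL2⟩ := syn_local h2 N1 m
  obtain ⟨N, hN⟩ := exists_not_E hA L2
  refine ⟨N, 3 * (L2 + 1), fun K hKG hK0 hKm z hz y hy hr n => ?_⟩
  -- (1) a point of the orbit which is not locked to `z`
  obtain ⟨h, hh, hhz, hhE⟩ : ∃ h ∈ K, h z = z ∧ ¬ A.E N1 z (h y) := by
    by_contra hcon
    push Not at hcon
    obtain ⟨g0, hg0, hsep⟩ := hN0 z hz y hy hr
    have hg0P := A.G_le_PW hg0
    have h3 : Sml y {a | ∃ h ∈ K, h z = z ∧ a = h y} (1 / (2 * ((L1 : ℝ) + 1))) := by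
      refine sml_mono ?_ le_rfl (hN1 z hz y)
      rintro a ⟨h, hh, hhz, rfl⟩
      exact ⟨A.map_mem (hKG hh) hy, hcon h hh hhz⟩
    have h4 := (sml_base (sameLine_of_mem_PW hg0P y)).1 (sml_map hg0P h3)
    have h5 := sml_syn (L := L1) (fun n => by
      obtain ⟨k, hk, hkz, hk1, hk2⟩ := hL1 (K.comap (MulAut.conj g0⁻¹).toMonoidHom) (by
        intro k hk
        have h6 : g0⁻¹ * k * g0 ∈ K := by
          have h7 : (MulAut.conj g0⁻¹) k ∈ K := hk
          rwa [MulAut.conj_apply, inv_inv] at h7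
        have h7 := A.G.mul_mem (A.G.mul_mem hg0 (hKG h6)) (A.G.inv_mem hg0)
        have e : g0 * (g0⁻¹ * k * g0) * g0⁻¹ = k := by group
        rwa [e] at h7) (by rw [relIndex_conj K A.G hg0]; exact hK0)
        (by rw [relIndex_conj K A.G hg0]; exact hKm) (g0 z) (A.map_mem hg0 hz) (g0 y)
        (A.map_mem hg0 hy) hsep n
      have h6 : g0⁻¹ * k * g0 ∈ K := by
        have h7 : (MulAut.conj g0⁻¹) k ∈ K := hk
        rwa [MulAut.conj_apply, inv_inv] at h7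
      have hkG : k ∈ A.G := by
        have h7 := A.G.mul_mem (A.G.mul_mem hg0 (hKG h6)) (A.G.inv_mem hg0)
        have e : g0 * (g0⁻¹ * k * g0) * g0⁻¹ = k := by group
        rwa [e] at h7
      have e2 : k (g0 y) = g0 ((g0⁻¹ * k * g0) y) := by
        have e : k * g0 = g0 * (g0⁻¹ * k * g0) := by group
        have e' := congrArg (fun f : Equiv.Perm (Pt b F) => f y) e
        exact e'
      refine ⟨k (g0 y), ⟨(g0⁻¹ * k * g0) y, ⟨g0⁻¹ * k * g0, h6, ?_, rfl⟩, e2.symm⟩,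
        sameLine_of_mem_PW (A.G_le_PW hkG) _, hk1, hk2⟩
      show g0⁻¹ (k (g0 z)) = z
      rw [hkz]
      exact Equiv.symm_apply_apply g0 z) h4
    have h6 : 1 / (2 * ((L1 : ℝ) + 1)) * ((L1 : ℝ) + 1) = 1 / 2 := by
      field_simp
    rw [h6] at h5
    norm_num at h5
  have hhG := hKG hh
  have hhP := A.G_le_PW hhG
  -- (2), (3)
  obtain ⟨a, ⟨g, hg, hgz, rfl⟩, h3, h4, h5⟩ := hN z hz y hy {a | ∃ h ∈ K, h z = z ∧ a = h y}
    (by
      rintro a ⟨g, hg, -, rfl⟩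
      exact ⟨g, hKG hg, rfl⟩)
    (fun n => by
      obtain ⟨g, hg, hgz, h3, h4⟩ := hL2 K hKG hK0 hKm z hz (h y) (A.map_mem hhG hy) hhE
        (n - disp h y)
      have e : pos y ((g * h) y) = disp g (h y) + disp h y := disp_mul (A.G_le_PW (hKG hg)) hhP y
      refine ⟨(g * h) y, ⟨g * h, K.mul_mem hg hh, ?_, rfl⟩, ?_, ?_⟩
      · rw [Equiv.Perm.mul_apply, hhz, hgz]
      · rw [e]; linarith
      · rw [e]; linarith) n
  exact ⟨g, hg, hgz, h3, h4, h5⟩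

/-- the case of the whole group -/
theorem syn2' [Finite F] {A : Sys b F} (hA : A.Reduced) (h2 : A.FREE2) :
    ∃ N L : ℕ, ∀ z ∈ A.D, ∀ y ∈ A.D, ¬ A.Rel z y → ∀ n : ℤ,
        ∃ g ∈ A.Fix {z}, n ≤ disp g y ∧ disp g y ≤ n + L ∧ ¬ A.E N z (g y) := by
  obtain ⟨N, L, h⟩ := syn2 hA h2 1
  refine ⟨N, L, fun z hz y hy hr n => ?_⟩
  obtain ⟨g, h1, h2, h3, h4, h5⟩ := h A.G le_rfl (by simp) (by simp) z hz y hy hr n
  exact ⟨g, (A.mem_Fix_singleton).2 ⟨h1, h2⟩, h3, h4, h5⟩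

/-- the orbits of the stabilisers of points are not small -/
theorem orbz_large [Finite F] {A : Sys b F} (hA : A.Reduced) (h2 : A.FREE2) :
    ∃ L : ℕ, ∀ z ∈ A.D, ∀ y ∈ A.D, ¬ A.Rel z y → ∀ y0 : Pt b F, SameLine y0 y →
      ∀ ε : ℝ, Sml y0 (A.orbz z y) ε → 1 ≤ ε * (L + 1) := by
  obtain ⟨N, L, H⟩ := syn2' hA h2
  refine ⟨L, fun z hz y hy hr y0 hy0 ε hs => ?_⟩
  have hs' : Sml y (A.orbz z y) ε := (sml_base hy0).1 hs
  refine sml_syn (fun n => ?_) hs'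
  obtain ⟨g, hg, h3, h4, -⟩ := H z hz y hy hr n
  exact ⟨g y, ⟨g, hg, rfl⟩, sameLine_of_mem_PW (A.G_le_PW hg.1) y, h3, h4⟩

/-- finitely many orbits of the stabiliser of `z` on a strand -/
theorem finite_orbits [Finite F] {A : Sys b F} (hA : A.Reduced) (h2 : A.FREE2) {z : Pt b F}
    (hz : z ∈ A.D) {y0 : Pt b F} (hy : y0 ∈ A.D) : ∃ T : Finset (Pt b F),
      (∀ t ∈ T, t ∈ A.orb y0) ∧ ∀ a ∈ A.orb y0, ∃ t ∈ T, a ∈ A.orbz z t := by
  classical
  obtain ⟨N, L, H⟩ := syn2' hA h2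
  have hline : ∀ a ∈ A.orb y0, SameLine y0 a := by
    rintro a ⟨g, hg, rfl⟩
    exact sameLine_of_mem_PW (A.G_le_PW hg) y0
  have hf1 : {t | t ∈ A.orb y0 ∧ 0 ≤ pos y0 t ∧ pos y0 t ≤ L}.Finite := by
    refine (((Set.finite_Icc (0 : ℤ) L).prod (Set.finite_univ (α := F))).image
      (fun q : ℤ × F => ((sh q.1 y0.1, q.2) : Pt b F))).subset ?_
    rintro t ⟨ht, h3, h4⟩
    exact ⟨(pos y0 t, t.2), ⟨⟨h3, h4⟩, trivial⟩, (eq_of_pos (hline t ht)).symm⟩
  have hf2 := rel_finite hA hz hy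
  refine ⟨(hf1.union hf2).toFinset, ?_, ?_⟩
  · intro t ht
    rw [Set.Finite.mem_toFinset] at ht
    rcases ht with ht | ht
    · exact ht.1
    · exact ht.1
  · intro a ha
    by_cases hr : A.Rel z a
    · refine ⟨a, ?_, orbz_self z a⟩
      rw [Set.Finite.mem_toFinset]
      exact Or.inr ⟨ha, hr⟩
    · have haD : a ∈ A.D := by
        obtain ⟨k, hk, rfl⟩ := ha
        exact A.map_mem hk hy
      obtain ⟨g, hg, h3, h4, -⟩ := H z hz a haD hr (-pos y0 a)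
      have hp : pos y0 (g a) = pos y0 a + disp g a :=
        pos_add (hline a ha) (sameLine_of_mem_PW (A.G_le_PW hg.1) a)
      refine ⟨g a, ?_, ?_⟩
      · rw [Set.Finite.mem_toFinset]
        refine Or.inl ⟨?_, by linarith, by linarith⟩
        obtain ⟨k, hk, rfl⟩ := ha
        exact ⟨g * k, A.G.mul_mem hg.1 hk, rfl⟩
      · exact ⟨g⁻¹, (A.Fix {z}).inv_mem hg, (g.symm_apply_apply a).symm⟩

end Sys

end Pool.Agent.helper98.NIG
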