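import Pool.Agent.helper35.NIG.Q08

/-!
# NIG-Q09: the number of the orbits of the stabiliser of `z` on the strand of `y`

`Ind j z y`: there are `j` inequivalent unrelated points.
PROOFS.
* `ind_bound`: `N, L` from `syn2'`, `C = (L + 1) * Nat.card F`. Let `u` be given by `Ind j z y`; for every `i` there is
  `g i ∈ Fix {z}` with `0 ≤ pos y (g i (u i y)) ≤ L` (`syn2'` at `(z, u i y)` with `n = - disp (u i) y`). The points `g i (u i y)`
  are different for different `i` (otherwise `u i' y ∈ orbz z (u i y)`), and a point of the line is determined by its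
  position and its second coordinate (`eq_of_pos`); so `j ≤ (L + 1) * Nat.card F`.
* `ind_norm`: the same choice; `¬ E N z (g i (u i y))`, and by `conn_fin` (`exists_CONN`) there is `v i ∈ W (K (L + 1))` with
  `v i y = g i (u i y)`. The points `v i y` are inequivalent because `v i y ∈ orbz z (u i y)`.
* `ind_inv`: `u' i = g * u i * h⁻¹`: `u' i (h y) = g (u i y)`; `rel_map_iff`, `orbz_map`.
* `ind_ulim`: for `U`-almost all `n` take `v n : Fin j → W w` by `ind_norm`; finitely many functions (`W_finite`), so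
  `v n = v` for `U`-almost all `n` (`Ultrafilter.eventually_exists_mem_iff` or `Filter.Eventually` and finiteness: if
  `∀ᶠ n in U, ∃ a ∈ s, p a n` with `s` finite then `∃ a ∈ s, ∀ᶠ n in U, p a n`: `Ultrafilter.finite_biUnion_mem_iff`). `v i ∈ G`. `¬ E N z (v i y)` by `E_congr`
  (`agree_W`), so not related. If `v i' y = g (v i y)` with `g ∈ Fix {z}` then for `U`-almost all `n` `g (z n) = z n`
  (`fix_iff_of_agree`) and `(g * v i) (y n) = v i' (y n)` (`eq_iff_of_agree`), so `i = i'`.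
* `ind_const`: by `minimal` choose for every `n : ℕ` elements `g n`, `h n` of `G` with `Agree n (g n z) z'`,
  `Agree n (h n y) y'`; `ind_inv` and `ind_ulim` with `U = Filter.hyperfilter ℕ`.
* `exists_J`: `A.nonempty` gives `x0 ∈ D`; `Ind 0` always holds; by `ind_bound` there is a largest `J` with `Ind J x0 x0`
  (`Nat.findGreatest` or `Nat.find`); `ind_const`.
* `ind_max`: if `a` is not in any `orbz z (u i y)` then `u` extended by an element with value `a` (`Fin.snoc` or `Fin.cons`)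
  shows `Ind (J + 1) z y`: for `i` old and the new index use that `orbz` is an equivalence relation (`orbz_eq`).
-/

namespace Pool.Agent.helper98.NIG

variable {b : Base} {F : Type}

namespace Sys

/-- the inequivalent points can be chosen close to `y` and not locked to `z` -/
theorem q09_choice [Finite F] {A : Sys b F} (hA : A.Reduced) (h2 : A.FREE2) : ∃ N L : ℕ,
    ∀ j : ℕ, ∀ z ∈ A.D, ∀ y ∈ A.D, A.Ind j z y → ∃ v : Fin j → Equiv.Perm (Pt b F),
      (∀ i, v i ∈ A.G) ∧ (∀ i, 0 ≤ disp (v i) y ∧ disp (v i) y ≤ L) ∧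
        (∀ i, ¬ A.E N z (v i y)) ∧ ∀ i i', v i' y ∈ A.orbz z (v i y) → i = i' := by
  obtain ⟨N, L, hNL⟩ := syn2' hA h2
  refine ⟨N, L, fun j z hz y hy h => ?_⟩
  obtain ⟨u, hu1, hu2, hu3⟩ := h
  have h1 : ∀ i, ∃ g ∈ A.Fix {z}, - disp (u i) y ≤ disp g (u i y) ∧
      disp g (u i y) ≤ - disp (u i) y + L ∧ ¬ A.E N z (g (u i y)) := fun i =>
    hNL z hz (u i y) (A.map_mem (hu1 i) hy) (hu2 i) _
  choose g hg1 hg2 hg3 hg4 using h1
  have hgG : ∀ i, g i ∈ A.G := fun i => ((A.mem_Fix_singleton).1 (hg1 i)).1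
  have hd : ∀ i, disp (g i * u i) y = disp (g i) (u i y) + disp (u i) y := fun i =>
    disp_mul (A.G_le_PW (hgG i)) (A.G_le_PW (hu1 i)) y
  have ho : ∀ i, A.orbz z ((g i * u i) y) = A.orbz z (u i y) := fun i =>
    orbz_eq ⟨g i, hg1 i, rfl⟩
  refine ⟨fun i => g i * u i, fun i => A.G.mul_mem (hgG i) (hu1 i), fun i => ?_, fun i => ?_,
    fun i i' hi => ?_⟩
  · rw [hd]
    constructor
    · linarith [hg2 i]
    · linarith [hg3 i]
  · rw [Equiv.Perm.mul_apply]
    exact hg4 i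
  · apply hu3
    rw [ho] at hi
    have h3 := orbz_eq hi
    rw [ho] at h3
    rw [← h3]
    exact orbz_self _ _

theorem ind_bound [Finite F] {A : Sys b F} (hA : A.Reduced) (h2 : A.FREE2) : ∃ C : ℕ,
    ∀ j : ℕ, ∀ z ∈ A.D, ∀ y ∈ A.D, A.Ind j z y → j ≤ C := by
  obtain ⟨N, L, hNL⟩ := q09_choice hA h2
  refine ⟨(L + 1) * Nat.card F, fun j z hz y hy h => ?_⟩
  obtain ⟨v, hv1, hv2, -, hv4⟩ := hNL j z hz y hy h
  let f : Fin j → (Finset.Icc (0 : ℤ) L) × F := fun i =>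
    (⟨disp (v i) y, Finset.mem_Icc.2 (hv2 i)⟩, (v i y).2)
  have hf : Function.Injective f := by
    intro i i' hii
    have h3 : disp (v i) y = disp (v i') y := congrArg (fun q => (q.1 : ℤ)) hii
    have h4 : (v i y).2 = (v i' y).2 := congrArg (fun q => q.2) hii
    have h5 : v i' y = v i y := by
      rw [eq_of_pos (sameLine_of_mem_PW (A.G_le_PW (hv1 i')) y),
        eq_of_pos (sameLine_of_mem_PW (A.G_le_PW (hv1 i)) y), h4]
      have h6 : pos y (v i y) = pos y (v i' y) := h3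
      rw [h6]
    apply hv4
    rw [h5]
    exact orbz_self _ _
  have h3 := Nat.card_le_card_of_injective f hf
  rw [Nat.card_prod, Nat.card_eq_fintype_card, Fintype.card_fin, Nat.card_eq_fintype_card,
    Fintype.card_coe, Int.card_Icc] at h3
  have h4 : ((L : ℤ) + 1 - 0).toNat = L + 1 := by omega
  rw [h4] at h3
  exact h3

theorem ind_norm [Finite F] {A : Sys b F} (hA : A.Reduced) (h2 : A.FREE2) : ∃ N w : ℕ,
    ∀ j : ℕ, ∀ z ∈ A.D, ∀ y ∈ A.D, A.Ind j z y → ∃ u : Fin j → Equiv.Perm (Pt b F),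
      (∀ i, u i ∈ A.W w) ∧ (∀ i, ¬ A.E N z (u i y)) ∧
        ∀ i i', u i' y ∈ A.orbz z (u i y) → i = i' := by
  obtain ⟨N, L, hNL⟩ := q09_choice hA h2
  obtain ⟨K, -, hK⟩ := exists_CONN A
  refine ⟨N, K * (L + 1), fun j z hz y hy h => ?_⟩
  obtain ⟨v, hv1, hv2, hv3, hv4⟩ := hNL j z hz y hy h
  have h1 : ∀ i, ∃ g' ∈ A.W (K * (L + 1)), g' y = v i y := fun i =>
    conn_fin hK hy (hv1 i) (by rw [abs_of_nonneg (hv2 i).1]; exact (hv2 i).2)
  choose u hu1 hu2 using h1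
  refine ⟨u, hu1, fun i => ?_, fun i i' hi => ?_⟩
  · rw [hu2]
    exact hv3 i
  · rw [hu2, hu2] at hi
    exact hv4 i i' hi

theorem ind_inv {A : Sys b F} {j : ℕ} {z y : Pt b F} (h : A.Ind j z y)
    {g h' : Equiv.Perm (Pt b F)} (hg : g ∈ A.G) (hh : h' ∈ A.G) : A.Ind j (g z) (h' y) := by
  obtain ⟨u, hu1, hu2, hu3⟩ := h
  have e : ∀ i, (g * u i * h'⁻¹) (h' y) = g (u i y) := fun i => by
    rw [Equiv.Perm.mul_apply, Equiv.Perm.mul_apply]
    congr 2
    exact h'.symm_apply_apply y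
  refine ⟨fun i => g * u i * h'⁻¹, fun i => A.G.mul_mem (A.G.mul_mem hg (hu1 i)) (A.G.inv_mem hh),
    fun i hr => ?_, fun i i' hi => ?_⟩
  · rw [e] at hr
    exact hu2 i ((rel_map_iff hg).1 hr)
  · rw [e, e, orbz_map hg] at hi
    obtain ⟨a, ha, ha'⟩ := hi
    rw [g.injective ha'] at ha
    exact hu3 i i' ha

theorem ind_ulim [Finite F] {A : Sys b F} (hA : A.Reduced) (h2 : A.FREE2) {ι : Type}
    {U : Ultrafilter ι} {z' y' : ι → Pt b F} {z y : Pt b F}
    (hz : ∀ N : ℕ, ∀ᶠ i in (U : Filter ι), Agree N (z' i) z)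
    (hy : ∀ N : ℕ, ∀ᶠ i in (U : Filter ι), Agree N (y' i) y) (hzD : z ∈ A.D) (hyD : y ∈ A.D)
    {j : ℕ} (h : ∀ᶠ i in (U : Filter ι), A.Ind j (z' i) (y' i)) : A.Ind j z y := by
  obtain ⟨N, w, hN⟩ := ind_norm hA h2
  -- normalised functions for almost all `i`
  have h1 : ∀ᶠ i in (U : Filter ι), ∃ v ∈ {v : Fin j → Equiv.Perm (Pt b F) | ∀ k, v k ∈ A.W w},
      (∀ k, ¬ A.E N (z' i) (v k (y' i))) ∧
        ∀ k k', v k' (y' i) ∈ A.orbz (z' i) (v k (y' i)) → k = k' := by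
    filter_upwards [h, hz A.ρ, hy A.ρ] with i hi hzi hyi
    obtain ⟨v, hv1, hv2, hv3⟩ := hN j (z' i) ((A.clopen _ _ hzi).2 hzD) (y' i)
      ((A.clopen _ _ hyi).2 hyD) hi
    exact ⟨v, hv1, hv2, hv3⟩
  have hfin : {v : Fin j → Equiv.Perm (Pt b F) | ∀ k, v k ∈ A.W w}.Finite :=
    Set.Finite.pi' fun _ => A.W_finite w
  obtain ⟨v, hv, hev⟩ := (Ultrafilter.eventually_exists_mem_iff hfin).1 h1
  refine ⟨v, fun k => A.W_le_G (hv k), fun k hr => ?_, fun k k' hk => ?_⟩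
  · have hE := rel_iff.1 hr N
    obtain ⟨i, ⟨hi1, hi2⟩, hi3⟩ :=
      ((hev.and (hz (A.ρ * N))).and (hy (A.ρ * w + A.ρ * N))).exists
    exact hi1.1 k ((E_congr le_rfl hi2 (agree_W hi3 (hv k)).1).2 hE)
  · obtain ⟨g, hg, e⟩ := hk
    obtain ⟨hgG, hgz⟩ := (A.mem_Fix_singleton).1 hg
    obtain ⟨m, hm⟩ := A.exists_W hgG
    obtain ⟨i, ⟨hi1, hi2⟩, hi3⟩ :=
      ((hev.and (hz (A.ρ * m))).and (hy (A.ρ * (m + w)))).exists
    apply hi1.2 k k'
    refine ⟨g, (A.mem_Fix_singleton).2 ⟨hgG, ?_⟩, ?_⟩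
    · exact (fix_iff_of_agree (A.W_isPW hm) hi2).2 hgz
    · have h3 : IsPW (A.ρ * (m + w)) (g * v k) := A.W_isPW (A.W_mul hm (hv k))
      have h4 : IsPW (A.ρ * (m + w)) (v k') :=
        IsPW.mono (Nat.mul_le_mul_left _ (Nat.le_add_left w m)) (A.W_isPW (hv k'))
      exact (eq_iff_of_agree h4 h3 hi3).2 e

theorem ind_const [Finite F] {A : Sys b F} (hA : A.Reduced) (h2 : A.FREE2) {j : ℕ}
    {z y z' y' : Pt b F} (hz : z ∈ A.D) (hy : y ∈ A.D) (hz' : z' ∈ A.D) (hy' : y' ∈ A.D)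
    (h : A.Ind j z y) : A.Ind j z' y' := by
  choose g hg hgz using fun n : ℕ => A.minimal z hz z' hz' n
  choose k hk hky using fun n : ℕ => A.minimal y hy y' hy' n
  have hge : ∀ m : ℕ, ∀ᶠ i in ((Filter.hyperfilter ℕ : Ultrafilter ℕ) : Filter ℕ), m ≤ i :=
    fun m => Nat.hyperfilter_le_atTop (Filter.eventually_ge_atTop m)
  exact ind_ulim hA h2 (U := Filter.hyperfilter ℕ) (z' := fun n => g n z) (y' := fun n => k n y)
    (fun N => (hge N).mono fun i hi => (hgz i).mono hi)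
    (fun N => (hge N).mono fun i hi => (hky i).mono hi) hz' hy'
    (Filter.Eventually.of_forall fun n => ind_inv h (hg n) (hk n))

theorem exists_J [Finite F] {A : Sys b F} (hA : A.Reduced) (h2 : A.FREE2) : ∃ J : ℕ,
    ∀ z ∈ A.D, ∀ y ∈ A.D, A.Ind J z y ∧ ¬ A.Ind (J + 1) z y := by
  classical
  obtain ⟨x0, hx0⟩ := A.nonempty
  obtain ⟨C, hC⟩ := ind_bound hA h2
  have h0 : A.Ind 0 x0 x0 :=
    ⟨fun i => i.elim0, fun i => i.elim0, fun i => i.elim0, fun i => i.elim0⟩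
  let J := Nat.findGreatest (fun j => A.Ind j x0 x0) C
  have hJ : A.Ind J x0 x0 := Nat.findGreatest_spec (P := fun j => A.Ind j x0 x0) (Nat.zero_le C) h0
  have hJ' : ¬ A.Ind (J + 1) x0 x0 := by
    intro h
    have h1 := hC _ x0 hx0 x0 hx0 h
    have h3 : J + 1 ≤ J := Nat.le_findGreatest (P := fun j => A.Ind j x0 x0) h1 h
    omega
  refine ⟨J, fun z hz y hy => ⟨ind_const hA h2 hx0 hx0 hz hy hJ, fun h => ?_⟩⟩
  exact hJ' (ind_const hA h2 hz hy hx0 hx0 h)

theorem ind_max {A : Sys b F} {j : ℕ} {z y : Pt b F} (h : ¬ A.Ind (j + 1) z y)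
    {u : Fin j → Equiv.Perm (Pt b F)} (h1 : ∀ i, u i ∈ A.G) (h2 : ∀ i, ¬ A.Rel z (u i y))
    (h3 : ∀ i i', u i' y ∈ A.orbz z (u i y) → i = i') {a : Pt b F} (ha : a ∈ A.orb y)
    (hr : ¬ A.Rel z a) : ∃ i, a ∈ A.orbz z (u i y) := by
  by_contra hcon
  push Not at hcon
  obtain ⟨g0, hg0, rfl⟩ := ha
  apply h
  refine ⟨Fin.cons g0 u, ?_, ?_, ?_⟩
  · intro i
    refine Fin.cases ?_ (fun i => ?_) i
    · rw [Fin.cons_zero]
      exact hg0
    · rw [Fin.cons_succ]
      exact h1 i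
  · intro i
    refine Fin.cases ?_ (fun i => ?_) i
    · rw [Fin.cons_zero]
      exact hr
    · rw [Fin.cons_succ]
      exact h2 i
  · intro i i'
    refine Fin.cases ?_ (fun i => ?_) i
    · refine Fin.cases ?_ (fun i' => ?_) i'
      · exact fun _ => rfl
      · rw [Fin.cons_zero, Fin.cons_succ]
        intro hi
        exfalso
        apply hcon i'
        rw [orbz_eq hi]
        exact orbz_self _ _
    · refine Fin.cases ?_ (fun i' => ?_) i'
      · rw [Fin.cons_zero, Fin.cons_succ]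
        intro hi
        exact absurd hi (hcon i)
      · rw [Fin.cons_succ, Fin.cons_succ]
        intro hi
        rw [h3 i i' hi]

end Sys

end Pool.Agent.helper98.NIG
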