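import Pool.Agent.helper35.NIG.Q09

/-!
# NIG-Q10: uniform transitivity inside of the orbits of the stabilisers

PROOFS.
* `ut_local`. By `conn_fin` it is enough to find, for every fixed `v` in the finite set `W (K (d + 1))`, an `M` such that for all
  `z, y ∈ D` with `¬ E N z y`, `¬ E N z (v y)`, `v y ∈ orbz z y` there is `h ∈ Stb M {z}` with `h y = v y` (then take the maximum
  over `v`, `Stb_mono`). Suppose not: for every `n : ℕ` there are `z n`, `y n` with these properties and `v (y n) ≠ h (y n)`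
  for all `h ∈ Stb n {z n}`. Let `z`, `y` be limits along `U = Filter.hyperfilter ℕ` (`exists_ulim`, `mem_D_of_ulim`);
  `¬ E N z y`, `¬ E N z (v y)` (`E_congr`, `agree_W`). Let `J` be the number of `exists_J`. For every `n` take
  `u n : Fin J → W w` by `ind_norm` for `(z n, y n)`, and `i n` with `y n ∈ orbz (z n) (u n (i n) (y n))` (`ind_max`; `y n` is not
  related to `z n`). Finitely many values: `u n = u`, `i n = i` for `U`-almost all `n`. The points `u j y` are pairwise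
  inequivalent under the stabiliser of `z` and not related to `z` (as in `ind_ulim`), so by `ind_max` (for `(z, y)`) there is
  `j` with `y ∈ orbz z (u j y)`, say `y = g (u j y)`, `g ∈ Fix {z}`. For `U`-almost all `n` this holds with `z n`, `y n`
  (`fix_iff_of_agree`, `eq_iff_of_agree`), so `y n ∈ orbz (z n) (u j (y n))`, and `j = i` by the inequivalence. In the same way
  there is `j'` with `v y ∈ orbz z (u j' y)`, and `v (y n) ∈ orbz (z n) (u j' (y n))` for `U`-almost all `n`; as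
  `v (y n) ∈ orbz (z n) (y n) = orbz (z n) (u i (y n))` we get `j' = i`. So `v y ∈ orbz z y`: `v y = g y` with `g ∈ Fix {z}`,
  `g ∈ W m ∩ Stb m {z}` (`exists_Stb`). For `U`-almost all `n`: `g (z n) = z n`, `g (y n) = v (y n)` and `m ≤ n`, so
  `g ∈ Stb n {z n}` (`mem_Stb`, `W_mono`): contradiction.
* `unif_trans`: `M1` from `FREE2` for `N`; `N'` from `exists_not_E (ρ M1)`, `N'' = max N N'`; `M2` from
  `ut_local N'' (3 (ρ M1 + 1))`; `M = max M1 M2`. Let `z, y, g` be given. `Unb (Stb M1 {z}) (g y)`, so the set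
  `S = {k (g y) | k ∈ Stb M1 {z}}` has bounded gaps `ρ M1` (`hit_Stb`); `exists_not_E` (with `n = 0`, positions relative to
  `y`) gives `k` with `0 ≤ pos y (k (g y)) ≤ 3 (ρ M1 + 1)` and `¬ E N' z (k (g y))`. `k g ∈ Fix {z}` and `ut_local` gives
  `h' ∈ Stb M2 {z}` with `h' y = k (g y)`. `h = k⁻¹ h'`.
-/

namespace Pool.Agent.helper98.NIG

variable {b : Base} {F : Type}

namespace Sys

theorem Q10_ev {n : ℕ} : ∀ᶠ i in (Filter.hyperfilter ℕ : Filter ℕ), n ≤ i := by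
  have h1 : (Filter.hyperfilter ℕ : Filter ℕ) ≤ Filter.atTop := by
    rw [← Nat.cofinite_eq_atTop]
    exact Filter.hyperfilter_le_cofinite
  exact h1 (Filter.eventually_ge_atTop n)

/-- a sequence with finitely many values is constant along an ultrafilter -/
theorem Q10_const {α : Type*} {s : Set α} (hs : s.Finite) {U : Ultrafilter ℕ} {u : ℕ → α}
    (hu : ∀ n, u n ∈ s) : ∃ a ∈ s, ∀ᶠ n in (U : Filter ℕ), u n = a := by
  rw [← Ultrafilter.eventually_exists_mem_iff hs]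
  exact Filter.Eventually.of_forall fun n => ⟨u n, hu n, rfl⟩

/-- the relation of being in the same orbit of the stabiliser is open -/
theorem Q10_transfer {A : Sys b F} {U : Ultrafilter ℕ} {z' y' : ℕ → Pt b F} {z y : Pt b F}
    (hz : ∀ N : ℕ, ∀ᶠ i in (U : Filter ℕ), Agree N (z' i) z)
    (hy : ∀ N : ℕ, ∀ᶠ i in (U : Filter ℕ), Agree N (y' i) y) {a1 a2 g : Equiv.Perm (Pt b F)}
    (h1 : a1 ∈ A.G) (h2 : a2 ∈ A.G) (hg : g ∈ A.Fix {z}) (h : a2 y = g (a1 y)) :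
    ∀ᶠ i in (U : Filter ℕ), g (z' i) = z' i ∧ a2 (y' i) = g (a1 (y' i)) := by
  rw [A.mem_Fix_singleton] at hg
  obtain ⟨r1, hr1, -⟩ := A.G_le_PW hg.1
  obtain ⟨r2, hr2, -⟩ := A.G_le_PW (A.G.mul_mem hg.1 h1)
  obtain ⟨r3, hr3, -⟩ := A.G_le_PW h2
  filter_upwards [hz r1, hy (r2 + r3)] with i hi hi'
  refine ⟨(fix_iff_of_agree hr1 hi).2 hg.2, ?_⟩
  have h4 := (eq_iff_of_agree (hr3.mono (Nat.le_add_left r3 r2)) (hr2.mono (Nat.le_add_right r2 r3))
    hi').2 h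
  exact h4

theorem ut_local [Finite F] {A : Sys b F} (hA : A.Reduced) (h2 : A.FREE2) (N d : ℕ) :
    ∃ M : ℕ, ∀ z ∈ A.D, ∀ y ∈ A.D, ∀ g ∈ A.Fix {z}, |disp g y| ≤ d → ¬ A.E N z y →
      ¬ A.E N z (g y) → ∃ h ∈ A.Stb M {z}, h y = g y := by
  by_contra hcon
  push Not at hcon
  choose z' hz'D y' hy'D g' hg' hd hE1 hE2 hne using hcon
  obtain ⟨K, hK0, hK⟩ := exists_CONN A
  have hgG : ∀ n, g' n ∈ A.G := fun n => ((A.mem_Fix_singleton).1 (hg' n)).1
  have hv := fun n => conn_fin hK (hy'D n) (hgG n) (hd n)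
  choose v' hv'W hv' using hv
  obtain ⟨J, hJ⟩ := exists_J hA h2
  obtain ⟨N1, w, hN1⟩ := ind_norm hA h2
  have hu := fun n => hN1 J (z' n) (hz'D n) (y' n) (hy'D n) (hJ _ (hz'D n) _ (hy'D n)).1
  choose u' hu'W hu'E hu'I using hu
  have hrel : ∀ n, ¬ A.Rel (z' n) (y' n) := fun n h => hE1 n (rel_iff.1 h N)
  have huG : ∀ n i, u' n i ∈ A.G := fun n i => A.W_le_G (hu'W n i)
  have hi := fun n => ind_max (hJ _ (hz'D n) _ (hy'D n)).2 (huG n)
    (fun i h => hu'E n i (rel_iff.1 h N1)) (hu'I n) (a := y' n) ⟨1, A.G.one_mem, rfl⟩ (hrel n)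
  choose i' hi' using hi
  set U : Ultrafilter ℕ := Filter.hyperfilter ℕ with hU
  obtain ⟨z, hz⟩ := exists_ulim U z'
  obtain ⟨y, hy⟩ := exists_ulim U y'
  have hzD : z ∈ A.D := A.mem_D_of_ulim hz (Filter.Eventually.of_forall hz'D)
  have hyD : y ∈ A.D := A.mem_D_of_ulim hy (Filter.Eventually.of_forall hy'D)
  obtain ⟨v, hvW, hv⟩ := Q10_const (A.W_finite (K * (d + 1))) (U := U) hv'W
  have hufin : (Set.pi Set.univ (fun _ : Fin J => A.W w)).Finite :=
    Set.Finite.pi' (fun _ => A.W_finite w) |>.subset (fun u hu i => hu i (Set.mem_univ i))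
  obtain ⟨u, huW, hu⟩ := Q10_const hufin (U := U) (u := u') (fun n i _ => hu'W n i)
  have huW' : ∀ i, u i ∈ A.W w := fun i => huW i (Set.mem_univ i)
  have huG' : ∀ i, u i ∈ A.G := fun i => A.W_le_G (huW' i)
  obtain ⟨i0, -, hi0⟩ := Q10_const (Set.finite_univ (α := Fin J)) (U := U) (u := i')
    (fun n => Set.mem_univ _)
  -- the limit pair
  have hEzy : ¬ A.E N z y := by
    obtain ⟨n, h3, h4⟩ := ((hz (A.ρ * N)).and (hy (A.ρ * N))).exists
    rw [← E_congr le_rfl h3 h4]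
    exact hE1 n
  have hEzv : ¬ A.E N z (v y) := by
    obtain ⟨n, ⟨h3, h4⟩, h5⟩ := (((hz (A.ρ * N)).and
      (hy (A.ρ * (K * (d + 1)) + A.ρ * N))).and hv).exists
    have h6 := (agree_W h4 hvW).1
    rw [← E_congr le_rfl h3 h6]
    rw [← h5, hv' n]
    exact hE2 n
  have hEzu : ∀ i, ¬ A.E N1 z (u i y) := by
    intro i
    obtain ⟨n, ⟨h3, h4⟩, h5⟩ := (((hz (A.ρ * N1)).and
      (hy (A.ρ * w + A.ρ * N1))).and hu).exists
    have h6 := (agree_W h4 (huW' i)).1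
    rw [← E_congr le_rfl h3 h6]
    rw [← h5]
    exact hu'E n i
  have hI : ∀ i i', u i' y ∈ A.orbz z (u i y) → i = i' := by
    rintro i1 i2 ⟨g, hg, h3⟩
    obtain ⟨n, ⟨h4, h5⟩, h6⟩ := ((Q10_transfer hz hy (huG' i1) (huG' i2) hg h3).and hu).exists
    apply hu'I n
    rw [h6]
    exact ⟨g, (A.mem_Fix_singleton).2 ⟨((A.mem_Fix_singleton).1 hg).1, h4⟩, h5⟩
  -- an element of the limit strand, unrelated, is equivalent to `u i0 y` if it is so before
  have hmain : ∀ a ∈ A.G, ¬ A.Rel z (a y) →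
      (∀ᶠ n in (U : Filter ℕ), a (y' n) ∈ A.orbz (z' n) (u i0 (y' n))) →
      a y ∈ A.orbz z (u i0 y) := by
    intro a ha hr hev
    obtain ⟨j, hj⟩ := ind_max (hJ z hzD y hyD).2 huG' (fun i h => hEzu i (rel_iff.1 h N1)) hI
      (a := a y) ⟨a, ha, rfl⟩ hr
    have hj' := hj
    obtain ⟨g, hg, h3⟩ := hj
    obtain ⟨n, ⟨⟨h4, h5⟩, h6⟩, h7⟩ :=
      (((Q10_transfer hz hy (huG' j) ha hg h3).and hu).and hev).exists
    have h8 : a (y' n) ∈ A.orbz (z' n) (u j (y' n)) :=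
      ⟨g, (A.mem_Fix_singleton).2 ⟨((A.mem_Fix_singleton).1 hg).1, h4⟩, h5⟩
    have h9 : u j (y' n) ∈ A.orbz (z' n) (u i0 (y' n)) := by
      rw [← orbz_eq h7, orbz_eq h8]
      exact orbz_self _ _
    have h10 : i0 = j := by
      apply hu'I n
      rw [h6]
      exact h9
    rw [h10]
    exact hj'
  have hyi : ∀ᶠ n in (U : Filter ℕ), y' n ∈ A.orbz (z' n) (u i0 (y' n)) := by
    filter_upwards [hu, hi0] with n h3 h4
    have h5 := hi' n
    rw [h3, h4] at h5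
    exact h5
  have h3 : y ∈ A.orbz z (u i0 y) :=
    hmain 1 A.G.one_mem (fun h => hEzy (rel_iff.1 h N)) hyi
  have h4 : v y ∈ A.orbz z (u i0 y) := by
    refine hmain v (A.W_le_G hvW) (fun h => hEzv (rel_iff.1 h N)) ?_
    filter_upwards [hyi, hv] with n h5 h6
    rw [← orbz_eq h5]
    exact ⟨g' n, hg' n, by rw [← h6, hv' n]⟩
  rw [← orbz_eq h3] at h4
  obtain ⟨g, hg, h5⟩ := h4
  obtain ⟨m, hm, -⟩ := A.exists_Stb hg
  obtain ⟨n, ⟨⟨h6, h7⟩, h8⟩, h9⟩ :=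
    (((Q10_transfer hz hy A.G.one_mem (A.W_le_G hvW) hg h5).and hv).and
      (Q10_ev (n := m))).exists
  apply hne n g (A.mem_Stb (A.W_mono h9 hm) (by
    intro x hx
    rw [Set.mem_singleton_iff] at hx
    rw [hx]
    exact h6))
  rw [← hv' n, h8, h7]
  rfl

theorem unif_trans [Finite F] {A : Sys b F} (hA : A.Reduced) (h2 : A.FREE2) (N : ℕ) :
    ∃ M : ℕ, ∀ z ∈ A.D, ∀ y ∈ A.D, ∀ g ∈ A.Fix {z}, ¬ A.E N z y →
      ¬ A.E N z (g y) → ∃ h ∈ A.Stb M {z}, h y = g y := by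
  obtain ⟨M1, hM1⟩ := h2 N
  obtain ⟨N', hN'⟩ := exists_not_E hA (A.ρ * M1)
  obtain ⟨M2, hM2⟩ := ut_local hA h2 (max N N') (3 * (A.ρ * M1 + 1))
  refine ⟨max M1 M2, fun z hz y hy g hg hE1 hE2 => ?_⟩
  have hgG : g ∈ A.G := ((A.mem_Fix_singleton).1 hg).1
  have hgy : g y ∈ A.D := A.map_mem hgG hy
  have hunb := hM1 z hz (g y) hgy hE2
  have hpos : ∀ k ∈ A.Stb M1 {z}, pos y (k (g y)) = disp g y + disp k (g y) := by
    intro k hk
    have hkG : k ∈ A.G := ((A.mem_Fix_singleton).1 (A.Stb_le_Fix _ _ hk)).1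
    exact pos_add (sameLine_of_mem_PW (A.G_le_PW hgG) y) (sameLine_of_mem_PW (A.G_le_PW hkG) (g y))
  obtain ⟨a, ⟨k, hk, rfl⟩, h3, h4, h5⟩ := hN' z hz y hy {a | ∃ k ∈ A.Stb M1 {z}, k (g y) = a} (by
      rintro _ ⟨k, hk, rfl⟩
      have hkG : k ∈ A.G := ((A.mem_Fix_singleton).1 (A.Stb_le_Fix _ _ hk)).1
      exact ⟨k * g, A.G.mul_mem hkG hgG, rfl⟩) (by
      intro n
      obtain ⟨k, hk, h3, h4⟩ := hit_Stb hunb (n - disp g y)
      refine ⟨k (g y), ⟨k, hk, rfl⟩, ?_, ?_⟩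
      · rw [hpos k hk]; linarith
      · rw [hpos k hk]; linarith) 0
  have hkF : k * g ∈ A.Fix {z} := (A.Fix {z}).mul_mem (A.Stb_le_Fix _ _ hk) hg
  obtain ⟨h', hh', h6⟩ := hM2 z hz y hy (k * g) hkF (by
      have : disp (k * g) y = pos y (k (g y)) := rfl
      rw [this, abs_of_nonneg h3]
      simpa using h4) (fun h => hE1 (E_mono (le_max_left _ _) h))
      (fun h => h5 (E_mono (le_max_right _ _) h))
  refine ⟨k⁻¹ * h', (A.Stb _ _).mul_mem ((A.Stb _ _).inv_mem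
    (A.Stb_mono (le_max_left _ _) _ hk)) (A.Stb_mono (le_max_right _ _) _ hh'), ?_⟩
  rw [Equiv.Perm.mul_apply, h6, Equiv.Perm.mul_apply, Equiv.Perm.inv_eq_iff_eq]

end Sys

end Pool.Agent.helper98.NIG
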