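import Pool.Agent.helper35.NIG.Q10

/-!
# NIG-Q11: closeness of the decompositions into orbits of stabilisers

PROOFS.
* `cls_mono`: `sml_mono`. `cls_trans`: `symmDiff a c ⊆ symmDiff a b ∪ symmDiff b c` (`symmDiff_triangle`), `sml_union`.
* `cls_map`: let `y ∈ orb y0`, `¬ Rel (g z) y`. Apply the hypothesis to `g⁻¹ y`: `y' ∈ orb y0`. Take `g y'`. `orbz_map`:
  `orbz (g z) y = g '' orbz z (g⁻¹ y)`, `orbz (g z') (g y') = g '' orbz z' y'`; `Set.image_symmDiff` (`g` is injective), `sml_map`.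
* `cls_of_agree`: `N1` from `sml_E ε`, `N2, L` from `syn2'`, `N = max N1 N2`, `M` from `unif_trans N`, `n = ρ * max N M`. Let `z, z' ∈ D`
  with `Agree n z z'`. Then `E N z a ↔ E N z' a` for all `a` (`E_congr`, `Agree.refl`), and `Stb M {z} = Stb M {z'}` (`Stb_eq_of_agree`).
  Let `y ∈ orb y0`, `¬ Rel z y`; by `syn2'` there is `y1 = g y`, `g ∈ Fix {z}`, with `¬ E N z y1` (`E_mono`); take `y' = y1`:
  `¬ E N z' y1`, so `¬ Rel z' y1` (`rel_iff`). `orbz z y = orbz z y1` (`orbz_eq`). The symmetric difference of `orbz z y1` and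
  `orbz z' y1` is contained in `{a | a ∈ D ∧ E N z a}`: if `a ∈ orbz z y1` and `¬ E N z a` then `a = h y1` with
  `h ∈ Stb M {z} = Stb M {z'} ≤ Fix {z'}`, so `a ∈ orbz z' y1`; and conversely. `sml_mono`, `sml_E`, `E_mono`.
* `cls_symm`: `L` from `orbz_large`, `ε0 = 1 / (4 (L + 1))`. Let `J` be the number of `exists_J` and `u : Fin J → Perm` given by
  `Ind J z y0`; `y_i = u i y0`. `Cls` gives `y'_i ∈ orb y0`, `¬ Rel z' y'_i`, with small symmetric difference. They are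
  inequivalent under the stabiliser of `z'`: if `orbz z' y'_i = orbz z' y'_j =: O` and `i ≠ j` then
  `orbz z y_i ⊆ symmDiff (orbz z y_i) O ∪ symmDiff (orbz z y_j) O` (because `orbz z y_i`, `orbz z y_j` are disjoint,
  `orbz_disj`), so `Sml y0 (orbz z y_i) (2 ε)` and `1 ≤ 2 ε (L + 1) ≤ 1/2`. Let `y' ∈ orb y0`, `¬ Rel z' y'`: by `ind_max` for
  `(z', y0)` there is `i` with `y' ∈ orbz z' y'_i`, so `orbz z' y' = orbz z' y'_i`; take `y_i` (`symmDiff_comm`).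
-/

namespace Pool.Agent.helper98.NIG

variable {b : Base} {F : Type}

namespace Sys

theorem cls_mono [Finite F] {A : Sys b F} {y0 z z' : Pt b F} {ε ε' : ℝ} (h : ε ≤ ε')
    (hc : A.Cls y0 ε z z') : A.Cls y0 ε' z z' := by
  intro y hy hr
  obtain ⟨y', h1, h2, h3⟩ := hc y hy hr
  exact ⟨y', h1, h2, sml_mono subset_rfl h h3⟩

theorem cls_trans [Finite F] {A : Sys b F} {y0 z z' z'' : Pt b F} {ε ε' : ℝ}
    (h : A.Cls y0 ε z z') (h' : A.Cls y0 ε' z' z'') : A.Cls y0 (ε + ε') z z'' := by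
  intro y hy hr
  obtain ⟨y', h1, h2, h3⟩ := h y hy hr
  obtain ⟨y'', h4, h5, h6⟩ := h' y' h1 h2
  exact ⟨y'', h4, h5, sml_mono (symmDiff_triangle _ _ _) le_rfl (sml_union h3 h6)⟩

theorem cls_map [Finite F] {A : Sys b F} {y0 z z' : Pt b F} {ε : ℝ}
    (h : A.Cls y0 ε z z') {g : Equiv.Perm (Pt b F)} (hg : g ∈ A.G) :
    A.Cls y0 ε (g z) (g z') := by
  intro y hy hr
  have e1 : g (g⁻¹ y) = y := g.apply_symm_apply y
  have hy1 : g⁻¹ y ∈ A.orb y0 := by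
    obtain ⟨k, hk, rfl⟩ := hy
    exact ⟨g⁻¹ * k, A.G.mul_mem (A.G.inv_mem hg) hk, rfl⟩
  have hr1 : ¬ A.Rel z (g⁻¹ y) := by
    rw [← rel_map_iff hg, e1]
    exact hr
  obtain ⟨y', h1, h2, h3⟩ := h _ hy1 hr1
  refine ⟨g y', ?_, fun h' => h2 ((rel_map_iff hg).1 h'), ?_⟩
  · obtain ⟨k, hk, rfl⟩ := h1
    exact ⟨g * k, A.G.mul_mem hg hk, rfl⟩
  · have e2 : A.orbz (g z) y = g '' A.orbz z (g⁻¹ y) := by
      rw [← orbz_map hg, e1]
    rw [e2, orbz_map hg, ← Set.image_symmDiff g.injective]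
    exact sml_map (A.G_le_PW hg) h3

theorem cls_of_agree [Finite F] {A : Sys b F} (hA : A.Reduced) (h2 : A.FREE2) {ε : ℝ}
    (hε : 0 < ε) : ∃ n : ℕ, ∀ z ∈ A.D, ∀ z' ∈ A.D, Agree n z z' → ∀ y0 ∈ A.D,
      A.Cls y0 ε z z' := by
  obtain ⟨N1, hN1⟩ := sml_E hA hε
  obtain ⟨N2, L, hN2⟩ := syn2' hA h2
  obtain ⟨M, hM⟩ := unif_trans hA h2 (max N1 N2)
  refine ⟨A.ρ * max (max N1 N2) M, fun z hz z' hz' hag y0 hy0 y hy hr => ?_⟩
  have hE : ∀ a, A.E (max N1 N2) z a ↔ A.E (max N1 N2) z' a := fun a =>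
    E_congr (Nat.mul_le_mul_left _ (le_max_left _ _)) hag (Agree.refl _ a)
  have hS : A.Stb M {z} = A.Stb M {z'} :=
    Stb_eq_of_agree (hag.mono (Nat.mul_le_mul_left _ (le_max_right _ _)))
  obtain ⟨k, hk, rfl⟩ := hy
  have hyD : k y0 ∈ A.D := A.map_mem hk hy0
  obtain ⟨g, hg, -, -, hg3⟩ := hN2 z hz (k y0) hyD hr 0
  have hgG : g ∈ A.G := ((A.mem_Fix_singleton).1 hg).1
  have hy1D : g (k y0) ∈ A.D := A.map_mem hgG hyD
  have hn1 : ¬ A.E (max N1 N2) z (g (k y0)) := fun h => hg3 (E_mono (le_max_right _ _) h)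
  have hn1' : ¬ A.E (max N1 N2) z' (g (k y0)) := fun h => hn1 ((hE _).2 h)
  refine ⟨g (k y0), ⟨g * k, A.G.mul_mem hgG hk, rfl⟩, fun h => hn1' (rel_iff.1 h _), ?_⟩
  have e1 : A.orbz z (k y0) = A.orbz z (g (k y0)) :=
    (orbz_eq (⟨g, hg, rfl⟩ : g (k y0) ∈ A.orbz z (k y0))).symm
  rw [e1]
  refine sml_mono ?_ le_rfl (hN1 z hz y0)
  rintro a (⟨ha, ha'⟩ | ⟨ha, ha'⟩)
  · obtain ⟨h, hh, rfl⟩ := ha
    refine ⟨A.map_mem ((A.mem_Fix_singleton).1 hh).1 hy1D, ?_⟩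
    by_contra hcon
    have hn2 : ¬ A.E (max N1 N2) z (h (g (k y0))) := fun h' => hcon (E_mono (le_max_left _ _) h')
    obtain ⟨h', hh', e⟩ := hM z hz _ hy1D h hh hn1 hn2
    rw [hS] at hh'
    exact ha' ⟨h', A.Stb_le_Fix M {z'} hh', e.symm⟩
  · obtain ⟨h, hh, rfl⟩ := ha
    refine ⟨A.map_mem ((A.mem_Fix_singleton).1 hh).1 hy1D, ?_⟩
    by_contra hcon
    have hn2 : ¬ A.E (max N1 N2) z' (h (g (k y0))) := fun h' =>
      hcon (E_mono (le_max_left _ _) ((hE _).2 h'))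
    obtain ⟨h', hh', e⟩ := hM z' hz' _ hy1D h hh hn1' hn2
    rw [← hS] at hh'
    exact ha' ⟨h', A.Stb_le_Fix M {z} hh', e.symm⟩

theorem cls_symm [Finite F] {A : Sys b F} (hA : A.Reduced) (h2 : A.FREE2) : ∃ ε0 : ℝ,
    0 < ε0 ∧ ∀ ε : ℝ, ε ≤ ε0 → ∀ z ∈ A.D, ∀ z' ∈ A.D, ∀ y0 ∈ A.D, A.Cls y0 ε z z' →
      A.Cls y0 ε z' z := by
  obtain ⟨L, hL⟩ := orbz_large hA h2
  obtain ⟨J, hJ⟩ := exists_J hA h2
  have hLpos : (0 : ℝ) < (L : ℝ) + 1 := by positivity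
  refine ⟨1 / (4 * ((L : ℝ) + 1)), by positivity, ?_⟩
  intro ε hε z hz z' hz' y0 hy0 hc y' hy' hr'
  obtain ⟨⟨u, hu1, hu2, hu3⟩, -⟩ := hJ z hz y0 hy0
  have hy : ∀ i, u i y0 ∈ A.orb y0 := fun i => ⟨u i, hu1 i, rfl⟩
  choose w hw1 hw2 hw3 using fun i => hc (u i y0) (hy i) (hu2 i)
  have hw4 : ∀ i, ∃ g ∈ A.G, w i = g y0 := hw1
  choose v hv1 hv2 using hw4
  have hind : ∀ i i', v i' y0 ∈ A.orbz z' (v i y0) → i = i' := by
    intro i i' h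
    by_contra hne
    have e : A.orbz z' (w i') = A.orbz z' (w i) := by
      rw [hv2 i, hv2 i']
      exact orbz_eq h
    have hd : Disjoint (A.orbz z (u i y0)) (A.orbz z (u i' y0)) :=
      orbz_disj fun h' => hne (hu3 i i' h')
    have hs : Sml y0 (A.orbz z (u i y0)) (ε + ε) := by
      refine sml_mono ?_ le_rfl (sml_union (hw3 i) (hw3 i'))
      intro a ha
      rw [e]
      by_cases h1 : a ∈ A.orbz z' (w i)
      · exact Or.inr (Or.inr ⟨h1, Set.disjoint_left.1 hd ha⟩)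
      · exact Or.inl (Or.inl ⟨ha, h1⟩)
    have h1 := hL z hz (u i y0) (A.map_mem (hu1 i) hy0) (hu2 i) y0
      (sameLine_of_mem_PW (A.G_le_PW (hu1 i)) y0) (ε + ε) hs
    have h3 : (ε + ε) * ((L : ℝ) + 1) ≤ 1 / 2 := by
      have h4 : ε * ((L : ℝ) + 1) ≤ 1 / (4 * ((L : ℝ) + 1)) * ((L : ℝ) + 1) :=
        mul_le_mul_of_nonneg_right hε hLpos.le
      have h5 : 1 / (4 * ((L : ℝ) + 1)) * ((L : ℝ) + 1) = 1 / 4 := by
        field_simp
      rw [h5] at h4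
      linarith
    linarith
  obtain ⟨i, hi⟩ := ind_max (hJ z' hz' y0 hy0).2 hv1
    (fun i => by rw [← hv2 i]; exact hw2 i) hind hy' hr'
  refine ⟨u i y0, hy i, hu2 i, ?_⟩
  rw [orbz_eq hi, ← hv2 i, symmDiff_comm]
  exact hw3 i

end Sys

end Pool.Agent.helper98.NIG
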