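import Pool.Agent.helper35.NIG.Q11

/-!
# NIG-Q12: all points of a strand have the same decompositions up to density zero

PROOF of `eqv_all`. Fix `y0, z0 ∈ D` and let `Eq z z'` mean `∀ ε > 0, Cls y0 ε z z'`. It is reflexive (`cls_of_agree` with
`Agree.refl`), symmetric (`cls_symm` and `cls_mono`: for `ε > 0` use `min ε ε0`), transitive (`ε / 2 + ε / 2`), and invariant
under `G` (`cls_map`).
(1) Let `T` be given by `finite_orbits` for `z = z0` and the strand of `z0`. For `t ∈ T` with `¬ Eq z0 t` choose `ε_t > 0` with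
    `¬ Cls y0 ε_t z0 t`; let `ε1 > 0` be at most all these `ε_t`. CLAIM: if `z' ∈ orb z0` and `Cls y0 ε1 z0 z'` then `Eq z0 z'`.
    Indeed `z' ∈ orbz z0 t` for some `t ∈ T`, `z' = g t` with `g z0 = z0`; `cls_map` with `g⁻¹` gives `Cls y0 ε1 z0 t`, so
    `Eq z0 t` by the choice of `ε1` (`cls_mono`), and `cls_map` with `g` gives `Eq z0 z'`.
(2) Let `n` be given by `cls_of_agree ε1`: if `z' ∈ orb z0`, `Agree n z0 z'` then `Eq z0 z'`.
(3) `U = {g ∈ G | Eq z0 (g z0)}` is a subgroup of `G`: `Eq z0 (g z0)`, `Eq z0 (h z0)` give `Eq (g z0) (g (h z0))`, so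
    `Eq z0 ((g h) z0)`; `Eq (g⁻¹ z0) z0` for the inverse.
(4) FINITE INDEX: `w` from `recur n`; for every `g ∈ G` choose `c g ∈ W w` with `Agree n (c g (g z0)) z0`, so `c g * g ∈ U` by (2)
    (`Agree.symm`). If `c g = c g'` then `g⁻¹ g' = (c g * g)⁻¹ (c g' * g') ∈ U`. `relIndex_of_map` with `ι` the finite type of the
    elements of `W w` (for `g ∉ G` let `c g = 1`).
(5) `NB` for `U` gives for every `g ∈ G` an element `u ∈ U` with `u z0 = g z0`, so `Eq z0 (g z0)`.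
-/

namespace Pool.Agent.helper98.NIG

variable {b : Base} {F : Type}

namespace Sys

theorem eqv_all [Finite F] {A : Sys b F} (hA : A.Reduced) (h2 : A.FREE2) (hNB : A.NB)
    {y0 z0 : Pt b F} (hy : y0 ∈ A.D) (hz : z0 ∈ A.D) {g : Equiv.Perm (Pt b F)} (hg : g ∈ A.G)
    {ε : ℝ} (hε : 0 < ε) : A.Cls y0 ε z0 (g z0) := by
  classical
  -- the equivalence relation
  have hrefl : ∀ z ∈ A.D, ∀ δ : ℝ, 0 < δ → A.Cls y0 δ z z := by
    intro z hz δ hδ
    obtain ⟨n, hn⟩ := cls_of_agree hA h2 hδ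
    exact hn z hz z hz (Agree.refl n z) y0 hy
  have hsymm : ∀ z ∈ A.D, ∀ z' ∈ A.D, (∀ δ : ℝ, 0 < δ → A.Cls y0 δ z z') →
      ∀ δ : ℝ, 0 < δ → A.Cls y0 δ z' z := by
    intro z hz z' hz' h δ hδ
    obtain ⟨ε0, hε0, hs⟩ := cls_symm hA h2
    exact cls_mono (min_le_left δ ε0)
      (hs _ (min_le_right δ ε0) z hz z' hz' y0 hy (h _ (lt_min hδ hε0)))
  have htrans : ∀ z z' z'' : Pt b F, (∀ δ : ℝ, 0 < δ → A.Cls y0 δ z z') →
      (∀ δ : ℝ, 0 < δ → A.Cls y0 δ z' z'') → ∀ δ : ℝ, 0 < δ → A.Cls y0 δ z z'' := by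
    intro z z' z'' h h' δ hδ
    have := cls_trans (h (δ / 2) (by positivity)) (h' (δ / 2) (by positivity))
    rwa [add_halves] at this
  have hmapD : ∀ g ∈ A.G, g z0 ∈ A.D := fun g hg => A.map_mem hg hz
  -- (1)
  obtain ⟨T, hT, hT'⟩ := finite_orbits hA h2 hz hz
  have h1 : ∀ T : Finset (Pt b F), ∃ ε1 : ℝ, 0 < ε1 ∧ ∀ t ∈ T, A.Cls y0 ε1 z0 t →
      ∀ δ : ℝ, 0 < δ → A.Cls y0 δ z0 t := by
    intro T
    induction T using Finset.induction_on with
    | empty => exact ⟨1, one_pos, by simp⟩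
    | insert t T _ ih =>
      obtain ⟨ε1, hε1, h⟩ := ih
      by_cases hc : ∀ δ : ℝ, 0 < δ → A.Cls y0 δ z0 t
      · refine ⟨ε1, hε1, fun s hs hcs => ?_⟩
        rcases Finset.mem_insert.1 hs with rfl | hs
        · exact hc
        · exact h s hs hcs
      · push Not at hc
        obtain ⟨δ, hδ, hcδ⟩ := hc
        refine ⟨min ε1 δ, lt_min hε1 hδ, fun s hs hcs => ?_⟩
        rcases Finset.mem_insert.1 hs with rfl | hs
        · exact (hcδ (cls_mono (min_le_right _ _) hcs)).elim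
        · exact h s hs (cls_mono (min_le_left _ _) hcs)
  obtain ⟨ε1, hε1, h1⟩ := h1 T
  have claim : ∀ z' ∈ A.orb z0, A.Cls y0 ε1 z0 z' → ∀ δ : ℝ, 0 < δ → A.Cls y0 δ z0 z' := by
    intro z' hz' hc
    obtain ⟨t, ht, k, hk, rfl⟩ := hT' z' hz'
    obtain ⟨hkG, hkz⟩ := (A.mem_Fix_singleton).1 hk
    have hki : k⁻¹ z0 = z0 := by
      rw [Equiv.Perm.inv_eq_iff_eq]
      exact hkz.symm
    have h3 := cls_map hc (A.G.inv_mem hkG)
    rw [hki, pinv_apply] at h3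
    intro δ hδ
    have h4 := cls_map (h1 t ht h3 δ hδ) hkG
    rwa [hkz] at h4
  -- (2)
  obtain ⟨n, hn⟩ := cls_of_agree hA h2 hε1
  -- (3)
  let U : Subgroup (Equiv.Perm (Pt b F)) :=
    { carrier := {g | g ∈ A.G ∧ ∀ δ : ℝ, 0 < δ → A.Cls y0 δ z0 (g z0)}
      one_mem' := ⟨A.G.one_mem, hrefl z0 hz⟩
      mul_mem' := by
        rintro g h ⟨hg, hg'⟩ ⟨hh, hh'⟩
        refine ⟨A.G.mul_mem hg hh, ?_⟩
        rw [Equiv.Perm.mul_apply]
        exact htrans _ _ _ hg' fun δ hδ => cls_map (hh' δ hδ) hg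
      inv_mem' := by
        rintro g ⟨hg, hg'⟩
        refine ⟨A.G.inv_mem hg, ?_⟩
        have h5 : ∀ δ : ℝ, 0 < δ → A.Cls y0 δ (g⁻¹ z0) z0 := by
          intro δ hδ
          have := cls_map (hg' δ hδ) (A.G.inv_mem hg)
          rwa [pinv_apply] at this
        exact hsymm _ (hmapD _ (A.G.inv_mem hg)) _ hz h5 }
  have hU : U ≤ A.G := fun g hg => hg.1
  -- (4)
  obtain ⟨w, hw⟩ := A.recur n
  have hex : ∀ g : Equiv.Perm (Pt b F), ∃ c : A.W w, g ∈ A.G → c.1 * g ∈ U := by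
    intro g
    by_cases hg : g ∈ A.G
    · obtain ⟨h, hh, hag⟩ := hw (g z0) (hmapD g hg) z0 hz
      refine ⟨⟨h, hh⟩, fun _ => ?_⟩
      have hhG := A.W_le_G hh
      have hD := hmapD (h * g) (A.G.mul_mem hhG hg)
      refine ⟨A.G.mul_mem hhG hg, ?_⟩
      exact claim _ ⟨h * g, A.G.mul_mem hhG hg, rfl⟩ (hn z0 hz _ hD hag.symm y0 hy)
    · exact ⟨⟨1, A.one_mem_W w⟩, fun h => (hg h).elim⟩
  choose c hc using hex
  have hfin : Finite (A.W w) := A.W_finite w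
  have hidx := (relIndex_of_map (K := U) (H := A.G) c (fun g hg g' hg' he => by
    have h5 := U.mul_mem (U.inv_mem (hc g hg)) (hc g' hg')
    rw [he] at h5
    have e : ((c g').1 * g)⁻¹ * ((c g').1 * g') = g⁻¹ * g' := by group
    rwa [e] at h5)).1
  -- (5)
  obtain ⟨u, hu, hug⟩ := hNB U hU hidx z0 hz g hg
  have h6 := hu.2 ε hε
  rwa [hug] at h6

end Sys

end Pool.Agent.helper98.NIG
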