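import Pool.Agent.helper35.NIG.Q12

/-!
# NIG-Q13: the stabiliser of a point is transitive on the unrelated points of every strand

PROOFS.
* `gm_refl`: `symmDiff_self`, `sml_empty`. `gm_symm`: `symmDiff_comm`. `gm_trans`: `symmDiff_triangle`, `sml_union` with `ε / 2`.
* `gm_map`: `orbz_map`, `Set.image_symmDiff`, `sml_map`.
* `gm_orbz`: `orbz_eq`.
* `gm_unique`: if `y' ∉ orbz z y` then the orbits are disjoint (`orbz_disj`), so the symmetric difference contains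
  `orbz z y`, which would be `ε`-small for all `ε > 0`; `orbz_large` with `ε = 1 / (2 (L + 1))`.
* `gm_exists`: `T` from `finite_orbits` for `z'`. For every `n : ℕ` there is `y'_n ∈ orb y0`, `¬ Rel z' y'_n`, with
  `Sml y0 (symmDiff (orbz z y) (orbz z' y'_n)) (1 / (n + 1))`, and `t_n ∈ T` with `y'_n ∈ orbz z' t_n`. Some `t ∈ T` is `t_n` for
  infinitely many `n` (pigeonhole; e.g. an ultrafilter, or: if not, for every `t` a bound). `orbz z' t = orbz z' y'_n` for these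
  `n`, so `Gm y0 z y z' t` by `sml_mono`. `¬ Rel z' t` by `orbz_rel`.
* `tr1`. For `Z = ∅` take `h = g`. Let `Z = {z0}`, `y1 ∈ D`, `y2 = g1 y1`, both not related to `z0`, and suppose
  `y2 ∉ orbz z0 y1`. Put `y0 = y1`. Note that `eqv_all` gives `Cls y0 ε (g z0) (g' z0)` for all `g, g' ∈ G`, `ε > 0` (apply it at the point
  `g z0` with the element `g' g⁻¹`).
  (1) `K = {g ∈ G | Gm y0 (g z0) (g y2) z0 y2}` is a subgroup (`gm_map`, `gm_trans`, `gm_symm`).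
  (2) FINITE INDEX: `T` from `finite_orbits` for `z0` and the strand of `y0`; for `g ∈ G` there is by `gm_exists` (from `g z0` to `z0`)
      some `y' ∈ orb y0` with `Gm y0 (g z0) (g y2) z0 y'`, and `c g ∈ T` with `y' ∈ orbz z0 (c g)`, so
      `Gm y0 (g z0) (g y2) z0 (c g)` (`gm_orbz`). If `c g = c g'` then `Gm y0 (g' z0) (g' y2) (g z0) (g y2)`, and `gm_map` with `g⁻¹`
      shows `g⁻¹ g' ∈ K`. `relIndex_of_map`: `K.relIndex G ≠ 0`, `≤ m := T.card`.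
  (3) `N, L` from `syn2 m`. Let `I` be the (finite) set of the points of `orb z0` at positions in `[0, L]` relative to `z0`. For
      every `z ∈ I` (`z = g z0`) `gm_exists` gives `y_z ∈ orb y0` with `Gm y0 z0 y1 z y_z`. So `orbz z0 y1 \ orbz z y_z` is `ε`-small for
      all `ε > 0`. By `sml_iInter` and `orbz_large` (`orbz z0 y1` is not `ε`-small for `ε = 1 / (2 (L' + 1))`) and `sml_inter_nonempty` there is
      a point `a ∈ orbz z0 y1` with `a ∈ orbz z y_z` for all `z ∈ I`.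
  (4) `a ∈ orb y0 = orb y2`, so by `NB` for `K` there is `k ∈ K` with `k y2 = a`. `¬ Rel a (k z0)` (`rel_map_iff`, `Rel.symm`). `syn2` for `K`
      at the pair `(a, k z0)` with `n = - pos z0 (k z0)` gives `h ∈ K`, `h a = a`, with `z := h (k z0) ∈ I`.
  (5) `h k ∈ K` and `(h k) y2 = a`: `Gm y0 z a z0 y2`. `a ∈ orbz z y_z` and `Gm y0 z0 y1 z y_z` give `Gm y0 z0 y1 z a` (`gm_orbz`). So
      `Gm y0 z0 y1 z0 y2`, and `gm_unique` gives `y2 ∈ orbz z0 y1`: contradiction.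
-/

namespace Pool.Agent.helper98.NIG

variable {b : Base} {F : Type}

namespace Sys

theorem gm_refl {A : Sys b F} (y0 z y : Pt b F) : A.Gm y0 z y z y := by
  intro ε hε
  rw [symmDiff_self, Set.bot_eq_empty]
  exact sml_empty y0 hε.le

theorem gm_symm {A : Sys b F} {y0 z y z' y' : Pt b F} (h : A.Gm y0 z y z' y') :
    A.Gm y0 z' y' z y := by
  intro ε hε
  rw [symmDiff_comm]
  exact h ε hε

theorem gm_trans [Finite F] {A : Sys b F} {y0 z y z' y' z'' y'' : Pt b F}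
    (h : A.Gm y0 z y z' y') (h' : A.Gm y0 z' y' z'' y'') : A.Gm y0 z y z'' y'' := by
  intro ε hε
  exact sml_mono (symmDiff_triangle _ (A.orbz z' y') _) (by linarith)
    (sml_union (h (ε / 2) (by linarith)) (h' (ε / 2) (by linarith)))

theorem gm_map [Finite F] {A : Sys b F} {y0 z y z' y' : Pt b F} (h : A.Gm y0 z y z' y')
    {g : Equiv.Perm (Pt b F)} (hg : g ∈ A.G) : A.Gm y0 (g z) (g y) (g z') (g y') := by
  intro ε hε
  rw [orbz_map hg, orbz_map hg, ← Set.image_symmDiff g.injective]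
  exact sml_map (A.G_le_PW hg) (h ε hε)

theorem gm_orbz {A : Sys b F} {y0 z y z' y' a : Pt b F} (h : A.Gm y0 z y z' y')
    (ha : a ∈ A.orbz z' y') : A.Gm y0 z y z' a := by
  intro ε hε
  rw [orbz_eq ha]
  exact h ε hε

theorem gm_unique [Finite F] {A : Sys b F} (hA : A.Reduced) (h2 : A.FREE2)
    {y0 z y y' : Pt b F} (hz : z ∈ A.D) (hy0 : y0 ∈ A.D) (hy : y ∈ A.orb y0)
    (hr : ¬ A.Rel z y) (h : A.Gm y0 z y z y') : y' ∈ A.orbz z y := by
  by_contra hn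
  obtain ⟨L, hL⟩ := orbz_large hA h2
  obtain ⟨g, hg, rfl⟩ := hy
  have hd := orbz_disj hn
  have hLpos : (0 : ℝ) < (L : ℝ) + 1 := by positivity
  have hs : Sml y0 (A.orbz z (g y0)) (1 / (2 * ((L : ℝ) + 1))) := by
    refine sml_mono ?_ le_rfl (h (1 / (2 * ((L : ℝ) + 1))) (by positivity))
    intro a ha
    exact Or.inl ⟨ha, Set.disjoint_left.1 hd ha⟩
  have h1 := hL z hz (g y0) (A.map_mem hg hy0) hr y0
    (sameLine_of_mem_PW (A.G_le_PW hg) y0) _ hs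
  have h5 : 1 / (2 * ((L : ℝ) + 1)) * ((L : ℝ) + 1) = 1 / 2 := by
    field_simp
  rw [h5] at h1
  norm_num at h1

theorem gm_exists [Finite F] {A : Sys b F} (hA : A.Reduced) (h2 : A.FREE2)
    {y0 z z' y : Pt b F} (hz' : z' ∈ A.D) (hy0 : y0 ∈ A.D)
    (hc : ∀ ε : ℝ, 0 < ε → A.Cls y0 ε z z') (hy : y ∈ A.orb y0) (hr : ¬ A.Rel z y) :
    ∃ y' ∈ A.orb y0, ¬ A.Rel z' y' ∧ A.Gm y0 z y z' y' := by
  classical
  obtain ⟨T, hT1, hT2⟩ := finite_orbits hA h2 hz' hy0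
  by_contra hcon
  push Not at hcon
  have he : ∀ t : Pt b F, ∃ e : ℝ, 0 < e ∧ (t ∈ A.orb y0 → ¬ A.Rel z' t →
      ¬ Sml y0 (symmDiff (A.orbz z y) (A.orbz z' t)) e) := by
    intro t
    by_cases h1 : t ∈ A.orb y0 ∧ ¬ A.Rel z' t
    · have h3 := hcon t h1.1 h1.2
      unfold Gm at h3
      push Not at h3
      obtain ⟨e, he, he'⟩ := h3
      exact ⟨e, he, fun _ _ => he'⟩
    · exact ⟨1, one_pos, fun h3 h4 => absurd ⟨h3, h4⟩ h1⟩
  choose e he1 he2 using he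
  have hmin : ∀ T : Finset (Pt b F), ∃ ε : ℝ, 0 < ε ∧ ∀ t ∈ T, ε ≤ e t := by
    intro T
    induction T using Finset.induction_on with
    | empty => exact ⟨1, one_pos, fun t ht => absurd ht (Finset.notMem_empty t)⟩
    | insert a s ha ih =>
      obtain ⟨ε, hε, h⟩ := ih
      refine ⟨min ε (e a), lt_min hε (he1 a), fun t ht => ?_⟩
      rcases Finset.mem_insert.1 ht with rfl | ht
      · exact min_le_right _ _
      · exact (min_le_left _ _).trans (h t ht)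
  obtain ⟨ε, hε, hεT⟩ := hmin T
  obtain ⟨y', hy', hr', hs⟩ := hc ε hε y hy hr
  obtain ⟨t, ht, hyt⟩ := hT2 y' hy'
  refine he2 t (hT1 t ht) (fun h => hr' ((orbz_rel hyt).2 h)) ?_
  rw [orbz_eq hyt] at hs
  exact sml_mono le_rfl (hεT t ht) hs

theorem q13_aux [Finite F] {A : Sys b F} (hA : A.Reduced) (h2 : A.FREE2) (hNB : A.NB)
    {z0 y0 : Pt b F} (hz0 : z0 ∈ A.D) (hy0 : y0 ∈ A.D) {g1 : Equiv.Perm (Pt b F)}
    (hg1 : g1 ∈ A.G) (hr1 : ¬ A.Rel z0 y0) (hr2 : ¬ A.Rel z0 (g1 y0)) :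
    g1 y0 ∈ A.orbz z0 y0 := by
  classical
  by_contra hcon
  obtain ⟨y2, hy2⟩ : ∃ y2, y2 = g1 y0 := ⟨_, rfl⟩
  rw [← hy2] at hcon hr2
  have hinv : ∀ (g : Equiv.Perm (Pt b F)) (x : Pt b F), g⁻¹ (g x) = x := fun g x =>
    g.symm_apply_apply x
  have hinv' : ∀ (g : Equiv.Perm (Pt b F)) (x : Pt b F), g (g⁻¹ x) = x := fun g x =>
    g.apply_symm_apply x
  have hE : ∀ g ∈ A.G, ∀ g' ∈ A.G, ∀ ε : ℝ, 0 < ε → A.Cls y0 ε (g z0) (g' z0) := by
    intro g hg g' hg' ε hε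
    have h := eqv_all hA h2 hNB hy0 (A.map_mem hg hz0) (A.G.mul_mem hg' (A.G.inv_mem hg)) hε
    rwa [Equiv.Perm.mul_apply, hinv] at h
  have hy0o : y0 ∈ A.orb y0 := ⟨1, A.G.one_mem, rfl⟩
  have hy2o : ∀ g ∈ A.G, g y2 ∈ A.orb y0 := by
    intro g hg
    exact ⟨g * g1, A.G.mul_mem hg hg1, by rw [hy2, Equiv.Perm.mul_apply]⟩
  -- the subgroup
  let K : Subgroup (Equiv.Perm (Pt b F)) :=
    { carrier := {g | g ∈ A.G ∧ A.Gm y0 (g z0) (g y2) z0 y2}
      one_mem' := ⟨A.G.one_mem, gm_refl y0 z0 y2⟩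
      mul_mem' := by
        rintro g h ⟨hg, hg'⟩ ⟨hh, hh'⟩
        exact ⟨A.G.mul_mem hg hh, gm_trans (gm_map hh' hg) hg'⟩
      inv_mem' := by
        rintro g ⟨hg, hg'⟩
        refine ⟨A.G.inv_mem hg, ?_⟩
        have h := gm_map hg' (A.G.inv_mem hg)
        rw [hinv, hinv] at h
        exact gm_symm h }
  have hKmem : ∀ g, g ∈ K ↔ g ∈ A.G ∧ A.Gm y0 (g z0) (g y2) z0 y2 := fun g => Iff.rfl
  have hKG : K ≤ A.G := fun g hg => hg.1
  -- finite index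
  obtain ⟨T, hT1, hT2⟩ := finite_orbits hA h2 hz0 hy0
  obtain ⟨t0, ht0, -⟩ := hT2 y0 hy0o
  have hcex : ∀ g : Equiv.Perm (Pt b F), ∃ t : T, g ∈ A.G → A.Gm y0 (g z0) (g y2) z0 (t : Pt b F) := by
    intro g
    by_cases hg : g ∈ A.G
    · obtain ⟨y', hy', -, hgm⟩ := gm_exists hA h2 (z := g z0) (z' := z0) (y := g y2) hz0 hy0
        (fun ε hε => by
          have h := hE g hg 1 A.G.one_mem ε hε
          exact h) (hy2o g hg) (fun h => hr2 ((rel_map_iff hg).1 h))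
      obtain ⟨t, ht, hyt⟩ := hT2 y' hy'
      refine ⟨⟨t, ht⟩, fun _ => gm_orbz hgm ?_⟩
      rw [orbz_eq hyt]
      exact orbz_self z0 t
    · exact ⟨⟨t0, ht0⟩, fun h => absurd h hg⟩
  choose c hc using hcex
  obtain ⟨hK0, hKm⟩ := relIndex_of_map (K := K) (H := A.G) c (by
    intro g hg g' hg' hgg
    refine (hKmem _).2 ⟨A.G.mul_mem (A.G.inv_mem hg) hg', ?_⟩
    have e1 := hc g hg
    have e2 := hc g' hg'
    rw [← hgg] at e2
    have e3 := gm_map (gm_trans e2 (gm_symm e1)) (A.G.inv_mem hg)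
    rw [hinv, hinv] at e3
    exact e3)
  -- the finite set of the points in the window
  obtain ⟨N, L, hNL⟩ := syn2 hA h2 (Nat.card T)
  have hIfin : {z : Pt b F | z ∈ A.orb z0 ∧ 0 ≤ pos z0 z ∧ pos z0 z ≤ L}.Finite := by
    have h1 : ((Set.Icc (0 : ℤ) L) ×ˢ (Set.univ : Set F)).Finite :=
      (Set.finite_Icc _ _).prod Set.finite_univ
    refine (h1.image fun q : ℤ × F => ((sh q.1 z0.1, q.2) : Pt b F)).subset ?_
    rintro z ⟨⟨g, hg, rfl⟩, h3, h4⟩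
    exact ⟨(pos z0 (g z0), (g z0).2), ⟨⟨h3, h4⟩, trivial⟩,
      (eq_of_pos (sameLine_of_mem_PW (A.G_le_PW hg) z0)).symm⟩
  have hyz : ∀ z : Pt b F, ∃ y' : Pt b F, z ∈ A.orb z0 → A.Gm y0 z0 y0 z y' := by
    intro z
    by_cases hz : z ∈ A.orb z0
    · obtain ⟨g, hg, rfl⟩ := hz
      obtain ⟨y', -, -, h⟩ := gm_exists hA h2 (z := z0) (z' := g z0) (y := y0)
        (A.map_mem hg hz0) hy0 (fun ε hε => by
          have h := hE 1 A.G.one_mem g hg ε hε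
          exact h) hy0o hr1
      exact ⟨y', fun _ => h⟩
    · exact ⟨y0, fun h => absurd h hz⟩
  choose yz hyz using hyz
  obtain ⟨L', hL'⟩ := orbz_large hA h2
  have hsm : ∀ ε : ℝ, 0 < ε →
      Sml y0 (A.orbz z0 y0 \ ⋂ z ∈ hIfin.toFinset, A.orbz z (yz z)) ε := by
    refine sml_iInter hIfin.toFinset fun z hz ε hε => ?_
    have hz' := (hIfin.mem_toFinset.1 hz).1
    exact sml_mono (fun x hx => Or.inl hx) le_rfl (hyz z hz' ε hε)
  have hε0 : (0 : ℝ) < 1 / (2 * ((L' : ℝ) + 1)) := by positivity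
  have hnS : ¬ Sml y0 (A.orbz z0 y0) (1 / (2 * ((L' : ℝ) + 1))) := by
    intro h
    have h3 := hL' z0 hz0 y0 hy0 hr1 y0 (sameLine_refl y0) _ h
    have h4 : 1 / (2 * ((L' : ℝ) + 1)) * ((L' : ℝ) + 1) = 1 / 2 := by
      have : ((L' : ℝ) + 1) ≠ 0 := by positivity
      field_simp
    rw [h4] at h3
    norm_num at h3
  obtain ⟨a, ha1, ha2⟩ := sml_inter_nonempty hε0.le hnS (hsm _ hε0)
  -- move y2 to a
  obtain ⟨ga, hga, hga'⟩ := orbz_sub z0 y0 ha1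
  have haD : a ∈ A.D := by rw [hga']; exact A.map_mem hga hy0
  obtain ⟨k, hk, hk'⟩ := hNB K hKG hK0 y2 (by rw [hy2]; exact A.map_mem hg1 hy0)
    (ga * g1⁻¹) (A.G.mul_mem hga (A.G.inv_mem hg1))
  rw [hy2, Equiv.Perm.mul_apply, hinv, ← hga', ← hy2] at hk'
  have hkG := hKG hk
  have hrk : ¬ A.Rel a (k z0) := by
    intro h
    apply hr2
    rw [← hk'] at h
    exact (rel_map_iff hkG).1 h.symm
  obtain ⟨h, hh, hha, hd1, hd2, -⟩ := hNL K hKG hK0 hKm a haD (k z0) (A.map_mem hkG hz0) hrk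
    (- pos z0 (k z0))
  have hhG := hKG hh
  have hpos : pos z0 (h (k z0)) = pos z0 (k z0) + disp h (k z0) :=
    pos_add (sameLine_of_mem_PW (A.G_le_PW hkG) z0) (sameLine_of_mem_PW (A.G_le_PW hhG) (k z0))
  have hzo : h (k z0) ∈ A.orb z0 := ⟨h * k, A.G.mul_mem hhG hkG, rfl⟩
  have hzI : h (k z0) ∈ hIfin.toFinset := hIfin.mem_toFinset.2 ⟨hzo, by
    rw [hpos]; linarith, by rw [hpos]; linarith⟩
  have hhk := (hKmem _).1 (K.mul_mem hh hk)
  have h5 := hhk.2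
  rw [Equiv.Perm.mul_apply, Equiv.Perm.mul_apply, hk', hha] at h5
  have h6 : a ∈ A.orbz (h (k z0)) (yz (h (k z0))) := by
    have h7 := Set.mem_iInter₂.1 ha2 (h (k z0)) hzI
    exact h7
  have h8 := gm_orbz (hyz _ hzo) h6
  exact hcon (gm_unique hA h2 hz0 hy0 hy0o hr1 (gm_trans h8 h5))

theorem tr1 [Finite F] {A : Sys b F} (hA : A.Reduced) (h2 : A.FREE2) (hNB : A.NB) :
    A.Tr 1 := by
  intro Z hZ hc x hx g hg hr1 hr2
  rcases Nat.le_one_iff_eq_zero_or_eq_one.1 hc with h | h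
  · rw [Finset.card_eq_zero] at h
    subst h
    exact ⟨g, ⟨hg, fun z hz => by simp at hz⟩, rfl⟩
  · obtain ⟨z0, rfl⟩ := Finset.card_eq_one.1 h
    have hz0 : z0 ∈ A.D := hZ (by simp)
    obtain ⟨h', hh', hh''⟩ := q13_aux hA h2 hNB hz0 hx hg (hr1 z0 (by simp)) (hr2 z0 (by simp))
    refine ⟨h', ?_, hh''.symm⟩
    rw [Finset.coe_singleton]
    exact hh'

end Sys

end Pool.Agent.helper98.NIG
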