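import Pool.Agent.helper35.NIG.Q08

/-!
# NIG-Q14: local transitivity (LT) and the large orbit

PROOFS.
* `lt`: by `conn_fin` (`exists_CONN`) we may replace `g` by an element of the finite set `W (K (d + 1))` with the same value at `x`
  (note that `NE N Z (g x)` depends only on `g x`); so it is enough to find, for every fixed `g ∈ W (K (d + 1))`, an `M`, and to
  take the maximum (`W_mono`; `Set.Finite` induction or a finset supremum). For a fixed `g ∈ G` apply `compact1` with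
  `C x := x ∈ D ∧ NE N Z x ∧ NE N Z (g x)` and `P M x := ∃ h ∈ W M, (∀ z ∈ Z, h z = z) ∧ h x = g x`. `C` is clopen: `A.clopen`, `E_congr`,
  `agree_W` (radius: `g ∈ W m` for some `m`; `ρ (N + m) + ρ`). `P` is monotone (`W_mono`) and open: `h x = g x` is an open condition on
  `x` (`eq_iff_of_agree`, `W_isPW`). Pointwise: `Tr m` gives `h ∈ Fix Z` with `h x = g x` (`NR_of_NE`), and `exists_W`.
* `sparse_NE`: let `W = (2 * Z.card + 1) * (ρ + 1)` and `N` from `sparse W` (the same `N` works for all `z`). Let `y ∈ D` and `n : ℤ`.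
  By `A.syn` the orbit of `y` has a point `a_i` at a position in `[n + i (ρ + 1), n + i (ρ + 1) + ρ]`, `0 ≤ i ≤ 2 * Z.card`: these are
  `2 Z.card + 1` different points in `[n, n + W]`. For every `z ∈ Z` at most two of them are locked to `z` (`sparse`), so
  one of them is not locked to any `z ∈ Z` (pigeonhole, `Finset.exists_lt_card_fiber_of_mul_lt_card_of_maps_to`).
  The number `N` may be enlarged (`NE_mono`).
* `big_orbit`: `N0, W` from `sparse_NE`, `N1` from `sml_E (ε / (card Z + 1))`, `N = max N0 N1`, `M` from `lt N (W + 1)`. Let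
  `S = {a ∈ orb y0 | NE N Z a}`: it has a point in every window `[n, n + W]`. Let `y1 ∈ S` (window `[0, W]`), positions now relative
  to `y1`. CLAIM: every `a ∈ S` is `h y1` for some `h ∈ Stb M Z`. Strong induction on `|pos y1 a|`: if `|pos y1 a| ≤ W + 1` use `lt`
  directly (`a = g y1` with `g ∈ G`, `|disp g y1| ≤ W + 1`). If `p = pos y1 a > W + 1` take `a' ∈ S` at a position in `[p - W - 1, p - 1]`
  (it is `≥ 0` and `< p`); by induction `a' = h' y1`, and `lt` at `a'` gives `h ∈ W M` fixing `Z` with `h a' = a`. The same on the left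
  with the window `[p + 1, p + W + 1]`. So `orb y0 \ {h y1 | h ∈ Stb M Z}` is contained in the union over `z ∈ Z` of
  `{a | a ∈ D ∧ E N z a}`, which is `ε`-small (`sml_union`, induction on `Z`; `sml_E`, `E_mono`).
-/

namespace Pool.Agent.helper98.NIG

variable {b : Base} {F : Type}

namespace Sys

/-- local transitivity -/
theorem lt [Finite F] {A : Sys b F} {m : ℕ} (hT : A.Tr m) {Z : Finset (Pt b F)}
    (hZ : (Z : Set (Pt b F)) ⊆ A.D) (hc : Z.card ≤ m) (N d : ℕ) : ∃ M : ℕ, ∀ x ∈ A.D,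
      ∀ g ∈ A.G, |disp g x| ≤ d → A.NE N Z x → A.NE N Z (g x) →
        ∃ h ∈ A.W M, (∀ z ∈ Z, h z = z) ∧ h x = g x := by
  classical
  obtain ⟨K, -, hK⟩ := exists_CONN A
  -- one element
  have one : ∀ (n : ℕ) (g : Equiv.Perm (Pt b F)), g ∈ A.W n → ∃ M : ℕ, ∀ x ∈ A.D,
      A.NE N Z x → A.NE N Z (g x) → ∃ h ∈ A.W M, (∀ z ∈ Z, h z = z) ∧ h x = g x := by
    intro n g hg
    obtain ⟨M, hM⟩ := compact1 (fun x => x ∈ A.D ∧ A.NE N Z x ∧ A.NE N Z (g x))
      (A.ρ * n + A.ρ * N + A.ρ) (by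
        rintro x x' hxx ⟨h1, h2, h3⟩
        have e1 : Agree (A.ρ * N) x x' := hxx.mono (by omega)
        have e2 : Agree (A.ρ * N) (g x) (g x') := (agree_W (n := n) (hxx.mono (by omega)) hg).1
        refine ⟨(A.clopen _ _ (hxx.mono (by omega))).1 h1, fun z hz h => h2 z hz ?_,
          fun z hz h => h3 z hz ?_⟩
        · exact (E_congr le_rfl (Agree.refl _ z) e1).2 h
        · exact (E_congr le_rfl (Agree.refl _ z) e2).2 h)
      (fun M x => ∃ h ∈ A.W M, (∀ z ∈ Z, h z = z) ∧ h x = g x)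
      (by
        rintro m m' x hmm ⟨h, h1, h2, h3⟩
        exact ⟨h, A.W_mono hmm h1, h2, h3⟩)
      (by
        rintro M x - ⟨h, h1, h2, h3⟩
        refine ⟨A.ρ * M + A.ρ * n, fun x' _ hxx => ⟨h, h1, h2, ?_⟩⟩
        exact (eq_iff_of_agree ((A.W_isPW h1).mono (by omega)) ((A.W_isPW hg).mono (by omega))
          hxx).1 h3)
      (by
        rintro x ⟨h1, h2, h3⟩
        obtain ⟨h, hh, hx⟩ := hT Z hZ hc x h1 g (A.W_le_G hg) (NR_of_NE h2) (NR_of_NE h3)
        obtain ⟨M, hM⟩ := A.exists_W hh.1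
        exact ⟨M, h, hM, fun z hz => hh.2 z hz, hx⟩)
    exact ⟨M, fun x hx h1 h2 => hM x ⟨hx, h1, h2⟩⟩
  choose! Mf hMf using one (K * (d + 1))
  have hfin := A.W_finite (K * (d + 1))
  refine ⟨hfin.toFinset.sup Mf, fun x hx g hg hd h1 h2 => ?_⟩
  obtain ⟨g', hg', hgx⟩ := conn_fin hK hx hg hd
  obtain ⟨h, hh, hz, hhx⟩ := hMf g' hg' x hx h1 (by rw [hgx]; exact h2)
  exact ⟨h, A.W_mono (Finset.le_sup (f := Mf) (hfin.mem_toFinset.2 hg')) hh, hz, by
    rw [hhx, hgx]⟩

theorem sparse_NE [Finite F] {A : Sys b F} (hA : A.Reduced) {Z : Finset (Pt b F)}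
    (hZ : (Z : Set (Pt b F)) ⊆ A.D) : ∃ N : ℕ, ∀ N' : ℕ, N ≤ N' → ∀ y ∈ A.D, ∀ n : ℤ,
      ∃ g ∈ A.G, n ≤ disp g y ∧ disp g y ≤ n + ((2 * Z.card + 1) * (A.ρ + 1) : ℕ) ∧
        A.NE N' Z (g y) := by
  classical
  obtain ⟨N, hN⟩ := sparse hA ((2 * Z.card + 1) * (A.ρ + 1))
  refine ⟨N, fun N' hNN y hy n => ?_⟩
  -- the points in the windows
  have hsyn : ∀ i : ℕ, ∃ g ∈ A.G, n + i * (A.ρ + 1) ≤ disp g y ∧
      disp g y < n + (i + 1) * (A.ρ + 1) := by
    intro i
    obtain ⟨g, hg, h1, h2⟩ := exists_SYN A y hy (n + i * (A.ρ + 1))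
    refine ⟨g, hg, h1, ?_⟩
    push_cast at h2
    linarith
  choose g hg h1 h2 using hsyn
  have hmono : ∀ i j : ℕ, i < j → disp (g i) y < disp (g j) y := by
    intro i j hij
    have e1 := h2 i
    have e2 := h1 j
    have e3 : ((i : ℤ) + 1) * (A.ρ + 1) ≤ j * (A.ρ + 1) :=
      mul_le_mul_of_nonneg_right (by omega) (by omega)
    linarith
  have hinj : ∀ i j : ℕ, g i y = g j y → i = j := by
    intro i j hij
    have e : disp (g i) y = disp (g j) y := by rw [disp, disp, hij]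
    rcases lt_trichotomy i j with h | h | h
    · exact absurd e (hmono i j h).ne
    · exact h
    · exact absurd e (hmono j i h).ne'
  have hdist : ∀ i j : ℕ, i ≤ 2 * Z.card → j ≤ 2 * Z.card →
      |pos (g i y) (g j y)| ≤ ((2 * Z.card + 1) * (A.ρ + 1) : ℕ) := by
    intro i j hi hj
    have hl := sameLine_of_mem_PW (A.G_le_PW (hg i)) y
    have hl' := sameLine_of_mem_PW (A.G_le_PW (hg j)) y
    have e1 := pos_add (sameLine_symm hl) hl'
    rw [pos_neg hl] at e1
    have e2 : pos y (g i y) = disp (g i) y := rfl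
    have e3 : pos y (g j y) = disp (g j) y := rfl
    have hb : ∀ k : ℕ, k ≤ 2 * Z.card → n ≤ disp (g k) y ∧
        disp (g k) y ≤ n + (2 * Z.card + 1) * (A.ρ + 1) := by
      intro k hk
      have f1 := h1 k
      have f2 := h2 k
      have f3 : (0 : ℤ) ≤ k * (A.ρ + 1) := by positivity
      have f4 : ((k : ℤ) + 1) * (A.ρ + 1) ≤ (2 * Z.card + 1) * (A.ρ + 1) :=
        mul_le_mul_of_nonneg_right (by omega) (by omega)
      exact ⟨by linarith, by linarith⟩
    rw [e1, e2, e3]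
    have f5 := hb i hi
    have f6 := hb j hj
    push_cast
    rw [abs_le]
    constructor <;> linarith [f5.1, f5.2, f6.1, f6.2]
  -- pigeonhole
  have key : ∃ i ≤ 2 * Z.card, A.NE N' Z (g i y) := by
    by_contra hcon
    push Not at hcon
    have hz : ∀ i : ℕ, ∃ z : Pt b F, i ≤ 2 * Z.card → z ∈ Z ∧ A.E N z (g i y) := by
      intro i
      by_cases hi : i ≤ 2 * Z.card
      · have h3 := hcon i hi
        unfold NE at h3
        push Not at h3
        obtain ⟨z, hz, hz'⟩ := h3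
        exact ⟨z, fun _ => ⟨hz, E_mono hNN hz'⟩⟩
      · exact ⟨y, fun h => absurd h hi⟩
    choose zf hzf using hz
    obtain ⟨z, hz, hlt⟩ := Finset.exists_lt_card_fiber_of_mul_lt_card_of_maps_to
      (s := Finset.range (2 * Z.card + 1)) (t := Z) (f := zf) (n := 2)
      (fun i hi => (hzf i (by simpa [Nat.lt_succ_iff] using hi)).1)
      (by rw [Finset.card_range]; omega)
    obtain ⟨i1, i2, i3, m1, m2, m3, n12, n13, n23⟩ := Finset.two_lt_card_iff.1 hlt
    simp only [Finset.mem_filter, Finset.mem_range] at m1 m2 m3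
    have k1 := (hzf i1 (by omega)).2
    have k2 := (hzf i2 (by omega)).2
    have k3 := (hzf i3 (by omega)).2
    rw [m1.2] at k1
    rw [m2.2] at k2
    rw [m3.2] at k3
    have l : ∀ i j, SameLine (g i y) (g j y) := fun i j =>
      sameLine_trans (sameLine_symm (sameLine_of_mem_PW (A.G_le_PW (hg i)) y))
        (sameLine_of_mem_PW (A.G_le_PW (hg j)) y)
    rcases hN z (hZ hz) (g i1 y) (A.map_mem (hg _) hy) (g i2 y) (A.map_mem (hg _) hy) (g i3 y)
      (A.map_mem (hg _) hy) (l _ _) (l _ _) (hdist i1 i2 (by omega) (by omega))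
      (hdist i1 i3 (by omega) (by omega)) k1 k2 k3 with h | h | h
    · exact n12 (hinj _ _ h)
    · exact n13 (hinj _ _ h)
    · exact n23 (hinj _ _ h)
  obtain ⟨i, hi, hi'⟩ := key
  refine ⟨g i, hg i, ?_, ?_, hi'⟩
  · have f1 := h1 i
    have f3 : (0 : ℤ) ≤ i * (A.ρ + 1) := by positivity
    linarith
  · have f2 := h2 i
    have f4 : ((i : ℤ) + 1) * (A.ρ + 1) ≤ (2 * Z.card + 1) * (A.ρ + 1) :=
      mul_le_mul_of_nonneg_right (by omega) (by omega)
    push_cast
    linarith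

theorem big_orbit [Finite F] {A : Sys b F} (hA : A.Reduced) {m : ℕ} (hT : A.Tr m)
    {Z : Finset (Pt b F)} (hZ : (Z : Set (Pt b F)) ⊆ A.D) (hc : Z.card ≤ m) {y0 : Pt b F}
    (hy : y0 ∈ A.D) {ε : ℝ} (hε : 0 < ε) : ∃ M : ℕ, ∃ y1 ∈ A.orb y0,
      Sml y0 (A.orb y0 \ {a | ∃ h ∈ A.Stb M Z, a = h y1}) ε := by
  classical
  obtain ⟨N0, hN0⟩ := sparse_NE hA hZ
  have hε' : 0 < ε / ((Z.card : ℝ) + 1) := by positivity
  obtain ⟨N1, hN1⟩ := sml_E hA hε'
  set W : ℕ := (2 * Z.card + 1) * (A.ρ + 1) with hW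
  set N : ℕ := max N0 N1 with hN
  obtain ⟨M, hM⟩ := lt hT hZ hc N (W + 1)
  obtain ⟨g1, hg1, -, -, h1⟩ := hN0 N (le_max_left _ _) y0 hy 0
  have hy1 : g1 y0 ∈ A.D := (A.map_mem_iff hg1).2 hy
  refine ⟨M, g1 y0, ⟨g1, hg1, rfl⟩, ?_⟩
  set y1 := g1 y0 with hy1'
  -- the claim
  have claim : ∀ (k : ℕ) (g : Equiv.Perm (Pt b F)), g ∈ A.G → (disp g y1).natAbs = k →
      A.NE N Z (g y1) → ∃ h ∈ A.Stb M Z, g y1 = h y1 := by
    intro k
    induction k using Nat.strong_induction_on with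
    | _ k ih =>
      intro g hg hk hgN
      by_cases hsmall : |disp g y1| ≤ (W + 1 : ℕ)
      · obtain ⟨h, hh, hhZ, hhx⟩ := hM y1 hy1 g hg hsmall h1 hgN
        exact ⟨h, A.mem_Stb hh (fun z hz => hhZ z (by exact_mod_cast hz)), hhx.symm⟩
      · -- a point in between
        have hex : ∃ g' ∈ A.G, (disp g' y1).natAbs < k ∧
            |disp g y1 - disp g' y1| ≤ (W + 1 : ℕ) ∧ A.NE N Z (g' y1) := by
          push Not at hsmall
          rcases lt_abs.1 hsmall with hp | hp
          · obtain ⟨g', hg', h2, h3, h4⟩ := hN0 N (le_max_left _ _) y1 hy1 (disp g y1 - W - 1)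
            push_cast at hp h3
            refine ⟨g', hg', by omega, ?_, h4⟩
            rw [abs_le]
            push_cast
            constructor <;> linarith
          · obtain ⟨g', hg', h2, h3, h4⟩ := hN0 N (le_max_left _ _) y1 hy1 (disp g y1 + 1)
            push_cast at hp h3
            refine ⟨g', hg', by omega, ?_, h4⟩
            rw [abs_le]
            push_cast
            constructor <;> linarith
        obtain ⟨g', hg', h2, h3, h4⟩ := hex
        obtain ⟨h', hh', hh'x⟩ := ih _ h2 g' hg' rfl h4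
        have hg'' : g * g'⁻¹ ∈ A.G := A.G.mul_mem hg (A.G.inv_mem hg')
        have e1 : (g * g'⁻¹) (g' y1) = g y1 := by
          rw [← Equiv.Perm.mul_apply, inv_mul_cancel_right]
        have e2 : disp (g * g'⁻¹) (g' y1) = disp g y1 - disp g' y1 := by
          have := disp_mul (A.G_le_PW hg'') (A.G_le_PW hg') y1
          rw [inv_mul_cancel_right] at this
          linarith
        obtain ⟨h, hh, hhZ, hhx⟩ := hM (g' y1) ((A.map_mem_iff hg').2 hy1) (g * g'⁻¹) hg''
          (by rw [e2]; exact h3) h4 (by rw [e1]; exact hgN)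
        refine ⟨h * h', (A.Stb M Z).mul_mem
          (A.mem_Stb hh (fun z hz => hhZ z (by exact_mod_cast hz))) hh', ?_⟩
        rw [Equiv.Perm.mul_apply, ← hh'x, hhx, e1]
  -- the locked points are few
  have hsml : ∀ T : Finset (Pt b F), (∀ z ∈ T, z ∈ A.D) →
      Sml y0 {y | ∃ z ∈ T, y ∈ A.D ∧ A.E N1 z y} ((T.card : ℝ) * (ε / ((Z.card : ℝ) + 1))) := by
    intro T
    induction T using Finset.induction_on with
    | empty =>
      intro _
      refine sml_mono (S' := ∅) (ε' := 0) ?_ (by simp) (sml_empty y0 le_rfl)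
      rintro y ⟨z, hz, -⟩
      simp at hz
    | insert z T hzT ih =>
      intro h
      have h2 := sml_union (hN1 z (h z (Finset.mem_insert_self _ _)) y0)
        (ih fun z' hz' => h z' (Finset.mem_insert_of_mem hz'))
      refine sml_mono ?_ (le_of_eq ?_) h2
      · rintro y ⟨z', hz', hy'⟩
        rcases Finset.mem_insert.1 hz' with rfl | hz'
        · exact Or.inl hy'
        · exact Or.inr ⟨z', hz', hy'⟩
      · rw [Finset.card_insert_of_notMem hzT]
        push_cast
        ring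
  refine sml_mono ?_ ?_ (hsml Z fun z hz => hZ (by exact_mod_cast hz))
  · rintro a ⟨⟨g, hg, rfl⟩, ha⟩
    have hgD : g y0 ∈ A.D := (A.map_mem_iff hg).2 hy
    by_contra hcon
    apply ha
    have e1 : (g * g1⁻¹) y1 = g y0 := by
      rw [hy1', ← Equiv.Perm.mul_apply, inv_mul_cancel_right]
    have hNE : A.NE N Z ((g * g1⁻¹) y1) := by
      rw [e1]
      intro z hz hE
      exact hcon ⟨z, by exact_mod_cast hz, hgD, A.E_mono (le_max_right _ _) hE⟩
    obtain ⟨h, hh, hhx⟩ := claim _ _ (A.G.mul_mem hg (A.G.inv_mem hg1)) rfl hNE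
    exact ⟨h, hh, by rw [← hhx, e1]⟩
  · have h0 : (0 : ℝ) < (Z.card : ℝ) + 1 := by positivity
    rw [mul_div_assoc', div_le_iff₀ h0]
    nlinarith

end Sys

end Pool.Agent.helper98.NIG
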