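import Pool.Agent.helper35.NIG.Q13
import Pool.Agent.helper35.NIG.Q14

/-!
# NIG-Q15: transitivity of the stabilisers of `m + 1` points

PROOF of `tr_succ`. Let `Z` be a finset with `Z.card ≤ m + 1`, `x ∈ D`, `g ∈ G`, `NR Z x`, `NR Z (g x)`. If `Z.card ≤ m` use `Tr m`. Let
`Z.card = m + 1 ≥ 2`, `v ∈ Z`, `Z' = Z.erase v` (card `m ≥ 1`), `z1 ∈ Z'`, so `Z = insert v Z'`.
(1) If some `z ∈ Z'` has `Rel z v` then `Fix Z' ≤ Fix Z` (`rel_apply`) and `Tr m` for `Z'` finishes. So let `NR Z' v`.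
(2) Suppose that `g x ≠ h x` for all `h ∈ Fix Z`. Let `O1 = {h x | h ∈ Fix Z}`, `O2 = {h (g x) | h ∈ Fix Z}`: disjoint subsets of `orb x`.
    By `Fr (m + 1)` and `hit_Stb`, `Stb_le_Fix` they have bounded gaps `L1`, `L2`, so by `sml_syn` they are not `ε`-small when
    `ε (L1 + 1) < 1`, `ε (L2 + 1) < 1` (for `O2` the positions are relative to `g x`, use `sml_base`). Fix such an `ε > 0`.
(3) `M, y1` from `big_orbit` for `Z'`, `y0 = x`, `ε`.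
(4) There is `v' = f v`, `f ∈ G`, with `Agree (ρ M) z1 v'` and `NR Z' v'`: by `recur (ρ M)` every window of `orb v` of a fixed length
    contains such a `v'` without the last condition, so there are infinitely many of them, and the `v' ∈ orb v` with
    `Rel z v'` for some `z ∈ Z'` are finitely many (`rel_finite`).
(5) `Tr m` for `Z'`, `v`: there is `h ∈ Fix Z'` with `h v = v'`. `Stb M Z' ≤ Fix (insert v' Z')` (`Stb_le_of_agree`), so
    `orb x \ {k y1 | k ∈ Fix (insert v' Z')}` is `ε`-small. `insert v' Z' = h '' (insert v Z')`, so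
    `Fix (insert v' Z') = h (Fix Z) h⁻¹` (`mem_Fix_map`) and the image under `h⁻¹` of this set is `orb x \ O`,
    `O = {k (h⁻¹ y1) | k ∈ Fix Z}`; it is `ε`-small by `sml_map`.
(6) `O1` is not `ε`-small and `O1 \ O ⊆ orb x \ O` is, so `O1 ∩ O` is not empty (`sml_inter_nonempty`) and `O1 = O`; in the same way
    `O2 = O`. So `g x ∈ O2 = O1`: contradiction.
`tr_all`: induction on `k`: `Tr 0` is contained in `Tr 1` (`tr_mono`), `Tr 1` is `tr1`, and `tr_succ` with `hP7`.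
-/

namespace Pool.Agent.helper98.NIG

variable {b : Base} {F : Type}

namespace Sys

theorem tr_mono {A : Sys b F} {m k : ℕ} (h : m ≤ k) (hT : A.Tr k) : A.Tr m :=
  fun Z hZ hc => hT Z hZ (hc.trans h)

private theorem q15_inv_self {α : Type*} (g : Equiv.Perm α) (x : α) : g⁻¹ (g x) = x :=
  g.symm_apply_apply x

private theorem q15_self_inv {α : Type*} (g : Equiv.Perm α) (x : α) : g (g⁻¹ x) = x :=
  g.apply_symm_apply x

/-- the orbit of an unrelated point under the stabiliser is not small -/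
private theorem q15_large [Finite F] {A : Sys b F} {k : ℕ} (hF : A.Fr k) {Z : Finset (Pt b F)}
    (hZ : (Z : Set (Pt b F)) ⊆ A.D) (hc : Z.card ≤ k) {x : Pt b F} (hx : x ∈ A.D)
    (hN : A.NR Z x) : ∃ L : ℕ, ∀ ε : ℝ, Sml x {a | ∃ h ∈ A.Fix Z, a = h x} ε →
      1 ≤ ε * (L + 1) := by
  obtain ⟨M, hM⟩ := hF Z hZ hc x hx hN
  refine ⟨A.ρ * M, fun ε hs => ?_⟩
  refine sml_syn (L := A.ρ * M) (fun n => ?_) hs
  obtain ⟨g, hg, h1, h2⟩ := hit_Stb hM n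
  have hg' : g ∈ A.Fix Z := A.Stb_le_Fix M _ hg
  exact ⟨g x, ⟨g, hg', rfl⟩, sameLine_of_mem_PW (A.G_le_PW hg'.1) x, h1, h2⟩

/-- a point of the orbit of `v` close to `z1` and not related to `Z` -/
private theorem q15_point [Finite F] {A : Sys b F} (hA : A.Reduced) {Z : Finset (Pt b F)}
    (hZ : (Z : Set (Pt b F)) ⊆ A.D) {v z1 : Pt b F} (hv : v ∈ A.D) (hz1 : z1 ∈ A.D) (N : ℕ) :
    ∃ f ∈ A.G, Agree N z1 (f v) ∧ A.NR Z (f v) := by
  classical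
  obtain ⟨w, hw⟩ := A.recur N
  have hfin : (⋃ z ∈ Z, {y | y ∈ A.orb v ∧ A.Rel z y}).Finite :=
    Z.finite_toSet.biUnion fun z hz => rel_finite hA (hZ hz) hv
  obtain ⟨B, hB⟩ := (hfin.image fun y => pos v y).bddAbove
  obtain ⟨g1, hg1, hd⟩ := A.right v hv (B + (A.ρ * w : ℕ))
  have hg1' : g1 ∈ A.G := hg1
  obtain ⟨h, hh, hag⟩ := hw (g1 v) (A.map_mem hg1' hv) z1 hz1
  have hhG : h ∈ A.G := A.W_le_G hh
  refine ⟨h * g1, A.G.mul_mem hhG hg1', hag.symm, fun z hz hrel => ?_⟩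
  have h1 : (h * g1) v ∈ ⋃ z ∈ Z, {y | y ∈ A.orb v ∧ A.Rel z y} :=
    Set.mem_biUnion hz ⟨⟨h * g1, A.G.mul_mem hhG hg1', rfl⟩, hrel⟩
  have h2 : disp (h * g1) v ≤ B := hB ⟨_, h1, rfl⟩
  have h3 : disp (h * g1) v = disp h (g1 v) + disp g1 v :=
    disp_mul (A.G_le_PW hhG) (A.G_le_PW hg1') v
  have h4 := (abs_le.1 (A.abs_disp_W hh (g1 v))).1
  push_cast at hd h4
  linarith

theorem tr_succ [Finite F] {A : Sys b F} (hA : A.Reduced) {m : ℕ} (hm : 1 ≤ m)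
    (hT : A.Tr m) (hF : A.Fr (m + 1)) : A.Tr (m + 1) := by
  classical
  intro Z hZ hc x hx g hg hNx hNgx
  rcases Nat.lt_or_ge m Z.card with hlt | hle
  swap
  · exact hT Z hZ hle x hx g hg hNx hNgx
  have hcard : Z.card = m + 1 := le_antisymm hc hlt
  obtain ⟨v, hv⟩ : Z.Nonempty := Finset.card_pos.1 (by omega)
  have hsub : (Z.erase v : Set (Pt b F)) ⊆ (Z : Set (Pt b F)) := fun a ha =>
    Finset.mem_of_mem_erase ha
  have hcard' : (Z.erase v).card = m := by rw [Finset.card_erase_of_mem hv, hcard]; rfl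
  obtain ⟨z1, hz1⟩ : (Z.erase v).Nonempty := Finset.card_pos.1 (by omega)
  have hmem : ∀ w ∈ Z, w = v ∨ w ∈ Z.erase v := fun w hw => by
    by_cases h : w = v
    · exact Or.inl h
    · exact Or.inr (Finset.mem_erase.2 ⟨h, hw⟩)
  have hgx : g x ∈ A.D := A.map_mem hg hx
  have hvD : v ∈ A.D := hZ hv
  have hZ' : (Z.erase v : Set (Pt b F)) ⊆ A.D := hsub.trans hZ
  by_cases hrel : A.NR (Z.erase v) v
  swap
  · -- a point of `Z.erase v` is related to `v`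
    obtain ⟨z, hz, hr⟩ : ∃ z ∈ Z.erase v, A.Rel z v := by
      by_contra hcon
      exact hrel fun z hz hr => hcon ⟨z, hz, hr⟩
    obtain ⟨h, hh, hhx⟩ := hT (Z.erase v) hZ' hcard'.le x hx g hg
      (fun w hw => hNx w (hsub hw)) (fun w hw => hNgx w (hsub hw))
    refine ⟨h, ⟨hh.1, fun w hw => ?_⟩, hhx⟩
    rcases hmem w hw with rfl | hw'
    · exact rel_apply hr ((A.mem_Fix_singleton).2 ⟨hh.1, hh.2 z hz⟩)
    · exact hh.2 w hw'
  by_contra hcon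
  push Not at hcon
  -- the two orbits are not small
  obtain ⟨L1, hL1⟩ := q15_large hF hZ hc hx hNx
  obtain ⟨L2, hL2⟩ := q15_large hF hZ hc hgx hNgx
  have hsl : SameLine x (g x) := sameLine_of_mem_PW (A.G_le_PW hg) x
  obtain ⟨ε, hε, hε1, hε2⟩ : ∃ ε : ℝ, 0 < ε ∧ ε * (L1 + 1) < 1 ∧ ε * (L2 + 1) < 1 := by
    have hpos : (0 : ℝ) < (L1 : ℝ) + L2 + 2 := by positivity
    refine ⟨1 / ((L1 : ℝ) + L2 + 2), by positivity, ?_, ?_⟩
    · rw [one_div, inv_mul_lt_iff₀ hpos]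
      have : (0 : ℝ) ≤ L2 := Nat.cast_nonneg _
      linarith
    · rw [one_div, inv_mul_lt_iff₀ hpos]
      have : (0 : ℝ) ≤ L1 := Nat.cast_nonneg _
      linarith
  have hO1 : ¬ Sml x {a | ∃ h ∈ A.Fix Z, a = h x} ε := fun h => by
    have := hL1 ε h
    linarith
  have hO2 : ¬ Sml x {a | ∃ h ∈ A.Fix Z, a = h (g x)} ε := fun h => by
    have := hL2 ε ((sml_base hsl).1 h)
    linarith
  -- the large orbit
  obtain ⟨M, y1, hy1, hbig⟩ := big_orbit hA hT hZ' hcard'.le hx hε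
  obtain ⟨f, hf, hag, hNf⟩ := q15_point hA hZ' hvD (hZ' hz1) (A.ρ * M)
  obtain ⟨h, hh, hhv⟩ := hT (Z.erase v) hZ' hcard'.le v hvD f hf hrel hNf
  have hle : A.Stb M (Z.erase v : Set (Pt b F)) ≤
      A.Fix (insert (f v) (Z.erase v : Set (Pt b F))) := Stb_le_of_agree hz1 hag
  -- the complement of the orbit `O`
  have hsmall : Sml x (A.orb x \ {a | ∃ k ∈ A.Fix Z, a = k (h⁻¹ y1)}) ε := by
    refine sml_mono ?_ le_rfl (sml_map (g := h⁻¹) ((PW b F).inv_mem (A.G_le_PW hh.1)) hbig)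
    rintro a ⟨⟨g', hg', rfl⟩, haO⟩
    refine ⟨h (g' x), ⟨⟨h * g', A.G.mul_mem hh.1 hg', rfl⟩, ?_⟩, q15_inv_self _ _⟩
    rintro ⟨k, hk, hk'⟩
    have hk2 := hle hk
    refine haO ⟨h⁻¹ * k * h, ⟨A.G.mul_mem (A.G.mul_mem (A.G.inv_mem hh.1) hk2.1) hh.1,
      fun w hw => ?_⟩, ?_⟩
    · rw [Equiv.Perm.mul_apply, Equiv.Perm.mul_apply]
      rcases hmem w hw with rfl | hw'
      · rw [hhv, hk2.2 (f w) (Set.mem_insert _ _), ← hhv, q15_inv_self]
      · have e : h w = w := hh.2 w hw'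
        rw [e, hk2.2 w (Set.mem_insert_of_mem _ hw')]
        exact Equiv.Perm.inv_eq_iff_eq.2 e.symm
    · rw [Equiv.Perm.mul_apply, Equiv.Perm.mul_apply, q15_self_inv, ← hk', q15_inv_self]
  -- both orbits meet `O`
  have hs1 : Sml x ({a | ∃ h ∈ A.Fix Z, a = h x} \ {a | ∃ k ∈ A.Fix Z, a = k (h⁻¹ y1)}) ε := by
    refine sml_mono ?_ le_rfl hsmall
    rintro a ⟨⟨h1, hh1, rfl⟩, ha⟩
    exact ⟨⟨h1, hh1.1, rfl⟩, ha⟩
  have hs2 : Sml x ({a | ∃ h ∈ A.Fix Z, a = h (g x)} \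
      {a | ∃ k ∈ A.Fix Z, a = k (h⁻¹ y1)}) ε := by
    refine sml_mono ?_ le_rfl hsmall
    rintro a ⟨⟨h1, hh1, rfl⟩, ha⟩
    exact ⟨⟨h1 * g, A.G.mul_mem hh1.1 hg, rfl⟩, ha⟩
  obtain ⟨a1, ⟨h1, hh1, e1⟩, k1, hk1, e1'⟩ := sml_inter_nonempty hε.le hO1 hs1
  obtain ⟨a2, ⟨h2, hh2, e2⟩, k2, hk2, e2'⟩ := sml_inter_nonempty hε.le hO2 hs2
  refine hcon (h2⁻¹ * k2 * k1⁻¹ * h1) ((A.Fix Z).mul_mem ((A.Fix Z).mul_mem
    ((A.Fix Z).mul_mem ((A.Fix Z).inv_mem hh2) hk2) ((A.Fix Z).inv_mem hk1)) hh1) ?_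
  simp only [Equiv.Perm.mul_apply]
  rw [← e1, e1', q15_inv_self, ← e2', e2, q15_inv_self]

theorem tr_all [Finite F] {A : Sys b F} (hA : A.Reduced) (h2 : A.FREE2) (hNB : A.NB)
    (hP7 : ∀ m : ℕ, 1 ≤ m → A.Tr m → A.Fr m → A.Fr (m + 1)) (k : ℕ) : A.Tr k := by
  have key : ∀ j : ℕ, A.Tr (j + 1) ∧ A.Fr (j + 1) := by
    intro j
    induction j with
    | zero => exact ⟨tr1 hA h2 hNB, fr1_of_free2 h2⟩
    | succ j ih =>
      have hf := hP7 (j + 1) (Nat.succ_pos j) ih.1 ih.2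
      exact ⟨tr_succ hA (Nat.succ_pos j) ih.1 hf, hf⟩
  exact tr_mono (Nat.le_succ k) (key k).1

end Sys

end Pool.Agent.helper98.NIG
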