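import Pool.Agent.helper35.NIG.Q01
import Pool.Agent.helper35.NIG.Q02

/-!
# NIG-Q16: subgroups of finite index with smaller orbits: local constancy

`U` is a subgroup of `G` of finite index, normalised by `G`; `UW U x = {g ∈ G | g x ∈ U x} = U * Fix {x}`.
PROOFS.
* `UW` is a subgroup: `g x = u x`, `h x = v x` give `(g h) x = g (v x) = (g v g⁻¹) (g x) = (g v g⁻¹) u x`; `g⁻¹ x`: from `g x = u x`:
  `x = g⁻¹ (u x) = (g⁻¹ u g) (g⁻¹ x)`, so `g⁻¹ x = (g⁻¹ u⁻¹ g) x`. `U ≤ UW`, `Fix {x} ≤ UW`.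
* `exists_core`: take the normal core of `U` in `G`: `(U.subgroupOf A.G).normalCore.map A.G.subtype`; it is contained in `U`, of finite index
  (`Subgroup.finiteIndex_normalCore`), normalised by `G`.
* `uw_map`: `UW (g x) = g (UW x) g⁻¹`: `(g h g⁻¹) (g x) = g h x`, and `g (U x) = (g U g⁻¹) (g x) = U (g x)`.
* `uw_semi`: the finite set of the cosets of `U` in `UW x` (`U` has finite index in `G`); choose for every coset a representative in
  `Fix {x}` (`g x = u x`, so `u⁻¹ g ∈ Fix {x}` lies in the same right coset `U g`); let `N` be the maximum of the radii of these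
  representatives `h_1, ..., h_k`. If `Agree N x x'` then `h_i x' = x'` (`fix_iff_of_agree`), so `UW x = ⋃ U h_i ≤ UW x'`.
* `uw_index`: `f x = (UW x).relIndex G` is not `0` (`Subgroup.relIndex_ne_zero..`: `U ≤ UW x`). `f (g x) = f x` by `uw_map` (`relIndex` is
  invariant under conjugation by elements of `G`). For `x, x' ∈ D` let `N` be given by `uw_semi` for `x`, and `g ∈ G` with
  `Agree N (g x') x` (`minimal`): `UW x ≤ UW (g x')`, so `f x' = f (g x') ≤ f x` (`Subgroup.relIndex_le_of_le_left`).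
* `uw_eq_of_le`: `UW x ≤ UW x'` and equal finite index imply equality: `relIndex_mul_relIndex`:
  `(UW x).relIndex (UW x') * (UW x').relIndex G = (UW x).relIndex G`, so the first factor is `1`.
* `uw_loc`: `compact1` with `C x := x ∈ D` and `P N x := ∀ x' ∈ D, Agree N x x' → UW x = UW x'`: open: if `P N x`, `Agree N x x1` then for
  `Agree N x1 x'`: `Agree N x x'`, so `UW x' = UW x = UW x1`. Pointwise: `uw_semi`, `uw_index`, `uw_eq_of_le`.
* `uw_ne`: if `UW x1 = {g ∈ G | ..} ≠ G` for one `x1 ∈ D` then for all `x ∈ D`: the index is constant, and the index is `1` iff `UW x ≥ G`.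
-/

namespace Pool.Agent.helper98.NIG

variable {b : Base} {F : Type}

namespace Sys

/-- `U` is a subgroup of finite index of `G` which is normalised by `G` -/
structure NFI (A : Sys b F) (U : Subgroup (Equiv.Perm (Pt b F))) : Prop where
  le : U ≤ A.G
  index : U.relIndex A.G ≠ 0
  normal : ∀ g ∈ A.G, ∀ u ∈ U, g * u * g⁻¹ ∈ U

/-- the elements of `G` which map `x` into its `U`-orbit -/
def UWset (A : Sys b F) (U : Subgroup (Equiv.Perm (Pt b F))) (x : Pt b F) :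
    Set (Equiv.Perm (Pt b F)) := {g | g ∈ A.G ∧ ∃ u ∈ U, u x = g x}

private theorem Q16_inv (g : Equiv.Perm (Pt b F)) (z : Pt b F) : g⁻¹ (g z) = z :=
  Equiv.symm_apply_apply g z

theorem exists_core {A : Sys b F} {U : Subgroup (Equiv.Perm (Pt b F))} (h : U ≤ A.G)
    (h0 : U.relIndex A.G ≠ 0) : ∃ V : Subgroup (Equiv.Perm (Pt b F)), V ≤ U ∧ A.NFI V := by
  have hmem : ∀ u : Equiv.Perm (Pt b F),
      u ∈ (U.subgroupOf A.G).normalCore.map A.G.subtype ↔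
        ∃ v : A.G, v ∈ (U.subgroupOf A.G).normalCore ∧ (v : Equiv.Perm (Pt b F)) = u := by
    intro u
    rw [Subgroup.mem_map]
    rfl
  have hle : ∀ v : A.G, v ∈ (U.subgroupOf A.G).normalCore → (v : Equiv.Perm (Pt b F)) ∈ U :=
    fun v hv => Subgroup.mem_subgroupOf.1 ((U.subgroupOf A.G).normalCore_le hv)
  refine ⟨(U.subgroupOf A.G).normalCore.map A.G.subtype, ?_, ?_, ?_, ?_⟩
  · intro u hu
    obtain ⟨v, hv, rfl⟩ := (hmem u).1 hu
    exact hle v hv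
  · intro u hu
    obtain ⟨v, hv, rfl⟩ := (hmem u).1 hu
    exact v.2
  · have hfi : (U.subgroupOf A.G).FiniteIndex := ⟨h0⟩
    have h1 : ((U.subgroupOf A.G).normalCore.map A.G.subtype).subgroupOf A.G =
        (U.subgroupOf A.G).normalCore :=
      Subgroup.comap_map_eq_self_of_injective A.G.subtype_injective _
    have h2 : (U.subgroupOf A.G).normalCore.FiniteIndex := inferInstance
    change (((U.subgroupOf A.G).normalCore.map A.G.subtype).subgroupOf A.G).index ≠ 0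
    rw [h1]
    exact h2.index_ne_zero
  · intro g hg u hu
    obtain ⟨v, hv, rfl⟩ := (hmem u).1 hu
    refine (hmem _).2 ⟨⟨g, hg⟩ * v * (⟨g, hg⟩ : A.G)⁻¹, ?_, rfl⟩
    exact (inferInstance : (U.subgroupOf A.G).normalCore.Normal).conj_mem v hv ⟨g, hg⟩

variable {A : Sys b F} {U : Subgroup (Equiv.Perm (Pt b F))}

theorem exists_UW (hU : A.NFI U) (x : Pt b F) : ∃ W : Subgroup (Equiv.Perm (Pt b F)),
    (W : Set (Equiv.Perm (Pt b F))) = A.UWset U x := by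
  refine ⟨{ carrier := A.UWset U x, mul_mem' := ?_, one_mem' := ?_, inv_mem' := ?_ }, rfl⟩
  · rintro g h ⟨hg, u, hu, hux⟩ ⟨hh, v, hv, hvx⟩
    refine ⟨A.G.mul_mem hg hh, g * v * g⁻¹ * u, U.mul_mem (hU.normal g hg v hv) hu, ?_⟩
    rw [Equiv.Perm.mul_apply, Equiv.Perm.mul_apply, Equiv.Perm.mul_apply, Equiv.Perm.mul_apply,
      hux, Q16_inv, hvx]
  · exact ⟨A.G.one_mem, 1, U.one_mem, rfl⟩
  · rintro g ⟨hg, u, hu, hux⟩
    refine ⟨A.G.inv_mem hg, g⁻¹ * u⁻¹ * g⁻¹⁻¹, hU.normal _ (A.G.inv_mem hg) _ (U.inv_mem hu), ?_⟩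
    rw [inv_inv, Equiv.Perm.mul_apply, Equiv.Perm.mul_apply, ← hux, Q16_inv]

/-- the subgroup `U * Fix {x}` -/
noncomputable def UW (hU : A.NFI U) (x : Pt b F) : Subgroup (Equiv.Perm (Pt b F)) :=
  (exists_UW hU x).choose

theorem mem_UW (hU : A.NFI U) {x : Pt b F} {g : Equiv.Perm (Pt b F)} :
    g ∈ UW hU x ↔ g ∈ A.G ∧ ∃ u ∈ U, u x = g x := by
  have h := (exists_UW hU x).choose_spec
  exact (Set.ext_iff.1 h g)

theorem UW_le (hU : A.NFI U) (x : Pt b F) : UW hU x ≤ A.G := fun g hg => ((mem_UW hU).1 hg).1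

theorem le_UW (hU : A.NFI U) (x : Pt b F) : U ≤ UW hU x :=
  fun u hu => (mem_UW hU).2 ⟨hU.le hu, u, hu, rfl⟩

theorem Fix_le_UW (hU : A.NFI U) (x : Pt b F) : A.Fix {x} ≤ UW hU x := by
  intro g hg
  refine (mem_UW hU).2 ⟨hg.1, 1, U.one_mem, ?_⟩
  exact (hg.2 x rfl).symm

theorem UW_index_ne (hU : A.NFI U) (x : Pt b F) : (UW hU x).relIndex A.G ≠ 0 := by
  have h1 := Subgroup.relIndex_mul_relIndex U (UW hU x) A.G (le_UW hU x) (UW_le hU x)
  intro h0
  rw [h0, mul_zero] at h1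
  exact hU.index h1.symm

theorem uw_map (hU : A.NFI U) (x : Pt b F) {g : Equiv.Perm (Pt b F)} (hg : g ∈ A.G)
    (h : Equiv.Perm (Pt b F)) : g * h * g⁻¹ ∈ UW hU (g x) ↔ h ∈ UW hU x := by
  constructor
  · intro hh
    obtain ⟨h1, u, hu, hux⟩ := (mem_UW hU).1 hh
    refine (mem_UW hU).2 ⟨?_, g⁻¹ * u * g⁻¹⁻¹, hU.normal _ (A.G.inv_mem hg) _ hu, ?_⟩
    · have h2 : h = g⁻¹ * (g * h * g⁻¹) * g := by group
      rw [h2]
      exact A.G.mul_mem (A.G.mul_mem (A.G.inv_mem hg) h1) hg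
    · rw [inv_inv, Equiv.Perm.mul_apply, Equiv.Perm.mul_apply, hux, Equiv.Perm.mul_apply,
        Equiv.Perm.mul_apply, Q16_inv, Q16_inv]
  · intro hh
    obtain ⟨h1, u, hu, hux⟩ := (mem_UW hU).1 hh
    refine (mem_UW hU).2 ⟨A.G.mul_mem (A.G.mul_mem hg h1) (A.G.inv_mem hg), g * u * g⁻¹,
      hU.normal _ hg _ hu, ?_⟩
    rw [Equiv.Perm.mul_apply, Equiv.Perm.mul_apply, Q16_inv, hux,
      Equiv.Perm.mul_apply, Equiv.Perm.mul_apply, Q16_inv]

theorem uw_semi [Finite F] (hU : A.NFI U) {x : Pt b F} (hx : x ∈ A.D) : ∃ N : ℕ,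
    ∀ x' : Pt b F, Agree N x x' → UW hU x ≤ UW hU x' := by
  classical
  have hfin : (U.subgroupOf (UW hU x)).index ≠ 0 := by
    intro h0
    apply hU.index
    have h1 := Subgroup.relIndex_mul_relIndex U (UW hU x) A.G (le_UW hU x) (UW_le hU x)
    rw [← h1]
    have h2 : U.relIndex (UW hU x) = 0 := h0
    rw [h2, zero_mul]
  have hF : Finite (↥(UW hU x) ⧸ U.subgroupOf (UW hU x)) :=
    Nat.finite_of_card_ne_zero hfin
  -- representatives which fix `x`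
  have hrep : ∀ q : ↥(UW hU x) ⧸ U.subgroupOf (UW hU x), ∃ h : ↥(UW hU x),
      (h : Equiv.Perm (Pt b F)) x = x ∧ QuotientGroup.mk h = q := by
    intro q
    obtain ⟨g, rfl⟩ := QuotientGroup.mk_surjective q
    obtain ⟨hg, u, hu, hux⟩ := (mem_UW hU).1 g.2
    have huW : u ∈ UW hU x := le_UW hU x hu
    refine ⟨(⟨u, huW⟩ : ↥(UW hU x))⁻¹ * g, ?_, ?_⟩
    · change (u⁻¹ * (g : Equiv.Perm (Pt b F))) x = x
      rw [Equiv.Perm.mul_apply, ← hux]
      exact Equiv.symm_apply_apply u x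
    · rw [QuotientGroup.eq, Subgroup.mem_subgroupOf]
      change (u⁻¹ * (g : Equiv.Perm (Pt b F)))⁻¹ * (g : Equiv.Perm (Pt b F)) ∈ U
      have h1 := hU.normal _ (A.G.inv_mem hg) u hu
      have h2 : (u⁻¹ * (g : Equiv.Perm (Pt b F)))⁻¹ * (g : Equiv.Perm (Pt b F)) =
          (g : Equiv.Perm (Pt b F))⁻¹ * u * (g : Equiv.Perm (Pt b F))⁻¹⁻¹ := by group
      rw [h2]
      exact h1
  choose r hr hrq using hrep
  have hrad : ∀ q, ∃ ρ : ℕ, IsPW ρ (r q : Equiv.Perm (Pt b F)) := by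
    intro q
    obtain ⟨ρ, hρ, -⟩ := A.G_le_PW (UW_le hU x (r q).2)
    exact ⟨ρ, hρ⟩
  choose ρ hρ using hrad
  obtain ⟨N, hN⟩ := (Set.finite_range ρ).bddAbove
  refine ⟨N, fun x' hx' g hg => ?_⟩
  obtain ⟨q, hq⟩ : ∃ q : ↥(UW hU x) ⧸ U.subgroupOf (UW hU x),
      q = QuotientGroup.mk (⟨g, hg⟩ : ↥(UW hU x)) := ⟨_, rfl⟩
  have h1 : ((r q : Equiv.Perm (Pt b F)))⁻¹ * g ∈ U := by
    have h2 : (QuotientGroup.mk (r q) : ↥(UW hU x) ⧸ U.subgroupOf (UW hU x)) =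
        QuotientGroup.mk (⟨g, hg⟩ : ↥(UW hU x)) := by rw [hrq, hq]
    rw [QuotientGroup.eq, Subgroup.mem_subgroupOf] at h2
    exact h2
  have h3 : (r q : Equiv.Perm (Pt b F)) x' = x' :=
    (fix_iff_of_agree (hρ q) (hx'.mono (hN ⟨q, rfl⟩))).1 (hr q)
  have h4 : (r q : Equiv.Perm (Pt b F)) ∈ A.G := UW_le hU x (r q).2
  refine (mem_UW hU).2 ⟨UW_le hU x hg, _, hU.normal _ h4 _ h1, ?_⟩
  have h5 : ((r q : Equiv.Perm (Pt b F)))⁻¹ x' = x' := by
    rw [Equiv.Perm.inv_eq_iff_eq]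
    exact h3.symm
  have h6 : (r q : Equiv.Perm (Pt b F)) * ((r q : Equiv.Perm (Pt b F))⁻¹ * g) *
      (r q : Equiv.Perm (Pt b F))⁻¹ = g * (r q : Equiv.Perm (Pt b F))⁻¹ := by group
  rw [h6, Equiv.Perm.mul_apply, h5]

theorem uw_conj (hU : A.NFI U) (x : Pt b F) {g : Equiv.Perm (Pt b F)} (hg : g ∈ A.G) :
    UW hU (g x) = (UW hU x).map (MulAut.conj g).toMonoidHom := by
  ext h
  rw [Subgroup.mem_map]
  constructor
  · intro hh
    refine ⟨g⁻¹ * h * g, ?_, ?_⟩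
    · have h1 := uw_map hU x hg (g⁻¹ * h * g)
      rw [← h1]
      have h2 : g * (g⁻¹ * h * g) * g⁻¹ = h := by group
      rw [h2]
      exact hh
    · change g * (g⁻¹ * h * g) * g⁻¹ = h
      group
  · rintro ⟨k, hk, rfl⟩
    exact (uw_map hU x hg k).2 hk

theorem uw_index_map (hU : A.NFI U) (x : Pt b F) {g : Equiv.Perm (Pt b F)} (hg : g ∈ A.G) :
    (UW hU (g x)).relIndex A.G = (UW hU x).relIndex A.G := by
  have hG : A.G = A.G.map (MulAut.conj g).toMonoidHom := by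
    ext h
    rw [Subgroup.mem_map]
    constructor
    · intro hh
      refine ⟨g⁻¹ * h * g, A.G.mul_mem (A.G.mul_mem (A.G.inv_mem hg) hh) hg, ?_⟩
      change g * (g⁻¹ * h * g) * g⁻¹ = h
      group
    · rintro ⟨k, hk, rfl⟩
      exact A.G.mul_mem (A.G.mul_mem hg hk) (A.G.inv_mem hg)
  rw [uw_conj hU x hg]
  conv_lhs => rw [hG]
  exact Subgroup.relIndex_map_map_of_injective _ _ (MulAut.conj g).injective

theorem uw_index_le [Finite F] (hU : A.NFI U) {x x' : Pt b F} (hx : x ∈ A.D) (hx' : x' ∈ A.D) :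
    (UW hU x').relIndex A.G ≤ (UW hU x).relIndex A.G := by
  obtain ⟨N, hN⟩ := uw_semi hU hx
  obtain ⟨g, hg, hgx⟩ := A.minimal x' hx' x hx N
  have h1 : UW hU x ≤ UW hU (g x') := hN _ hgx.symm
  have h2 := Subgroup.relIndex_le_of_le_left h1 (UW_index_ne hU x)
  rwa [uw_index_map hU x' hg] at h2

theorem uw_index [Finite F] (hU : A.NFI U) {x x' : Pt b F} (hx : x ∈ A.D) (hx' : x' ∈ A.D) :
    (UW hU x).relIndex A.G = (UW hU x').relIndex A.G := by
  refine le_antisymm ?_ ?_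
  · exact uw_index_le hU hx' hx
  · exact uw_index_le hU hx hx'

theorem uw_eq_of_le [Finite F] (hU : A.NFI U) {x x' : Pt b F} (hx : x ∈ A.D) (hx' : x' ∈ A.D)
    (h : UW hU x ≤ UW hU x') : UW hU x = UW hU x' := by
  refine le_antisymm h ?_
  rw [← Subgroup.relIndex_eq_one]
  have h1 := Subgroup.relIndex_mul_relIndex (UW hU x) (UW hU x') A.G h (UW_le hU x')
  rw [uw_index hU hx hx'] at h1
  have h2 := UW_index_ne hU x'
  exact Nat.eq_of_mul_eq_mul_right (Nat.pos_of_ne_zero h2) (by rw [h1, one_mul])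

theorem uw_loc [Finite F] (hU : A.NFI U) : ∃ N : ℕ, ∀ x ∈ A.D, ∀ x' ∈ A.D, Agree N x x' →
    UW hU x = UW hU x' := by
  refine compact1 (C := fun x => x ∈ A.D) A.ρ
    (fun x x' h hx => (A.clopen x x' h).1 hx)
    (fun N x => ∀ x' ∈ A.D, Agree N x x' → UW hU x = UW hU x')
    (fun n m x hnm h x' hx' ha => h x' hx' (ha.mono hnm)) ?_ ?_
  · intro n x hx h
    refine ⟨n, fun x1 hx1 ha x' hx' ha' => ?_⟩
    rw [← h x1 hx1 ha, h x' hx' (ha.trans ha')]
  · intro x hx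
    obtain ⟨N, hN⟩ := uw_semi hU hx
    exact ⟨N, fun x' hx' ha => uw_eq_of_le hU hx hx' (hN x' ha)⟩

theorem uw_ne [Finite F] (hU : A.NFI U) {x1 : Pt b F} (hx1 : x1 ∈ A.D)
    {g1 : Equiv.Perm (Pt b F)} (hg1 : g1 ∈ A.G) (h1 : g1 ∉ UW hU x1) {x : Pt b F}
    (hx : x ∈ A.D) : ∃ g ∈ A.G, g ∉ UW hU x := by
  by_contra hcon
  push Not at hcon
  have h2 : (UW hU x).relIndex A.G = 1 := Subgroup.relIndex_eq_one.2 hcon
  rw [uw_index hU hx hx1, Subgroup.relIndex_eq_one] at h2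
  exact h1 (h2 hg1)

end Sys

end Pool.Agent.helper98.NIG
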