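import Pool.Agent.helper35.NIG.Q16
import Pool.Agent.helper35.NIG.Q03
import Pool.Agent.helper98.NIG.C07
import Pool.Agent.helper98.NIG.C08

/-!
# NIG-Q17: reduction to systems without subgroups of finite index with smaller orbits

PROOFS.
* `exists_psys_of_fi`: let `V ≤ G` have finite index. It is finitely generated: `V.subgroupOf A.G` has finite index in the finitely
  generated group `A.G` (`Subgroup.fg_of_index_ne_zero` / `Group.fg_iff_subgroup_fg`), so `V = closure T` with `T` finite. All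
  elements of `T ∪ T⁻¹ ∪ {1}` are piecewise shifts of a common radius `r ≥ ρ` (`IsPW.mono`, `G_le_PW`). `D` is the same set
  (`A.clopen` with `Agree.mono`). `maps`: `map_mem`. `right`: for `x ∈ D` and `M` let `t_1, ..., t_k` be representatives of
  the left cosets `t V` in `G` (finitely many), `c` a bound for their displacements; `A.right` gives `g ∈ G` with
  `M + c < disp g x`; `g = t v`, `v ∈ V`, `v x = t⁻¹ (g x)`, `disp v x ≥ disp g x - c > M`. `left` in the same way.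
* `reduced_of_fi`: the same representatives: if `|pos (v x) (v x')| ≤ C` for all `v ∈ V` then for `g = t v`:
  `pos (g x) (g x') = pos (v x) (v x') + disp t (v x') - disp t (v x)` is bounded by `C + 2 c`.
* `nb_step`: let `V = UW hU x`, `P` the `PSys` of `exists_psys_of_fi` (`P.G = V`), `B`, `π` from `PSys.exists_sys P` for `x`: `B.D = P.cmp x`,
  `π : P.G →* B.G` onto, `π g z = g z` for `z ∈ P.cmp x`. (`x ∈ B.D` by `self_mem_cmp`.)
  (1) For all `z ∈ P.cmp x`: `UW hU z = V`, so `Fix {z} ≤ V` (`Fix_le_UW`). Let `N` be given by `uw_loc` and `v ∈ P.G = V` with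
      `Agree N (v x) z`: `UW z = UW (v x) = v V v⁻¹ = V` (`uw_map`; `z ∈ D` because `P.cmp x ⊆ P.D`, `cmp_cl`).
  (2) `B.Reduced`: let `z, z' ∈ B.D` be on one line with `|pos (g z) (g z')| ≤ C` for all `g ∈ B.G`. For `v ∈ V` put `g = π v`:
      `|pos (v z) (v z')| ≤ C`; `reduced_of_fi` and `A.Reduced` give `z = z'`.
  (3) Growth: `ExpGrowth B.G → ExpGrowth P.G` (`exp_of_surjective π`) `→ ExpGrowth A.G` (`exp_of_injective`, inclusion of `V` in `G`).
  (4) Potential: let `T` be a finset with: every `a ∈ A.orb x` is in `A.orbz x t` for some `t ∈ T`. Let `T'` be the set of the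
      `t ∈ T` which are in `{v x | v ∈ V}`. Every `a ∈ B.orb x` is `(π v) x = v x`, `v ∈ V`, so `a ∈ A.orb x`, `a = g t`, `g ∈ Fix {x} ≤ V`, `t ∈ T`,
      and `t = g⁻¹ a ∈ V x`: `t ∈ T'`. `(π g) x = x`, `(π g) t = g t = a` (`t ∈ V x ⊆ P.cmp x`): `a ∈ B.orbz x t`.
      `T'.card < T.card`: let `g1 ∈ G`, `g1 ∉ V`; `g1 x = g t`, `g ∈ Fix {x} ≤ V`, `t ∈ T`. If `t = v x` with `v ∈ V` then `g1 x = (g v) x`, and
      `(g v)⁻¹ g1 ∈ Fix {x} ≤ V`, so `g1 ∈ V`: contradiction. So `t ∈ T \ T'`.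
* `not_NB`: if `¬ NB` there are `U ≤ G` of finite index, `x1 ∈ D`, `g1 ∈ G` with `u x1 ≠ g1 x1` for all `u ∈ U`. `exists_core` gives
  `V ≤ U` with `NFI V`; then `g1 ∉ UW hV x1` (`mem_UW`). `uw_ne`.
* `exp_of_reduced`: prove by (strong) induction on `r`: for every reduced `A` and `x ∈ D`, `T : Finset` with `T.card ≤ r` and
  `∀ a ∈ A.orb x, ∃ t ∈ T, a ∈ A.orbz x t` we have `ExpGrowth A.G`. If `A.NB` use `hend`. Otherwise `not_NB` and `nb_step` give `B` with a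
  smaller `T'`. For the start: `A.nonempty`, `finite_orbits` for `z = y0 = x`, `FREE2` from `hfree`.
-/

namespace Pool.Agent.helper98.NIG

variable {b : Base} {F : Type}

namespace Sys

/-- representatives of the cosets of a subgroup of finite index -/
theorem q17_reps {G : Type} [Group G] {V U : Subgroup G} (h0 : V.relIndex U ≠ 0) :
    ∃ R : Finset G, (∀ t ∈ R, t ∈ U) ∧ ∀ g ∈ U, ∃ t ∈ R, ∃ v ∈ V, g = t * v := by
  classical
  have hfi : (V.subgroupOf U).FiniteIndex := ⟨h0⟩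
  have hfin : Finite (U ⧸ V.subgroupOf U) := Subgroup.finite_quotient_of_finiteIndex
  have hft := Fintype.ofFinite (U ⧸ V.subgroupOf U)
  refine ⟨Finset.univ.image fun q : U ⧸ V.subgroupOf U => ((q.out : U) : G), ?_, ?_⟩
  · intro t ht
    obtain ⟨q, -, rfl⟩ := Finset.mem_image.1 ht
    exact q.out.2
  · intro g hg
    let q : U ⧸ V.subgroupOf U := QuotientGroup.mk (⟨g, hg⟩ : U)
    refine ⟨((q.out : U) : G), Finset.mem_image.2 ⟨q, Finset.mem_univ _, rfl⟩,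
      ((q.out : U) : G)⁻¹ * g, ?_, (mul_inv_cancel_left _ _).symm⟩
    have h1 : (QuotientGroup.mk q.out : U ⧸ V.subgroupOf U) = QuotientGroup.mk (⟨g, hg⟩ : U) :=
      QuotientGroup.out_eq' q
    have h2 := QuotientGroup.eq.1 h1
    exact Subgroup.mem_subgroupOf.1 h2

/-- a common radius -/
theorem q17_radius (R : Finset (Equiv.Perm (Pt b F))) (hR : ∀ t ∈ R, t ∈ PW b F) :
    ∃ c : ℕ, ∀ t ∈ R, PWr c t := by
  have h : ∀ t ∈ R, ∃ ρ, PWr ρ t := fun t ht => hR t ht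
  choose! r hr using h
  exact ⟨R.sup r, fun t ht => ⟨(hr t ht).1.mono (Finset.le_sup ht),
    (hr t ht).2.mono (Finset.le_sup ht)⟩⟩

theorem exists_psys_of_fi {A : Sys b F} {V : Subgroup (Equiv.Perm (Pt b F))} (hV : V ≤ A.G)
    (h0 : V.relIndex A.G ≠ 0) : ∃ P : PSys b F, P.G = V ∧ P.D = A.D := by
  classical
  -- `V` is finitely generated
  have hfg : V.FG := by
    have h1 : Group.FG A.G := (Group.fg_iff_subgroup_fg A.G).2 ⟨A.S, rfl⟩
    have hfi : (V.subgroupOf A.G).FiniteIndex := ⟨h0⟩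
    have h2 : Group.FG (V.subgroupOf A.G) := Subgroup.fg_of_index_ne_zero _
    have h3 : Group.FG V := Group.fg_of_surjective (f := (Subgroup.subgroupOfEquivOfLe hV).toMonoidHom)
      (Subgroup.subgroupOfEquivOfLe hV).surjective
    exact (Group.fg_iff_subgroup_fg V).1 h3
  obtain ⟨T, hT⟩ := hfg
  have hTV : ∀ t ∈ T, t ∈ V := fun t ht => by
    rw [← hT]
    exact Subgroup.subset_closure ht
  set S : Finset (Equiv.Perm (Pt b F)) := insert 1 (T ∪ T.image fun t => t⁻¹) with hS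
  have hSmem : ∀ s, s ∈ S ↔ s = 1 ∨ s ∈ T ∨ s⁻¹ ∈ T := by
    intro s
    rw [hS, Finset.mem_insert, Finset.mem_union, Finset.mem_image]
    constructor
    · rintro (h | h | ⟨t, ht, rfl⟩)
      · exact Or.inl h
      · exact Or.inr (Or.inl h)
      · exact Or.inr (Or.inr (by rwa [inv_inv]))
    · rintro (h | h | h)
      · exact Or.inl h
      · exact Or.inr (Or.inl h)
      · exact Or.inr (Or.inr ⟨s⁻¹, h, inv_inv s⟩)
  have hSV : ∀ s ∈ S, s ∈ V := by
    intro s hs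
    rcases (hSmem s).1 hs with h | h | h
    · rw [h]
      exact V.one_mem
    · exact hTV s h
    · have := V.inv_mem (hTV _ h)
      rwa [inv_inv] at this
  have hcl : Subgroup.closure (S : Set (Equiv.Perm (Pt b F))) = V := by
    refine le_antisymm ((Subgroup.closure_le _).2 fun s hs => hSV s hs) ?_
    rw [← hT]
    exact Subgroup.closure_mono fun t ht => (hSmem t).2 (Or.inr (Or.inl ht))
  obtain ⟨c, hc⟩ := q17_radius S fun s hs => A.G_le_PW (hV (hSV s hs))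
  obtain ⟨R, hRG, hR⟩ := q17_reps h0
  obtain ⟨d, hd⟩ := q17_radius R fun t ht => A.G_le_PW (hRG t ht)
  have hdisp : ∀ g ∈ A.G, ∀ x : Pt b F, ∃ v ∈ V, |disp g x - disp v x| ≤ d := by
    intro g hg x
    obtain ⟨t, ht, v, hv, rfl⟩ := hR g hg
    refine ⟨v, hv, ?_⟩
    rw [disp_mul (A.G_le_PW (hRG t ht)) (A.G_le_PW (hV hv)), add_sub_cancel_right]
    exact abs_disp_le (hd t ht).1 _
  refine ⟨{
    S := S
    ρ := max A.ρ c
    D := A.D
    pw := fun s hs => ⟨(hc s hs).1.mono (le_max_right _ _), (hc s hs).2.mono (le_max_right _ _)⟩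
    one_mem := (hSmem 1).2 (Or.inl rfl)
    inv_mem := ?_
    clopen := fun x x' h => A.clopen x x' (h.mono (le_max_left _ _))
    maps := fun s hs x hx => A.map_mem (hV (hSV s hs)) hx
    right := ?_
    left := ?_ }, hcl, rfl⟩
  · intro s hs
    rw [hSmem] at hs ⊢
    rcases hs with h | h | h
    · left
      rw [h, inv_one]
    · right
      right
      rwa [inv_inv]
    · exact Or.inr (Or.inl h)
  · intro x hx M
    obtain ⟨g, hg, h1⟩ := A.right x hx (M + d)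
    obtain ⟨v, hv, h2⟩ := hdisp g hg x
    rw [abs_le] at h2
    exact ⟨v, by rw [hcl]; exact hv, by linarith [h2.1, h2.2]⟩
  · intro x hx M
    obtain ⟨g, hg, h1⟩ := A.left x hx (M - d)
    obtain ⟨v, hv, h2⟩ := hdisp g hg x
    rw [abs_le] at h2
    exact ⟨v, by rw [hcl]; exact hv, by linarith [h2.1, h2.2]⟩

theorem reduced_of_fi {A : Sys b F} {V : Subgroup (Equiv.Perm (Pt b F))} (hV : V ≤ A.G)
    (h0 : V.relIndex A.G ≠ 0) {x x' : Pt b F} (hx : SameLine x x')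
    (h : ∃ C : ℤ, ∀ v ∈ V, |pos (v x) (v x')| ≤ C) :
    ∃ C : ℤ, ∀ g ∈ A.G, |pos (g x) (g x')| ≤ C := by
  obtain ⟨C, hC⟩ := h
  obtain ⟨R, hRG, hR⟩ := q17_reps h0
  obtain ⟨d, hd⟩ := q17_radius R fun t ht => A.G_le_PW (hRG t ht)
  refine ⟨C + 2 * d, fun g hg => ?_⟩
  obtain ⟨t, ht, v, hv, rfl⟩ := hR g hg
  have hvP := A.G_le_PW (hV hv)
  have htP := A.G_le_PW (hRG t ht)
  have h1 : SameLine (v x) (v x') := sameLine_trans
    (sameLine_trans (sameLine_symm (sameLine_of_mem_PW hvP x)) hx) (sameLine_of_mem_PW hvP x')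
  have h2 := sameLine_of_mem_PW htP (v x)
  have h3 := sameLine_of_mem_PW htP (v x')
  have e1 := pos_add h2 (sameLine_trans (sameLine_symm h2) (sameLine_trans h1 h3))
  have e2 := pos_add h1 h3
  have b1 := abs_disp_le (hd t ht).1 (v x)
  have b2 := abs_disp_le (hd t ht).1 (v x')
  have b3 := hC v hv
  rw [disp] at b1 b2
  rw [Equiv.Perm.mul_apply, Equiv.Perm.mul_apply]
  rw [abs_le] at b1 b2 b3 ⊢
  constructor
  · linarith [b1.1, b1.2, b2.1, b2.2, b3.1, b3.2]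
  · linarith [b1.1, b1.2, b2.1, b2.2, b3.1, b3.2]

theorem nb_step [Finite F] {A : Sys b F} (hA : A.Reduced)
    {U : Subgroup (Equiv.Perm (Pt b F))} (hU : A.NFI U) {x : Pt b F} (hx : x ∈ A.D)
    {g1 : Equiv.Perm (Pt b F)} (hg1 : g1 ∈ A.G) (h1 : g1 ∉ UW hU x) {T : Finset (Pt b F)}
    (hT : ∀ a ∈ A.orb x, ∃ t ∈ T, a ∈ A.orbz x t) :
    ∃ B : Sys b F, B.Reduced ∧ (ExpGrowth B.G → ExpGrowth A.G) ∧ x ∈ B.D ∧
      ∃ T' : Finset (Pt b F), T'.card < T.card ∧ ∀ a ∈ B.orb x, ∃ t ∈ T', a ∈ B.orbz x t := by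
  classical
  have hV := UW_le hU x
  have h0 := UW_index_ne hU x
  obtain ⟨P, hPG, hPD⟩ := exists_psys_of_fi hV h0
  have hxP : x ∈ P.D := by
    rw [hPD]
    exact hx
  obtain ⟨B, π, hBD, hπ, hact⟩ := P.exists_sys hxP
  have hcl := P.cmp_cl hxP
  have hPV : ∀ g, g ∈ P.G ↔ g ∈ UW hU x := fun g => by rw [hPG]
  have hPA : P.G ≤ A.G := fun g hg => hV ((hPV g).1 hg)
  refine ⟨B, ?_, fun h => ?_, ?_, T.filter fun t => ∃ v ∈ UW hU x, t = v x, ?_, ?_⟩
  · -- reduced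
    intro z hz z' hz' hl hC
    rw [hBD] at hz hz'
    obtain ⟨C, hC⟩ := hC
    have hzA : z ∈ A.D := by
      rw [← hPD]
      exact hcl.sub hz
    have hzA' : z' ∈ A.D := by
      rw [← hPD]
      exact hcl.sub hz'
    refine hA z hzA z' hzA' hl (reduced_of_fi hV h0 hl ⟨C, fun v hv => ?_⟩)
    have hvP : v ∈ P.G := (hPV v).2 hv
    have h2 := hC ((π ⟨v, hvP⟩ : B.G) : Equiv.Perm (Pt b F)) (π ⟨v, hvP⟩).2
    rw [hact ⟨v, hvP⟩ z hz, hact ⟨v, hvP⟩ z' hz'] at h2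
    exact h2
  · -- growth
    exact exp_of_injective (Subgroup.inclusion hPA) (Subgroup.inclusion_injective hPA)
      (exp_of_surjective π hπ h)
  · rw [hBD]
    exact P.self_mem_cmp x
  · -- the potential decreases
    refine Finset.card_lt_card (Finset.filter_ssubset.2 ?_)
    obtain ⟨t, ht, h, hh, hgt⟩ := hT (g1 x) ⟨g1, hg1, rfl⟩
    refine ⟨t, ht, ?_⟩
    rintro ⟨v, hv, rfl⟩
    apply h1
    have h2 : h * v ∈ UW hU x := (UW hU x).mul_mem (Fix_le_UW hU x hh) hv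
    obtain ⟨-, u, hu, hux⟩ := (mem_UW hU).1 h2
    exact (mem_UW hU).2 ⟨hg1, u, hu, by rw [hux, hgt]; rfl⟩
  · -- the points of the orbit
    rintro a ⟨g, hg, rfl⟩
    obtain ⟨v, hv⟩ := hπ ⟨g, hg⟩
    have hgv : g x = (v : Equiv.Perm (Pt b F)) x := by
      rw [← hact v x (P.self_mem_cmp x), hv]
    obtain ⟨t, ht, h, hh, hgt⟩ := hT (g x) ⟨v, hPA v.2, hgv⟩
    have hhV : h ∈ UW hU x := Fix_le_UW hU x hh
    have hhP : h ∈ P.G := (hPV h).2 hhV
    have hte : t = (h⁻¹ * (v : Equiv.Perm (Pt b F))) x := by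
      rw [Equiv.Perm.mul_apply, ← hgv, hgt]
      exact (PSys.C01_inv_apply h t).symm
    have hmem : h⁻¹ * (v : Equiv.Perm (Pt b F)) ∈ P.G := P.G.mul_mem (P.G.inv_mem hhP) v.2
    have htc : t ∈ P.cmp x := by
      rw [hte]
      exact hcl.inv _ hmem x (P.self_mem_cmp x)
    refine ⟨t, Finset.mem_filter.2 ⟨ht, _, (hPV _).1 hmem, hte⟩,
      ((π ⟨h, hhP⟩ : B.G) : Equiv.Perm (Pt b F)), ⟨(π ⟨h, hhP⟩).2, ?_⟩, ?_⟩
    · intro z hz
      rw [Set.mem_singleton_iff] at hz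
      rw [hz, hact ⟨h, hhP⟩ x (P.self_mem_cmp x)]
      exact ((A.mem_Fix_singleton).1 hh).2
    · rw [hgt, hact ⟨h, hhP⟩ t htc]

theorem not_NB [Finite F] {A : Sys b F} (h : ¬ A.NB) :
    ∃ (U : Subgroup (Equiv.Perm (Pt b F))) (hU : A.NFI U), ∀ x ∈ A.D,
      ∃ g ∈ A.G, g ∉ UW hU x := by
  simp only [NB, not_forall] at h
  obtain ⟨U, hU, h0, x1, hx1, g1, hg1, h1⟩ := h
  obtain ⟨V, hVU, hV⟩ := exists_core hU h0
  refine ⟨V, hV, fun x hx => ?_⟩
  refine uw_ne hV hx1 hg1 ?_ hx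
  intro hmem
  obtain ⟨u, hu, hux⟩ := ((mem_UW hV).1 hmem).2
  exact h1 ⟨u, hVU hu, hux⟩

end Sys

end Pool.Agent.helper98.NIG
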