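import Pool.Agent.helper35.NIG.Q17
import Pool.Agent.helper35.NIG.Q08

/-!
# NIG-Q18: the induction over the potential

PROOF of `exp_of_reduced`: prove by strong induction on `r`: for every reduced `A`, `x ∈ A.D` and `T : Finset (Pt b F)` with
`T.card = r` and `∀ a ∈ A.orb x, ∃ t ∈ T, a ∈ A.orbz x t` we have `ExpGrowth A.G`. If `A.NB` use `hend`. Otherwise `not_NB` gives `U` and
`g1 ∉ UW hU x`, and `nb_step` gives a reduced `B` with `x ∈ B.D` and a smaller `T'`: `ExpGrowth B.G` by induction, so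
`ExpGrowth A.G`. For the start: `A.nonempty`, `finite_orbits` for `z = y0 = x` with `hfree A`.
-/

namespace Pool.Agent.helper98.NIG

variable {b : Base} {F : Type}

namespace Sys

theorem exp_of_reduced [Finite F] (hfree : ∀ A : Sys b F, A.Reduced → A.FREE2)
    (hend : ∀ A : Sys b F, A.Reduced → A.FREE2 → A.NB → ExpGrowth A.G) (A : Sys b F)
    (hA : A.Reduced) : ExpGrowth A.G := by
  have key : ∀ (r : ℕ) (A : Sys b F) (x : Pt b F) (T : Finset (Pt b F)), A.Reduced → x ∈ A.D →
      T.card = r → (∀ a ∈ A.orb x, ∃ t ∈ T, a ∈ A.orbz x t) → ExpGrowth A.G := by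
    intro r
    induction r using Nat.strong_induction_on with
    | _ r ih =>
      intro A x T hA hx hr hT
      by_cases hNB : A.NB
      · exact hend A hA (hfree A hA) hNB
      · obtain ⟨U, hU, h1⟩ := not_NB hNB
        obtain ⟨g1, hg1, hg1'⟩ := h1 x hx
        obtain ⟨B, hB, hexp, hxB, T', hT', hTT⟩ := nb_step hA hU hx hg1 hg1' hT
        exact hexp (ih T'.card (hr ▸ hT') B x T' hB hxB rfl hTT)
  obtain ⟨x, hx⟩ := A.nonempty
  obtain ⟨T, _, hT⟩ := finite_orbits hA (hfree A hA) hx hx
  exact key _ A x T hA hx rfl hT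

end Sys

end Pool.Agent.helper98.NIG
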