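import Pool.Agent.helper2.NIG.L16
import Pool.Agent.helper98.NIG.C02

/-!
# NIG-QDefs: definitions for the part on transitivity (P6) and for the endgame (P8)

* `Fix Z`: the pointwise stabiliser of `Z`. `Stb M Z`: the subgroup generated by the words of length
  at most `M` which fix `Z` pointwise.
* `NR Z x`: `x` is not related to a point of `Z`. `NE N Z x`: not even locked up to word length `N`.
* `Unb H x`: the orbit of `x` under `H` is unbounded in both directions.
* `FREE2`: the theorem of the part on strips (P5).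
* `NB`: all subgroups of finite index have the same orbits.
* `Tr k`: the stabiliser of at most `k` points acts transitively on the points of a strand which are
  not related to them. `Fr k`: it has only unbounded orbits there (with finitely generated subgroups).
* `orbz z y`: the orbit of `y` under the stabiliser of `z`.
* `Sml x S ε`: on the line of `x` the set `S` has upper Banach density at most `ε`.
-/

namespace Pool.Agent.helper98.NIG

variable {b : Base} {F : Type}

/-- the orbit of `x` under `H` is unbounded in both directions -/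
def Unb (H : Subgroup (Equiv.Perm (Pt b F))) (x : Pt b F) : Prop :=
  ∀ K : ℤ, (∃ g ∈ H, K < disp g x) ∧ ∃ g ∈ H, disp g x < K

/-- on the line of `x` the set `S` has upper Banach density at most `ε` -/
def Sml (x : Pt b F) (S : Set (Pt b F)) (ε : ℝ) : Prop :=
  ∃ C : ℝ, ∀ u v : ℤ, u ≤ v →
    ((({q : ℤ × F | u ≤ q.1 ∧ q.1 < v ∧ ((sh q.1 x.1, q.2) : Pt b F) ∈ S}.ncard : ℕ) : ℝ)) ≤
      ε * ((v - u : ℤ) : ℝ) + C

namespace Sys

/-- the pointwise stabiliser of `Z` -/
def Fix (A : Sys b F) (Z : Set (Pt b F)) : Subgroup (Equiv.Perm (Pt b F)) where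
  carrier := {g | g ∈ A.G ∧ ∀ z ∈ Z, g z = z}
  one_mem' := ⟨A.G.one_mem, fun _ _ => rfl⟩
  mul_mem' := by
    rintro g h ⟨hg, hg'⟩ ⟨hh, hh'⟩
    refine ⟨A.G.mul_mem hg hh, fun z hz => ?_⟩
    rw [Equiv.Perm.mul_apply, hh' z hz, hg' z hz]
  inv_mem' := by
    rintro g ⟨hg, hg'⟩
    refine ⟨A.G.inv_mem hg, fun z hz => ?_⟩
    rw [Equiv.Perm.inv_eq_iff_eq]
    exact (hg' z hz).symm

/-- the subgroup generated by the words of length at most `M` which fix `Z` pointwise -/
def Stb (A : Sys b F) (M : ℕ) (Z : Set (Pt b F)) : Subgroup (Equiv.Perm (Pt b F)) :=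
  Subgroup.closure {g | g ∈ A.W M ∧ ∀ z ∈ Z, g z = z}

/-- `x` is not related to a point of `Z` -/
def NR (A : Sys b F) (Z : Set (Pt b F)) (x : Pt b F) : Prop := ∀ z ∈ Z, ¬ A.Rel z x

/-- `x` is not locked to a point of `Z` up to word length `N` -/
def NE (A : Sys b F) (N : ℕ) (Z : Set (Pt b F)) (x : Pt b F) : Prop := ∀ z ∈ Z, ¬ A.E N z x

/-- the theorem of the part on strips -/
def FREE2 (A : Sys b F) : Prop :=
  ∀ N : ℕ, ∃ M : ℕ, ∀ z ∈ A.D, ∀ y ∈ A.D, ¬ A.E N z y → Unb (A.Stb M {z}) y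

/-- all subgroups of finite index have the same orbits -/
def NB (A : Sys b F) : Prop :=
  ∀ U : Subgroup (Equiv.Perm (Pt b F)), U ≤ A.G → U.relIndex A.G ≠ 0 →
    ∀ x ∈ A.D, ∀ g ∈ A.G, ∃ u ∈ U, u x = g x

/-- transitivity of the stabilisers of `k` points -/
def Tr (A : Sys b F) (k : ℕ) : Prop :=
  ∀ Z : Finset (Pt b F), (Z : Set (Pt b F)) ⊆ A.D → Z.card ≤ k → ∀ x ∈ A.D, ∀ g ∈ A.G,
    A.NR Z x → A.NR Z (g x) → ∃ h ∈ A.Fix Z, h x = g x

/-- the stabilisers of `k` points have unbounded orbits -/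
def Fr (A : Sys b F) (k : ℕ) : Prop :=
  ∀ Z : Finset (Pt b F), (Z : Set (Pt b F)) ⊆ A.D → Z.card ≤ k → ∀ y ∈ A.D, A.NR Z y →
    ∃ M : ℕ, Unb (A.Stb M Z) y

/-- the orbit of `y` under the stabiliser of `z` -/
def orbz (A : Sys b F) (z y : Pt b F) : Set (Pt b F) := {a | ∃ g ∈ A.Fix {z}, a = g y}

/-- `j` points of the strand of `y`, not related to `z`, in different orbits of the stabiliser of
`z` -/
def Ind (A : Sys b F) (j : ℕ) (z y : Pt b F) : Prop :=
  ∃ u : Fin j → Equiv.Perm (Pt b F), (∀ i, u i ∈ A.G) ∧ (∀ i, ¬ A.Rel z (u i y)) ∧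
    ∀ i i', u i' y ∈ A.orbz z (u i y) → i = i'

/-- the decompositions of the strand of `y0` into the orbits of the stabilisers of `z` and of `z'`
are `ε`-close -/
def Cls (A : Sys b F) (y0 : Pt b F) (ε : ℝ) (z z' : Pt b F) : Prop :=
  ∀ y ∈ A.orb y0, ¬ A.Rel z y → ∃ y' ∈ A.orb y0, ¬ A.Rel z' y' ∧
    Sml y0 (symmDiff (A.orbz z y) (A.orbz z' y')) ε

/-- the germ of the orbit of `y` under the stabiliser of `z` -/
def Gm (A : Sys b F) (y0 z y z' y' : Pt b F) : Prop :=
  ∀ ε : ℝ, 0 < ε → Sml y0 (symmDiff (A.orbz z y) (A.orbz z' y')) ε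

end Sys

end Pool.Agent.helper98.NIG
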