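import Pool.Agent.helper35.NIG.RDefs

/-!
# NIG-R01: agreement of windows of the singular lines

`P = (b.p : ℤ)`. The letter at the position `c` of the line of type `h` is `skel b h c` (`= h` if `c = 0`, `= τ c` otherwise).
PROOFS. `Agree N (atp h a q) (atp h' a' q')` with `q = q'`-floors means: for `|k| ≤ N`: `skel h (k + a + q.1) = skel h' (k + a' + q'.1)`
(unfold `atp`, `tw`, `sg`, `sh_apply`; the order of the summands by `ring_nf`/`congr 1`).
* `skel_ne`: if `n ≠ 0` then `skel b h n = τ n`.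
* `loc_dvd`: `P ^ (K+1) ∣ c`, `¬ P ^ K ∣ n` imply `τ (c + n) = τ n` (`b.loc K n (c + n)`, the difference is `-c`), and
  `c + n ≠ 0`, `n ≠ 0` (because `P ^ K` divides `0`, and `P ^ K ∣ c`, so it would divide `n`).
* `agree_gate`: let `P ^ (K + 1) ∣ c`, `|q.1| + N < P ^ K`. For `|k| ≤ N` put `n = k + q.1`, `|n| < P ^ K`. If `n = 0` both letters are
  `ty h c` (`c + 0`). If `n ≠ 0`: `¬ P ^ K ∣ n` (`B02_not_dvd`), so the left letter is `τ (c + n) = τ n` (`loc_dvd`) and the right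
  letter is `skel (ty h c) n = τ n`.
* `agree_block`: let `P ^ (K+1) ∣ c`, `N < q.1`, `q.1 + N < P ^ K`. For `|k| ≤ N` put `n = r * P ^ K + q.1 + k`, `0 < q.1 + k < P ^ K`, so
  `¬ P ^ K ∣ n`; both letters are `τ n` (`loc_dvd`).
* `act_of_agree`: `g ∈ G`, `IsPW r g`, `Agree r (atp h a q) (atp h' a' q')`, `g (atp h' a' q') = atp h' a' q''`. By `map_tw` `g (atp h a q)` is
  `tw h (a + q.1 + d) φ` with `d = disp g (atp h a q) = disp g (atp h' a' q')` (`disp_eq_of_agree`) and the same floor (`IsPW`: the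
  second coordinates agree: use `agree_map` with `N = 0`); and `d = (a' + q''.1) - (a' + q'.1)` by `tw_inj` and `map_tw`. Here
  `q.1 = q'.1` is assumed for simplicity (`q = q'`).
* `atp_ne`: `tw_inj`.
-/

namespace Pool.Agent.helper98.NIG

variable {b : Base} {F : Type}

theorem skel_ne (h : Bool) {n : ℤ} (hn : n ≠ 0) : skel b h n = b.τ n := by
  simp only [skel, if_neg hn]

theorem loc_dvd {K : ℕ} {c n : ℤ} (hc : (b.p : ℤ) ^ (K + 1) ∣ c) (hn : ¬ (b.p : ℤ) ^ K ∣ n) :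
    b.τ (c + n) = b.τ n ∧ n ≠ 0 ∧ c + n ≠ 0 := by
  refine ⟨?_, ?_, ?_⟩
  · refine (b.loc K n (c + n) hn ?_).symm
    have h1 : n - (c + n) = -c := by ring
    rw [h1]
    exact (dvd_neg).2 hc
  · rintro rfl
    exact hn (dvd_zero _)
  · intro h0
    have h1 : n = -c := by linarith
    apply hn
    rw [h1]
    exact (dvd_neg).2 ((pow_dvd_pow _ (Nat.le_succ K)).trans hc)

/-- near a gate at `c` the line looks like the singular line of the type of this gate -/
theorem agree_gate (h : Bool) {K N : ℕ} {c : ℤ} (hc : (b.p : ℤ) ^ (K + 1) ∣ c) (q : ℤ × F)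
    (hq : |q.1| + N < (b.p : ℤ) ^ K) : Agree N (atp b h c q) (atp b (ty b h c) 0 q) := by
  refine ⟨rfl, fun k hk => ?_⟩
  change skel b h (k + (c + q.1)) = skel b (ty b h c) (k + (0 + q.1))
  have e1 : k + (c + q.1) = c + (k + q.1) := by ring
  have e2 : k + (0 + q.1) = k + q.1 := by ring
  rw [e1, e2]
  by_cases hn : k + q.1 = 0
  · rw [hn, add_zero]
    simp [ty, skel]
  · have h1 : |k + q.1| < (b.p : ℤ) ^ K := (abs_add_le _ _).trans_lt (by linarith)
    obtain ⟨h2, -, h3⟩ := loc_dvd hc (B02_not_dvd b hn h1)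
    rw [skel_ne _ h3, skel_ne _ hn, h2]

/-- inside of the blocks `(c + r P ^ K, c + (r + 1) P ^ K)`, `P ^ (K + 1) ∣ c`, the lines agree -/
theorem agree_block (h h' : Bool) {K N : ℕ} {c : ℤ} (hc : (b.p : ℤ) ^ (K + 1) ∣ c) (r : ℤ)
    (q : ℤ × F) (hq : (N : ℤ) < q.1) (hq' : q.1 + N < (b.p : ℤ) ^ K) :
    Agree N (atp b h (c + r * (b.p : ℤ) ^ K) q) (atp b h' (r * (b.p : ℤ) ^ K) q) := by
  refine ⟨rfl, fun k hk => ?_⟩
  change skel b h (k + (c + r * (b.p : ℤ) ^ K + q.1)) = skel b h' (k + (r * (b.p : ℤ) ^ K + q.1))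
  have e1 : k + (c + r * (b.p : ℤ) ^ K + q.1) = c + (r * (b.p : ℤ) ^ K + (k + q.1)) := by ring
  have e2 : k + (r * (b.p : ℤ) ^ K + q.1) = r * (b.p : ℤ) ^ K + (k + q.1) := by ring
  rw [e1, e2]
  have h0 := abs_le.1 hk
  have h1 : ¬ (b.p : ℤ) ^ K ∣ r * (b.p : ℤ) ^ K + (k + q.1) := by
    intro hd
    have h2 : (b.p : ℤ) ^ K ∣ k + q.1 := (dvd_add_right (Dvd.intro_left r rfl)).1 hd
    have h3 : k + q.1 ≠ 0 := by
      intro h3
      linarith [h0.1]
    refine B02_not_dvd b h3 ?_ h2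
    rw [abs_lt]
    constructor <;> linarith [h0.1, h0.2]
  obtain ⟨h2, h3, h4⟩ := loc_dvd hc h1
  rw [skel_ne _ h3, skel_ne _ h4, h2]

theorem act_of_agree {r : ℕ} {g : Equiv.Perm (Pt b F)} (hg : IsPW r g) (hg' : g ∈ PW b F)
    {h h' : Bool} {a a' : ℤ} {q q' : ℤ × F} (hag : Agree r (atp b h a q) (atp b h' a' q))
    (he : g (atp b h' a' q) = atp b h' a' q') : g (atp b h a q) = atp b h a q' := by
  have h1 := map_tw hg' h (a + q.1) q.2
  have h2 := map_tw hg' h' (a' + q.1) q.2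
  have h3 : disp g (tw b h (a + q.1) q.2) = disp g (tw b h' (a' + q.1) q.2) :=
    disp_eq_of_agree hg hag
  have h4 : (g (tw b h (a + q.1) q.2)).2 = (g (tw b h' (a' + q.1) q.2)).2 :=
    (agree_map (N := 0) hg hag).1
  obtain ⟨-, h5, h6⟩ := tw_inj (h2.symm.trans he)
  rw [h3, h4, h6] at h1
  refine h1.trans ?_
  change tw b h _ q'.2 = tw b h (a + q'.1) q'.2
  congr 1
  linarith

theorem atp_inj {h h' : Bool} {a a' : ℤ} {q q' : ℤ × F} (he : atp b h a q = atp b h' a' q') :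
    h = h' ∧ a + q.1 = a' + q'.1 ∧ q.2 = q'.2 := tw_inj he

theorem sameLine_atp (h : Bool) (a a' : ℤ) (q q' : ℤ × F) :
    SameLine (atp b h a q) (atp b h a' q') := by
  refine ⟨a' + q'.1 - (a + q.1), ?_⟩
  change sh (a' + q'.1) (sg b h) = sh _ (sh (a + q.1) (sg b h))
  rw [sh_sh]
  congr 1
  ring

theorem pos_atp (h : Bool) (a a' : ℤ) (q q' : ℤ × F) :
    pos (atp b h a q) (atp b h a' q') = a' + q'.1 - (a + q.1) := by
  apply pos_eq
  change sh (a' + q'.1) (sg b h) = sh _ (sh (a + q.1) (sg b h))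
  rw [sh_sh]
  congr 1
  ring

/-- the image of a point of a singular line -/
theorem exists_map_atp {g : Equiv.Perm (Pt b F)} (hg : g ∈ PW b F) (h : Bool) (a a' : ℤ)
    (q : ℤ × F) : ∃ q' : ℤ × F, g (atp b h a q) = atp b h a' q' ∧
      a' + q'.1 = a + q.1 + disp g (atp b h a q) := by
  refine ⟨(a + q.1 + disp g (atp b h a q) - a', (g (atp b h a q)).2), ?_, by ring⟩
  refine (map_tw hg h (a + q.1) q.2).trans ?_
  change tw b h _ _ = tw b h (a' + (a + q.1 + disp g (atp b h a q) - a')) _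
  congr 1
  change a + q.1 + disp g (atp b h a q) = _
  ring

end Pool.Agent.helper98.NIG
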