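import Pool.Agent.helper35.NIG.R01
import Pool.Agent.helper2.NIG.L06
import Pool.Agent.helper98.NIG.C02

/-!
# NIG-R02: locality of the strands on the singular lines

`q'` is in the strand of `q` relative to the position `a`: `atp h a q' ∈ A.orb (atp h a q)`.
PROOFS.
* `orb_congr`: `orb_transport` (L06) with `x = atp h a q`, `x' = atp h' a' q`, `c = - q.1`, `c' = - q.1`, the places `q`, `q'` and the
  window `[u, v]`: `sh (c + k) x.1` is the line shifted by `a + k`: `(sh (c + q'.1) x.1, q'.2) = atp h a q'` (`sh_sh`). Both `h1`, `h2` hold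
  because the points with `q` are `x`, `x'` themselves (`orb_self`). The pattern hypothesis is `hpat`.
* `right_congr`: `orb_congr` with `a = c`, `a' = 0`, `h' = h0`, the window `[m1, v]`, `m1 = R + ρ + 1`: for
  `m1 - R - ρ ≤ k ≤ v + R + ρ < P ^ K` the letters agree: `1 ≤ k`, `¬ P ^ K ∣ k`: both are `τ k` (`loc_dvd`). `v = max q.1 q'.1`. Membership in
  `D` is transported by `A.clopen` (`agree` of radius `ρ`, from the same letters).
* `left_congr`: the mirror statement with the window `[-v, -m1]`.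
* `right_line`, `left_line`: the case `c = 0` without the bound (compare the two singular lines): the letters of the two
  lines agree at all positions `≠ 0`.
* `simul`: let `x = atp false 0 q`, `g0 ∈ G` with `g0 x = atp false 0 q'`; `BCon` gives `g` with `g x = g0 x` and a path in
  `I = [min 0 d - R, max 0 d + R]`, `d = q'.1 - q.1` (`map_tw`, `tw_inj`). For `k ∈ I`, `|j| ≤ ρ` the position `q.1 + k + j` is not `0`
  (`hside`), so the two lines agree there and `reach_congr_Icc` (L02) gives the same displacement and floor at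
  `atp true 0 q`; `map_tw` for `g`.
-/

namespace Pool.Agent.helper98.NIG

variable {b : Base} {F : Type}

namespace Sys

theorem orb_congr {A : Sys b F} {R : ℕ} (hR : A.BCon R) {h h' : Bool} {a a' u v : ℤ}
    (hpat : ∀ k : ℤ, u - R - A.ρ ≤ k → k ≤ v + R + A.ρ → skel b h (a + k) = skel b h' (a' + k))
    {q q' : ℤ × F} (hqu : u ≤ q.1) (hqv : q.1 ≤ v) (hqu' : u ≤ q'.1) (hqv' : q'.1 ≤ v)
    (hq : atp b h a q ∈ A.D) : atp b h' a' q ∈ A.D ∧
      (atp b h a q' ∈ A.orb (atp b h a q) ↔ atp b h' a' q' ∈ A.orb (atp b h' a' q)) := by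
  have hag : Agree A.ρ (atp b h a q) (atp b h' a' q) := by
    refine ⟨rfl, fun k hk => ?_⟩
    change skel b h (k + (a + q.1)) = skel b h' (k + (a' + q.1))
    rw [abs_le] at hk
    have h1 := hpat (q.1 + k) (by omega) (by omega)
    have e1 : k + (a + q.1) = a + (q.1 + k) := by ring
    have e2 : k + (a' + q.1) = a' + (q.1 + k) := by ring
    rw [e1, e2]
    exact h1
  have hq' : atp b h' a' q ∈ A.D := (A.clopen _ _ hag).1 hq
  refine ⟨hq', ?_⟩
  have e : ∀ (h : Bool) (a : ℤ) (q'' : ℤ × F),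
      (sh (-q.1 + q''.1) (atp b h a q).1, q''.2) = atp b h a q'' := by
    intro h a q''
    refine Prod.ext ?_ rfl
    change sh (-q.1 + q''.1) (sh (a + q.1) (sg b h)) = sh (a + q''.1) (sg b h)
    rw [sh_sh]
    congr 1
    ring
  have key := orb_transport hR (x := atp b h a q) (x' := atp b h' a' q) hq hq' (c := -q.1)
    (c' := -q.1) (u := u) (v := v) (q := q) (q' := q')
    (fun k hk hk' => by
      change skel b h (-q.1 + k + (a + q.1)) = skel b h' (-q.1 + k + (a' + q.1))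
      have e1 : -q.1 + k + (a + q.1) = a + k := by ring
      have e2 : -q.1 + k + (a' + q.1) = a' + k := by ring
      rw [e1, e2]
      exact hpat k hk hk') hqu hqv hqu' hqv'
    (by
      rw [e]
      exact ⟨1, A.G.one_mem, rfl⟩)
    (by
      rw [e]
      exact ⟨1, A.G.one_mem, rfl⟩)
  rw [e, e] at key
  exact key

/-- the two lines agree on a window between two positions -/
theorem R02_win {A : Sys b F} {R : ℕ} (hR : A.BCon R) {h h0 : Bool} {c u v : ℤ}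
    (hpat : ∀ k : ℤ, u - R - A.ρ ≤ k → k ≤ v + R + A.ρ → skel b h (c + k) = skel b h0 (0 + k))
    {q q' : ℤ × F} (hqu : u ≤ q.1) (hqv : q.1 ≤ v) (hqu' : u ≤ q'.1) (hqv' : q'.1 ≤ v) :
    (atp b h c q ∈ A.D ↔ atp b h0 0 q ∈ A.D) ∧ (atp b h c q ∈ A.D →
      (atp b h c q' ∈ A.orb (atp b h c q) ↔ atp b h0 0 q' ∈ A.orb (atp b h0 0 q))) :=
  ⟨⟨fun hq => (orb_congr hR hpat hqu hqv hqu' hqv' hq).1,
    fun hq => (orb_congr hR (fun k hk hk' => (hpat k hk hk').symm) hqu hqv hqu' hqv' hq).1⟩,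
    fun hq => (orb_congr hR hpat hqu hqv hqu' hqv' hq).2⟩

/-- on the right side of a gate -/
theorem right_congr {A : Sys b F} {R : ℕ} (hR : A.BCon R) {h h0 : Bool} {K : ℕ} {c : ℤ}
    (hc : (b.p : ℤ) ^ (K + 1) ∣ c) {q q' : ℤ × F} (hq1 : (R : ℤ) + A.ρ + 1 ≤ q.1)
    (hq1' : (R : ℤ) + A.ρ + 1 ≤ q'.1) (hq2 : q.1 + R + A.ρ < (b.p : ℤ) ^ K)
    (hq2' : q'.1 + R + A.ρ < (b.p : ℤ) ^ K) :
    (atp b h c q ∈ A.D ↔ atp b h0 0 q ∈ A.D) ∧ (atp b h c q ∈ A.D →
      (atp b h c q' ∈ A.orb (atp b h c q) ↔ atp b h0 0 q' ∈ A.orb (atp b h0 0 q))) := by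
  refine R02_win hR (u := (R : ℤ) + A.ρ + 1) (v := max q.1 q'.1) (fun k hk hk' => ?_) hq1
    (le_max_left _ _) hq1' (le_max_right _ _)
  have h1 : k ≠ 0 := by omega
  have h3 : |k| < (b.p : ℤ) ^ K := by
    rw [abs_lt]
    constructor <;> omega
  obtain ⟨h4, -, h5⟩ := loc_dvd hc (B02_not_dvd b h1 h3)
  rw [zero_add, skel_ne _ h5, skel_ne _ h1, h4]

/-- on the left side of a gate -/
theorem left_congr {A : Sys b F} {R : ℕ} (hR : A.BCon R) {h h0 : Bool} {K : ℕ} {c : ℤ}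
    (hc : (b.p : ℤ) ^ (K + 1) ∣ c) {q q' : ℤ × F} (hq1 : q.1 ≤ -((R : ℤ) + A.ρ + 1))
    (hq1' : q'.1 ≤ -((R : ℤ) + A.ρ + 1)) (hq2 : -(b.p : ℤ) ^ K < q.1 - R - A.ρ)
    (hq2' : -(b.p : ℤ) ^ K < q'.1 - R - A.ρ) :
    (atp b h c q ∈ A.D ↔ atp b h0 0 q ∈ A.D) ∧ (atp b h c q ∈ A.D →
      (atp b h c q' ∈ A.orb (atp b h c q) ↔ atp b h0 0 q' ∈ A.orb (atp b h0 0 q))) := by
  refine R02_win hR (u := min q.1 q'.1) (v := -((R : ℤ) + A.ρ + 1)) (fun k hk hk' => ?_)
    (min_le_left _ _) hq1 (min_le_right _ _) hq1'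
  have h1 : k ≠ 0 := by omega
  have h3 : |k| < (b.p : ℤ) ^ K := by
    rw [abs_lt]
    constructor <;> omega
  obtain ⟨h4, -, h5⟩ := loc_dvd hc (B02_not_dvd b h1 h3)
  rw [zero_add, skel_ne _ h5, skel_ne _ h1, h4]

/-- the two singular lines, right side -/
theorem right_line {A : Sys b F} {R : ℕ} (hR : A.BCon R) {h h0 : Bool} {q q' : ℤ × F}
    (hq1 : (R : ℤ) + A.ρ + 1 ≤ q.1) (hq1' : (R : ℤ) + A.ρ + 1 ≤ q'.1) :
    (atp b h 0 q ∈ A.D ↔ atp b h0 0 q ∈ A.D) ∧ (atp b h 0 q ∈ A.D →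
      (atp b h 0 q' ∈ A.orb (atp b h 0 q) ↔ atp b h0 0 q' ∈ A.orb (atp b h0 0 q))) := by
  refine R02_win hR (u := (R : ℤ) + A.ρ + 1) (v := max q.1 q'.1) (fun k hk hk' => ?_) hq1
    (le_max_left _ _) hq1' (le_max_right _ _)
  have h1 : k ≠ 0 := by omega
  rw [zero_add, skel_ne _ h1, skel_ne _ h1]

/-- the two singular lines, left side -/
theorem left_line {A : Sys b F} {R : ℕ} (hR : A.BCon R) {h h0 : Bool} {q q' : ℤ × F}
    (hq1 : q.1 ≤ -((R : ℤ) + A.ρ + 1)) (hq1' : q'.1 ≤ -((R : ℤ) + A.ρ + 1)) :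
    (atp b h 0 q ∈ A.D ↔ atp b h0 0 q ∈ A.D) ∧ (atp b h 0 q ∈ A.D →
      (atp b h 0 q' ∈ A.orb (atp b h 0 q) ↔ atp b h0 0 q' ∈ A.orb (atp b h0 0 q))) := by
  refine R02_win hR (u := min q.1 q'.1) (v := -((R : ℤ) + A.ρ + 1)) (fun k hk hk' => ?_)
    (min_le_left _ _) hq1 (min_le_right _ _) hq1'
  have h1 : k ≠ 0 := by omega
  rw [zero_add, skel_ne _ h1, skel_ne _ h1]

/-- two places on the same side and in the same strand are connected on both singular lines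
simultaneously -/
theorem simul {A : Sys b F} {R : ℕ} (hR : A.BCon R) {q q' : ℤ × F}
    (hside : ((R : ℤ) + A.ρ + 1 ≤ q.1 ∧ (R : ℤ) + A.ρ + 1 ≤ q'.1) ∨
      (q.1 ≤ -((R : ℤ) + A.ρ + 1) ∧ q'.1 ≤ -((R : ℤ) + A.ρ + 1)))
    (hq : atp b false 0 q ∈ A.D) (ho : atp b false 0 q' ∈ A.orb (atp b false 0 q)) :
    ∃ g ∈ A.G, ∀ h : Bool, g (atp b h 0 q) = atp b h 0 q' := by
  obtain ⟨g0, hg0, e0⟩ := ho
  obtain ⟨g, hg, e⟩ := hR _ hq g0 hg0
  have hgG := hg.mem_G
  have hgP := A.G_le_PW hgG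
  have e1 : g (atp b false 0 q) = atp b false 0 q' := e.trans e0.symm
  have hd0 : disp g0 (atp b false 0 q) = q'.1 - q.1 := by
    unfold disp
    rw [← e0, pos_atp]
    ring
  have hd : disp g (atp b false 0 q) = q'.1 - q.1 := (L02_disp_congr e).trans hd0
  have h0 : (0 : ℤ) ∈ Set.Icc (min 0 (disp g0 (atp b false 0 q)) - (R : ℤ))
      (max 0 (disp g0 (atp b false 0 q)) + R) := by
    rw [Set.mem_Icc]
    constructor <;> omega
  refine ⟨g, hgG, fun h => ?_⟩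
  obtain ⟨-, r2, r3⟩ := reach_congr_Icc (x := atp b false 0 q) (x' := atp b h 0 q) h0 rfl
    (fun k hk j hj => by
      change skel b false (k + j + (0 + q.1)) = skel b h (k + j + (0 + q.1))
      rw [hd0, Set.mem_Icc] at hk
      rw [abs_le] at hj
      have h1 : k + j + (0 + q.1) ≠ 0 := by omega
      rw [skel_ne _ h1, skel_ne _ h1]) hg
  have h3 := map_tw hgP h (0 + q.1) q.2
  have h4 : disp g (tw b h (0 + q.1) q.2) = q'.1 - q.1 := r2.trans hd
  have h5 : (g (tw b h (0 + q.1) q.2)).2 = q'.2 := by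
    refine r3.trans ?_
    rw [e1]
    rfl
  rw [h4, h5] at h3
  refine h3.trans ?_
  change tw b h _ q'.2 = tw b h (0 + q'.1) q'.2
  congr 1
  ring

end Sys

end Pool.Agent.helper98.NIG
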