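import Pool.Agent.helper35.NIG.Q01
import Pool.Agent.helper98.NIG.C08

/-!
# NIG-R03: moving finitely many points; the abstract endgame

PROOFS.
* `move_all`. Induction on a finset `s` of indices: there is `g ∈ G` with `g (x i) = y i` for all `i ∈ s`. Step: let `g` be given for
  `s` and `i0 ∉ s`. (a) If some `i ∈ s` has `Rel (x i) (x i0)` then the hypothesis for `i, i0` cannot be the first alternative, so there is
  `g0 ∈ G` with `g0 (x i) = y i`, `g0 (x i0) = y i0`; `g0⁻¹ g` fixes `x i`, so it fixes `x i0`: `g (x i0) = y i0`. (b) Otherwise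
  `¬ Rel (x i) (x i0)` for all `i ∈ s`, hence `¬ Rel (y i) (y i0)` for all `i ∈ s` (first alternative, or
  `rel_map_iff` for the `g0` of the second one). Let `Z` be the finset of the `y i`, `i ∈ s` (`classical`, `Finset.image`). `Tr Z.card` for
  the point `g (x i0)` and its target `y i0` (in the same orbit: `ho`): `NR Z (g (x i0))` because
  `y i = g (x i)` and `rel_map_iff`; `NR Z (y i0)`. It gives `h ∈ Fix Z` with `h (g (x i0)) = y i0`; take `h g`.
  (`y i ∈ D`: `map_mem`.) At the end `s = univ` (`Fintype.ofFinite`).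
* `free_words`: for a list `a : List Bool` let `wd a : Equiv.Perm X` be defined by `wd [] = 1`,
  `wd (c :: a) = (if c then f⁻¹ * t * f else t) * wd a` (so the head of the list is applied last). Let
  `lam' : Bool → ℕ → Bool`, `lam' h (i + 1) = lam i`, `lam' true 0 = true`, `lam' false 0 = false`: then
  `f (p h i ε) = p h i (xor ε (lam' h i))` for all `h, i, ε`. CLAIM: `wd a (p h (i + a.length) ε) = p h i (xor ε (S h i a))`, where
  `S h i [] = false`, `S h i (c :: a) = xor (S h (i + 1) a) (if c then xor (lam' h (i + 1)) (lam' h i) else false)`: induction on `a`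
  (use `f⁻¹ (p h i ε) = p h i (xor ε (lam' h i))`, from `hf` and `xor`-involution).
  INJECTIVITY on lists of the same length: suppose `wd (c :: a) = wd (c' :: a')`. If `c = c'` cancel the head: `wd a = wd a'`.
  If `c ≠ c'`, say `c = true`, `c' = false`. `S h 1 a` does not depend on `h` (it uses only `lam' h i` with `i ≥ 1`): write
  `S1 a`. Apply both words to `p h (a.length + 1) false` (`i = 0`): `p h 0 (xor (S1 a) (xor (lam' h 1) (lam' h 0))) = p h 0 (S1 a')`, so
  by `hne` (injectivity in `ε`) `xor (S1 a) (xor (lam 0) (lam' h 0)) = S1 a'` for `h = true` and for `h = false`: contradiction since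
  `lam' true 0 ≠ lam' false 0`.
* `exp_of_tracks`: `exp_of_words` (C08) with `T = {t, f}` (as elements of the group `G`), `m = 3`: every letter is a product
  of at most 3 elements of `T ∪ T⁻¹`.
-/

namespace Pool.Agent.helper98.NIG

variable {b : Base} {F : Type}

namespace Sys

/-- moving a finite family of points -/
theorem move_all {A : Sys b F} (hT : ∀ k, A.Tr k) {κ : Type} [Finite κ] (x y : κ → Pt b F)
    (hx : ∀ i, x i ∈ A.D) (ho : ∀ i, y i ∈ A.orb (x i))
    (h : ∀ i i', i ≠ i' → (¬ A.Rel (x i) (x i') ∧ ¬ A.Rel (y i) (y i')) ∨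
      ∃ g ∈ A.G, g (x i) = y i ∧ g (x i') = y i') : ∃ g ∈ A.G, ∀ i, g (x i) = y i := by
  classical
  have key : ∀ s : Finset κ, ∃ g ∈ A.G, ∀ i ∈ s, g (x i) = y i := by
    intro s
    induction s using Finset.induction_on with
    | empty => exact ⟨1, A.G.one_mem, by simp⟩
    | insert i0 s hi0 ih =>
      obtain ⟨g, hg, hgs⟩ := ih
      by_cases hr : ∃ i ∈ s, A.Rel (x i) (x i0)
      · obtain ⟨i, hi, hrel⟩ := hr
        have hne : i ≠ i0 := fun e => hi0 (e ▸ hi)
        obtain ⟨h1, -⟩ | ⟨g0, hg0, e1, e2⟩ := h i i0 hne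
        · exact absurd hrel h1
        · refine ⟨g, hg, fun j hj => ?_⟩
          rcases Finset.mem_insert.1 hj with rfl | hj
          · have h1 : (g0⁻¹ * g) (x i) = x i := by
              rw [Equiv.Perm.mul_apply, hgs i hi, ← e1]
              exact g0.symm_apply_apply _
            have h2 := (hrel _ (A.G.mul_mem (A.G.inv_mem hg0) hg)).1 h1
            rw [Equiv.Perm.mul_apply, Equiv.Perm.inv_eq_iff_eq] at h2
            rw [h2, e2]
          · exact hgs j hj
      · push Not at hr
        have hry : ∀ i ∈ s, ¬ A.Rel (y i) (y i0) := by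
          intro i hi
          have hne : i ≠ i0 := fun e => hi0 (e ▸ hi)
          obtain ⟨-, h1⟩ | ⟨g0, hg0, e1, e2⟩ := h i i0 hne
          · exact h1
          · rw [← e1, ← e2, rel_map_iff hg0]
            exact hr i hi
        obtain ⟨g1, hg1, e1⟩ := ho i0
        have hyD : ∀ i, y i ∈ A.D := by
          intro i
          obtain ⟨g2, hg2, e2⟩ := ho i
          rw [e2]
          exact A.map_mem hg2 (hx i)
        have hinv : g⁻¹ (g (x i0)) = x i0 := g.symm_apply_apply _
        obtain ⟨k, hk, hkx⟩ := hT (s.image y).card (s.image y) (by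
            intro z hz
            obtain ⟨i, -, rfl⟩ := Finset.mem_image.1 (Finset.mem_coe.1 hz)
            exact hyD i) le_rfl (g (x i0)) (A.map_mem hg (hx i0)) (g1 * g⁻¹)
          (A.G.mul_mem hg1 (A.G.inv_mem hg)) (by
            intro z hz
            obtain ⟨i, hi, rfl⟩ := Finset.mem_image.1 (Finset.mem_coe.1 hz)
            rw [← hgs i hi, rel_map_iff hg]
            exact hr i hi) (by
            intro z hz
            obtain ⟨i, hi, rfl⟩ := Finset.mem_image.1 (Finset.mem_coe.1 hz)
            rw [Equiv.Perm.mul_apply, hinv, ← e1]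
            exact hry i hi)
        refine ⟨k * g, A.G.mul_mem hk.1 hg, fun j hj => ?_⟩
        rcases Finset.mem_insert.1 hj with rfl | hj
        · rw [Equiv.Perm.mul_apply, hkx, Equiv.Perm.mul_apply, hinv, ← e1]
        · rw [Equiv.Perm.mul_apply, hgs j hj]
          exact hk.2 _ (Finset.mem_coe.2 (Finset.mem_image_of_mem y hj))
  cases nonempty_fintype κ
  obtain ⟨g, hg, hgs⟩ := key Finset.univ
  exact ⟨g, hg, fun i => hgs i (Finset.mem_univ i)⟩

end Sys

/-- the words in `t` and `f⁻¹ t f` -/
def wd {X : Type} (t f : Equiv.Perm X) : List Bool → Equiv.Perm X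
  | [] => 1
  | c :: a => (if c then f⁻¹ * t * f else t) * wd t f a

/-- the signs of the tracks -/
def R03_lam (lam : ℕ → Bool) (h : Bool) : ℕ → Bool
  | 0 => h
  | i + 1 => lam i

/-- the sign of a word -/
def R03_S (lam : ℕ → Bool) (h : Bool) : ℕ → List Bool → Bool
  | _, [] => false
  | i, c :: a => xor (R03_S lam h (i + 1) a)
      (if c then xor (R03_lam lam h (i + 1)) (R03_lam lam h i) else false)

theorem R03_S_indep (lam : ℕ → Bool) (h h' : Bool) (a : List Bool) :
    ∀ i, R03_S lam h (i + 1) a = R03_S lam h' (i + 1) a := by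
  induction a with
  | nil => intro i; rfl
  | cons c a ih =>
    intro i
    simp only [R03_S, R03_lam]
    rw [ih (i + 1)]

theorem R03_wd {X : Type} (t f : Equiv.Perm X) (p : Bool → ℕ → Bool → X) (lam : ℕ → Bool)
    (ht : ∀ h i ε, t (p h (i + 1) ε) = p h i ε)
    (hf : ∀ h i ε, f (p h (i + 1) ε) = p h (i + 1) (xor ε (lam i)))
    (hf1 : ∀ ε, f (p true 0 ε) = p true 0 (!ε)) (hf0 : ∀ ε, f (p false 0 ε) = p false 0 ε)
    (h : Bool) (a : List Bool) :
    ∀ i ε, wd t f a (p h (i + a.length) ε) = p h i (xor ε (R03_S lam h i a)) := by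
  have hF : ∀ i ε, f (p h i ε) = p h i (xor ε (R03_lam lam h i)) := by
    intro i ε
    cases i with
    | zero =>
      cases h with
      | false => rw [hf0]; simp [R03_lam]
      | true => rw [hf1]; simp [R03_lam]
    | succ i => exact hf h i ε
  have hF' : ∀ i ε, f⁻¹ (p h i ε) = p h i (xor ε (R03_lam lam h i)) := by
    intro i ε
    rw [Equiv.Perm.inv_eq_iff_eq, hF]
    simp
  induction a with
  | nil =>
    intro i ε
    simp [wd, R03_S]
  | cons c a ih =>
    intro i ε
    have e : i + (c :: a).length = (i + 1) + a.length := by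
      rw [List.length_cons]
      omega
    rw [e, wd, Equiv.Perm.mul_apply, ih (i + 1) ε]
    cases c with
    | false =>
      simp only [Bool.false_eq_true, if_false, R03_S, Bool.xor_false]
      exact ht h i _
    | true =>
      simp only [if_true, R03_S]
      rw [Equiv.Perm.mul_apply, Equiv.Perm.mul_apply, hF, ht, hF']
      congr 1
      simp only [Bool.xor_assoc]

theorem free_words {X : Type} (t f : Equiv.Perm X) (p : Bool → ℕ → Bool → X) (lam : ℕ → Bool)
    (ht : ∀ h i ε, t (p h (i + 1) ε) = p h i ε)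
    (hf : ∀ h i ε, f (p h (i + 1) ε) = p h (i + 1) (xor ε (lam i)))
    (hf1 : ∀ ε, f (p true 0 ε) = p true 0 (!ε)) (hf0 : ∀ ε, f (p false 0 ε) = p false 0 ε)
    (hne : ∀ h i, p h i true ≠ p h i false) :
    ∀ a a' : List Bool, a.length = a'.length → wd t f a = wd t f a' → a = a' := by
  have hinj : ∀ h i ε ε', p h i ε = p h i ε' → ε = ε' := by
    intro h i ε ε' he
    cases ε <;> cases ε'
    · rfl
    · exact absurd he.symm (hne h i)
    · exact absurd he (hne h i)
    · rfl
  -- different heads
  have key : ∀ a a' : List Bool, a.length = a'.length →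
      wd t f (true :: a) ≠ wd t f (false :: a') := by
    intro a a' hl he
    have h1 : ∀ h, R03_S lam h 0 (true :: a) = R03_S lam h 0 (false :: a') := by
      intro h
      have e1 := R03_wd t f p lam ht hf hf1 hf0 h (true :: a) 0 false
      have e2 := R03_wd t f p lam ht hf hf1 hf0 h (false :: a') 0 false
      have e3 : (true :: a).length = (false :: a').length := by simp [hl]
      rw [← e3, ← he, e1] at e2
      have e4 := hinj _ _ _ _ e2
      simpa using e4
    have h2 := h1 true
    have h3 := h1 false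
    simp only [R03_S, R03_lam] at h2 h3
    rw [show (0 : ℕ) + 1 = 0 + 1 from rfl, R03_S_indep lam true false a 0,
      R03_S_indep lam true false a' 0] at h2
    revert h2 h3
    cases R03_S lam false (0 + 1) a <;> cases R03_S lam false (0 + 1) a' <;> cases lam 0 <;> simp
  intro a
  induction a with
  | nil =>
    intro a' hl _
    exact (List.length_eq_zero_iff.1 hl.symm).symm
  | cons c a ih =>
    intro a' hl he
    cases a' with
    | nil => simp at hl
    | cons c' a' =>
      have hl' : a.length = a'.length := by simpa using hl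
      by_cases hc : c = c'
      · subst hc
        rw [wd, wd] at he
        rw [ih a' hl' (mul_left_cancel he)]
      · exfalso
        cases c <;> cases c'
        · exact hc rfl
        · exact key a' a hl'.symm he.symm
        · exact key a a' hl' he
        · exact hc rfl

theorem exp_of_tracks {X : Type} (G : Subgroup (Equiv.Perm X)) (t f : Equiv.Perm X) (htG : t ∈ G)
    (hfG : f ∈ G) (p : Bool → ℕ → Bool → X) (lam : ℕ → Bool)
    (ht : ∀ h i ε, t (p h (i + 1) ε) = p h i ε)
    (hf : ∀ h i ε, f (p h (i + 1) ε) = p h (i + 1) (xor ε (lam i)))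
    (hf1 : ∀ ε, f (p true 0 ε) = p true 0 (!ε)) (hf0 : ∀ ε, f (p false 0 ε) = p false 0 ε)
    (hne : ∀ h i, p h i true ≠ p h i false) : ExpGrowth G := by
  classical
  set T : Finset G := {⟨t, htG⟩, ⟨f, hfG⟩} with hT
  have htT : (⟨t, htG⟩ : G) ∈ (T : Set G) := by simp [hT]
  have hfT : (⟨f, hfG⟩ : G) ∈ (T : Set G) := by simp [hT]
  have key : ∀ a : List Bool, ∃ g : G, (g : Equiv.Perm X) = wd t f a ∧
      g ∈ Ball (T : Set G) (3 * a.length) := by
    intro a
    induction a with
    | nil => exact ⟨1, rfl, C08.one_mem _ _⟩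
    | cons c a ih =>
      obtain ⟨g, hg, hg'⟩ := ih
      have e : 3 * (c :: a).length = 3 + 3 * a.length := by
        rw [List.length_cons]
        omega
      rw [e]
      cases c with
      | false =>
        refine ⟨⟨t, htG⟩ * g, ?_, C08.mul_mem (ball_mono _ (by norm_num) (C08.mem_one htT)) hg'⟩
        simp [wd, hg]
      | true =>
        refine ⟨(⟨f, hfG⟩ : G)⁻¹ * ⟨t, htG⟩ * ⟨f, hfG⟩ * g, ?_, C08.mul_mem ?_ hg'⟩
        · simp [wd, hg]
        · exact C08.mul_mem (C08.mul_mem (C08.inv_mem (C08.mem_one hfT)) (C08.mem_one htT))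
            (C08.mem_one hfT)
  choose w hw hw' using key
  refine exp_of_words T 3 (fun n v => w (List.ofFn v)) ?_ ?_
  · intro n v v' hv
    have h1 : wd t f (List.ofFn v) = wd t f (List.ofFn v') := by
      rw [← hw, ← hw]
      exact congrArg Subtype.val hv
    have h2 := free_words t f p lam ht hf hf1 hf0 hne _ _ (by simp) h1
    exact List.ofFn_injective h2
  · intro n v
    have h1 := hw' (List.ofFn v)
    rwa [List.length_ofFn] at h1

end Pool.Agent.helper98.NIG
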