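import Pool.Agent.helper35.NIG.R02
import Pool.Agent.helper35.NIG.Q07
import Pool.Agent.helper98.NIG.C01

/-!
# NIG-R04: choice of the tokens

PROOFS.
* `rel_places_finite`: for a point `z ∈ D` the set of the places `q` with `atp h 0 q ∈ D` and `Rel z (atp h 0 q)` has at most two
  elements: three different places give three different points on one line (`atp_inj`, `sameLine_atp`), `rel_three`.
  (A set in which among any three elements two are equal is finite: e.g. if it were infinite take three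
  elements, `Set.Infinite.exists_subset_card_eq` with 3.)
* `exists_choice`: induction on a finset of `κ` (or on the cardinality): for every finset `s` there is `q : κ → Q` with the two
  properties for the indices in `s`; for a new index `i0` apply `h i0` to the finset of the values `q i`, `i ∈ s`, and use
  `Function.update`. `Bad` is symmetric.
* `candidates`: for every point `p ∈ D` of the line `false` (`p = atp false 0 q0`), `δ = ±1`, `m : ℕ` and every finset `S` of places there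
  is a place `q` with `m ≤ δ q.1`, `atp false 0 q ∈ A.orb p`, and `NT A s q` for all `s ∈ S` with `atp h 0 s ∈ D` for both `h`. Proof: the
  places `q` with `m' ≤ δ q.1` (`m' = max m (ρ + 1)`) and `atp false 0 q ∈ A.orb p` form an infinite set (`A.syn`: a point in every
  window; `exists_map_atp`), `atp true 0 q ∈ D` for them too (`A.clopen`, the lines agree on the window of radius `ρ` around
  `q.1`), and only finitely many places are excluded (`rel_places_finite` for the finitely many points `atp h 0 s`).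
* `exists_tokens`: `ι` = the set `A.toP.lineOrb (sg b false)` (finite, `PSys.lineOrb_finite`; all orbits of `A.toP` and `A` coincide
  by `rfl`), as a subtype. Index set `κ = (ι × Bool) ⊕ (ι × Bool)` (right and left tokens). `Req (inl (j, ε)) q`: `m1 ≤ q.1`,
  `atp false 0 q ∈ j`; `Req (inr (j, ε)) q`: `q.1 ≤ -m1`, `atp false 0 q ∈ j`; both with `ρ < |q.1|` (so both points `atp h 0 q` are in `D`).
  `Bad q q'`: `¬ NT A q q'`, symmetric by `Rel.symm`. `exists_choice` and `candidates`. `u_sep`: orbits which share a point are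
  equal. `u_all`: every point of the line `false` in `D` is in one of the orbits.
  `vis`: given a place `q0` with `m1 ≤ q0.1`, `atp false 0 q0 ∈ D`, `¬ Rel (atp false 0 q0) (atp true 0 q0)` (`exists_visible`), the strand
  `j0` of `atp false 0 q0` is visible: `¬ Rel (atp false 0 (u j0 ε)) (atp true 0 (u j0 ε))` for both `ε`: by `simul` there is `g ∈ G` with
  `g (atp h 0 q0) = atp h 0 (u j0 ε)` for both `h`, and `rel_map_iff`.
-/

namespace Pool.Agent.helper98.NIG

variable {b : Base} {F : Type}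

theorem exists_choice {κ Q : Type} [Finite κ] (Req : κ → Q → Prop) (Bad : Q → Q → Prop)
    (hB : ∀ q q', Bad q q' → Bad q' q)
    (h : ∀ i, ∀ S : Finset Q, (∀ s ∈ S, ∃ i', Req i' s) → ∃ q, Req i q ∧ ∀ s ∈ S, ¬ Bad s q) :
    ∃ q : κ → Q, (∀ i, Req i (q i)) ∧ ∀ i i', i ≠ i' → ¬ Bad (q i) (q i') := by
  classical
  have := Fintype.ofFinite κ
  have key : ∀ s : Finset κ, ∃ q : κ → Q, (∀ i ∈ s, Req i (q i)) ∧
      ∀ i ∈ s, ∀ i' ∈ s, i ≠ i' → ¬ Bad (q i) (q i') := by
    intro s
    induction s using Finset.induction_on with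
    | empty =>
      rcases isEmpty_or_nonempty κ with hκ | ⟨⟨i⟩⟩
      · exact ⟨fun i => hκ.elim i, fun i => hκ.elim i, fun i => hκ.elim i⟩
      · obtain ⟨q0, -, -⟩ := h i ∅ (fun s hs => absurd hs (Finset.notMem_empty s))
        exact ⟨fun _ => q0, fun i hi => absurd hi (Finset.notMem_empty i),
          fun i hi => absurd hi (Finset.notMem_empty i)⟩
    | insert i0 s hi0 ih =>
      obtain ⟨q, hq1, hq2⟩ := ih
      obtain ⟨q0, hq0, hq0'⟩ := h i0 (s.image q) (by
        intro a ha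
        obtain ⟨i, hi, rfl⟩ := Finset.mem_image.1 ha
        exact ⟨i, hq1 i hi⟩)
      have hup : ∀ i ∈ s, Function.update q i0 q0 i = q i := by
        intro i hi
        refine Function.update_of_ne ?_ _ _
        rintro rfl
        exact hi0 hi
      refine ⟨Function.update q i0 q0, ?_, ?_⟩
      · intro i hi
        rcases Finset.mem_insert.1 hi with rfl | hi
        · rw [Function.update_self]
          exact hq0
        · rw [hup i hi]
          exact hq1 i hi
      · intro i hi i' hi' hne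
        rcases Finset.mem_insert.1 hi with hk | hk
        · rcases Finset.mem_insert.1 hi' with hk' | hk'
          · exact absurd (hk.trans hk'.symm) hne
          · rw [hk, Function.update_self, hup i' hk']
            exact fun hb => hq0' _ (Finset.mem_image_of_mem q hk') (hB _ _ hb)
        · rcases Finset.mem_insert.1 hi' with hk' | hk'
          · rw [hk', Function.update_self, hup i hk]
            exact hq0' _ (Finset.mem_image_of_mem q hk)
          · rw [hup i hk, hup i' hk']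
            exact hq2 i hk i' hk' hne
  obtain ⟨q, h1, h2⟩ := key Finset.univ
  exact ⟨q, fun i => h1 i (Finset.mem_univ i),
    fun i i' => h2 i (Finset.mem_univ i) i' (Finset.mem_univ i')⟩

namespace Sys

theorem rel_places_finite [Finite F] {A : Sys b F} (hA : A.Reduced) {z : Pt b F}
    (hz : z ∈ A.D) (h : Bool) :
    {q : ℤ × F | atp b h 0 q ∈ A.D ∧ A.Rel z (atp b h 0 q)}.Finite := by
  classical
  by_contra hinf
  obtain ⟨t, ht, hcard⟩ := Set.Infinite.exists_subset_card_eq hinf 3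
  obtain ⟨y1, y2, y3, n12, n13, n23, rfl⟩ := Finset.card_eq_three.1 hcard
  obtain ⟨d1, r1⟩ := ht (show y1 ∈ (({y1, y2, y3} : Finset (ℤ × F)) : Set (ℤ × F)) by simp)
  obtain ⟨d2, r2⟩ := ht (show y2 ∈ (({y1, y2, y3} : Finset (ℤ × F)) : Set (ℤ × F)) by simp)
  obtain ⟨d3, r3⟩ := ht (show y3 ∈ (({y1, y2, y3} : Finset (ℤ × F)) : Set (ℤ × F)) by simp)
  have inj : ∀ q q' : ℤ × F, atp b h 0 q = atp b h 0 q' → q = q' := by
    intro q q' he
    obtain ⟨-, h1, h2⟩ := atp_inj he
    exact Prod.ext (by linarith) h2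
  rcases rel_three hA hz d1 d2 d3 (sameLine_atp h 0 0 _ _) (sameLine_atp h 0 0 _ _)
    r1 r2 r3 with e | e | e
  · exact n12 (inj _ _ e)
  · exact n13 (inj _ _ e)
  · exact n23 (inj _ _ e)

theorem candidates [Finite F] {A : Sys b F} (hA : A.Reduced) {p : Pt b F} (hp : p ∈ A.D)
    (hl : SameLine (atp b false 0 ((0 : ℤ), p.2)) p) {δ : ℤ} (hδ : δ = 1 ∨ δ = -1) (m : ℕ)
    (S : Finset (ℤ × F)) (hS : ∀ s ∈ S, ∀ h : Bool, atp b h 0 s ∈ A.D) :
    ∃ q : ℤ × F, (m : ℤ) ≤ δ * q.1 ∧ atp b false 0 q ∈ A.orb p ∧ ∀ s ∈ S, A.NT s q := by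
  classical
  obtain ⟨n, hn⟩ := hl
  have hp' : p = atp b false 0 (n, p.2) := by
    refine Prod.ext ?_ rfl
    rw [hn]
    show sh n (sh (0 + 0) (sg b false)) = sh (0 + n) (sg b false)
    rw [sh_sh, add_zero, add_zero, zero_add]
  have hE : (⋃ s ∈ S, ⋃ h : Bool, ⋃ h' : Bool,
      {q : ℤ × F | atp b h' 0 q ∈ A.D ∧ A.Rel (atp b h 0 s) (atp b h' 0 q)}).Finite := by
    refine Set.Finite.biUnion S.finite_toSet fun s hs => ?_
    refine Set.finite_iUnion fun h => Set.finite_iUnion fun h' => ?_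
    exact rel_places_finite hA (hS s hs h) h'
  obtain ⟨M, hM⟩ := (hE.image (fun q : ℤ × F => |q.1|)).bddAbove
  let T : ℤ := max (m : ℤ) (max ((A.ρ : ℤ) + 1) (M + 1))
  have hT1 : (m : ℤ) ≤ T := le_max_left _ _
  have hT2 : (A.ρ : ℤ) + 1 ≤ T := (le_max_left _ _).trans (le_max_right _ _)
  have hT3 : M + 1 ≤ T := (le_max_right _ _).trans (le_max_right _ _)
  have hex : ∃ g ∈ A.G, T ≤ δ * (n + disp g p) := by
    rcases hδ with rfl | rfl
    · obtain ⟨g, hg, h1, -⟩ := A.syn hp (T - n)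
      exact ⟨g, hg, by linarith⟩
    · obtain ⟨g, hg, -, h1⟩ := A.syn hp (-T - n - A.ρ)
      exact ⟨g, hg, by linarith⟩
  obtain ⟨g, hg, hgT⟩ := hex
  obtain ⟨q, hq1, hq2⟩ := exists_map_atp (A.G_le_PW hg) false 0 0 (n, p.2)
  rw [← hp'] at hq1 hq2
  have hq3 : q.1 = n + disp g p := by
    have h1 : (0 : ℤ) + q.1 = 0 + n + disp g p := hq2
    linarith
  rw [← hq3] at hgT
  have habs : T ≤ |q.1| := by
    refine hgT.trans ((le_abs_self _).trans ?_)
    rcases hδ with rfl | rfl
    · rw [one_mul]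
    · rw [neg_one_mul, abs_neg]
  have hqD : atp b false 0 q ∈ A.D := by
    rw [← hq1]
    exact A.map_mem hg hp
  refine ⟨q, hT1.trans hgT, ⟨g, hg, hq1.symm⟩, fun s hs h h' hrel => ?_⟩
  have hqD' : atp b h' 0 q ∈ A.D := by
    refine A.tw_mem (h := false) ?_ hqD
    rw [zero_add]
    linarith
  have hmem : q ∈ (⋃ s ∈ S, ⋃ h : Bool, ⋃ h' : Bool,
      {q : ℤ × F | atp b h' 0 q ∈ A.D ∧ A.Rel (atp b h 0 s) (atp b h' 0 q)}) := by
    simp only [Set.mem_iUnion]
    exact ⟨s, hs, h, h', hqD', hrel⟩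
  have := hM (Set.mem_image_of_mem _ hmem)
  have h2 : |q.1| ≤ M := this
  linarith

theorem exists_tokens [Finite F] {A : Sys b F} (hA : A.Reduced) {R : ℕ} (hR : A.BCon R)
    {m1 : ℕ} (hm1 : R + A.ρ + 1 ≤ m1)
    (hvis : ∃ q : ℤ × F, (m1 : ℤ) ≤ q.1 ∧ atp b false 0 q ∈ A.D ∧
      ¬ A.Rel (atp b false 0 q) (atp b true 0 q)) :
    ∃ (K : A.Tk m1) (j0 : K.ι), ∀ ε, ¬ A.Rel (atp b false 0 (K.u j0 ε)) (atp b true 0 (K.u j0 ε)) := by
  have hm : (R : ℤ) + A.ρ + 1 ≤ m1 := by exact_mod_cast hm1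
  have hR0 : (0 : ℤ) ≤ R := Int.natCast_nonneg R
  -- the strands
  let J : Type := {O : Set (Pt b F) // O ∈ A.toP.lineOrb (sg b false)}
  have hJ : Finite J := (A.toP.lineOrb_finite (sg b false)).to_subtype
  have hpt : ∀ j : J, ∃ p : Pt b F, p ∈ A.D ∧ j.1 = A.orb p ∧
      SameLine (atp b false 0 ((0 : ℤ), p.2)) p := by
    rintro ⟨O, k, φ, hk, rfl⟩
    refine ⟨(sh k (sg b false), φ), hk, rfl, k, ?_⟩
    change sh k (sg b false) = sh k (sh (0 + 0) (sg b false))
    rw [sh_sh, add_zero, add_zero]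
  choose pt hptD hptO hptL using hpt
  -- both points at a place far from the hole belong to `D`
  have hDD : ∀ q : ℤ × F, (m1 : ℤ) ≤ |q.1| → atp b false 0 q ∈ A.D → ∀ h : Bool,
      atp b h 0 q ∈ A.D := by
    intro q hq hD h
    refine A.tw_mem (h := false) ?_ hD
    rw [zero_add]
    linarith
  have hOD : ∀ (j : J) (q : ℤ × F), atp b false 0 q ∈ j.1 → atp b false 0 q ∈ A.D := by
    intro j q hq
    rw [hptO j] at hq
    obtain ⟨g, hg, e⟩ := hq
    rw [e]
    exact A.map_mem hg (hptD j)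
  let Req : (J × Bool) ⊕ (J × Bool) → ℤ × F → Prop := fun i q =>
    Sum.elim (fun t => (m1 : ℤ) ≤ q.1 ∧ atp b false 0 q ∈ t.1.1)
      (fun t => q.1 ≤ -(m1 : ℤ) ∧ atp b false 0 q ∈ t.1.1) i
  have hReqD : ∀ i q, Req i q → ∀ h : Bool, atp b h 0 q ∈ A.D := by
    rintro (t | t) q ⟨h1, h2⟩
    · exact hDD q (h1.trans (le_abs_self _)) (hOD _ q h2)
    · refine hDD q ?_ (hOD _ q h2)
      have h3 := neg_abs_le q.1
      linarith
  obtain ⟨q, hq1, hq2⟩ := exists_choice Req (fun q q' => ¬ A.NT q q')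
    (fun q q' h h' => h fun a a' hr => h' a' a hr.symm) (by
      rintro (⟨j, ε⟩ | ⟨j, ε⟩) S hS
      · obtain ⟨q, h1, h2, h3⟩ := candidates hA (hptD j) (hptL j) (δ := 1) (Or.inl rfl) m1 S
          (fun s hs h => by
            obtain ⟨i', hi'⟩ := hS s hs
            exact hReqD i' s hi' h)
        refine ⟨q, ⟨by linarith, ?_⟩, fun s hs => not_not.2 (h3 s hs)⟩
        rw [hptO j]
        exact h2
      · obtain ⟨q, h1, h2, h3⟩ := candidates hA (hptD j) (hptL j) (δ := -1) (Or.inr rfl) m1 S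
          (fun s hs h => by
            obtain ⟨i', hi'⟩ := hS s hs
            exact hReqD i' s hi' h)
        refine ⟨q, ⟨by linarith, ?_⟩, fun s hs => not_not.2 (h3 s hs)⟩
        rw [hptO j]
        exact h2)
  have hu : ∀ (j : J) (ε : Bool), (m1 : ℤ) ≤ (q (Sum.inl (j, ε))).1 ∧
      atp b false 0 (q (Sum.inl (j, ε))) ∈ j.1 := fun j ε => hq1 (Sum.inl (j, ε))
  have hv : ∀ (j : J) (ε : Bool), (q (Sum.inr (j, ε))).1 ≤ -(m1 : ℤ) ∧
      atp b false 0 (q (Sum.inr (j, ε))) ∈ j.1 := fun j ε => hq1 (Sum.inr (j, ε))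
  have horb : ∀ (j : J) (x : Pt b F), x ∈ j.1 → A.orb x = j.1 := by
    intro j x hx
    rw [hptO j] at hx ⊢
    exact A.orb_eq hx
  have hnt : ∀ i i', i ≠ i' → A.NT (q i) (q i') := fun i i' h => not_not.1 (hq2 i i' h)
  let K : A.Tk m1 :=
    { ι := J
      fin := hJ
      u := fun j ε => q (Sum.inl (j, ε))
      v := fun j ε => q (Sum.inr (j, ε))
      u_pos := fun j ε => (hu j ε).1
      v_neg := fun j ε => (hv j ε).1
      u_mem := fun j ε => hOD j _ (hu j ε).2
      u_orb := fun j ε ε' => by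
        rw [horb j _ (hu j ε).2]
        exact (hu j ε').2
      v_orb := fun j ε ε' => by
        rw [horb j _ (hu j ε).2]
        exact (hv j ε').2
      u_sep := fun j j' ε ε' h => by
        apply Subtype.ext
        rw [← horb j _ (hu j ε).2, ← horb j' _ (hu j' ε').2]
        exact (A.orb_eq h).symm
      u_all := fun q' hq' => by
        refine ⟨⟨A.toP.orb (atp b false 0 q'), ⟨0 + q'.1, q'.2, hq', rfl⟩⟩, ?_⟩
        rw [horb _ _ (hu _ false).2]
        exact A.orb_self _
      u_nt := fun j ε j' ε' h => hnt _ _ fun h' => h (Sum.inl.inj h')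
      v_nt := fun j ε j' ε' h => hnt _ _ fun h' => h (Sum.inr.inj h')
      uv_nt := fun j ε j' ε' => hnt _ _ Sum.inl_ne_inr }
  obtain ⟨q0, hq0, hq0D, hq0r⟩ := hvis
  let j0 : J := ⟨A.toP.orb (atp b false 0 q0), ⟨0 + q0.1, q0.2, hq0D, rfl⟩⟩
  refine ⟨K, j0, fun ε hr => hq0r ?_⟩
  have h1 := hu j0 ε
  obtain ⟨g, hg, he⟩ := simul hR (q := q0) (q' := q (Sum.inl (j0, ε)))
    (Or.inl ⟨by linarith, by linarith [h1.1]⟩) hq0D h1.2
  have hr' : A.Rel (atp b false 0 (q (Sum.inl (j0, ε)))) (atp b true 0 (q (Sum.inl (j0, ε)))) := hr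
  rw [← he false, ← he true, rel_map_iff hg] at hr'
  exact hr'

end Sys

end Pool.Agent.helper98.NIG
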