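import Pool.Agent.helper35.NIG.R03
import Pool.Agent.helper35.NIG.R04
import Pool.Agent.helper35.NIG.Q14

/-!
# NIG-R05: far places and the elements which start and end the transport of a token

`K.pts`: the points of all tokens on both singular lines.
PROOFS.
* `pts_finite`: finite union (`K.fin`). `pts_sub`: `u_mem`, `v_orb` for the line `false`; `right_line`, `left_line` for the other line
  (`R + ρ + 1 ≤ m1`).
* `exists_Dat`: `Z` = the finset of `K.pts`, `W = (2 Z.card + 1) (ρ + 1)`, `N` from `sparse_NE Z`, `M` from `lt` for `Z`, `N`, `d = W + 1`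
  (`Tr Z.card`), `m0 = ρ M + ρ N + m1 + 1`.
  `x j ε`: by `gaps` at `atp false 0 (u j ε)` with `n = m0` there is `g ∈ G` with `m0 ≤ disp g _ ` and `NE N pts (g _)`; `exists_map_atp` gives the
  place `x j ε`, `x_1 = u_1 + disp ≥ m0`. For the line `true`: `Agree (ρ N) (atp false 0 x) (atp true 0 x)` (`agree_tw`, `ρ N < x_1`), and
  `E_congr` with `Agree.refl`. `y j ε` in the same way on the left (`n = - m0 - W`).
  `s j ε`: `move_all` with the index type `κ = Bool × ((ι × Bool) ⊕ (ι × Bool))`, the points of the tokens, and the same targets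
  except that `(h, inl (j, ε))` goes to `atp h 0 (x j ε)`. Targets are in the orbits: `simul`. Pairs: two indices different from
  `(_, inl (j, ε))`: second alternative with `g = 1`. The two indices `(false, inl (j, ε))`, `(true, inl (j, ε))`: second alternative
  with the `g` of `simul` (same side: `R + ρ + 1 ≤ m1 ≤ u_1`, `≤ m0 ≤ x_1`). One of them and another token: first alternative:
  `u_nt`, `uv_nt` (and `Rel.symm`), and `NE N pts (atp h 0 x)` gives `¬ Rel` (`NR_of_NE`).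
  `e j ε`: the inverse of the element which moves `atp h 0 (v j ε)` to `atp h 0 (y j ε)` and fixes all other tokens (same proof).
-/

namespace Pool.Agent.helper98.NIG

variable {b : Base} {F : Type}

namespace Sys

/-- the points of all tokens on both singular lines -/
def Tk.pts {A : Sys b F} {m1 : ℕ} (K : A.Tk m1) : Set (Pt b F) :=
  {z | ∃ (h : Bool) (j : K.ι) (ε : Bool), z = atp b h 0 (K.u j ε) ∨ z = atp b h 0 (K.v j ε)}

/-- constants, far places, start and end elements -/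
structure Dat (A : Sys b F) {m1 : ℕ} (K : A.Tk m1) where
  N : ℕ
  M : ℕ
  W : ℕ
  m0 : ℕ
  gaps : ∀ y ∈ A.D, ∀ n : ℤ, ∃ g ∈ A.G, n ≤ disp g y ∧ disp g y ≤ n + W ∧ A.NE N K.pts (g y)
  lt : ∀ x ∈ A.D, ∀ g ∈ A.G, |disp g x| ≤ W + 1 → A.NE N K.pts x → A.NE N K.pts (g x) →
    ∃ h ∈ A.W M, (∀ z ∈ K.pts, h z = z) ∧ h x = g x
  hm0 : A.ρ * M + A.ρ * N + m1 < m0
  x : K.ι → Bool → ℤ × F
  y : K.ι → Bool → ℤ × F
  s : K.ι → Bool → Equiv.Perm (Pt b F)
  e : K.ι → Bool → Equiv.Perm (Pt b F)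
  x_far : ∀ j ε, (m0 : ℤ) ≤ (x j ε).1
  y_far : ∀ j ε, (y j ε).1 ≤ -(m0 : ℤ)
  x_orb : ∀ j ε, atp b false 0 (x j ε) ∈ A.orb (atp b false 0 (K.u j ε))
  y_orb : ∀ j ε, atp b false 0 (y j ε) ∈ A.orb (atp b false 0 (K.v j ε))
  x_NE : ∀ j ε h, A.NE N K.pts (atp b h 0 (x j ε))
  y_NE : ∀ j ε h, A.NE N K.pts (atp b h 0 (y j ε))
  s_mem : ∀ j ε, s j ε ∈ A.G
  s_move : ∀ j ε h, s j ε (atp b h 0 (K.u j ε)) = atp b h 0 (x j ε)
  s_fix_u : ∀ j ε j' ε' h, (j', ε') ≠ (j, ε) → s j ε (atp b h 0 (K.u j' ε')) = atp b h 0 (K.u j' ε')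
  s_fix_v : ∀ j ε j' ε' h, s j ε (atp b h 0 (K.v j' ε')) = atp b h 0 (K.v j' ε')
  e_mem : ∀ j ε, e j ε ∈ A.G
  e_move : ∀ j ε h, e j ε (atp b h 0 (y j ε)) = atp b h 0 (K.v j ε)
  e_fix_u : ∀ j ε j' ε' h, e j ε (atp b h 0 (K.u j' ε')) = atp b h 0 (K.u j' ε')
  e_fix_v : ∀ j ε j' ε' h, (j', ε') ≠ (j, ε) → e j ε (atp b h 0 (K.v j' ε')) = atp b h 0 (K.v j' ε')

theorem Tk.pts_finite {A : Sys b F} {m1 : ℕ} (K : A.Tk m1) : K.pts.Finite := by
  have := K.fin
  refine ((Set.finite_range (fun t : Bool × K.ι × Bool => atp b t.1 0 (K.u t.2.1 t.2.2))).union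
    (Set.finite_range (fun t : Bool × K.ι × Bool => atp b t.1 0 (K.v t.2.1 t.2.2)))).subset ?_
  rintro z ⟨h, j, ε, hz | hz⟩
  · exact Or.inl ⟨(h, j, ε), hz.symm⟩
  · exact Or.inr ⟨(h, j, ε), hz.symm⟩

theorem Tk.pts_sub {A : Sys b F} {R m1 : ℕ} (hR : A.BCon R) (hm1 : R + A.ρ + 1 ≤ m1)
    (K : A.Tk m1) : K.pts ⊆ A.D := by
  have hm : (R : ℤ) + A.ρ + 1 ≤ (m1 : ℤ) := by exact_mod_cast hm1
  rintro z ⟨h, j, ε, hz | hz⟩
  · have hq : (R : ℤ) + A.ρ + 1 ≤ (K.u j ε).1 := hm.trans (K.u_pos j ε)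
    rw [hz]
    exact (right_line hR (h := h) (h0 := false) hq hq).1.2 (K.u_mem j ε)
  · have hq : (K.v j ε).1 ≤ -((R : ℤ) + A.ρ + 1) := (K.v_neg j ε).trans (neg_le_neg hm)
    rw [hz]
    refine (left_line hR (h := h) (h0 := false) hq hq).1.2 ?_
    obtain ⟨g, hg, he⟩ := K.v_orb j ε ε
    rw [he]
    exact A.map_mem hg (K.u_mem j ε)

private theorem R05_nt_symm {A : Sys b F} {q q' : ℤ × F} (h : A.NT q q') : A.NT q' q :=
  fun h1 h2 hr => h h2 h1 hr.symm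

/-- moving one of finitely many tokens, on both singular lines simultaneously -/
private theorem R05_move {A : Sys b F} (hT : ∀ k, A.Tr k) {τ : Type} [Finite τ] (T : τ → ℤ × F)
    (hD : ∀ t h, atp b h 0 (T t) ∈ A.D) (hnt : ∀ t t', t ≠ t' → A.NT (T t) (T t')) (t0 : τ)
    (q : ℤ × F) {g0 : Equiv.Perm (Pt b F)} (hg0 : g0 ∈ A.G)
    (hg : ∀ h : Bool, g0 (atp b h 0 (T t0)) = atp b h 0 q)
    (hq : ∀ t, t ≠ t0 → ∀ h h' : Bool, ¬ A.Rel (atp b h' 0 (T t)) (atp b h 0 q)) :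
    ∃ g ∈ A.G, (∀ h : Bool, g (atp b h 0 (T t0)) = atp b h 0 q) ∧
      ∀ t, t ≠ t0 → ∀ h : Bool, g (atp b h 0 (T t)) = atp b h 0 (T t) := by
  classical
  obtain ⟨g, hgG, hgm⟩ := move_all hT (κ := Bool × τ) (fun i => atp b i.1 0 (T i.2))
    (fun i => if i.2 = t0 then atp b i.1 0 q else atp b i.1 0 (T i.2)) (fun i => hD _ _)
    (fun i => by
      by_cases hi : i.2 = t0
      · simp only [if_pos hi]
        refine ⟨g0, hg0, ?_⟩
        rw [hi]
        exact (hg _).symm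
      · simp only [if_neg hi]
        exact ⟨1, A.G.one_mem, rfl⟩)
    (fun i i' _ => by
      by_cases hi : i.2 = t0
      · by_cases hi' : i'.2 = t0
        · right
          simp only [if_pos hi, if_pos hi']
          refine ⟨g0, hg0, ?_, ?_⟩
          · rw [hi]
            exact hg _
          · rw [hi']
            exact hg _
        · left
          simp only [if_pos hi, if_neg hi']
          refine ⟨?_, ?_⟩
          · rw [hi]
            exact hnt t0 i'.2 (Ne.symm hi') i.1 i'.1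
          · exact fun hr => hq _ hi' i.1 i'.1 hr.symm
      · by_cases hi' : i'.2 = t0
        · left
          simp only [if_neg hi, if_pos hi']
          refine ⟨?_, hq _ hi i'.1 i.1⟩
          rw [hi']
          exact hnt i.2 t0 hi i.1 i'.1
        · right
          simp only [if_neg hi, if_neg hi']
          exact ⟨1, A.G.one_mem, rfl, rfl⟩)
  refine ⟨g, hgG, fun h => ?_, fun t ht h => ?_⟩
  · have h1 := hgm (h, t0)
    simp only [if_true] at h1
    exact h1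
  · have h1 := hgm (h, t)
    simp only [if_neg ht] at h1
    exact h1

/-- the places of all tokens -/
private def R05_T {A : Sys b F} {m1 : ℕ} (K : A.Tk m1) : (K.ι × Bool) ⊕ (K.ι × Bool) → ℤ × F :=
  Sum.elim (fun p => K.u p.1 p.2) (fun p => K.v p.1 p.2)

private theorem R05_mem_pts {A : Sys b F} {m1 : ℕ} (K : A.Tk m1)
    (t : (K.ι × Bool) ⊕ (K.ι × Bool)) (h : Bool) : atp b h 0 (R05_T K t) ∈ K.pts := by
  rcases t with t | t
  · exact ⟨h, t.1, t.2, Or.inl rfl⟩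
  · exact ⟨h, t.1, t.2, Or.inr rfl⟩

private theorem R05_nt {A : Sys b F} {m1 : ℕ} (K : A.Tk m1)
    (t t' : (K.ι × Bool) ⊕ (K.ι × Bool)) (h : t ≠ t') : A.NT (R05_T K t) (R05_T K t') := by
  rcases t with t | t
  · rcases t' with t' | t'
    · exact K.u_nt t.1 t.2 t'.1 t'.2 fun he => h (congrArg Sum.inl he)
    · exact K.uv_nt t.1 t.2 t'.1 t'.2
  · rcases t' with t' | t'
    · exact R05_nt_symm (K.uv_nt t'.1 t'.2 t.1 t.2)
    · exact K.v_nt t.1 t.2 t'.1 t'.2 fun he => h (congrArg Sum.inr he)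

private theorem R05_NE {A : Sys b F} {N : ℕ} {Z : Set (Pt b F)} {q : ℤ × F}
    (hq : ((A.ρ * N : ℕ) : ℤ) < |q.1|) (h : A.NE N Z (atp b false 0 q)) (h' : Bool) :
    A.NE N Z (atp b h' 0 q) := by
  intro z hz hE
  have hag : Agree (A.ρ * N) (atp b h' 0 q) (atp b false 0 q) := by
    refine agree_tw h' false (0 + q.1) q.2 ?_
    rw [zero_add]
    exact hq
  exact h z hz ((E_congr le_rfl (Agree.refl _ z) hag).1 hE)

theorem exists_Dat [Finite F] {A : Sys b F} (hA : A.Reduced) (hT : ∀ k, A.Tr k) {R m1 : ℕ}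
    (hR : A.BCon R) (hm1 : R + A.ρ + 1 ≤ m1) (K : A.Tk m1) : Nonempty (A.Dat K) := by
  classical
  have hfinι : Finite K.ι := K.fin
  have hfin := K.pts_finite
  have hsub := K.pts_sub hR hm1
  obtain ⟨Z, hZ⟩ : ∃ Z : Finset (Pt b F), (Z : Set (Pt b F)) = K.pts :=
    ⟨hfin.toFinset, hfin.coe_toFinset⟩
  have hZD : (Z : Set (Pt b F)) ⊆ A.D := by
    rw [hZ]
    exact hsub
  obtain ⟨N, hN⟩ := sparse_NE hA hZD
  obtain ⟨W, hW⟩ : ∃ W : ℕ, W = (2 * Z.card + 1) * (A.ρ + 1) := ⟨_, rfl⟩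
  have gaps : ∀ y ∈ A.D, ∀ n : ℤ, ∃ g ∈ A.G, n ≤ disp g y ∧ disp g y ≤ n + W ∧
      A.NE N K.pts (g y) := by
    intro y hy n
    obtain ⟨g, hg, h1, h2, h3⟩ := hN N le_rfl y hy n
    rw [hZ] at h3
    rw [← hW] at h2
    exact ⟨g, hg, h1, h2, h3⟩
  obtain ⟨M, hM⟩ := lt (hT Z.card) hZD le_rfl N (W + 1)
  obtain ⟨m0, hm0⟩ : ∃ m0 : ℕ, m0 = A.ρ * M + A.ρ * N + m1 + 1 := ⟨_, rfl⟩
  have hm0' : (A.ρ * M + A.ρ * N + m1 + 1 : ℤ) = m0 := by
    rw [hm0]
    push_cast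
    ring
  have hρM : (0 : ℤ) ≤ A.ρ * M := by positivity
  have hρN : (0 : ℤ) ≤ A.ρ * N := by positivity
  have hm1' : (R : ℤ) + A.ρ + 1 ≤ m1 := by exact_mod_cast hm1
  have hR0 : (0 : ℤ) ≤ R := by positivity
  have hρ0 : (0 : ℤ) ≤ A.ρ := by positivity
  have hW0 : (0 : ℤ) ≤ W := by positivity
  -- the far places on the right
  have hx : ∀ (j : K.ι) (ε : Bool), ∃ q : ℤ × F, (m0 : ℤ) ≤ q.1 ∧
      atp b false 0 q ∈ A.orb (atp b false 0 (K.u j ε)) ∧ A.NE N K.pts (atp b false 0 q) := by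
    intro j ε
    obtain ⟨g, hg, h1, -, h3⟩ := gaps _ (K.u_mem j ε) m0
    obtain ⟨q, hq, hq'⟩ := exists_map_atp (A.G_le_PW hg) false 0 0 (K.u j ε)
    refine ⟨q, ?_, ⟨g, hg, hq.symm⟩, ?_⟩
    · have h4 := K.u_pos j ε
      linarith
    · rw [← hq]
      exact h3
  choose x hx1 hx2 hx3 using hx
  have hvD : ∀ (j : K.ι) (ε : Bool), atp b false 0 (K.v j ε) ∈ A.D := fun j ε =>
    hsub (R05_mem_pts K (Sum.inr (j, ε)) false)
  -- the far places on the left
  have hy : ∀ (j : K.ι) (ε : Bool), ∃ q : ℤ × F, q.1 ≤ -(m0 : ℤ) ∧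
      atp b false 0 q ∈ A.orb (atp b false 0 (K.v j ε)) ∧ A.NE N K.pts (atp b false 0 q) := by
    intro j ε
    obtain ⟨g, hg, -, h2, h3⟩ := gaps _ (hvD j ε) (-(m0 : ℤ) - W)
    obtain ⟨q, hq, hq'⟩ := exists_map_atp (A.G_le_PW hg) false 0 0 (K.v j ε)
    refine ⟨q, ?_, ⟨g, hg, hq.symm⟩, ?_⟩
    · have h4 := K.v_neg j ε
      linarith
    · rw [← hq]
      exact h3
  choose y hy1 hy2 hy3 using hy
  have hxN : ∀ j ε h, A.NE N K.pts (atp b h 0 (x j ε)) := by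
    intro j ε h
    refine R05_NE ?_ (hx3 j ε) h
    have h1 := hx1 j ε
    have h2 := le_abs_self (x j ε).1
    push_cast
    linarith
  have hyN : ∀ j ε h, A.NE N K.pts (atp b h 0 (y j ε)) := by
    intro j ε h
    refine R05_NE ?_ (hy3 j ε) h
    have h1 := hy1 j ε
    have h2 := neg_le_abs (y j ε).1
    push_cast
    linarith
  -- the start elements
  have hs : ∀ (j : K.ι) (ε : Bool), ∃ g ∈ A.G,
      (∀ h : Bool, g (atp b h 0 (K.u j ε)) = atp b h 0 (x j ε)) ∧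
      ∀ t, t ≠ Sum.inl (j, ε) → ∀ h : Bool, g (atp b h 0 (R05_T K t)) = atp b h 0 (R05_T K t) := by
    intro j ε
    obtain ⟨g0, hg0, hg0'⟩ := simul hR (q := K.u j ε) (q' := x j ε)
      (Or.inl ⟨by linarith [K.u_pos j ε], by linarith [hx1 j ε]⟩) (K.u_mem j ε) (hx2 j ε)
    exact R05_move hT (R05_T K) (fun t h => hsub (R05_mem_pts K t h)) (R05_nt K) (Sum.inl (j, ε))
      (x j ε) hg0 hg0' fun t _ h h' => NR_of_NE (hxN j ε h) _ (R05_mem_pts K t h')
  choose s hs1 hs2 hs3 using hs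
  -- the end elements
  have he : ∀ (j : K.ι) (ε : Bool), ∃ g ∈ A.G,
      (∀ h : Bool, g (atp b h 0 (K.v j ε)) = atp b h 0 (y j ε)) ∧
      ∀ t, t ≠ Sum.inr (j, ε) → ∀ h : Bool, g (atp b h 0 (R05_T K t)) = atp b h 0 (R05_T K t) := by
    intro j ε
    obtain ⟨g0, hg0, hg0'⟩ := simul hR (q := K.v j ε) (q' := y j ε)
      (Or.inr ⟨by linarith [K.v_neg j ε], by linarith [hy1 j ε]⟩) (hvD j ε) (hy2 j ε)
    exact R05_move hT (R05_T K) (fun t h => hsub (R05_mem_pts K t h)) (R05_nt K) (Sum.inr (j, ε))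
      (y j ε) hg0 hg0' fun t _ h h' => NR_of_NE (hyN j ε h) _ (R05_mem_pts K t h')
  choose e he1 he2 he3 using he
  have hinv : ∀ (g : Equiv.Perm (Pt b F)) (z z' : Pt b F), g z = z' → g⁻¹ z' = z := by
    intro g z z' h
    rw [← h]
    exact g.symm_apply_apply z
  exact ⟨{
    N := N
    M := M
    W := W
    m0 := m0
    gaps := gaps
    lt := by
      intro p hp g hg hd h1 h2
      rw [← hZ] at h1 h2
      obtain ⟨h, hh, hh', hh''⟩ := hM p hp g hg (by push_cast; exact hd) h1 h2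
      refine ⟨h, hh, fun z hz => hh' z ?_, hh''⟩
      rw [← hZ] at hz
      exact Finset.mem_coe.1 hz
    hm0 := by omega
    x := x
    y := y
    s := s
    e := fun j ε => (e j ε)⁻¹
    x_far := hx1
    y_far := hy1
    x_orb := hx2
    y_orb := hy2
    x_NE := hxN
    y_NE := hyN
    s_mem := hs1
    s_move := hs2
    s_fix_u := fun j ε j' ε' h hne =>
      hs3 j ε (Sum.inl (j', ε')) (fun h' => hne (Sum.inl_injective h')) h
    s_fix_v := fun j ε j' ε' h => hs3 j ε (Sum.inr (j', ε')) (by simp) h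
    e_mem := fun j ε => A.G.inv_mem (he1 j ε)
    e_move := fun j ε h => hinv _ _ _ (he2 j ε h)
    e_fix_u := fun j ε j' ε' h => hinv _ _ _ (he3 j ε (Sum.inl (j', ε')) (by simp) h)
    e_fix_v := fun j ε j' ε' h hne => hinv _ _ _
      (he3 j ε (Sum.inr (j', ε')) (fun h' => hne (Sum.inr_injective h')) h) }⟩

end Sys

end Pool.Agent.helper98.NIG
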