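import Pool.Agent.helper35.NIG.R05

/-!
# NIG-R06: walking inside of a block while all tokens are fixed

Level `L`: gates at multiples of `P ^ (L + 1)` (windows of radius `P ^ L`), blocks of length `P ^ (L + 1)` which start at
`c + r P ^ (L + 1)` with `P ^ (L + 2) ∣ c`.
`FixT L g`: `g` fixes all tokens at all gates.
PROOFS.
* `fixT_mul`, `fixT_one`: clear.
* `fix_gate`: `g ∈ W M` has radius `ρ M` (`W_isPW`). For `P ^ (L + 1) ∣ c` and a token `q` (`|q.1| ≤ B`, `B + ρ M < P ^ L`): `agree_gate` and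
  `act_of_agree` (`a' = 0`, `h' = ty h c`) with `g (atp h' 0 q) = atp h' 0 q`.
* `walk_step`: `x = atp false Λ q`, `x' = atp false Λ q'` (`Λ = r P ^ (L + 1)`), `x' = g x` with `g ∈ G`, `disp g x = q'.1 - q.1` (`pos_atp`); `Dt.lt` gives
  `k ∈ W M` which fixes `pts`, `k x = x'`. `fix_gate`. For `P ^ (L + 2) ∣ c`: `agree_block` (with `K = L + 1`, `N = ρ M`; `ρ M < m0`) and
  `act_of_agree`: `k (atp h (c + Λ) q) = atp h (c + Λ) q'`.
* `walk`: strong induction on `(q'.1 - q.1).natAbs`. If it is `≤ W + 1` use `walk_step`. Otherwise, say `q.1 < q'.1`: `Dt.gaps` at `x` with `n = 1`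
  gives `x'' = atp false Λ q''` (`exists_map_atp`), `q.1 + 1 ≤ q''.1 ≤ q.1 + 1 + W < q'.1`, `NE N pts x''`; `walk_step` from `q` to `q''`, induction from
  `q''` to `q'`, and the product. If `q'.1 < q.1` use `n = - 1 - W`.
-/

namespace Pool.Agent.helper98.NIG

variable {b : Base} {F : Type}

namespace Sys

/-- `g` fixes all tokens at all gates of level `L` -/
def Tk.FixT {A : Sys b F} {m1 : ℕ} (K : A.Tk m1) (L : ℕ) (g : Equiv.Perm (Pt b F)) : Prop :=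
  ∀ c : ℤ, (b.p : ℤ) ^ (L + 1) ∣ c → ∀ h j ε, g (atp b h c (K.u j ε)) = atp b h c (K.u j ε) ∧
    g (atp b h c (K.v j ε)) = atp b h c (K.v j ε)

theorem Tk.fixT_mul {A : Sys b F} {m1 : ℕ} {K : A.Tk m1} {L : ℕ} {g g' : Equiv.Perm (Pt b F)}
    (h : K.FixT L g) (h' : K.FixT L g') : K.FixT L (g * g') := by
  intro c hc h1 j ε
  rw [Equiv.Perm.mul_apply, Equiv.Perm.mul_apply, (h' c hc h1 j ε).1, (h' c hc h1 j ε).2]
  exact h c hc h1 j ε

theorem fix_gate {A : Sys b F} {m1 : ℕ} {K : A.Tk m1} {L M B : ℕ}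
    (hB : ∀ j ε, |(K.u j ε).1| ≤ B ∧ |(K.v j ε).1| ≤ B)
    (hL : (B : ℤ) + (A.ρ * M : ℕ) < (b.p : ℤ) ^ L) {g : Equiv.Perm (Pt b F)} (hg : g ∈ A.W M)
    (hfix : ∀ z ∈ K.pts, g z = z) : K.FixT L g := by
  intro c hc h j ε
  have hPW : g ∈ PW b F := A.G_le_PW (A.W_le_G hg)
  have key : ∀ q : ℤ × F, |q.1| ≤ B → atp b (ty b h c) 0 q ∈ K.pts →
      g (atp b h c q) = atp b h c q := by
    intro q hq hm
    exact act_of_agree (A.W_isPW hg) hPW (agree_gate h hc q (by linarith)) (hfix _ hm)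
  exact ⟨key _ (hB j ε).1 ⟨ty b h c, j, ε, Or.inl rfl⟩,
    key _ (hB j ε).2 ⟨ty b h c, j, ε, Or.inr rfl⟩⟩

theorem walk_step {A : Sys b F} {m1 : ℕ} {K : A.Tk m1} (Dt : A.Dat K) {L B : ℕ}
    (hB : ∀ j ε, |(K.u j ε).1| ≤ B ∧ |(K.v j ε).1| ≤ B)
    (hL : (B : ℤ) + (A.ρ * Dt.M : ℕ) < (b.p : ℤ) ^ L) (r : ℤ) {q q' : ℤ × F}
    (hq1 : (Dt.m0 : ℤ) ≤ q.1) (hq2 : q.1 ≤ (b.p : ℤ) ^ (L + 1) - Dt.m0)
    (hq : atp b false (r * (b.p : ℤ) ^ (L + 1)) q ∈ A.D)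
    (ho : atp b false (r * (b.p : ℤ) ^ (L + 1)) q' ∈ A.orb (atp b false (r * (b.p : ℤ) ^ (L + 1)) q))
    (hd : |q'.1 - q.1| ≤ Dt.W + 1) (h1 : A.NE Dt.N K.pts (atp b false (r * (b.p : ℤ) ^ (L + 1)) q))
    (h2 : A.NE Dt.N K.pts (atp b false (r * (b.p : ℤ) ^ (L + 1)) q')) :
    ∃ g ∈ A.G, K.FixT L g ∧ ∀ c : ℤ, (b.p : ℤ) ^ (L + 2) ∣ c → ∀ h : Bool,
      g (atp b h (c + r * (b.p : ℤ) ^ (L + 1)) q) = atp b h (c + r * (b.p : ℤ) ^ (L + 1)) q' := by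
  obtain ⟨g, hg, he⟩ := ho
  have hdisp : disp g (atp b false (r * (b.p : ℤ) ^ (L + 1)) q) = q'.1 - q.1 := by
    unfold disp
    rw [← he, pos_atp]
    ring
  rw [he] at h2
  obtain ⟨k, hk, hfix, hkx⟩ := Dt.lt _ hq g hg (by rw [hdisp]; exact hd) h1 h2
  rw [← he] at hkx
  have hkG : k ∈ A.G := A.W_le_G hk
  refine ⟨k, hkG, fix_gate hB hL hk hfix, fun c hc h => ?_⟩
  have hm0 := Dt.hm0
  have hm0' : ((A.ρ * Dt.M : ℕ) : ℤ) < Dt.m0 := by
    have : A.ρ * Dt.M < Dt.m0 := by omega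
    exact_mod_cast this
  exact act_of_agree (A.W_isPW hk) (A.G_le_PW hkG)
    (agree_block h false (N := A.ρ * Dt.M) hc r q (by linarith) (by linarith)) hkx

theorem walk {A : Sys b F} {m1 : ℕ} {K : A.Tk m1} (Dt : A.Dat K) {L B : ℕ}
    (hB : ∀ j ε, |(K.u j ε).1| ≤ B ∧ |(K.v j ε).1| ≤ B)
    (hL : (B : ℤ) + (A.ρ * Dt.M : ℕ) < (b.p : ℤ) ^ L) (r : ℤ) {q q' : ℤ × F}
    (hq1 : (Dt.m0 : ℤ) ≤ q.1) (hq2 : q.1 ≤ (b.p : ℤ) ^ (L + 1) - Dt.m0)
    (hq1' : (Dt.m0 : ℤ) ≤ q'.1) (hq2' : q'.1 ≤ (b.p : ℤ) ^ (L + 1) - Dt.m0)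
    (hq : atp b false (r * (b.p : ℤ) ^ (L + 1)) q ∈ A.D)
    (ho : atp b false (r * (b.p : ℤ) ^ (L + 1)) q' ∈ A.orb (atp b false (r * (b.p : ℤ) ^ (L + 1)) q))
    (h1 : A.NE Dt.N K.pts (atp b false (r * (b.p : ℤ) ^ (L + 1)) q))
    (h2 : A.NE Dt.N K.pts (atp b false (r * (b.p : ℤ) ^ (L + 1)) q')) :
    ∃ g ∈ A.G, K.FixT L g ∧ ∀ c : ℤ, (b.p : ℤ) ^ (L + 2) ∣ c → ∀ h : Bool,
      g (atp b h (c + r * (b.p : ℤ) ^ (L + 1)) q) = atp b h (c + r * (b.p : ℤ) ^ (L + 1)) q' := by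
  have hρ0 : (0 : ℤ) ≤ (Dt.m0 : ℤ) := Int.natCast_nonneg _
  have key : ∀ n : ℕ, ∀ q : ℤ × F, (q'.1 - q.1).natAbs ≤ n → (Dt.m0 : ℤ) ≤ q.1 →
      q.1 ≤ (b.p : ℤ) ^ (L + 1) - Dt.m0 →
      atp b false (r * (b.p : ℤ) ^ (L + 1)) q ∈ A.D →
      atp b false (r * (b.p : ℤ) ^ (L + 1)) q' ∈
        A.orb (atp b false (r * (b.p : ℤ) ^ (L + 1)) q) →
      A.NE Dt.N K.pts (atp b false (r * (b.p : ℤ) ^ (L + 1)) q) →
      ∃ g ∈ A.G, K.FixT L g ∧ ∀ c : ℤ, (b.p : ℤ) ^ (L + 2) ∣ c → ∀ h : Bool,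
        g (atp b h (c + r * (b.p : ℤ) ^ (L + 1)) q) =
          atp b h (c + r * (b.p : ℤ) ^ (L + 1)) q' := by
    intro n
    induction n with
    | zero =>
      intro q hn hq1 hq2 hq ho h1
      refine walk_step Dt hB hL r hq1 hq2 hq ho ?_ h1 h2
      have h3 : q'.1 - q.1 = 0 := by omega
      rw [h3, abs_zero]
      positivity
    | succ n ih =>
      intro q hn hq1 hq2 hq ho h1
      by_cases hd : |q'.1 - q.1| ≤ Dt.W + 1
      · exact walk_step Dt hB hL r hq1 hq2 hq ho hd h1 h2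
      · rw [not_le] at hd
        -- an intermediate place
        obtain ⟨g, hg, q'', hgq, hq'', hNE, hd1, hd2, hd3, hd4⟩ : ∃ g ∈ A.G, ∃ q'' : ℤ × F,
            g (atp b false (r * (b.p : ℤ) ^ (L + 1)) q) =
              atp b false (r * (b.p : ℤ) ^ (L + 1)) q'' ∧
            q''.1 = q.1 + disp g (atp b false (r * (b.p : ℤ) ^ (L + 1)) q) ∧
            A.NE Dt.N K.pts (atp b false (r * (b.p : ℤ) ^ (L + 1)) q'') ∧
            |q''.1 - q.1| ≤ Dt.W + 1 ∧ (q'.1 - q''.1).natAbs ≤ n ∧ (Dt.m0 : ℤ) ≤ q''.1 ∧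
            q''.1 ≤ (b.p : ℤ) ^ (L + 1) - Dt.m0 := by
          rcases le_total q.1 q'.1 with hle | hle
          · rw [abs_of_nonneg (by linarith)] at hd
            obtain ⟨g, hg, e1, e2, e3⟩ := Dt.gaps _ hq 1
            obtain ⟨q'', f1, f2⟩ := exists_map_atp (A.G_le_PW hg) false
              (r * (b.p : ℤ) ^ (L + 1)) (r * (b.p : ℤ) ^ (L + 1)) q
            have f3 : q''.1 = q.1 + disp g (atp b false (r * (b.p : ℤ) ^ (L + 1)) q) := by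
              linarith
            rw [f1] at e3
            refine ⟨g, hg, q'', f1, f3, e3, ?_, ?_, ?_, ?_⟩
            · rw [abs_le]
              exact ⟨by linarith [Int.natCast_nonneg Dt.W], by linarith⟩
            · omega
            · linarith
            · linarith
          · rw [abs_of_nonpos (by linarith)] at hd
            obtain ⟨g, hg, e1, e2, e3⟩ := Dt.gaps _ hq (-1 - Dt.W)
            obtain ⟨q'', f1, f2⟩ := exists_map_atp (A.G_le_PW hg) false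
              (r * (b.p : ℤ) ^ (L + 1)) (r * (b.p : ℤ) ^ (L + 1)) q
            have f3 : q''.1 = q.1 + disp g (atp b false (r * (b.p : ℤ) ^ (L + 1)) q) := by
              linarith
            rw [f1] at e3
            refine ⟨g, hg, q'', f1, f3, e3, ?_, ?_, ?_, ?_⟩
            · rw [abs_le]
              exact ⟨by linarith, by linarith [Int.natCast_nonneg Dt.W]⟩
            · omega
            · linarith
            · linarith
        have ho1 : atp b false (r * (b.p : ℤ) ^ (L + 1)) q'' ∈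
            A.orb (atp b false (r * (b.p : ℤ) ^ (L + 1)) q) := ⟨g, hg, hgq.symm⟩
        have hq3 : atp b false (r * (b.p : ℤ) ^ (L + 1)) q'' ∈ A.D := by
          rw [← hgq]
          exact A.map_mem hg hq
        have ho2 : atp b false (r * (b.p : ℤ) ^ (L + 1)) q' ∈
            A.orb (atp b false (r * (b.p : ℤ) ^ (L + 1)) q'') := by
          rw [A.orb_eq ho1]
          exact ho
        obtain ⟨g1, hg1, k1, k2⟩ := walk_step Dt hB hL r hq1 hq2 hq ho1 hd1 h1 hNE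
        obtain ⟨g2, hg2, l1, l2⟩ := ih q'' hd2 hd3 hd4 hq3 ho2 hNE
        refine ⟨g2 * g1, A.G.mul_mem hg2 hg1, Tk.fixT_mul l1 k1, fun c hc h => ?_⟩
        rw [Equiv.Perm.mul_apply, k2 c hc h, l2 c hc h]
  exact key _ q le_rfl hq1 hq2 hq ho h1

end Sys

end Pool.Agent.helper98.NIG
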