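import Pool.Agent.helper35.NIG.R06

/-!
# NIG-R07: transport of all tokens through a block

`BigL Dt R L B r0`: the level `L` is large: `B` bounds all places, `r0` is a common radius of the elements `s`, `e`, and `P ^ L` exceeds all sums.
Let `Λ = r P ^ (L + 1)` and `Λ' = (r + 1) P ^ (L + 1)` (both are multiples of `P ^ (L + 1)`).
PROOFS.
* `exists_big`: finitely many places and elements: `B`, `r0` exist (`A.G_le_PW`, `IsPW.mono`, `K.fin`); `P ≥ 2` (`B02_lt_pow`).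
* `strand_match`: let `x = atp false Λ (u j false)`: in `D` by `right_congr` (`c = Λ`, `K = L`, `h0 = false`) and `u_mem`. `A.syn` and `exists_map_atp` give a
  place `q` with `- m1 - ρ ≤ q.1 ≤ - m1` and `atp false Λ' q ∈ A.orb x`; it is in `D`, so `atp false 0 q ∈ D` by `left_congr` (`c = Λ'`). `u_all` gives `i` with
  `atp false 0 q ∈ orb (u i false)`, so `∈ orb (atp false 0 (v i false))` (`v_orb`, `orb_eq`). `left_congr` again (for `q := v i false`): `atp false Λ' q` is in the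
  orbit of `atp false Λ' (v i false)`. So `atp false Λ' (v i false) ∈ A.orb x`. For the other `ε`, `ε'`: `u_orb`, `v_orb` with `right_congr`, `left_congr`.
* `exists_σ`: choose `i = σ j`. Injective: if `σ j = σ j'` then `atp false Λ (u j false)`, `atp false Λ (u j' false)` are in one orbit, and `right_congr` backwards
  and `u_sep` give `j = j'`.
* `move_one`: the product `g = e * k * s` with `s = Dt.s j ε`, `e = Dt.e (σ j) ε` and `k` from `walk` from the place `x j ε` to the place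
  `q' = (P ^ (L + 1) + (y (σ j) ε).1, (y (σ j) ε).2)` (note `Λ + P ^ (L + 1) = Λ'`, so `atp h (c + Λ) q' = atp h (c + Λ') (y (σ j) ε)`).
  Same orbit: `x_orb`, `y_orb` transported to the gates by `right_congr`, `left_congr`, and `strand_match`. `NE` at both: `agree_gate` with radius `ρ N`
  (`atp false Λ (x j ε)` agrees with `atp (ty false Λ) 0 (x j ε)`), `x_NE`, `E_congr`; the same for `y` at `Λ'`.
  For `P ^ (L + 2) ∣ c` the positions `c + Λ`, `c + Λ'` are multiples of `P ^ (L + 1)`. By `agree_gate` (radius `r0`) and `act_of_agree` `s` moves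
  `atp h (c + Λ) (u j ε)` to `atp h (c + Λ) (x j ε)` and fixes `atp h (c + Λ) (u j' ε')`, `(j', ε') ≠ (j, ε)`, and `atp h (c + Λ') (v i' ε')`; `k` moves the
  place `x` to `q'` and fixes the tokens (`FixT`); `e` moves `atp h (c + Λ') (y (σ j) ε)` to `atp h (c + Λ') (v (σ j) ε)` and fixes the `u`'s at `c + Λ` and the
  other `v`'s at `c + Λ'`.
* `block`: for every finset `S` of indices `(j, ε)` there is `T ∈ G` which moves `atp h (c + Λ) (u j ε)` to `atp h (c + Λ') (v (σ j) ε)` for `(j, ε) ∈ S`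
  and fixes it for `(j, ε) ∉ S`. Induction on `S`: `T' = g * T` with `g` from `move_one`: for `(j', ε') ∈ S` the point
  `atp h (c + Λ') (v (σ j') ε')` is fixed by `g` because `(σ j', ε') ≠ (σ j, ε)`.
-/

namespace Pool.Agent.helper98.NIG

variable {b : Base} {F : Type}

namespace Sys

/-- the level `L` is large -/
structure BigL {A : Sys b F} {m1 : ℕ} {K : A.Tk m1} (Dt : A.Dat K) (R L B r0 : ℕ) : Prop where
  hu : ∀ j ε, |(K.u j ε).1| ≤ B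
  hv : ∀ j ε, |(K.v j ε).1| ≤ B
  hx : ∀ j ε, |(Dt.x j ε).1| ≤ B
  hy : ∀ j ε, |(Dt.y j ε).1| ≤ B
  hs : ∀ j ε, IsPW r0 (Dt.s j ε)
  he : ∀ j ε, IsPW r0 (Dt.e j ε)
  hL : (B : ℤ) + r0 + Dt.m0 + (A.ρ * Dt.M : ℕ) + (A.ρ * Dt.N : ℕ) + R + 2 * A.ρ + m1 + 1 <
    (b.p : ℤ) ^ L

theorem R07_self (A : Sys b F) (x : Pt b F) : x ∈ A.orb x := ⟨1, A.G.one_mem, rfl⟩

theorem R07_trans {A : Sys b F} {x y z : Pt b F} (h : y ∈ A.orb x) (h' : z ∈ A.orb y) :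
    z ∈ A.orb x := by
  obtain ⟨g, hg, rfl⟩ := h
  obtain ⟨g', hg', rfl⟩ := h'
  exact ⟨g' * g, A.G.mul_mem hg' hg, rfl⟩

theorem R07_symm {A : Sys b F} {x y : Pt b F} (h : y ∈ A.orb x) : x ∈ A.orb y := by
  obtain ⟨g, hg, rfl⟩ := h
  exact ⟨g⁻¹, A.G.inv_mem hg, (g.symm_apply_apply x).symm⟩

theorem R07_bdd {ι : Type} [Finite ι] (f : ι → Bool → ℕ) : ∃ B : ℕ, ∀ j ε, f j ε ≤ B := by
  obtain ⟨B, hB⟩ := (Set.finite_range fun x : ι × Bool => f x.1 x.2).bddAbove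
  exact ⟨B, fun j ε => hB ⟨(j, ε), rfl⟩⟩

theorem exists_big {A : Sys b F} {m1 : ℕ} {K : A.Tk m1} (Dt : A.Dat K) (R r1 : ℕ) :
    ∃ L B r0 : ℕ, r1 ≤ r0 ∧ BigL Dt R L B r0 := by
  have _ := K.fin
  choose rs hrs using fun j ε => A.G_le_PW (Dt.s_mem j ε)
  choose re hre using fun j ε => A.G_le_PW (Dt.e_mem j ε)
  obtain ⟨B1, hB1⟩ := R07_bdd fun j ε => (K.u j ε).1.natAbs
  obtain ⟨B2, hB2⟩ := R07_bdd fun j ε => (K.v j ε).1.natAbs
  obtain ⟨B3, hB3⟩ := R07_bdd fun j ε => (Dt.x j ε).1.natAbs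
  obtain ⟨B4, hB4⟩ := R07_bdd fun j ε => (Dt.y j ε).1.natAbs
  obtain ⟨c1, hc1⟩ := R07_bdd rs
  obtain ⟨c2, hc2⟩ := R07_bdd re
  have key : ∀ (n : ℤ) (B' : ℕ), n.natAbs ≤ B' → B' ≤ B1 + B2 + B3 + B4 →
      |n| ≤ ((B1 + B2 + B3 + B4 : ℕ) : ℤ) := by
    intro n B' h h'
    rw [Int.abs_eq_natAbs]
    exact_mod_cast h.trans h'
  refine ⟨(B1 + B2 + B3 + B4) + (r1 + c1 + c2) + Dt.m0 + A.ρ * Dt.M + A.ρ * Dt.N + R + 2 * A.ρ +
    m1 + 1, B1 + B2 + B3 + B4, r1 + c1 + c2, by omega, ?_, ?_, ?_, ?_, ?_, ?_, ?_⟩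
  · exact fun j ε => key _ _ (hB1 j ε) (by omega)
  · exact fun j ε => key _ _ (hB2 j ε) (by omega)
  · exact fun j ε => key _ _ (hB3 j ε) (by omega)
  · exact fun j ε => key _ _ (hB4 j ε) (by omega)
  · intro j ε
    have := hc1 j ε
    exact (hrs j ε).1.mono (by omega)
  · intro j ε
    have := hc2 j ε
    exact (hre j ε).1.mono (by omega)
  · have h := B02_lt_pow b ((B1 + B2 + B3 + B4) + (r1 + c1 + c2) + Dt.m0 + A.ρ * Dt.M +
      A.ρ * Dt.N + R + 2 * A.ρ + m1 + 1)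
    refine lt_of_eq_of_lt ?_ h
    push_cast
    ring

theorem strand_match {A : Sys b F} {R m1 : ℕ} (hR : A.BCon R) (hm1 : R + A.ρ + 1 ≤ m1)
    {K : A.Tk m1} {Dt : A.Dat K} {L B r0 : ℕ} (hB : BigL Dt R L B r0) (r : ℤ) (j : K.ι) :
    ∃ i : K.ι, ∀ ε ε', atp b false (r * (b.p : ℤ) ^ (L + 1)) (K.u j ε) ∈ A.D ∧
      atp b false ((r + 1) * (b.p : ℤ) ^ (L + 1)) (K.v i ε') ∈
        A.orb (atp b false (r * (b.p : ℤ) ^ (L + 1)) (K.u j ε)) := by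
  have hΛ : (b.p : ℤ) ^ (L + 1) ∣ r * (b.p : ℤ) ^ (L + 1) := dvd_mul_left _ _
  have hΛ' : (b.p : ℤ) ^ (L + 1) ∣ (r + 1) * (b.p : ℤ) ^ (L + 1) := dvd_mul_left _ _
  have hL := hB.hL
  push_cast at hL
  have hρM : (0 : ℤ) ≤ (A.ρ : ℤ) * Dt.M := by positivity
  have hρN : (0 : ℤ) ≤ (A.ρ : ℤ) * Dt.N := by positivity
  have hm1' : (R : ℤ) + A.ρ + 1 ≤ m1 := by exact_mod_cast hm1
  -- right and left tokens
  have hur : ∀ ε ε', (atp b false (r * (b.p : ℤ) ^ (L + 1)) (K.u j ε) ∈ A.D ↔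
      atp b false 0 (K.u j ε) ∈ A.D) ∧ (atp b false (r * (b.p : ℤ) ^ (L + 1)) (K.u j ε) ∈ A.D →
      (atp b false (r * (b.p : ℤ) ^ (L + 1)) (K.u j ε') ∈
        A.orb (atp b false (r * (b.p : ℤ) ^ (L + 1)) (K.u j ε)) ↔
      atp b false 0 (K.u j ε') ∈ A.orb (atp b false 0 (K.u j ε)))) := by
    intro ε ε'
    have h1 := (abs_le.1 (hB.hu j ε)).2
    have h2 := (abs_le.1 (hB.hu j ε')).2
    have h3 := K.u_pos j ε
    have h4 := K.u_pos j ε'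
    exact right_congr hR hΛ (by linarith) (by linarith) (by linarith) (by linarith)
  have hD : ∀ ε, atp b false (r * (b.p : ℤ) ^ (L + 1)) (K.u j ε) ∈ A.D :=
    fun ε => (hur ε ε).1.2 (K.u_mem j ε)
  obtain ⟨g, hg, hg1, hg2⟩ := A.syn (hD false) ((r + 1) * (b.p : ℤ) ^ (L + 1) -
    (r * (b.p : ℤ) ^ (L + 1) + (K.u j false).1) - m1 - A.ρ)
  obtain ⟨q, hq, hq1⟩ := exists_map_atp (A.G_le_PW hg) false (r * (b.p : ℤ) ^ (L + 1))
    ((r + 1) * (b.p : ℤ) ^ (L + 1)) (K.u j false)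
  have hqlo : -(m1 : ℤ) - A.ρ ≤ q.1 := by linarith
  have hqhi : q.1 ≤ -(m1 : ℤ) := by linarith
  have hgo : atp b false ((r + 1) * (b.p : ℤ) ^ (L + 1)) q ∈
      A.orb (atp b false (r * (b.p : ℤ) ^ (L + 1)) (K.u j false)) := ⟨g, hg, hq.symm⟩
  have hgD : atp b false ((r + 1) * (b.p : ℤ) ^ (L + 1)) q ∈ A.D := by
    rw [← hq]
    exact A.toP.map_mem hg (hD false)
  have hq0 : atp b false 0 q ∈ A.D :=
    (left_congr (h0 := false) hR hΛ' (q := q) (q' := q) (by linarith) (by linarith) (by linarith)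
      (by linarith)).1.1 hgD
  obtain ⟨i, hi⟩ := K.u_all q hq0
  refine ⟨i, fun ε ε' => ⟨hD ε, ?_⟩⟩
  have hv1 := (abs_le.1 (hB.hv i ε')).1
  have hv2 := K.v_neg i ε'
  have h1 : atp b false 0 (K.v i ε') ∈ A.orb (atp b false 0 q) :=
    R07_trans (R07_symm hi) (K.v_orb i false ε')
  have h2 := ((left_congr (h0 := false) hR hΛ' (q := q) (q' := K.v i ε') (by linarith)
    (by linarith) (by linarith) (by linarith)).2 hgD).2 h1
  have h3 := ((hur ε false).2 (hD ε)).2 (K.u_orb j ε false)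
  exact R07_trans h3 (R07_trans hgo h2)

theorem exists_σ {A : Sys b F} {R m1 : ℕ} (hR : A.BCon R) (hm1 : R + A.ρ + 1 ≤ m1)
    {K : A.Tk m1} {Dt : A.Dat K} {L B r0 : ℕ} (hB : BigL Dt R L B r0) (r : ℤ) :
    ∃ σ : K.ι → K.ι, Function.Injective σ ∧ ∀ j ε ε',
      atp b false (r * (b.p : ℤ) ^ (L + 1)) (K.u j ε) ∈ A.D ∧
      atp b false ((r + 1) * (b.p : ℤ) ^ (L + 1)) (K.v (σ j) ε') ∈
        A.orb (atp b false (r * (b.p : ℤ) ^ (L + 1)) (K.u j ε)) := by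
  choose σ hσ using strand_match hR hm1 hB r
  refine ⟨σ, fun j j' hjj => ?_, hσ⟩
  have h1 := (hσ j false false).2
  have h2 := (hσ j' false false).2
  rw [hjj] at h1
  have h3 := R07_trans h1 (R07_symm h2)
  have hL := hB.hL
  push_cast at hL
  have hρM : (0 : ℤ) ≤ (A.ρ : ℤ) * Dt.M := by positivity
  have hρN : (0 : ℤ) ≤ (A.ρ : ℤ) * Dt.N := by positivity
  have hm1' : (R : ℤ) + A.ρ + 1 ≤ m1 := by exact_mod_cast hm1
  have h4 := (abs_le.1 (hB.hu j false)).2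
  have h5 := (abs_le.1 (hB.hu j' false)).2
  have h6 := K.u_pos j false
  have h7 := K.u_pos j' false
  have h8 := right_congr (h := false) (h0 := false) hR (dvd_mul_left ((b.p : ℤ) ^ (L + 1)) r)
    (q := K.u j false) (q' := K.u j' false) (by linarith) (by linarith) (by linarith) (by linarith)
  exact K.u_sep j j' false false ((h8.2 (hσ j false false).1).1 h3)

private theorem R07_ne {A : Sys b F} {K : ℕ} {N : ℕ} {Z : Set (Pt b F)} {c : ℤ} {q : ℤ × F}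
    (hc : (b.p : ℤ) ^ (K + 1) ∣ c) (hq : |q.1| + (A.ρ * N : ℕ) < (b.p : ℤ) ^ K) (h : Bool)
    (hne : ∀ h', A.NE N Z (atp b h' 0 q)) : A.NE N Z (atp b h c q) := by
  intro z hz hE
  exact hne _ z hz ((E_congr le_rfl (Agree.refl _ z) (agree_gate h hc q hq)).1 hE)

private theorem R07_act {r L : ℕ} {g : Equiv.Perm (Pt b F)} (hg : IsPW r g) (hg' : g ∈ PW b F)
    {c : ℤ} (hc : (b.p : ℤ) ^ (L + 1) ∣ c) {q q' : ℤ × F} (hq : |q.1| + r < (b.p : ℤ) ^ L)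
    (he : ∀ h : Bool, g (atp b h 0 q) = atp b h 0 q') (h : Bool) :
    g (atp b h c q) = atp b h c q' :=
  act_of_agree hg hg' (agree_gate h hc q hq) (he _)

/-- the bounds of a large level -/
private theorem R07_bounds {A : Sys b F} {R m1 : ℕ} {K : A.Tk m1} {Dt : A.Dat K} {L B r0 : ℕ}
    (hB : BigL Dt R L B r0) : (B : ℤ) + r0 < (b.p : ℤ) ^ L ∧
      (B : ℤ) + (A.ρ * Dt.M : ℕ) < (b.p : ℤ) ^ L ∧ (B : ℤ) + (A.ρ * Dt.N : ℕ) < (b.p : ℤ) ^ L ∧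
      (B : ℤ) + R + A.ρ < (b.p : ℤ) ^ L ∧ (B : ℤ) + Dt.m0 < (b.p : ℤ) ^ (L + 1) := by
  have h0 := hB.hL
  have h1 : (0 : ℤ) ≤ (B : ℤ) := Int.natCast_nonneg _
  have h2 : (0 : ℤ) ≤ (r0 : ℤ) := Int.natCast_nonneg _
  have h3 : (0 : ℤ) ≤ (Dt.m0 : ℤ) := Int.natCast_nonneg _
  have h4 : (0 : ℤ) ≤ ((A.ρ * Dt.M : ℕ) : ℤ) := Int.natCast_nonneg _
  have h5 : (0 : ℤ) ≤ ((A.ρ * Dt.N : ℕ) : ℤ) := Int.natCast_nonneg _
  have h6 : (0 : ℤ) ≤ (R : ℤ) := Int.natCast_nonneg _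
  have h7 : (0 : ℤ) ≤ (A.ρ : ℤ) := Int.natCast_nonneg _
  have h8 : (0 : ℤ) ≤ (m1 : ℤ) := Int.natCast_nonneg _
  have h9 : (b.p : ℤ) ^ L ≤ (b.p : ℤ) ^ (L + 1) := B02_pow_le b (Nat.le_succ L)
  refine ⟨?_, ?_, ?_, ?_, ?_⟩ <;> linarith

theorem move_one {A : Sys b F} {R m1 : ℕ} (hR : A.BCon R) (hm1 : R + A.ρ + 1 ≤ m1)
    {K : A.Tk m1} {Dt : A.Dat K} {L B r0 : ℕ} (hB : BigL Dt R L B r0) (r : ℤ)
    {i j : K.ι} {ε : Bool} (hD : atp b false (r * (b.p : ℤ) ^ (L + 1)) (K.u j ε) ∈ A.D)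
    (ho : atp b false ((r + 1) * (b.p : ℤ) ^ (L + 1)) (K.v i ε) ∈
        A.orb (atp b false (r * (b.p : ℤ) ^ (L + 1)) (K.u j ε))) :
    ∃ g ∈ A.G, ∀ c : ℤ, (b.p : ℤ) ^ (L + 2) ∣ c → ∀ h : Bool,
      g (atp b h (c + r * (b.p : ℤ) ^ (L + 1)) (K.u j ε)) =
        atp b h (c + (r + 1) * (b.p : ℤ) ^ (L + 1)) (K.v i ε) ∧
      (∀ j' ε', (j', ε') ≠ (j, ε) → g (atp b h (c + r * (b.p : ℤ) ^ (L + 1)) (K.u j' ε')) =
        atp b h (c + r * (b.p : ℤ) ^ (L + 1)) (K.u j' ε')) ∧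
      ∀ i' ε', (i', ε') ≠ (i, ε) → g (atp b h (c + (r + 1) * (b.p : ℤ) ^ (L + 1)) (K.v i' ε')) =
        atp b h (c + (r + 1) * (b.p : ℤ) ^ (L + 1)) (K.v i' ε') := by
  obtain ⟨hb1, hb2, hb3, hb4, hb5⟩ := R07_bounds hB
  have hm1' : (R : ℤ) + A.ρ + 1 ≤ m1 := by exact_mod_cast hm1
  have hm0 : (m1 : ℤ) < Dt.m0 := by
    have h1 := Dt.hm0
    have h2 : m1 < Dt.m0 := by omega
    exact_mod_cast h2
  have hΛ : (b.p : ℤ) ^ (L + 1) ∣ r * (b.p : ℤ) ^ (L + 1) := Dvd.intro_left r rfl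
  have hΛ' : (b.p : ℤ) ^ (L + 1) ∣ (r + 1) * (b.p : ℤ) ^ (L + 1) := Dvd.intro_left (r + 1) rfl
  have hux := abs_le.1 (hB.hu j ε)
  have hxx := abs_le.1 (hB.hx j ε)
  have hvx := abs_le.1 (hB.hv i ε)
  have hyx := abs_le.1 (hB.hy i ε)
  have hu1 := K.u_pos j ε
  have hv1 := K.v_neg i ε
  have hx1 := Dt.x_far j ε
  have hy1 := Dt.y_far i ε
  -- the orbits
  have hxo : atp b false (r * (b.p : ℤ) ^ (L + 1)) (Dt.x j ε) ∈
      A.orb (atp b false (r * (b.p : ℤ) ^ (L + 1)) (K.u j ε)) :=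
    ((right_congr hR (h := false) (h0 := false) hΛ (q := K.u j ε) (q' := Dt.x j ε)
      (by linarith) (by linarith) (by linarith [hux.2]) (by linarith [hxx.2])).2 hD).2
      (Dt.x_orb j ε)
  have hvD : atp b false ((r + 1) * (b.p : ℤ) ^ (L + 1)) (K.v i ε) ∈ A.D := by
    obtain ⟨g, hg, he⟩ := ho
    rw [he]
    exact A.map_mem hg hD
  have hyo : atp b false ((r + 1) * (b.p : ℤ) ^ (L + 1)) (Dt.y i ε) ∈
      A.orb (atp b false ((r + 1) * (b.p : ℤ) ^ (L + 1)) (K.v i ε)) :=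
    ((left_congr hR (h := false) (h0 := false) hΛ' (q := K.v i ε) (q' := Dt.y i ε)
      (by linarith) (by linarith) (by linarith [hvx.1]) (by linarith [hyx.1])).2 hvD).2
      (Dt.y_orb i ε)
  have hxD : atp b false (r * (b.p : ℤ) ^ (L + 1)) (Dt.x j ε) ∈ A.D := by
    obtain ⟨g, hg, he⟩ := hxo
    rw [he]
    exact A.map_mem hg hD
  -- the places
  have hq : ∀ (h : Bool) (c : ℤ), atp b h (c + r * (b.p : ℤ) ^ (L + 1))
      ((b.p : ℤ) ^ (L + 1) + (Dt.y i ε).1, (Dt.y i ε).2) =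
        atp b h (c + (r + 1) * (b.p : ℤ) ^ (L + 1)) (Dt.y i ε) := by
    intro h c
    change tw b h (c + r * (b.p : ℤ) ^ (L + 1) + ((b.p : ℤ) ^ (L + 1) + (Dt.y i ε).1))
      (Dt.y i ε).2 = tw b h (c + (r + 1) * (b.p : ℤ) ^ (L + 1) + (Dt.y i ε).1) (Dt.y i ε).2
    congr 1
    ring
  have hq0 : atp b false (r * (b.p : ℤ) ^ (L + 1))
      ((b.p : ℤ) ^ (L + 1) + (Dt.y i ε).1, (Dt.y i ε).2) =
        atp b false ((r + 1) * (b.p : ℤ) ^ (L + 1)) (Dt.y i ε) := by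
    have h1 := hq false 0
    rwa [zero_add, zero_add] at h1
  have hyo' : atp b false (r * (b.p : ℤ) ^ (L + 1))
      ((b.p : ℤ) ^ (L + 1) + (Dt.y i ε).1, (Dt.y i ε).2) ∈
        A.orb (atp b false (r * (b.p : ℤ) ^ (L + 1)) (Dt.x j ε)) := by
    rw [hq0]
    obtain ⟨g1, hg1, he1⟩ := hyo
    obtain ⟨g2, hg2, he2⟩ := ho
    obtain ⟨g3, hg3, he3⟩ := hxo
    refine ⟨g1 * g2 * g3⁻¹, A.G.mul_mem (A.G.mul_mem hg1 hg2) (A.G.inv_mem hg3), ?_⟩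
    have h3 : g3⁻¹ (atp b false (r * (b.p : ℤ) ^ (L + 1)) (Dt.x j ε)) =
        atp b false (r * (b.p : ℤ) ^ (L + 1)) (K.u j ε) := by
      rw [he3]
      exact g3.symm_apply_apply _
    rw [he1, he2, Equiv.Perm.mul_apply, Equiv.Perm.mul_apply, h3]
  have hxN : A.NE Dt.N K.pts (atp b false (r * (b.p : ℤ) ^ (L + 1)) (Dt.x j ε)) :=
    R07_ne hΛ (by linarith [hB.hx j ε]) false (Dt.x_NE j ε)
  have hyN : A.NE Dt.N K.pts (atp b false (r * (b.p : ℤ) ^ (L + 1))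
      ((b.p : ℤ) ^ (L + 1) + (Dt.y i ε).1, (Dt.y i ε).2)) := by
    rw [hq0]
    exact R07_ne hΛ' (by linarith [hB.hy i ε]) false (Dt.y_NE i ε)
  obtain ⟨k, hk, hkT, hkx⟩ := walk Dt (fun j' ε' => ⟨hB.hu j' ε', hB.hv j' ε'⟩) hb2 r
    (q := Dt.x j ε) (q' := ((b.p : ℤ) ^ (L + 1) + (Dt.y i ε).1, (Dt.y i ε).2)) hx1
    (by linarith [hxx.2]) (by change (Dt.m0 : ℤ) ≤ (b.p : ℤ) ^ (L + 1) + (Dt.y i ε).1
                              linarith [hyx.1])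
    (by change (b.p : ℤ) ^ (L + 1) + (Dt.y i ε).1 ≤ (b.p : ℤ) ^ (L + 1) - Dt.m0
        linarith) hxD hyo' hxN hyN
  have hsG := Dt.s_mem j ε
  have heG := Dt.e_mem i ε
  refine ⟨Dt.e i ε * k * Dt.s j ε, A.G.mul_mem (A.G.mul_mem heG hk) hsG, fun c hc h => ?_⟩
  have hc1 : (b.p : ℤ) ^ (L + 1) ∣ c := (pow_dvd_pow _ (by omega)).trans hc
  have hcΛ : (b.p : ℤ) ^ (L + 1) ∣ c + r * (b.p : ℤ) ^ (L + 1) := dvd_add hc1 hΛ
  have hcΛ' : (b.p : ℤ) ^ (L + 1) ∣ c + (r + 1) * (b.p : ℤ) ^ (L + 1) := dvd_add hc1 hΛ'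
  have hs := hB.hs j ε
  have he := hB.he i ε
  have hsP := A.G_le_PW hsG
  have heP := A.G_le_PW heG
  refine ⟨?_, fun j' ε' hne => ?_, fun i' ε' hne => ?_⟩
  · rw [Equiv.Perm.mul_apply, Equiv.Perm.mul_apply,
      R07_act hs hsP hcΛ (by linarith [hB.hu j ε]) (fun h' => Dt.s_move j ε h') h,
      hkx c hc h, hq h c,
      R07_act he heP hcΛ' (by linarith [hB.hy i ε]) (fun h' => Dt.e_move i ε h') h]
  · rw [Equiv.Perm.mul_apply, Equiv.Perm.mul_apply,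
      R07_act hs hsP hcΛ (by linarith [hB.hu j' ε'])
        (fun h' => Dt.s_fix_u j ε j' ε' h' hne) h, (hkT _ hcΛ h j' ε').1,
      R07_act he heP hcΛ (by linarith [hB.hu j' ε']) (fun h' => Dt.e_fix_u i ε j' ε' h') h]
  · rw [Equiv.Perm.mul_apply, Equiv.Perm.mul_apply,
      R07_act hs hsP hcΛ' (by linarith [hB.hv i' ε'])
        (fun h' => Dt.s_fix_v j ε i' ε' h') h, (hkT _ hcΛ' h i' ε').2,
      R07_act he heP hcΛ' (by linarith [hB.hv i' ε'])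
        (fun h' => Dt.e_fix_v i ε i' ε' h' hne) h]

theorem block {A : Sys b F} {R m1 : ℕ} (hR : A.BCon R) (hm1 : R + A.ρ + 1 ≤ m1)
    {K : A.Tk m1} {Dt : A.Dat K} {L B r0 : ℕ} (hB : BigL Dt R L B r0) (r : ℤ) :
    ∃ T ∈ A.G, ∃ σ : K.ι → K.ι, Function.Injective σ ∧ ∀ c : ℤ, (b.p : ℤ) ^ (L + 2) ∣ c →
      ∀ (h : Bool) (j : K.ι) (ε : Bool),
        T (atp b h (c + r * (b.p : ℤ) ^ (L + 1)) (K.u j ε)) =
          atp b h (c + (r + 1) * (b.p : ℤ) ^ (L + 1)) (K.v (σ j) ε) := by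
  classical
  obtain ⟨σ, hσ, hσ'⟩ := exists_σ hR hm1 hB r
  have := K.fin
  have := Fintype.ofFinite K.ι
  have key : ∀ S : Finset (K.ι × Bool), ∃ T ∈ A.G, ∀ c : ℤ, (b.p : ℤ) ^ (L + 2) ∣ c →
      ∀ (h : Bool) (j : K.ι) (ε : Bool),
        ((j, ε) ∈ S → T (atp b h (c + r * (b.p : ℤ) ^ (L + 1)) (K.u j ε)) =
          atp b h (c + (r + 1) * (b.p : ℤ) ^ (L + 1)) (K.v (σ j) ε)) ∧
        ((j, ε) ∉ S → T (atp b h (c + r * (b.p : ℤ) ^ (L + 1)) (K.u j ε)) =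
          atp b h (c + r * (b.p : ℤ) ^ (L + 1)) (K.u j ε)) := by
    intro S
    induction S using Finset.induction_on with
    | empty =>
      exact ⟨1, A.G.one_mem, fun c _ h j ε => ⟨fun h1 => absurd h1 (Finset.notMem_empty _),
        fun _ => rfl⟩⟩
    | insert q S hq ih =>
      obtain ⟨j0, ε0⟩ := q
      obtain ⟨T, hT, hT'⟩ := ih
      obtain ⟨g, hg, hg'⟩ := move_one hR hm1 hB r (hσ' j0 ε0 ε0).1 (hσ' j0 ε0 ε0).2
      refine ⟨g * T, A.G.mul_mem hg hT, fun c hc h j ε => ⟨fun h1 => ?_, fun h1 => ?_⟩⟩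
      · rw [Equiv.Perm.mul_apply]
        by_cases h2 : (j, ε) = (j0, ε0)
        · obtain ⟨rfl, rfl⟩ := Prod.mk.inj h2
          rw [(hT' c hc h j ε).2 hq]
          exact (hg' c hc h).1
        · have h3 : (j, ε) ∈ S := (Finset.mem_insert.1 h1).resolve_left h2
          rw [(hT' c hc h j ε).1 h3]
          refine (hg' c hc h).2.2 (σ j) ε fun h4 => h2 ?_
          obtain ⟨h5, h6⟩ := Prod.mk.inj h4
          rw [hσ h5, h6]
      · rw [Equiv.Perm.mul_apply]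
        rw [Finset.mem_insert, not_or] at h1
        rw [(hT' c hc h j ε).2 h1.2]
        exact (hg' c hc h).2.1 j ε h1.1
  obtain ⟨T, hT, hT'⟩ := key Finset.univ
  exact ⟨T, hT, σ, hσ, fun c hc h j ε => (hT' c hc h j ε).1 (Finset.mem_univ _)⟩

end Sys

end Pool.Agent.helper98.NIG
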