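import Pool.Agent.helper35.NIG.R07
import Pool.Agent.helper2.NIG.L24
import Pool.Agent.helper2.NIG.L27

/-!
# NIG-R08: the crossing element and the lamp

PROOFS.
* `exists_ρ`: on the line `true`: for every `j` the orbit of `atp true 0 (v j false)` (in `D` by `left_line`) has a point `atp true 0 q` with `m1 ≤ q.1` (`A.syn`,
  `exists_map_atp`), `atp false 0 q ∈ D` (`right_line`), in the orbit of some `u i false` on the line `false` (`u_all`), so by `right_line` on the line `true`: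
  `atp true 0 (u i false) ∈ orb (atp true 0 (v j false))`; `ρ j = i`. Injective: if `ρ j = ρ j'` then `atp true 0 (v j false)`, `atp true 0 (v j' false)` are in one orbit;
  by `left_line` also on the line `false`, and `v_orb`, `u_sep` give `j = j'`. Other `ε`: `u_orb`, `v_orb` with `right_line`, `left_line`.
* `rel_cross`: `D0` from `rel_twin_far` (L27), `D0 ≤ m1`. (a) If `Rel (atp false 0 (v j ε)) (atp true 0 (v j' ε'))` then `(j, ε) = (j', ε')` (`v_nt`). Let `g ∈ G` with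
  `g (atp false 0 (v j ε)) = atp false 0 (u j ε)` (`v_orb`, `u_orb`: one orbit). By `rel_twin_far` `g (atp true 0 (v j ε)) = atp true 0 (u j ε)`, so this point is in the orbit
  of `atp true 0 (v j ε)`, hence in the orbit of `atp true 0 (u (ρ j) ε)`; by `right_line` and `u_sep`: `ρ j = j`. So `g` moves both points to the targets.
  (b) If `Rel (atp false 0 (u j ε)) (atp true 0 (u (ρ j') ε'))` then `(j, ε) = (ρ j', ε')` (`u_nt`), and with the same `g⁻¹`:
  `g⁻¹ (atp true 0 (u j ε)) = atp true 0 (v j ε)` (`rel_twin_far`), so `atp true 0 (v j ε)` is in the orbit of `atp true 0 (u (ρ j') ε')`, that is of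
  `atp true 0 (v j' ε')`, and as in the injectivity `j = j'`; so `Rel (atp false 0 (v j ε)) (atp true 0 (v j' ε'))` (`rel_map_iff`).
* `exists_w`: `move_all` with the index type `Bool × ι × Bool`, the points `atp h 0 (v j ε)` and the targets `atp false 0 (u j ε)`, `atp true 0 (u (ρ j) ε)`. Two indices on the same
  line are not related (`v_nt`), and their targets neither (`u_nt`, `ρ` injective): first alternative. Two indices on different lines: if the points are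
  related: `rel_cross` (a), second alternative. If not: the targets are not related by `rel_cross` (b): first alternative.
* `exists_f`: `move_all` with the points `atp h 0 (u j ε)` and the targets `atp h 0 (u j ε)` except for `h = true`, `j = j0`: `atp true 0 (u j0 (!ε))`. Pairs: if neither index is
  `(true, j0, _)`: `g = 1`. If one of them is `(true, j0, ε)` and the other one is `(false, j0, ε')`: not related: for `ε = ε'` this is `hvis`,
  for `ε ≠ ε'` `u_nt`; the targets `(true, j0, !ε)`, `(false, j0, ε')`: the same reasons. All other pairs: `u_nt` for points and targets. The target `u j0 (!ε)` is in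
  the orbit: `u_orb` and `right_line`.
-/

namespace Pool.Agent.helper98.NIG

variable {b : Base} {F : Type}

namespace Sys

theorem R08a_refl (A : Sys b F) (x : Pt b F) : x ∈ A.orb x := ⟨1, A.G.one_mem, rfl⟩

theorem R08a_symm {A : Sys b F} {x a : Pt b F} (h : a ∈ A.orb x) : x ∈ A.orb a := by
  obtain ⟨g, hg, rfl⟩ := h
  exact ⟨g⁻¹, A.G.inv_mem hg, (g.symm_apply_apply x).symm⟩

theorem R08a_trans {A : Sys b F} {x a c : Pt b F} (h : a ∈ A.orb x) (h' : c ∈ A.orb a) :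
    c ∈ A.orb x := by
  obtain ⟨g, hg, rfl⟩ := h
  obtain ⟨g', hg', rfl⟩ := h'
  exact ⟨g' * g, A.G.mul_mem hg' hg, rfl⟩

theorem R08a_mem {A : Sys b F} {x a : Pt b F} (hx : x ∈ A.D) (h : a ∈ A.orb x) : a ∈ A.D := by
  obtain ⟨g, hg, rfl⟩ := h
  exact A.map_mem hg hx

section R08a

variable {A : Sys b F} {R m1 : ℕ}

theorem R08a_upos (hm1 : R + A.ρ + 1 ≤ m1) (K : A.Tk m1) (j : K.ι) (ε : Bool) :
    (R : ℤ) + A.ρ + 1 ≤ (K.u j ε).1 := by
  have h1 := K.u_pos j ε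
  have h2 : ((R + A.ρ + 1 : ℕ) : ℤ) ≤ (m1 : ℤ) := by exact_mod_cast hm1
  push_cast at h2
  linarith

theorem R08a_vneg (hm1 : R + A.ρ + 1 ≤ m1) (K : A.Tk m1) (j : K.ι) (ε : Bool) :
    (K.v j ε).1 ≤ -((R : ℤ) + A.ρ + 1) := by
  have h1 := K.v_neg j ε
  have h2 : ((R + A.ρ + 1 : ℕ) : ℤ) ≤ (m1 : ℤ) := by exact_mod_cast hm1
  push_cast at h2
  linarith

theorem R08a_vmem (K : A.Tk m1) (j : K.ι) (ε : Bool) : atp b false 0 (K.v j ε) ∈ A.D :=
  R08a_mem (K.u_mem j ε) (K.v_orb j ε ε)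

theorem R08a_uu (hR : A.BCon R) (hm1 : R + A.ρ + 1 ≤ m1) (K : A.Tk m1) (h : Bool) (i i' : K.ι)
    (ε ε' : Bool) : atp b h 0 (K.u i ε) ∈ A.D ∧
      (atp b false 0 (K.u i' ε') ∈ A.orb (atp b false 0 (K.u i ε)) ↔
        atp b h 0 (K.u i' ε') ∈ A.orb (atp b h 0 (K.u i ε))) := by
  have h1 := right_line hR (h := false) (h0 := h) (R08a_upos hm1 K i ε) (R08a_upos hm1 K i' ε')
  exact ⟨h1.1.1 (K.u_mem i ε), h1.2 (K.u_mem i ε)⟩

theorem R08a_vv (hR : A.BCon R) (hm1 : R + A.ρ + 1 ≤ m1) (K : A.Tk m1) (h : Bool) (i i' : K.ι)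
    (ε ε' : Bool) : atp b h 0 (K.v i ε) ∈ A.D ∧
      (atp b false 0 (K.v i' ε') ∈ A.orb (atp b false 0 (K.v i ε)) ↔
        atp b h 0 (K.v i' ε') ∈ A.orb (atp b h 0 (K.v i ε))) := by
  have h1 := left_line hR (h := false) (h0 := h) (R08a_vneg hm1 K i ε) (R08a_vneg hm1 K i' ε')
  exact ⟨h1.1.1 (R08a_vmem K i ε), h1.2 (R08a_vmem K i ε)⟩

/-- different strands on the left of the line `true` -/
theorem R08a_vsep (hR : A.BCon R) (hm1 : R + A.ρ + 1 ≤ m1) (K : A.Tk m1) {j j' : K.ι}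
    {ε ε' : Bool} (h : atp b true 0 (K.v j' ε') ∈ A.orb (atp b true 0 (K.v j ε))) : j = j' := by
  have h1 := (R08a_vv hR hm1 K true j j' ε ε').2.2 h
  have h2 : atp b false 0 (K.v j' ε') ∈ A.orb (atp b false 0 (K.u j ε)) :=
    R08a_trans (K.v_orb j ε ε) h1
  exact K.u_sep j j' ε ε' (R08a_trans h2 (R08a_symm (K.v_orb j' ε' ε')))

/-- different strands on the right of the line `true` -/
theorem R08a_usep (hR : A.BCon R) (hm1 : R + A.ρ + 1 ≤ m1) (K : A.Tk m1) {j j' : K.ι}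
    {ε ε' : Bool} (h : atp b true 0 (K.u j' ε') ∈ A.orb (atp b true 0 (K.u j ε))) : j = j' :=
  K.u_sep j j' ε ε' ((R08a_uu hR hm1 K true j j' ε ε').2.2 h)

theorem R08a_strand (hR : A.BCon R) (hm1 : R + A.ρ + 1 ≤ m1) (K : A.Tk m1) (j : K.ι) :
    ∃ i : K.ι, ∀ ε ε', atp b true 0 (K.v j ε) ∈ A.D ∧
      atp b true 0 (K.u i ε') ∈ A.orb (atp b true 0 (K.v j ε)) := by
  have hz := (R08a_vv hR hm1 K true j j false false).1
  obtain ⟨g, hg, hd, -⟩ := A.syn hz ((m1 : ℤ) - (K.v j false).1)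
  obtain ⟨q, hq, hq1⟩ := exists_map_atp (A.G_le_PW hg) true 0 0 (K.v j false)
  have hq2 : (R : ℤ) + A.ρ + 1 ≤ q.1 := by
    have h2 : ((R + A.ρ + 1 : ℕ) : ℤ) ≤ (m1 : ℤ) := by exact_mod_cast hm1
    push_cast at h2
    linarith
  have hqD : atp b true 0 q ∈ A.D := by
    rw [← hq]
    exact A.map_mem hg hz
  have hqD' : atp b false 0 q ∈ A.D := (right_line hR (h := true) (h0 := false) hq2 hq2).1.1 hqD
  obtain ⟨i, hi⟩ := K.u_all q hqD'
  have h3 := ((right_line hR (h := false) (h0 := true) (R08a_upos hm1 K i false) hq2).2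
    (K.u_mem i false)).1 hi
  have h4 : atp b true 0 (K.u i false) ∈ A.orb (atp b true 0 (K.v j false)) :=
    R08a_trans ⟨g, hg, hq.symm⟩ (R08a_symm h3)
  refine ⟨i, fun ε ε' => ⟨(R08a_vv hR hm1 K true j j ε ε).1, ?_⟩⟩
  have h5 : atp b true 0 (K.u i ε') ∈ A.orb (atp b true 0 (K.u i false)) :=
    (R08a_uu hR hm1 K true i i false ε').2.1 (K.u_orb i false ε')
  have h6 : atp b true 0 (K.v j false) ∈ A.orb (atp b true 0 (K.v j ε)) :=
    (R08a_vv hR hm1 K true j j ε false).2.1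
      (R08a_trans (R08a_symm (K.v_orb j false ε)) (K.v_orb j false false))
  exact R08a_trans h6 (R08a_trans h4 h5)

end R08a

theorem exists_ρ {A : Sys b F} {R m1 : ℕ} (hR : A.BCon R) (hm1 : R + A.ρ + 1 ≤ m1)
    (K : A.Tk m1) : ∃ ρ' : K.ι → K.ι, Function.Injective ρ' ∧ ∀ j ε ε',
      atp b true 0 (K.v j ε) ∈ A.D ∧
      atp b true 0 (K.u (ρ' j) ε') ∈ A.orb (atp b true 0 (K.v j ε)) := by
  choose ρ' hρ' using fun j => R08a_strand hR hm1 K j
  refine ⟨ρ', fun j j' hjj => ?_, fun j ε ε' => hρ' j ε ε'⟩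
  have h1 := (hρ' j false false).2
  have h2 := (hρ' j' false false).2
  rw [← hjj] at h2
  exact R08a_vsep hR hm1 K (R08a_trans h1 (R08a_symm h2))

theorem rel_cross [Finite F] {A : Sys b F} {R m1 : ℕ} (hR : A.BCon R)
    (hm1 : R + A.ρ + 1 ≤ m1) (K : A.Tk m1)
    (htw : ∀ (h : Bool) (n : ℤ) (φ : F), (m1 : ℤ) ≤ |n| →
      tw b h n φ ∈ A.D → tw b (!h) n φ ∈ A.D → A.Rel (tw b h n φ) (tw b (!h) n φ) →
      ∀ g ∈ A.G, ∀ (m : ℤ) (ψ : F), (m1 : ℤ) ≤ |m| → g (tw b h n φ) = tw b h m ψ →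
        g (tw b (!h) n φ) = tw b (!h) m ψ)
    {ρ' : K.ι → K.ι} (hρ : Function.Injective ρ')
    (hρ' : ∀ j ε ε', atp b true 0 (K.v j ε) ∈ A.D ∧
      atp b true 0 (K.u (ρ' j) ε') ∈ A.orb (atp b true 0 (K.v j ε))) (j j' : K.ι) (ε ε' : Bool) :
    (A.Rel (atp b false 0 (K.v j ε)) (atp b true 0 (K.v j' ε')) →
      ∃ g ∈ A.G, g (atp b false 0 (K.v j ε)) = atp b false 0 (K.u j ε) ∧
        g (atp b true 0 (K.v j' ε')) = atp b true 0 (K.u (ρ' j') ε')) ∧
    (A.Rel (atp b false 0 (K.u j ε)) (atp b true 0 (K.u (ρ' j') ε')) →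
      A.Rel (atp b false 0 (K.v j ε)) (atp b true 0 (K.v j' ε'))) := by
  have hmu : ∀ j ε, (m1 : ℤ) ≤ |0 + (K.u j ε).1| := fun j ε => by
    rw [zero_add]
    exact (K.u_pos j ε).trans (le_abs_self _)
  have hmv : ∀ j ε, (m1 : ℤ) ≤ |0 + (K.v j ε).1| := fun j ε => by
    rw [zero_add]
    have := K.v_neg j ε
    exact (by linarith : (m1 : ℤ) ≤ -(K.v j ε).1).trans (neg_le_abs _)
  -- the element which moves the left token to the right token on the line `false`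
  obtain ⟨g, hg, hgv⟩ := R08a_symm (K.v_orb j ε ε)
  constructor
  · intro hrel
    have hjj : (j, ε) = (j', ε') := by
      by_contra hne
      exact K.v_nt j ε j' ε' hne false true hrel
    obtain ⟨rfl, rfl⟩ := Prod.mk.inj hjj
    have h1 : g (atp b true 0 (K.v j ε)) = atp b true 0 (K.u j ε) :=
      htw false (0 + (K.v j ε).1) (K.v j ε).2 (hmv j ε) (R08a_vmem K j ε) (hρ' j ε ε).1 hrel g hg
        (0 + (K.u j ε).1) (K.u j ε).2 (hmu j ε) hgv.symm
    have h2 : atp b true 0 (K.u j ε) ∈ A.orb (atp b true 0 (K.v j ε)) := ⟨g, hg, h1.symm⟩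
    have h3 : j = ρ' j := R08a_usep hR hm1 K (R08a_trans (R08a_symm h2) (hρ' j ε ε).2)
    exact ⟨g, hg, hgv.symm, by rw [← h3]; exact h1⟩
  · intro hrel
    have hjj : (j, ε) = (ρ' j', ε') := by
      by_contra hne
      exact K.u_nt j ε (ρ' j') ε' hne false true hrel
    obtain ⟨hj, rfl⟩ := Prod.mk.inj hjj
    rw [← hj] at hrel
    have hgi : g⁻¹ (atp b false 0 (K.u j ε)) = atp b false 0 (K.v j ε) := by
      rw [hgv]
      exact g.symm_apply_apply _
    have h1 : g⁻¹ (atp b true 0 (K.u j ε)) = atp b true 0 (K.v j ε) :=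
      htw false (0 + (K.u j ε).1) (K.u j ε).2 (hmu j ε) (K.u_mem j ε)
        (R08a_uu hR hm1 K true j j ε ε).1 hrel g⁻¹ (A.G.inv_mem hg)
        (0 + (K.v j ε).1) (K.v j ε).2 (hmv j ε) hgi
    have h2 : atp b true 0 (K.v j ε) ∈ A.orb (atp b true 0 (K.u j ε)) :=
      ⟨g⁻¹, A.G.inv_mem hg, h1.symm⟩
    have h3 := (hρ' j' ε ε).2
    rw [← hj] at h3
    have h4 : j' = j := R08a_vsep hR hm1 K (R08a_trans h3 h2)
    subst h4
    rw [← h1, ← hgi, rel_map_iff (A.G.inv_mem hg)]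
    exact hrel

theorem exists_w [Finite F] {A : Sys b F} (hT : ∀ k, A.Tr k) {R m1 : ℕ} (hR : A.BCon R)
    (hm1 : R + A.ρ + 1 ≤ m1) (K : A.Tk m1)
    (htw : ∀ (h : Bool) (n : ℤ) (φ : F), (m1 : ℤ) ≤ |n| →
      tw b h n φ ∈ A.D → tw b (!h) n φ ∈ A.D → A.Rel (tw b h n φ) (tw b (!h) n φ) →
      ∀ g ∈ A.G, ∀ (m : ℤ) (ψ : F), (m1 : ℤ) ≤ |m| → g (tw b h n φ) = tw b h m ψ →
        g (tw b (!h) n φ) = tw b (!h) m ψ) :
    ∃ w ∈ A.G, ∃ ρ' : Bool → K.ι → K.ι, (∀ h, Function.Injective (ρ' h)) ∧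
      ∀ h j ε, w (atp b h 0 (K.v j ε)) = atp b h 0 (K.u (ρ' h j) ε) := by
  obtain ⟨ρt, hinj, hρt⟩ := exists_ρ hR hm1 K
  have hcross := rel_cross hR hm1 K htw hinj hρt
  have := K.fin
  have hjinj : ∀ h : Bool, Function.Injective (fun j : K.ι => if h = true then ρt j else j) := by
    intro h
    cases h
    · intro i j hij
      simpa using hij
    · intro i j hij
      exact hinj (by simpa using hij)
  have key := move_all hT (κ := Bool × K.ι × Bool)
    (fun i => atp b i.1 0 (K.v i.2.1 i.2.2))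
    (fun i => atp b i.1 0 (K.u (if i.1 = true then ρt i.2.1 else i.2.1) i.2.2)) ?_ ?_ ?_
  · obtain ⟨w, hw, hw'⟩ := key
    exact ⟨w, hw, fun h j => if h = true then ρt j else j, hjinj, fun h j ε => hw' (h, j, ε)⟩
  · rintro ⟨h, j, ε⟩
    cases h
    · obtain ⟨g, hg, h1⟩ := K.v_orb j ε ε
      show atp b false 0 (K.v j ε) ∈ A.D
      rw [h1]
      exact A.map_mem hg (K.u_mem j ε)
    · exact (hρt j ε ε).1
  · rintro ⟨h, j, ε⟩
    cases h
    · show atp b false 0 (K.u j ε) ∈ A.orb (atp b false 0 (K.v j ε))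
      obtain ⟨g, hg, h1⟩ := K.v_orb j ε ε
      refine ⟨g⁻¹, A.G.inv_mem hg, ?_⟩
      rw [h1]
      exact (g.symm_apply_apply _).symm
    · exact (hρt j ε ε).2
  · rintro ⟨h, j, ε⟩ ⟨h', j', ε'⟩ hne
    cases h <;> cases h'
    · refine Or.inl ⟨K.v_nt j ε j' ε' ?_ false false, K.u_nt j ε j' ε' ?_ false false⟩ <;>
      · rintro he
        rw [Prod.mk.injEq] at he
        exact hne (by rw [he.1, he.2])
    · by_cases hr : A.Rel (atp b false 0 (K.v j ε)) (atp b true 0 (K.v j' ε'))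
      · exact Or.inr ((hcross j j' ε ε').1 hr)
      · exact Or.inl ⟨hr, fun hu => hr ((hcross j j' ε ε').2 hu)⟩
    · by_cases hr : A.Rel (atp b false 0 (K.v j' ε')) (atp b true 0 (K.v j ε))
      · obtain ⟨g, hg, h1, h2⟩ := (hcross j' j ε' ε).1 hr
        exact Or.inr ⟨g, hg, h2, h1⟩
      · exact Or.inl ⟨fun h0 => hr h0.symm, fun hu => hr ((hcross j' j ε' ε).2 hu.symm)⟩
    · refine Or.inl ⟨K.v_nt j ε j' ε' ?_ true true, K.u_nt (ρt j) ε (ρt j') ε' ?_ true true⟩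
      · rintro he
        rw [Prod.mk.injEq] at he
        exact hne (by rw [he.1, he.2])
      · rintro he
        rw [Prod.mk.injEq] at he
        exact hne (by rw [hinj he.1, he.2])

theorem exists_f {A : Sys b F} (hT : ∀ k, A.Tr k) {R m1 : ℕ} (hR : A.BCon R)
    (hm1 : R + A.ρ + 1 ≤ m1) (K : A.Tk m1) {j0 : K.ι}
    (hvis : ∀ ε, ¬ A.Rel (atp b false 0 (K.u j0 ε)) (atp b true 0 (K.u j0 ε))) :
    ∃ f ∈ A.G, (∀ j ε, f (atp b false 0 (K.u j ε)) = atp b false 0 (K.u j ε)) ∧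
      (∀ j ε, j ≠ j0 → f (atp b true 0 (K.u j ε)) = atp b true 0 (K.u j ε)) ∧
      ∀ ε, f (atp b true 0 (K.u j0 ε)) = atp b true 0 (K.u j0 (!ε)) := by
  classical
  have := K.fin
  -- the points and the targets
  let x : Bool × K.ι × Bool → Pt b F := fun i => atp b i.1 0 (K.u i.2.1 i.2.2)
  let y : Bool × K.ι × Bool → Pt b F := fun i =>
    atp b i.1 0 (K.u i.2.1 (if i.1 = true ∧ i.2.1 = j0 then !i.2.2 else i.2.2))
  have hy0 : ∀ (h : Bool) (j : K.ι) (ε : Bool), ¬ (h = true ∧ j = j0) →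
      y (h, j, ε) = atp b h 0 (K.u j ε) := fun h j ε hn => by
    simp only [y, if_neg hn]
  have hy1 : ∀ ε : Bool, y (true, j0, ε) = atp b true 0 (K.u j0 (!ε)) := fun ε => by
    simp [y]
  -- the two lines at the right tokens of the strand `j0`
  have hcr : ∀ (j : K.ι) (ε ε' : Bool),
      ¬ A.Rel (atp b false 0 (K.u j ε)) (atp b true 0 (K.u j0 ε')) := by
    intro j ε ε' hrel
    by_cases he : (j, ε) = (j0, ε')
    · obtain ⟨rfl, rfl⟩ := Prod.mk.inj he
      exact hvis _ hrel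
    · exact K.u_nt j ε j0 ε' he false true hrel
  have hcr' : ∀ (j : K.ι) (ε ε' : Bool),
      ¬ A.Rel (atp b true 0 (K.u j0 ε')) (atp b false 0 (K.u j ε)) :=
    fun j ε ε' hrel => hcr j ε ε' hrel.symm
  -- one index is `(true, j0, ε)`
  have hmain : ∀ (ε : Bool) (i : Bool × K.ι × Bool), (true, j0, ε) ≠ i →
      (¬ A.Rel (x (true, j0, ε)) (x i) ∧ ¬ A.Rel (x i) (x (true, j0, ε))) ∧
        (¬ A.Rel (y (true, j0, ε)) (y i) ∧ ¬ A.Rel (y i) (y (true, j0, ε))) := by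
    rintro ε ⟨h, j, ε'⟩ hne
    rw [hy1]
    cases h with
    | false =>
      rw [hy0 false j ε' (by simp)]
      exact ⟨⟨hcr' j ε' ε, hcr j ε' ε⟩, ⟨hcr' j ε' (!ε), hcr j ε' (!ε)⟩⟩
    | true =>
      have hne' : (j0, ε) ≠ (j, ε') := fun he => hne (by rw [he])
      refine ⟨⟨K.u_nt j0 ε j ε' hne' true true, K.u_nt j ε' j0 ε hne'.symm true true⟩, ?_⟩
      by_cases hj : j = j0
      · subst hj
        rw [hy1]
        have h2 : (j, !ε) ≠ (j, !ε') := fun he => hne' (by simpa using he)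
        exact ⟨K.u_nt j (!ε) j (!ε') h2 true true, K.u_nt j (!ε') j (!ε) h2.symm true true⟩
      · rw [hy0 true j ε' (fun h => hj h.2)]
        have h2 : (j0, !ε) ≠ (j, ε') := fun he => hj (Prod.mk.inj he).1.symm
        exact ⟨K.u_nt j0 (!ε) j ε' h2 true true, K.u_nt j ε' j0 (!ε) h2.symm true true⟩
  obtain ⟨f, hf, hfx⟩ := move_all hT x y
    (fun i => (R08a_uu hR hm1 K i.1 i.2.1 i.2.1 i.2.2 i.2.2).1)
    (fun i => (R08a_uu hR hm1 K i.1 i.2.1 i.2.1 i.2.2 _).2.1 (K.u_orb i.2.1 i.2.2 _))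
    (by
      rintro ⟨h, j, ε⟩ ⟨h', j', ε'⟩ hne
      by_cases h1 : h = true ∧ j = j0
      · obtain ⟨rfl, rfl⟩ := h1
        have := hmain ε (h', j', ε') hne
        exact Or.inl ⟨this.1.1, this.2.1⟩
      · by_cases h2 : h' = true ∧ j' = j0
        · obtain ⟨rfl, rfl⟩ := h2
          have := hmain ε' (h, j, ε) hne.symm
          exact Or.inl ⟨this.1.2, this.2.2⟩
        · right
          refine ⟨1, A.G.one_mem, ?_, ?_⟩
          · rw [hy0 h j ε h1]
            rfl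
          · rw [hy0 h' j' ε' h2]
            rfl)
  refine ⟨f, hf, fun j ε => ?_, fun j ε hj => ?_, fun ε => ?_⟩
  · exact (hfx (false, j, ε)).trans (hy0 false j ε (by simp))
  · exact (hfx (true, j, ε)).trans (hy0 true j ε (fun h => hj h.2))
  · exact (hfx (true, j0, ε)).trans (hy1 ε)

end Sys

end Pool.Agent.helper98.NIG
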