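import Pool.Agent.helper35.NIG.R08
import Pool.Agent.helper35.NIG.Q15
import Pool.Agent.helper35.NIG.Q18

/-!
# NIG-R09: the endgame: transitivity implies exponential growth

PROOFS.
* `gate_w`: `w` has a radius `r1`; `agree_gate` and `act_of_agree`: for `P ^ (L + 1) ∣ c`: `w (atp h c (v j ε)) = atp h c (u (ρ' (ty h c) j) ε)`.
* `partial_t` (`n ≤ p`): there is `t ∈ G` such that for every `c` with `P ^ (L + 2) ∣ c` there is `π : Bool → ι → ι` with `π h` injective,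
  `t (atp h c (u j ε)) = atp h (c + n P ^ (L + 1)) (u (π h j) ε)` and `π false = π true` unless some `c + i P ^ (L + 1) = 0`, `1 ≤ i ≤ n`. Induction on `n`: `n = 0`: `t = 1`.
  Step: `t' = w * T * t` with `T, σ` from `block` with `r = n`: `π' h = ρ' (ty h c') ∘ σ ∘ π h`, `c' = c + (n + 1) P ^ (L + 1)` (a multiple of `P ^ (L + 1)`); if `c' ≠ 0` then
  `ty h c' = τ c'` does not depend on `h` (`skel_ne`).
* `exists_t`: `n = p`: `p P ^ (L + 1) = P ^ (L + 2) =: Q`. If `Q ∣ c`, `c + Q ≠ 0` then `c + i P ^ (L + 1) ≠ 0` for `1 ≤ i ≤ p`: otherwise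
  `P ^ (L + 2) ∣ i P ^ (L + 1)`, so `p ∣ i`, `i = p`.
* `end_game`: `t` and for every `i : ℕ` the map `π_i := π` for `c = - (i + 1) Q`. `ι` is finite, so `π_i true` is surjective (`Finite.injective_iff_surjective`).
  Define `J : ℕ → ι`, `J 0 = j0`, `π_i true (J (i + 1)) = J i` (recursion with choice). Let
  `p true i ε = atp true (- i Q) (u (J i) ε)`, `p false (i + 1) ε = atp false (- (i + 1) Q) (u (J (i + 1)) ε)`,
  `p false 0 ε = atp false 0 (u (π_0 false (J 1)) ε)`, `lam i = (ty false (- (i + 1) Q)) && decide (J (i + 1) = j0)` (`classical`).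
  `ht`: for `h = true` clear; for `h = false`, `i = 0` clear; for `h = false`, `i ≥ 1`: `- (i + 1) Q + Q = - i Q ≠ 0`, so `π_i false = π_i true`.
  `hf`: at the gate `c = - (i + 1) Q ≠ 0` the type does not depend on `h`; `agree_gate`, `act_of_agree` (radius of `f`): `f` acts as on the singular line of
  type `ty h c`. `hf1`, `hf0`: `exists_f` (`atp` at `0`). `hne`: if `atp h c (u j true) = atp h c (u j false)` then the places are equal
  (`atp_inj`) and `Rel` is reflexive, against `u_nt`. Then `exp_of_tracks`.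
* `exp_of_tr`: constants: `R` from `A.BC`, `D0` from `rel_twin_far`, `m1 = max D0 (R + ρ + 1)`; `exists_visible` with `δ = 1`, `N = m1`; `exists_tokens`; `exists_Dat`;
  `exists_w`, `exists_f`; `r1` a common radius of `w` and `f`; `exists_big`; `end_game`.
* `exp_all_reduced`: `exp_of_reduced` (Q18) with `hend`: `tr_all` and `exp_of_tr`.
-/

namespace Pool.Agent.helper98.NIG

variable {b : Base} {F : Type}

namespace Sys

theorem gate_w {A : Sys b F} {m1 : ℕ} {K : A.Tk m1} {L B r0 : ℕ}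
    (hv : ∀ j ε, |(K.v j ε).1| ≤ B) (hL : (B : ℤ) + r0 < (b.p : ℤ) ^ L)
    {w : Equiv.Perm (Pt b F)} (hw : w ∈ A.G) (hw' : IsPW r0 w) {ρ' : Bool → K.ι → K.ι}
    (h : ∀ h j ε, w (atp b h 0 (K.v j ε)) = atp b h 0 (K.u (ρ' h j) ε)) {c : ℤ}
    (hc : (b.p : ℤ) ^ (L + 1) ∣ c) (h' : Bool) (j : K.ι) (ε : Bool) :
    w (atp b h' c (K.v j ε)) = atp b h' c (K.u (ρ' (ty b h' c) j) ε) := by
  refine act_of_agree hw' (A.G_le_PW hw) (agree_gate h' hc (K.v j ε) ?_) (h (ty b h' c) j ε)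
  exact lt_of_le_of_lt (by have := hv j ε; linarith) hL

theorem partial_t {A : Sys b F} {R m1 : ℕ} (hR : A.BCon R) (hm1 : R + A.ρ + 1 ≤ m1)
    {K : A.Tk m1} {Dt : A.Dat K} {L B r0 : ℕ} (hB : BigL Dt R L B r0)
    {w : Equiv.Perm (Pt b F)} (hw : w ∈ A.G) (hw' : IsPW r0 w) {ρ' : Bool → K.ι → K.ι}
    (hρ : ∀ h, Function.Injective (ρ' h))
    (h : ∀ h j ε, w (atp b h 0 (K.v j ε)) = atp b h 0 (K.u (ρ' h j) ε)) (n : ℕ) :
    ∃ t ∈ A.G, ∀ c : ℤ, (b.p : ℤ) ^ (L + 2) ∣ c → ∃ π : Bool → K.ι → K.ι,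
      (∀ h, Function.Injective (π h)) ∧
      (∀ h j ε, t (atp b h c (K.u j ε)) = atp b h (c + n * (b.p : ℤ) ^ (L + 1)) (K.u (π h j) ε)) ∧
      ((∀ i : ℕ, 1 ≤ i → i ≤ n → c + i * (b.p : ℤ) ^ (L + 1) ≠ 0) → π false = π true) := by
  have hL : (B : ℤ) + r0 < (b.p : ℤ) ^ L := by
    have h1 := hB.hL
    have h2 : (0 : ℤ) ≤ (Dt.m0 : ℤ) := Nat.cast_nonneg _
    have h3 : (0 : ℤ) ≤ ((A.ρ * Dt.M : ℕ) : ℤ) := Nat.cast_nonneg _
    have h4 : (0 : ℤ) ≤ ((A.ρ * Dt.N : ℕ) : ℤ) := Nat.cast_nonneg _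
    have h5 : (0 : ℤ) ≤ (R : ℤ) := Nat.cast_nonneg _
    have h6 : (0 : ℤ) ≤ (A.ρ : ℤ) := Nat.cast_nonneg _
    have h7 : (0 : ℤ) ≤ (m1 : ℤ) := Nat.cast_nonneg _
    linarith
  induction n with
  | zero =>
    refine ⟨1, A.G.one_mem, fun c _ => ⟨fun _ j => j, fun _ => Function.injective_id,
      fun h' j ε => ?_, fun _ => rfl⟩⟩
    rw [Equiv.Perm.one_apply, Nat.cast_zero, zero_mul, add_zero]
  | succ n ih =>
    obtain ⟨t, ht, htc⟩ := ih
    obtain ⟨T, hT, σ, hσ, hTc⟩ := block hR hm1 hB (n : ℤ)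
    refine ⟨w * T * t, A.G.mul_mem (A.G.mul_mem hw hT) ht, fun c hc => ?_⟩
    obtain ⟨π, h1, h2, h3⟩ := htc c hc
    have hc1 : (b.p : ℤ) ^ (L + 1) ∣ c := (pow_dvd_pow _ (by omega)).trans hc
    have hc' : (b.p : ℤ) ^ (L + 1) ∣ c + ((n : ℤ) + 1) * (b.p : ℤ) ^ (L + 1) :=
      dvd_add hc1 (dvd_mul_left _ _)
    refine ⟨fun h' j => ρ' (ty b h' (c + ((n : ℤ) + 1) * (b.p : ℤ) ^ (L + 1))) (σ (π h' j)),
      fun h' => (hρ _).comp (hσ.comp (h1 h')), fun h' j ε => ?_, fun hne => ?_⟩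
    · rw [Equiv.Perm.mul_apply, Equiv.Perm.mul_apply, h2 h' j ε, hTc c hc h' (π h' j) ε,
        gate_w hB.hv hL hw hw' h hc' h' (σ (π h' j)) ε]
      push_cast
      rfl
    · have h4 : π false = π true := h3 fun i hi hi' => hne i hi (by omega)
      have h5 : c + ((n : ℤ) + 1) * (b.p : ℤ) ^ (L + 1) ≠ 0 := by
        have := hne (n + 1) (by omega) le_rfl
        push_cast at this
        exact this
      funext j
      show ρ' (skel b false _) (σ (π false j)) = ρ' (skel b true _) (σ (π true j))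
      rw [skel_ne false h5, skel_ne true h5, h4]

theorem exists_t {A : Sys b F} {R m1 : ℕ} (hR : A.BCon R) (hm1 : R + A.ρ + 1 ≤ m1)
    {K : A.Tk m1} {Dt : A.Dat K} {L B r0 : ℕ} (hB : BigL Dt R L B r0)
    {w : Equiv.Perm (Pt b F)} (hw : w ∈ A.G) (hw' : IsPW r0 w) {ρ' : Bool → K.ι → K.ι}
    (hρ : ∀ h, Function.Injective (ρ' h))
    (h : ∀ h j ε, w (atp b h 0 (K.v j ε)) = atp b h 0 (K.u (ρ' h j) ε)) :
    ∃ t ∈ A.G, ∀ c : ℤ, (b.p : ℤ) ^ (L + 2) ∣ c → ∃ π : Bool → K.ι → K.ι,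
      (∀ h, Function.Injective (π h)) ∧
      (∀ h j ε, t (atp b h c (K.u j ε)) = atp b h (c + (b.p : ℤ) ^ (L + 2)) (K.u (π h j) ε)) ∧
      (c + (b.p : ℤ) ^ (L + 2) ≠ 0 → π false = π true) := by
  obtain ⟨t, ht, htc⟩ := partial_t hR hm1 hB hw hw' hρ h b.p
  refine ⟨t, ht, fun c hc => ?_⟩
  obtain ⟨π, h1, h2, h3⟩ := htc c hc
  have hp : (0 : ℤ) < (b.p : ℤ) := by have := b.two_le; exact_mod_cast (by omega : 0 < b.p)
  have hP : (b.p : ℤ) * (b.p : ℤ) ^ (L + 1) = (b.p : ℤ) ^ (L + 2) := by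
    rw [← pow_succ']
  refine ⟨π, h1, fun h' j ε => ?_, fun hne => h3 fun i hi hi' h0 => ?_⟩
  · rw [h2 h' j ε, hP]
  · have h4 : (b.p : ℤ) ^ (L + 2) ∣ (i : ℤ) * (b.p : ℤ) ^ (L + 1) := by
      have h5 : (b.p : ℤ) ^ (L + 2) ∣ c + i * (b.p : ℤ) ^ (L + 1) := by
        rw [h0]; exact dvd_zero _
      exact (dvd_add_right hc).1 h5
    rw [← hP] at h4
    have h5 : (b.p : ℤ) ∣ (i : ℤ) := Int.dvd_of_mul_dvd_mul_right (pow_ne_zero _ hp.ne') h4
    have h6 : b.p ∣ i := Int.natCast_dvd_natCast.1 h5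
    have h7 : i = b.p := le_antisymm hi' (Nat.le_of_dvd (by omega) h6)
    rw [h7, hP] at h0
    exact hne h0

theorem end_game {A : Sys b F} {m1 : ℕ} {K : A.Tk m1} {L B r0 : ℕ}
    (hu : ∀ j ε, |(K.u j ε).1| ≤ B) (hL : (B : ℤ) + r0 < (b.p : ℤ) ^ L)
    {t : Equiv.Perm (Pt b F)} (ht : t ∈ A.G)
    (htc : ∀ c : ℤ, (b.p : ℤ) ^ (L + 2) ∣ c → ∃ π : Bool → K.ι → K.ι,
      (∀ h, Function.Injective (π h)) ∧
      (∀ h j ε, t (atp b h c (K.u j ε)) = atp b h (c + (b.p : ℤ) ^ (L + 2)) (K.u (π h j) ε)) ∧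
      (c + (b.p : ℤ) ^ (L + 2) ≠ 0 → π false = π true))
    {f : Equiv.Perm (Pt b F)} (hf : f ∈ A.G) (hf' : IsPW r0 f) {j0 : K.ι}
    (hf0 : ∀ j ε, f (atp b false 0 (K.u j ε)) = atp b false 0 (K.u j ε))
    (hf1 : ∀ j ε, j ≠ j0 → f (atp b true 0 (K.u j ε)) = atp b true 0 (K.u j ε))
    (hf2 : ∀ ε, f (atp b true 0 (K.u j0 ε)) = atp b true 0 (K.u j0 (!ε))) : ExpGrowth A.G := by
  classical
  obtain ⟨Q, hQ⟩ : ∃ Q : ℤ, Q = (b.p : ℤ) ^ (L + 2) := ⟨_, rfl⟩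
  have hP0 : (0 : ℤ) < b.p := by
    have := b.two_le
    exact_mod_cast (by omega : 0 < b.p)
  have hQ0 : 0 < Q := by rw [hQ]; exact pow_pos hP0 _
  obtain ⟨c, hc⟩ : ∃ c : ℕ → ℤ, ∀ i, c i = -(i : ℤ) * Q := ⟨_, fun _ => rfl⟩
  have hc0 : c 0 = 0 := by rw [hc]; simp
  have hcs : ∀ i, c (i + 1) + Q = c i := fun i => by rw [hc, hc]; push_cast; ring
  have hcn : ∀ i, c (i + 1) ≠ 0 := fun i => by
    rw [hc]
    push_cast
    have h1 : (0 : ℤ) < ((i : ℤ) + 1) * Q := mul_pos (by positivity) hQ0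
    intro h2
    rw [neg_mul] at h2
    linarith
  have hcd : ∀ i, (b.p : ℤ) ^ (L + 2) ∣ c i := fun i => by
    rw [hc, ← hQ]
    exact dvd_mul_left _ _
  choose π hπi hπt hπe using fun i : ℕ => htc (c (i + 1)) (hcd (i + 1))
  have hfin := K.fin
  have hsurj : ∀ i, Function.Surjective (π i true) := fun i =>
    Finite.injective_iff_surjective.1 (hπi i true)
  let J : ℕ → K.ι := fun n => Nat.rec j0 (fun i y => Function.surjInv (hsurj i) y) n
  have hJ0 : J 0 = j0 := rfl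
  have hJs : ∀ i, π i true (J (i + 1)) = J i := fun i => Function.surjInv_eq (hsurj i) (J i)
  let J' : Bool → ℕ → K.ι := fun h n => match h, n with
    | true, n => J n
    | false, 0 => π 0 false (J 1)
    | false, n + 1 => J (n + 1)
  have hJ's : ∀ h i, J' h (i + 1) = J (i + 1) := by
    intro h i
    cases h <;> rfl
  have hJ't : ∀ h i, π i h (J (i + 1)) = J' h i := by
    intro h i
    cases h with
    | true => exact hJs i
    | false =>
      cases i with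
      | zero => rfl
      | succ i =>
        change π (i + 1) false (J (i + 1 + 1)) = J (i + 1)
        rw [hπe (i + 1) ?_, hJs]
        rw [← hQ, hcs]
        exact hcn i
  refine exp_of_tracks A.G t f ht hf (fun h i ε => atp b h (c i) (K.u (J' h i) ε))
    (fun i => ty b false (c (i + 1)) && decide (J (i + 1) = j0)) ?_ ?_ ?_ ?_ ?_
  · intro h i ε
    beta_reduce
    rw [hJ's, hπt i h (J (i + 1)) ε, ← hQ, hcs, hJ't]
  · intro h i ε
    beta_reduce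
    rw [hJ's]
    have hty : ty b false (c (i + 1)) = ty b h (c (i + 1)) := by
      unfold ty
      rw [skel_ne _ (hcn i), skel_ne _ (hcn i)]
    rw [hty]
    have hag : ∀ ε, Agree r0 (atp b h (c (i + 1)) (K.u (J (i + 1)) ε))
        (atp b (ty b h (c (i + 1))) 0 (K.u (J (i + 1)) ε)) := by
      intro ε
      refine agree_gate (K := L) h ((pow_dvd_pow _ (by omega)).trans (hcd (i + 1))) _ ?_
      have h1 := hu (J (i + 1)) ε
      linarith
    refine act_of_agree hf' (A.G_le_PW hf) (hag ε) ?_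
    cases hh : ty b h (c (i + 1)) with
    | false =>
      rw [hf0, Bool.false_and, Bool.xor_false]
    | true =>
      by_cases hj : J (i + 1) = j0
      · rw [hj, hf2]
        simp
      · rw [hf1 _ _ hj]
        simp [hj]
  · intro ε
    change f (atp b true (c 0) (K.u j0 ε)) = atp b true (c 0) (K.u j0 (!ε))
    rw [hc0]
    exact hf2 ε
  · intro ε
    beta_reduce
    rw [hc0]
    exact hf0 _ ε
  · intro h i he
    obtain ⟨-, h1, h2⟩ := atp_inj he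
    have h3 : K.u (J' h i) true = K.u (J' h i) false := Prod.ext (by linarith) h2
    refine K.u_nt (J' h i) true (J' h i) false (by simp) true true ?_
    rw [h3]
    exact Rel.refl A _

theorem exp_of_tr [Finite F] {A : Sys b F} (hA : A.Reduced) (hT : ∀ k, A.Tr k) :
    ExpGrowth A.G := by
  obtain ⟨R, hR0⟩ := A.BC
  have hR : A.BCon R := hR0
  have hw : A.SYN (A.ρ + 1) := by
    intro x hx n
    obtain ⟨g, hg, h1, h2⟩ := A.syn hx n
    exact ⟨g, hg, h1, by push_cast; omega⟩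
  obtain ⟨D0, hD0⟩ := rel_twin_far hA hR hw
  obtain ⟨m1, hD1, hm1⟩ : ∃ m1 : ℕ, D0 ≤ m1 ∧ R + A.ρ + 1 ≤ m1 :=
    ⟨max D0 (R + A.ρ + 1), le_max_left _ _, le_max_right _ _⟩
  have hD2 : (D0 : ℤ) ≤ (m1 : ℤ) := by exact_mod_cast hD1
  have htw : ∀ (h : Bool) (n : ℤ) (φ : F), (m1 : ℤ) ≤ |n| →
      tw b h n φ ∈ A.D → tw b (!h) n φ ∈ A.D → A.Rel (tw b h n φ) (tw b (!h) n φ) →
      ∀ g ∈ A.G, ∀ (m : ℤ) (ψ : F), (m1 : ℤ) ≤ |m| → g (tw b h n φ) = tw b h m ψ →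
        g (tw b (!h) n φ) = tw b (!h) m ψ :=
    fun h n φ hn hx hx' hr g hg m ψ hm hgx =>
      hD0 h n φ (hD2.trans hn) hx hx' hr g hg m ψ (hD2.trans hm) hgx
  obtain ⟨n, φ, hn, hx, hx', hnr⟩ := exists_visible hA hR hw (δ := 1) (Or.inl rfl) m1
  obtain ⟨K, j0, hvis⟩ := exists_tokens hA hR hm1
    ⟨(n, φ), by simpa using hn, by simpa [atp] using hx, by simpa [atp] using hnr⟩
  obtain ⟨Dt⟩ := exists_Dat hA hT hR hm1 K
  obtain ⟨w, hw1, ρ', hρ', hwρ⟩ := exists_w hT hR hm1 K htw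
  obtain ⟨f, hf, hf0, hf1, hf2⟩ := exists_f hT hR hm1 K hvis
  obtain ⟨rw', hrw⟩ := A.G_le_PW hw1
  obtain ⟨rf, hrf⟩ := A.G_le_PW hf
  obtain ⟨L, B, r0, hr0, hB⟩ := exists_big Dt R (max rw' rf)
  have hw' : IsPW r0 w := hrw.1.mono ((le_max_left _ _).trans hr0)
  have hf' : IsPW r0 f := hrf.1.mono ((le_max_right _ _).trans hr0)
  obtain ⟨t, ht, htc⟩ := exists_t hR hm1 hB hw1 hw' hρ' hwρ
  have h2 : (B : ℤ) + r0 < (b.p : ℤ) ^ L := by
    have h3 := hB.hL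
    have h4 : (0 : ℤ) ≤ (Dt.m0 : ℤ) + (A.ρ * Dt.M : ℕ) + (A.ρ * Dt.N : ℕ) + R + 2 * A.ρ + m1 + 1 := by
      positivity
    linarith
  exact end_game hB.hu h2 ht htc hf hf' hf0 hf1 hf2

/-- P6 + P8: reduced systems have exponential growth, from `FREE2` (P5) and `Fr` (P7) -/
theorem exp_all_reduced [Finite F] (hfree : ∀ A : Sys b F, A.Reduced → A.FREE2)
    (hP7 : ∀ A : Sys b F, A.Reduced → ∀ m : ℕ, 1 ≤ m → A.Tr m → A.Fr m → A.Fr (m + 1)) (A : Sys b F)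
    (hA : A.Reduced) : ExpGrowth A.G :=
  exp_of_reduced hfree (fun A hA h2 hNB => exp_of_tr hA fun k =>
    tr_all hA h2 hNB (hP7 A hA) k) A hA

end Sys

end Pool.Agent.helper98.NIG
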