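import Pool.Agent.helper2.NIG.L19
import Pool.Agent.helper35.NIG.QDefs

/-!
# NIG-RDefs: definitions for the endgame (P8)

Places are pairs `q : ℤ × F`; `tq h q = tw b h q.1 q.2` is the point at the place `q` of the singular line of
type `h` (L19); `tq h (a +ᵥ q)` is written `tw b h (a + q.1) q.2 = at h a q`.

* `at h a q`: the point at the place `q` relative to the position `a` of the line of type `h`.
* `ty h c`: the type of the gate at the position `c` of the line of type `h`.
* `NT A q q'`: the points at the places `q`, `q'` of the two singular lines are not related.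
* `Tk A m1`: a system of tokens: for every strand `j` of the line `false` two right tokens `u j ε` and two left
  tokens `v j ε`, at distance at least `m1` from the hole.
-/

namespace Pool.Agent.helper98.NIG

variable {b : Base} {F : Type}

/-- the point at the place `q` relative to the position `a` of the singular line of type `h` -/
def atp (b : Base) {F : Type} (h : Bool) (a : ℤ) (q : ℤ × F) : Pt b F := tw b h (a + q.1) q.2

/-- the letter at the position `c` of the singular line of type `h` -/
def ty (b : Base) (h : Bool) (c : ℤ) : Bool := skel b h c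

namespace Sys

/-- the points at the places `q`, `q'` of the two singular lines are not related -/
def NT (A : Sys b F) (q q' : ℤ × F) : Prop :=
  ∀ h h' : Bool, ¬ A.Rel (atp b h 0 q) (atp b h' 0 q')

/-- A system of tokens. -/
structure Tk (A : Sys b F) (m1 : ℕ) where
  ι : Type
  fin : Finite ι
  u : ι → Bool → ℤ × F
  v : ι → Bool → ℤ × F
  u_pos : ∀ j ε, (m1 : ℤ) ≤ (u j ε).1
  v_neg : ∀ j ε, (v j ε).1 ≤ -(m1 : ℤ)
  u_mem : ∀ j ε, atp b false 0 (u j ε) ∈ A.D
  u_orb : ∀ j ε ε', atp b false 0 (u j ε') ∈ A.orb (atp b false 0 (u j ε))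
  v_orb : ∀ j ε ε', atp b false 0 (v j ε') ∈ A.orb (atp b false 0 (u j ε))
  u_sep : ∀ j j' ε ε', atp b false 0 (u j' ε') ∈ A.orb (atp b false 0 (u j ε)) → j = j'
  u_all : ∀ q : ℤ × F, atp b false 0 q ∈ A.D → ∃ j, atp b false 0 q ∈ A.orb (atp b false 0 (u j false))
  u_nt : ∀ j ε j' ε', (j, ε) ≠ (j', ε') → A.NT (u j ε) (u j' ε')
  v_nt : ∀ j ε j' ε', (j, ε) ≠ (j', ε') → A.NT (v j ε) (v j' ε')
  uv_nt : ∀ j ε j' ε', A.NT (u j ε) (v j' ε')

end Sys

end Pool.Agent.helper98.NIG
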