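import Pool.Agent.helper35.NIG.Q06

/-!
# NIG-V00: counting lemmas for small sets

**sml_bunion.** Induction on the finite set `W` (`Set.Finite.induction_on` or `Finset` induction),
`sml_union`, `sml_empty` (`0 ≤ ε`), and `sml_mono` at the end (`ncard W * ε ≤ k * ε`).

**sml_fibre.** Counting: `f` maps `Y` to `S'`, moves points by at most `c0` on their line, and two
points `p, p'` of the line with the same image are at distance at most `B0`.  For `u ≤ v` the set
`{q | u ≤ q.1 < v, (sh q.1 x.1, q.2) ∈ Y}` is mapped by `f` (in coordinates: `p = (sh q.1 x.1, q.2)`,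
`q' = (pos x (f p), (f p).2)`, `f p = (sh q'.1 x.1, q'.2)` by `eq_of_pos`) to
`{q' | u - c0 ≤ q'.1 < v + c0, (sh q'.1 x.1, q'.2) ∈ S'}`, and the fibres have
at most `(2 B0 + 1) |F|` elements (`|q.1 - q1.1| ≤ B0` for `q, q1` in a fibre). So the cardinality is
at most `(2 B0 + 1)|F| (ε (v - u + 2 c0) + C)` (`Finset.card_le_mul_card_image` or a set version;
the sets are finite by `sml_cnt_finite`).
-/

namespace Pool.Agent.helper98.NIG

variable {b : Base} {F : Type}

/-- a finite union of small sets is small -/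
theorem sml_bunion [Finite F] {x : Pt b F} {W : Set (Pt b F)} (hW : W.Finite) {k : ℕ}
    (hk : W.ncard ≤ k) {S : Pt b F → Set (Pt b F)} {ε : ℝ} (hε : 0 ≤ ε)
    (h : ∀ w ∈ W, Sml x (S w) ε) : Sml x (⋃ w ∈ W, S w) (k * ε) := by
  have key : Sml x (⋃ w ∈ W, S w) (W.ncard * ε) := by
    clear hk
    induction W, hW using Set.Finite.induction_on with
    | empty =>
      simp only [Set.mem_empty_iff_false, Set.iUnion_of_empty, Set.iUnion_empty]
      exact sml_empty x (by positivity)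
    | @insert a W ha hfin ih =>
      rw [Set.biUnion_insert, Set.ncard_insert_of_notMem ha hfin]
      have h1 := sml_union (h a (Set.mem_insert a W))
        (ih (fun w hw => h w (Set.mem_insert_of_mem a hw)))
      have h2 : ((W.ncard + 1 : ℕ) : ℝ) * ε = ε + W.ncard * ε := by push_cast; ring
      rw [h2]
      exact h1
  have h3 : (W.ncard : ℝ) * ε ≤ k * ε :=
    mul_le_mul_of_nonneg_right (by exact_mod_cast hk) hε
  exact sml_mono (Set.Subset.refl _) h3 key

theorem sml_fibre [Finite F] {x : Pt b F} {Y S' : Set (Pt b F)} {f : Pt b F → Pt b F}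
    {c0 B0 : ℕ} (hf : ∀ p ∈ Y, SameLine x p → f p ∈ S' ∧ SameLine p (f p) ∧
      |pos p (f p)| ≤ c0) (hfib : ∀ p ∈ Y, ∀ p' ∈ Y, SameLine x p → SameLine x p' →
      f p = f p' → |pos p p'| ≤ B0) {ε : ℝ} (hε : 0 ≤ ε) (h : Sml x S' ε) :
    Sml x Y (((2 * B0 + 1) * Nat.card F : ℕ) * ε) := by
  classical
  obtain ⟨C, hC⟩ := h
  set K : ℕ := (2 * B0 + 1) * Nat.card F with hK
  refine ⟨K * (ε * (2 * c0) + C), fun u v huv => ?_⟩
  have _ : Fintype F := Fintype.ofFinite F
  set A : Set (ℤ × F) := {q | u ≤ q.1 ∧ q.1 < v ∧ ((sh q.1 x.1, q.2) : Pt b F) ∈ Y} with hA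
  set B : Set (ℤ × F) := {q | u - c0 ≤ q.1 ∧ q.1 < v + c0 ∧
    ((sh q.1 x.1, q.2) : Pt b F) ∈ S'} with hB
  have hAf : A.Finite := sml_cnt_finite x Y u v
  have hBf : B.Finite := sml_cnt_finite x S' (u - c0) (v + c0)
  let pt : ℤ × F → Pt b F := fun q => (sh q.1 x.1, q.2)
  let φ : ℤ × F → ℤ × F := fun q => (pos x (f (pt q)), (f (pt q)).2)
  have hsl : ∀ q : ℤ × F, SameLine x (pt q) := fun q => ⟨q.1, rfl⟩
  have hps : ∀ q : ℤ × F, pos x (pt q) = q.1 := fun q => pos_sh x q.1 q.2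
  have hφ : ∀ q ∈ A, pt (φ q) = f (pt q) := by
    rintro q ⟨-, -, hq⟩
    obtain ⟨-, h2, -⟩ := hf (pt q) hq (hsl q)
    exact (eq_of_pos (sameLine_trans (hsl q) h2)).symm
  have hφB : ∀ q ∈ A, φ q ∈ B := by
    intro q hqA
    obtain ⟨h1, h2, hq⟩ := hqA
    obtain ⟨h3, h4, h5⟩ := hf (pt q) hq (hsl q)
    have h6 : pos x (f (pt q)) = q.1 + pos (pt q) (f (pt q)) := by
      rw [pos_add (hsl q) h4, hps]
    have h7 := abs_le.1 h5
    refine ⟨?_, ?_, ?_⟩
    · change u - c0 ≤ pos x (f (pt q))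
      rw [h6]; linarith [h7.1]
    · change pos x (f (pt q)) < v + c0
      rw [h6]; linarith [h7.2]
    · have := hφ q ⟨h1, h2, hq⟩
      change pt (φ q) ∈ S'
      rw [this]; exact h3
  have hcard : A.ncard ≤ K * B.ncard := by
    rw [Set.ncard_eq_toFinset_card A hAf, Set.ncard_eq_toFinset_card B hBf]
    refine (Finset.card_le_mul_card_image (f := φ) hAf.toFinset K ?_).trans
      (Nat.mul_le_mul_left _ (Finset.card_le_card ?_))
    · intro q1 hq1
      obtain ⟨q0, hq0, hq01⟩ := Finset.mem_image.1 hq1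
      have hq0A : q0 ∈ A := hAf.mem_toFinset.1 hq0
      have hsub : hAf.toFinset.filter (fun q => φ q = q1) ⊆
          (Finset.Icc (q0.1 - B0) (q0.1 + B0)) ×ˢ (Finset.univ : Finset F) := by
        intro q hq
        obtain ⟨hq2, hq3⟩ := Finset.mem_filter.1 hq
        have hqA : q ∈ A := hAf.mem_toFinset.1 hq2
        have he : f (pt q0) = f (pt q) := by
          rw [← hφ q0 hq0A, ← hφ q hqA, hq01, hq3]
        have hd := hfib (pt q0) hq0A.2.2 (pt q) hqA.2.2 (hsl q0) (hsl q) he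
        have hd2 : pos (pt q0) (pt q) = q.1 - q0.1 := by
          have := pos_add (hsl q0) (sameLine_trans (sameLine_symm (hsl q0)) (hsl q))
          rw [hps, hps] at this
          linarith
        rw [hd2, abs_le] at hd
        simp only [Finset.mem_product, Finset.mem_Icc, Finset.mem_univ, and_true]
        constructor <;> linarith [hd.1, hd.2]
      refine (Finset.card_le_card hsub).trans ?_
      rw [Finset.card_product, Int.card_Icc, Finset.card_univ, hK, Nat.card_eq_fintype_card]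
      refine Nat.mul_le_mul_right _ ?_
      have : q0.1 + (B0 : ℤ) + 1 - (q0.1 - B0) = ((2 * B0 + 1 : ℕ) : ℤ) := by push_cast; ring
      rw [this, Int.toNat_natCast]
    · intro q1 hq1
      obtain ⟨q0, hq0, rfl⟩ := Finset.mem_image.1 hq1
      exact hBf.mem_toFinset.2 (hφB q0 (hAf.mem_toFinset.1 hq0))
  have h1 := hC (u - c0) (v + c0) (by linarith [(Nat.cast_nonneg c0 : (0 : ℤ) ≤ c0)])
  have h2 : ((A.ncard : ℕ) : ℝ) ≤ (K : ℝ) * (B.ncard : ℝ) := by exact_mod_cast hcard
  have h3 : (K : ℝ) * (B.ncard : ℝ) ≤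
      (K : ℝ) * (ε * (((v + c0) - (u - c0) : ℤ) : ℝ) + C) :=
    mul_le_mul_of_nonneg_left h1 (Nat.cast_nonneg K)
  refine h2.trans (h3.trans (le_of_eq ?_))
  push_cast
  ring

end Pool.Agent.helper98.NIG
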