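import Pool.Agent.helper35.NIG.VDefs
import Pool.Agent.helper35.NIG.Q03
import Pool.Agent.helper35.NIG.Q04

/-!
# NIG-V01: unbounded orbits and the relation `Bd`

General tools.  All groups are subgroups of the group `PW` of piecewise shifts, so every single
element has a bounded displacement.

**unb_of_near.** Immediate from the definition of `Unb`: for `K : ℤ` use `Unb H y` at `K + C` (first
half) and at `K - C` (second half).

**unb_conj.** `unb_of_near` with `k' = g k g⁻¹`, `y' = g y`, `C = 2r` where `g` and `g⁻¹` have radius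
`r` (`g ∈ PW`): `disp (g k g⁻¹) (g y) = disp g (k y) + disp k y + disp g⁻¹ (g y)` (`disp_mul` twice,
and `g⁻¹ (g y) = y`), `abs_disp_le`.

**unb_index.** `H'` has finite index in `H`: there are finitely many `c₁,…,c_n ∈ H` with
`H = ⋃ cᵢ H'` (e.g. `Subgroup.relIndex ≠ 0` gives a finite quotient `H ⧸ H'.subgroupOf H`; take
representatives by `Quotient.out`).  For `k ∈ H` write `k = c k'`, `k' ∈ H'`:
`disp k y = disp c (k' y) + disp k' y`, and `|disp c _| ≤` the maximum of the radii of the `cᵢ`.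
So `unb_of_near`.

**unb_fg.** `Unb (closure T) y` with `T` finite, `T ⊆ A.Fix Z`: every `t ∈ T` lies in some
`A.Stb M_t Z` (`exists_Stb`); with `M = max M_t` one has `closure T ≤ A.Stb M Z` (`Stb_mono`), and
`unb_mono`.

**stb_fg.** `A.Stb M Z` is the closure of the finite set `{g | g ∈ A.W M ∧ ∀ z ∈ Z, g z = z}`
(`W_finite`), so it is a finitely generated group and all its generators have the radius
`A.ρ * M`.

**unb_fix_index.** (Stabilisers of points with finite orbits.)  `H ≤ PW` is finitely generated,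
`Unb H y`, and the orbit `{h x | h ∈ H}` is finite.  Then there is a finite set `T ⊆ H` of elements
which fix `x`, with `Unb (closure T) y`.  Proof: let `H' = {h ∈ H | h x = x}` (a subgroup:
`H ⊓ MulAction.stabilizer _ x`). It has finite index in `H`, because `h ↦ h x` separates the left
cosets of `H'` (use `relIndex_of_map` of Q04 with `ι` = the finite orbit). A subgroup of finite
index of a finitely generated group is finitely generated (Mathlib:
`Subgroup.fg_of_index_ne_zero`; pass to `H'.subgroupOf H`), and `unb_index` gives `Unb H' y`.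
-/

namespace Pool.Agent.helper98.NIG

variable {b : Base} {F : Type}

theorem unb_of_near {H H' : Subgroup (Equiv.Perm (Pt b F))} {y y' : Pt b F} {C : ℤ}
    (h : ∀ k ∈ H, ∃ k' ∈ H', |disp k' y' - disp k y| ≤ C) (hy : Unb H y) : Unb H' y' := by
  intro K
  refine ⟨?_, ?_⟩
  · obtain ⟨g, hg, h1⟩ := (hy (K + C)).1
    obtain ⟨k', hk', h2⟩ := h g hg
    have h3 := (abs_le.1 h2).1
    exact ⟨k', hk', by linarith⟩
  · obtain ⟨g, hg, h1⟩ := (hy (K - C)).2
    obtain ⟨k', hk', h2⟩ := h g hg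
    have h3 := (abs_le.1 h2).2
    exact ⟨k', hk', by linarith⟩

theorem unb_conj {H H' : Subgroup (Equiv.Perm (Pt b F))} (hH : H ≤ PW b F)
    {g : Equiv.Perm (Pt b F)} (hg : g ∈ PW b F) (h : ∀ k ∈ H, g * k * g⁻¹ ∈ H') {y : Pt b F}
    (hy : Unb H y) : Unb H' (g y) := by
  obtain ⟨ρ, h1, h2⟩ := id hg
  refine unb_of_near (C := ρ + ρ) (fun k hk => ⟨g * k * g⁻¹, h k hk, ?_⟩) hy
  have h3 : disp (g * k * g⁻¹) (g y) = disp g (k y) + disp k y + disp g⁻¹ (g y) := by
    rw [disp_mul (mul_mem hg (hH hk)) (inv_mem hg), disp_mul hg (hH hk)]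
    have : g⁻¹ (g y) = y := g.symm_apply_apply y
    rw [this]
  have h4 := abs_disp_le h1 (k y)
  have h5 : |disp g⁻¹ (g y)| ≤ ρ := abs_disp_le h2 (g y)
  rw [h3]
  have h6 : disp g (k y) + disp k y + disp g⁻¹ (g y) - disp k y
      = disp g (k y) + disp g⁻¹ (g y) := by ring
  rw [h6]
  exact (abs_add_le _ _).trans (by linarith)

theorem unb_index {H H' : Subgroup (Equiv.Perm (Pt b F))} (hH : H ≤ PW b F) (h : H' ≤ H)
    (hi : H'.relIndex H ≠ 0) {y : Pt b F} (hy : Unb H y) : Unb H' y := by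
  have hfin : Finite (H ⧸ H'.subgroupOf H) := Nat.finite_of_card_ne_zero hi
  have hr : ∀ q : H ⧸ H'.subgroupOf H, ∃ r : ℕ, PWr r ((q.out : H) : Equiv.Perm (Pt b F)) :=
    fun q => hH (q.out : H).2
  choose r hr using hr
  obtain ⟨C, hC⟩ := (Set.finite_range r).bddAbove
  refine unb_of_near (C := C) (fun k hk => ?_) hy
  let q : H ⧸ H'.subgroupOf H := QuotientGroup.mk ⟨k, hk⟩
  have h1 : ((q.out : H) : Equiv.Perm (Pt b F))⁻¹ * k ∈ H' := by
    have h2 : (QuotientGroup.mk (q.out : H) : H ⧸ H'.subgroupOf H) = QuotientGroup.mk ⟨k, hk⟩ :=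
      QuotientGroup.out_eq' q
    have h3 := QuotientGroup.eq.1 h2
    rw [Subgroup.mem_subgroupOf] at h3
    exact h3
  refine ⟨_, h1, ?_⟩
  have h4 : k = ((q.out : H) : Equiv.Perm (Pt b F))
      * (((q.out : H) : Equiv.Perm (Pt b F))⁻¹ * k) := by group
  have h5 := disp_mul (hH (q.out : H).2) (hH (h h1)) y
  rw [← h4] at h5
  rw [h5]
  have h6 := abs_disp_le (hr q).1 ((((q.out : H) : Equiv.Perm (Pt b F))⁻¹ * k) y)
  have h7 : ((r q : ℕ) : ℤ) ≤ C := by exact_mod_cast hC ⟨q, rfl⟩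
  rw [sub_add_cancel_right, abs_neg]
  exact h6.trans h7

theorem unb_fix_index {H : Subgroup (Equiv.Perm (Pt b F))} (hH : H ≤ PW b F) (hfg : H.FG)
    {x y : Pt b F} (hf : {a | ∃ h ∈ H, a = h x}.Finite) (hy : Unb H y) :
    ∃ T : Set (Equiv.Perm (Pt b F)), T.Finite ∧ (∀ t ∈ T, t ∈ H ∧ t x = x) ∧
      Unb (Subgroup.closure T) y := by
  classical
  have hle : H ⊓ MulAction.stabilizer (Equiv.Perm (Pt b F)) x ≤ H := inf_le_left
  have hfin : Finite {a // ∃ h ∈ H, a = h x} := hf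
  have hi : (H ⊓ MulAction.stabilizer (Equiv.Perm (Pt b F)) x).relIndex H ≠ 0 := by
    let c : Equiv.Perm (Pt b F) → {a // ∃ h ∈ H, a = h x} := fun g =>
      if hg : g ∈ H then ⟨g x, g, hg, rfl⟩ else ⟨x, 1, H.one_mem, rfl⟩
    refine (relIndex_of_map c fun g hg g' hg' hc => ?_).1
    have h1 : g x = g' x := by
      simp only [c, dif_pos hg, dif_pos hg'] at hc
      exact Subtype.mk.inj hc
    refine ⟨H.mul_mem (H.inv_mem hg) hg', ?_⟩
    show g⁻¹ (g' x) = x
    rw [← h1]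
    exact g.symm_apply_apply x
  have hfg' : Group.FG H := (Group.fg_iff_subgroup_fg H).2 hfg
  have hidx : ((H ⊓ MulAction.stabilizer (Equiv.Perm (Pt b F)) x).subgroupOf H).FiniteIndex := ⟨hi⟩
  have hK := (Group.fg_iff_subgroup_fg _).1 (Subgroup.fg_of_index_ne_zero
    ((H ⊓ MulAction.stabilizer (Equiv.Perm (Pt b F)) x).subgroupOf H))
  obtain ⟨S, hS⟩ := hK
  have hT : Subgroup.closure (H.subtype '' (S : Set H))
      = H ⊓ MulAction.stabilizer (Equiv.Perm (Pt b F)) x := by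
    rw [← MonoidHom.map_closure, hS, Subgroup.subgroupOf_map_subtype, inf_eq_left.2 hle]
  refine ⟨H.subtype '' (S : Set H), S.finite_toSet.image _, fun t ht => ?_, ?_⟩
  · have h1 : t ∈ H ⊓ MulAction.stabilizer (Equiv.Perm (Pt b F)) x := by
      rw [← hT]
      exact Subgroup.subset_closure ht
    exact ⟨h1.1, h1.2⟩
  · rw [hT]
    exact unb_index hH hle hi hy

namespace Sys

theorem stb_fg (A : Sys b F) (M : ℕ) (Z : Set (Pt b F)) : (A.Stb M Z).FG :=
  (Subgroup.fg_iff _).2 ⟨_, rfl, (A.W_finite M).subset fun _ hg => hg.1⟩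

theorem unb_fg {A : Sys b F} {Z : Set (Pt b F)} {T : Set (Equiv.Perm (Pt b F))} (hT : T.Finite)
    (h : ∀ t ∈ T, t ∈ A.Fix Z) {y : Pt b F} (hy : Unb (Subgroup.closure T) y) :
    ∃ M : ℕ, Unb (A.Stb M Z) y := by
  classical
  have h1 : ∀ t : Equiv.Perm (Pt b F), ∃ M : ℕ, t ∈ T → t ∈ A.Stb M Z := by
    intro t
    by_cases ht : t ∈ T
    · obtain ⟨M, -, hM⟩ := A.exists_Stb (h t ht)
      exact ⟨M, fun _ => hM⟩
    · exact ⟨0, fun h' => absurd h' ht⟩
  choose f hf using h1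
  refine ⟨hT.toFinset.sup f, unb_mono ?_ hy⟩
  refine (Subgroup.closure_le _).2 fun t ht => ?_
  exact A.Stb_mono (Finset.le_sup (hT.mem_toFinset.2 ht)) Z (hf t ht)

/-- conjugation of the groups `Stb` -/
theorem stb_conj {A : Sys b F} {M n : ℕ} {Z : Set (Pt b F)} {g : Equiv.Perm (Pt b F)}
    (hg : g ∈ A.W n) {k : Equiv.Perm (Pt b F)} (hk : k ∈ A.Stb M Z) :
    g * k * g⁻¹ ∈ A.Stb (n + M + n) (g '' Z) := by
  have key : A.Stb M Z ≤ (A.Stb (n + M + n) (g '' Z)).comap (MulAut.conj g).toMonoidHom := by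
    refine (Subgroup.closure_le _).2 ?_
    rintro k ⟨hk, hkZ⟩
    change g * k * g⁻¹ ∈ A.Stb (n + M + n) (g '' Z)
    refine A.mem_Stb (A.W_mul (A.W_mul hg hk) (A.W_inv hg)) ?_
    rintro _ ⟨z, hz, rfl⟩
    have e : g⁻¹ (g z) = z := g.symm_apply_apply z
    rw [Equiv.Perm.mul_apply, Equiv.Perm.mul_apply, e, hkZ z hz]
  exact key hk

/-- A finitely generated group of elements which fix `Z` and `x` and have an unbounded orbit at `y`
shows that `Bd Z x y` fails. -/
theorem not_bd {A : Sys b F} {Z : Set (Pt b F)} {x y : Pt b F} {T : Set (Equiv.Perm (Pt b F))}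
    (hT : T.Finite) (h : ∀ t ∈ T, t ∈ A.Fix (insert x Z)) (hy : Unb (Subgroup.closure T) y) :
    ¬ A.Bd Z x y := by
  intro hbd
  obtain ⟨M, hM⟩ := unb_fg hT h hy
  exact hbd M hM

/-- Conjugation: if `Unb (Stb M (insert (g x) (g '' Z))) (g y)` then conjugate by `g⁻¹`
(`stb_conj`, `unb_conj`; `g⁻¹ '' (insert (g x) (g '' Z)) = insert x Z`). -/
theorem Bd.map {A : Sys b F} {Z : Set (Pt b F)} {x y : Pt b F} (h : A.Bd Z x y)
    {g : Equiv.Perm (Pt b F)} (hg : g ∈ A.G) : A.Bd (g '' Z) (g x) (g y) := by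
  intro M hM
  obtain ⟨n, hn⟩ := A.exists_W (A.G.inv_mem hg)
  have e : ∀ z : Pt b F, g⁻¹ (g z) = z := fun z => g.symm_apply_apply z
  have hZ : (g⁻¹ : Equiv.Perm (Pt b F)) '' (insert (g x) (g '' Z)) = insert x Z := by
    rw [Set.image_insert_eq, e, Set.image_image]
    congr 1
    ext z
    simp only [e, Set.image_id']
  have hle : A.Stb M (insert (g x) (g '' Z)) ≤ PW b F := fun k hk =>
    A.G_le_PW (A.Stb_le_Fix M _ hk).1
  have h1 := unb_conj (H' := A.Stb (n + M + n) (insert x Z)) hle (A.G_le_PW (A.G.inv_mem hg))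
    (fun k hk => by
      have h2 := stb_conj hn hk
      rw [hZ] at h2
      exact h2) hM
  rw [e] at h1
  exact h _ h1

/-- For `g ∈ W n` use `g h g⁻¹` (`stb_conj`) with `h ∈ Stb M Z`, `Agree (k + A.ρ * n) (h x) (h x')`;
`g h g⁻¹ (g x) = g (h x)`, and `agree_map`. -/
theorem Asy.map {A : Sys b F} {Z : Set (Pt b F)} {x x' : Pt b F} (h : A.Asy Z x x')
    {g : Equiv.Perm (Pt b F)} (hg : g ∈ A.G) : A.Asy (g '' Z) (g x) (g x') := by
  obtain ⟨M, hM⟩ := h
  obtain ⟨n, hn⟩ := A.exists_W hg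
  have e : ∀ z : Pt b F, g⁻¹ (g z) = z := fun z => g.symm_apply_apply z
  refine ⟨n + M + n, fun k => ?_⟩
  obtain ⟨h', hh', hag⟩ := hM (A.ρ * n + k)
  refine ⟨g * h' * g⁻¹, stb_conj hn hh', ?_⟩
  rw [Equiv.Perm.mul_apply, Equiv.Perm.mul_apply, Equiv.Perm.mul_apply, Equiv.Perm.mul_apply, e, e]
  exact (A.agree_W hag hn).1

end Sys

end Pool.Agent.helper98.NIG
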