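import Pool.Agent.helper35.NIG.V01
import Pool.Agent.helper97.NIG.CaseT
import Pool.Agent.helper98.NIG.C02

/-!
# NIG-V02: systems of translation type

Let `B` be a system of translation type: `exists_period` gives `u0 > 0` such that `Uset x = ℤ u0`
for all `x ∈ B.D`.  `B.KG` (a subgroup of `B.G`, of finite index by `KG_finiteIndex`) consists of
elements `k` with `PRel x (k x)` for all `x ∈ B.D` (`KG_prel`).  For `x ∈ B.D` and `k ∈ B.KG` put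
`ψ_x(k) = B.dh x (k x)`.  By `exists_hom`, `ψ_x(k) = φ_x(k) u0` for a homomorphism
`φ_x : KG → ℤ`.

**psi_hom.** From `exists_hom`: `ψ_x(k k') = ψ_x(k) + ψ_x(k')`, `ψ_x(k ^ n) = n ψ_x(k)`, `n : ℤ`.

**psi_map.** `ψ_{k' x}(k) = ψ_x(k)` for `k, k' ∈ KG`: `ψ_{k'x}(k) = dh (k' x) (k k' x) =
dh x (k k' x) - dh x (k' x)` (`dh_add`, `k' x ∈ orb x`) `= ψ_x(k k') - ψ_x(k') = ψ_x(k)`.

**tt_unb.** `ψ_x(k) ≠ 0` implies `Unb (closure {k}) x`: `dh x (k^n x) = n ψ_x(k)` tends to `±∞` for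
`n → ±∞`; `dh x (g x) = hδ g x` (`dh_map`), `|hδ g x| ≤ N (|disp g x| + 1)` (`hδ_upper`) so
`|disp (k^n) x| → ∞`; if `disp g x ≥ 0` then `hδ g x ≥ c disp g x - C` (`hδ_lower`, `c > 0`), so
`hδ g x < -C` implies `disp g x < 0`; and with `g⁻¹` at `g x` (`hδ g⁻¹ (g x) = - hδ g x` by `hδ_mul`
and `disp_inv`), `hδ g x > C` implies `disp g x > 0`. So the displacement is unbounded in both
directions.

**tt_fix.** `ψ_x(k) = 0` implies `k^n x = x` for some `n > 0`: all points `k^n x`, `n ∈ ℕ`, are in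
`orb x` with `dh x (k^n x) = 0`, so `|pos x (k^n x)| ≤ K` (`pos_bound`); these are finitely many
points (`k^n x = (sh (pos x (k^n x)) x.1, _)`, `eq_of_pos`), so two of them coincide.

**tt_exists.** There is `k ∈ KG` with `ψ_x(k) ≠ 0`: otherwise `|pos x (k x)| ≤ K` for all `k ∈ KG`
(`pos_bound`); `KG` has finite index in `B.G`, so `Unb B.G x` (axioms `right`, `left` of `B`) would
give `Unb KG x` (`unb_index`, with the image of `KG` in the permutations,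
`B.KG.map B.G.subtype`), contradiction.

**tt_ker_of_bd.** `Bd ∅ x y` and `ψ_x(k) = 0` imply `ψ_y(k) = 0`: by `tt_fix` `k^n x = x`, `n > 0`;
if `ψ_y(k) ≠ 0` then `ψ_y(k^n) = n ψ_y(k) ≠ 0` and `tt_unb` gives `Unb (closure {k^n}) y`: this
contradicts `Bd ∅ x y` by `not_bd` (`T = {k^n}`, `insert x ∅`).

**tt_bd_of_ker.** Converse: assume `ψ_x(k) = 0 → ψ_y(k) = 0` for all `k ∈ KG`.  Let
`Γ = B.Stb M {x}` and assume `Unb Γ y`.  `Γ ≤ B.G` and `Γ ∩ KG` has finite index in `Γ`, so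
`unb_index` gives `Unb (Γ ⊓ KG) y`. For `k ∈ Γ ⊓ KG`: `k x = x` so `ψ_x(k) = dh x x = 0`
(`dh_self`), so `ψ_y(k) = 0` and `|disp k y| = |pos y (k y)| ≤ K` by `pos_bound`: contradiction.

**tt_ker_symm.** The kernels are equal: take `k1` with `ψ_y(k1) ≠ 0` (`tt_exists`); then
`ψ_x(k1) ≠ 0`.  Let `ψ_y(k) = 0`; let `a = φ_x(k)`, `b = φ_x(k1) ≠ 0` be the integers;
`φ_x(k^b k1^{-a}) = 0`, so `φ_y(k^b k1^{-a}) = b φ_y(k) - a φ_y(k1) = - a φ_y(k1) = 0`, so `a = 0`.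

**tt_asy.** If for all `n` there is `g ∈ B.G` with `Agree n (g x) (g x')` then
`ψ_x(k) = ψ_{x'}(k)` for all `k ∈ KG`.  Proof: `B.G = ⋃ cᵢ KG`, finitely many `cᵢ`, of radius at
most `r`. Given `ε > 0`, let `N1` be from `hδ_cont` for `k` and `ε`. Take `g` with
`Agree (r + N1) (g x) (g x')`, `g = cᵢ k'`, `k' ∈ KG`; then (`agree_map` with `cᵢ⁻¹`)
`Agree N1 (k' x) (k' x')`.  So `|hδ k (k' x) - hδ k (k' x')| < ε`, and `hδ k (k' x) =
dh (k' x) (k k' x) = ψ_{k' x}(k) = ψ_x(k)` (`dh_map`, `psi_map`), same for `x'`. So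
`|ψ_x(k) - ψ_{x'}(k)| < ε` for all `ε > 0`.

**tt_bd_trans, tt_bd_asy** are combinations: `Bd ∅ x y`, `Bd ∅ x y'` imply
`ker ψ_x = ker ψ_y`, `ker ψ_x ≤ ker ψ_{y'}`, so `ker ψ_y ≤ ker ψ_{y'}` and `tt_bd_of_ker`.
-/

namespace Pool.Agent.helper98.NIG

variable {b : Base} {F : Type} [Fintype F]

namespace Sys

variable {B : Sys b F}

theorem psi_hom {N : ℕ} (hN : B.BCN N) {u0 : ℝ} (hu0 : 0 < u0)
    (hU : ∀ x ∈ B.D, ∀ t, t ∈ B.Uset x ↔ ∃ n : ℤ, t = n * u0) {x : Pt b F} (hx : x ∈ B.D) :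
    (∀ k k' : B.KG, B.dh x ((k * k').1.1 x) = B.dh x (k.1.1 x) + B.dh x (k'.1.1 x)) ∧
      (∀ (k : B.KG) (n : ℤ), B.dh x ((k ^ n).1.1 x) = n * B.dh x (k.1.1 x)) ∧
      ∀ k : B.KG, ∃ n : ℤ, B.dh x (k.1.1 x) = n * u0 := by
  obtain ⟨φ, hφ⟩ := exists_hom hN hu0 hU ⟨x, hx⟩
  have hφ' : ∀ k : B.KG, B.dh x (k.1.1 x) = (Multiplicative.toAdd (φ k) : ℤ) * u0 := hφ
  refine ⟨fun k k' => ?_, fun k n => ?_, fun k => ⟨_, hφ' k⟩⟩
  · rw [hφ', hφ', hφ', map_mul, toAdd_mul]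
    push_cast
    ring
  · rw [hφ', hφ', map_zpow, toAdd_zpow, smul_eq_mul]
    push_cast
    ring

theorem psi_map {N : ℕ} (hN : B.BCN N) {u0 : ℝ} (hu0 : 0 < u0)
    (hU : ∀ x ∈ B.D, ∀ t, t ∈ B.Uset x ↔ ∃ n : ℤ, t = n * u0) {x : Pt b F} (hx : x ∈ B.D)
    (k k' : B.KG) : B.dh (k'.1.1 x) (k.1.1 (k'.1.1 x)) = B.dh x (k.1.1 x) := by
  have h1 : B.dh x (k.1.1 (k'.1.1 x)) =
      B.dh x (k'.1.1 x) + B.dh (k'.1.1 x) (k.1.1 (k'.1.1 x)) :=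
    dh_add (B.orb_map k'.1.2 (B.orb_self x))
  have h2 := (psi_hom hN hu0 hU hx).1 k k'
  have h3 : (k * k').1.1 x = k.1.1 (k'.1.1 x) := rfl
  rw [h3] at h2
  linarith

private theorem v02b_disp_neg {N : ℕ} (hN : B.BCN N) : ∃ C : ℝ, 0 < C ∧ ∀ x ∈ B.D, ∀ g ∈ B.G,
    B.hδ g x < -C → disp g x < 0 := by
  refine ⟨(2 + ((2 * B.ρ + 1) * Fintype.card F : ℕ) * Fintype.card B.S * N : ℝ), by positivity,
    fun x hx g hg h => ?_⟩
  by_contra hd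
  push Not at hd
  have h1 := hδ_lower hN hx hg hd
  have h2 : (0 : ℝ) ≤ 2 / (((2 * B.ρ + 1) * Fintype.card F : ℕ) * Fintype.card B.S
      * (2 * B.ρ + 1) : ℝ) * (disp g x : ℝ) := by
    apply mul_nonneg
    · positivity
    · exact_mod_cast hd
  linarith

omit [Fintype F] in
private theorem v02b_hδ_inv {g : Equiv.Perm (Pt b F)} (hg : g ∈ B.G) (x : Pt b F) :
    B.hδ g⁻¹ (g x) = - B.hδ g x := by
  have h1 := hδ_mul (A := B) (g := g⁻¹) hg x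
  rw [inv_mul_cancel] at h1
  have h2 : B.hδ 1 x = 0 := by
    unfold hδ
    simp
  linarith

theorem tt_unb {N : ℕ} (hN : B.BCN N) {u0 : ℝ} (hu0 : 0 < u0)
    (hU : ∀ x ∈ B.D, ∀ t, t ∈ B.Uset x ↔ ∃ n : ℤ, t = n * u0) {x : Pt b F} (hx : x ∈ B.D)
    {k : B.KG} (hk : B.dh x (k.1.1 x) ≠ 0) : Unb (Subgroup.closure {k.1.1}) x := by
  obtain ⟨C, hC, hneg⟩ := v02b_disp_neg hN
  have hpos : ∀ g ∈ B.G, C < B.hδ g x → 0 < disp g x := by
    intro g hg h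
    have h1 := hneg (g x) ((B.map_mem_iff hg).2 hx) g⁻¹ (B.G.inv_mem hg)
      (by rw [v02b_hδ_inv hg]; linarith)
    rw [disp_inv (B.G_le_PW hg)] at h1
    linarith
  have hpow : ∀ n : ℤ, B.hδ (k.1.1 ^ n) x = n * B.dh x (k.1.1 x) := by
    intro n
    have h1 := (psi_hom hN hu0 hU hx).2.1 k n
    rw [Subgroup.coe_zpow, Subgroup.coe_zpow, dh_map] at h1
    exact h1
  have hmem : ∀ n : ℤ, k.1.1 ^ n ∈ B.G := fun n => B.G.zpow_mem k.1.2 n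
  have hcl : ∀ n : ℤ, k.1.1 ^ n ∈ Subgroup.closure ({k.1.1} : Set (Equiv.Perm (Pt b F))) :=
    fun n => Subgroup.zpow_mem _ (Subgroup.subset_closure (Set.mem_singleton _)) n
  set a : ℝ := B.dh x (k.1.1 x) with ha
  -- integers with large multiples
  have hbig : ∀ t : ℝ, ∃ n : ℤ, t < n * a := by
    intro t
    rcases lt_or_gt_of_ne hk with h | h
    · obtain ⟨n, hn⟩ := exists_int_gt (t / (-a))
      refine ⟨-n, ?_⟩
      rw [div_lt_iff₀ (by linarith)] at hn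
      push_cast
      linarith
    · obtain ⟨n, hn⟩ := exists_int_gt (t / a)
      refine ⟨n, ?_⟩
      rwa [div_lt_iff₀ h] at hn
  have habs : ∀ (g : Equiv.Perm (Pt b F)) (K : ℤ), g ∈ B.G →
      (N : ℝ) * (|K| + 1 : ℤ) < |B.hδ g x| → |K| < |disp g x| := by
    intro g K hg h
    by_contra hle
    push Not at hle
    have h1 := hδ_upper hN hx hg
    have h2 : ((|disp g x| + 1 : ℤ) : ℝ) ≤ ((|K| + 1 : ℤ) : ℝ) := by exact_mod_cast by omega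
    have h3 : (N : ℝ) * ((|disp g x| + 1 : ℤ) : ℝ) ≤ (N : ℝ) * ((|K| + 1 : ℤ) : ℝ) :=
      mul_le_mul_of_nonneg_left h2 (Nat.cast_nonneg N)
    linarith
  intro K
  constructor
  · obtain ⟨n, hn⟩ := hbig (max C ((N : ℝ) * (|K| + 1 : ℤ)))
    rw [← hpow] at hn
    refine ⟨_, hcl n, ?_⟩
    have h1 := hpos _ (hmem n) (lt_of_le_of_lt (le_max_left _ _) hn)
    have h2 := habs _ K (hmem n) (lt_of_lt_of_le (lt_of_le_of_lt (le_max_right _ _) hn)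
      (le_abs_self _))
    rw [abs_of_pos h1] at h2
    exact lt_of_le_of_lt (le_abs_self K) h2
  · obtain ⟨n, hn⟩ := hbig (max C ((N : ℝ) * (|K| + 1 : ℤ)))
    have h0 : B.hδ (k.1.1 ^ (-n)) x = - B.hδ (k.1.1 ^ n) x := by
      rw [hpow, hpow]
      push_cast
      ring
    rw [← hpow] at hn
    refine ⟨_, hcl (-n), ?_⟩
    have h1 := hneg x hx _ (hmem (-n)) (by
      rw [h0]
      exact neg_lt_neg (lt_of_le_of_lt (le_max_left _ _) hn))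
    have h2 := habs _ K (hmem (-n)) (by
      rw [h0, abs_neg]
      exact lt_of_lt_of_le (lt_of_le_of_lt (le_max_right _ _) hn) (le_abs_self _))
    rw [abs_of_neg h1] at h2
    have h3 := neg_abs_le K
    linarith

theorem tt_fix {N : ℕ} (hN : B.BCN N) {u0 : ℝ} (hu0 : 0 < u0)
    (hU : ∀ x ∈ B.D, ∀ t, t ∈ B.Uset x ↔ ∃ n : ℤ, t = n * u0) {x : Pt b F} (hx : x ∈ B.D)
    {k : B.KG} (hk : B.dh x (k.1.1 x) = 0) : ∃ n : ℕ, 0 < n ∧ (k ^ n).1.1 x = x := by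
  classical
  obtain ⟨K, hK⟩ := pos_bound hN
  have hmem : ∀ n : ℕ, (k ^ n).1.1 ∈ B.G := fun n => (k ^ n).1.2
  have horb : ∀ n : ℕ, (k ^ n).1.1 x ∈ B.orb x := fun n => ⟨_, hmem n, rfl⟩
  have hzero : ∀ n : ℕ, B.dh x ((k ^ n).1.1 x) = 0 := by
    intro n
    have h1 := (psi_hom hN hu0 hU hx).2.1 k (n : ℤ)
    rw [hk, mul_zero, zpow_natCast] at h1
    exact h1
  have hpb : ∀ n : ℕ, |pos x ((k ^ n).1.1 x)| ≤ (K : ℤ) := by
    intro n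
    have h1 := hK x hx _ (horb n)
    rw [hzero n, abs_zero, zero_add, mul_one] at h1
    exact_mod_cast h1
  -- pigeonhole
  let f : ℕ → ℤ × F := fun n => (pos x ((k ^ n).1.1 x), ((k ^ n).1.1 x).2)
  have hfin : (Set.range f).Finite := by
    apply ((Set.finite_Icc (-(K : ℤ)) (K : ℤ)).prod (Set.finite_univ (α := F))).subset
    rintro _ ⟨n, rfl⟩
    exact ⟨abs_le.1 (hpb n), Set.mem_univ _⟩
  obtain ⟨n, m, hnm, hf⟩ : ∃ n m : ℕ, n < m ∧ f n = f m := by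
    by_contra hno
    push Not at hno
    have hinj : Function.Injective f := by
      intro n m h
      rcases lt_trichotomy n m with h1 | h1 | h1
      · exact absurd h (hno n m h1)
      · exact h1
      · exact absurd h.symm (hno m n h1)
    exact Set.infinite_range_of_injective hinj hfin
  have hsl : ∀ n : ℕ, SameLine x ((k ^ n).1.1 x) := fun n =>
    sameLine_of_mem_PW (B.G_le_PW (hmem n)) x
  have heq : (k ^ n).1.1 x = (k ^ m).1.1 x := by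
    rw [eq_of_pos (hsl n), eq_of_pos (hsl m)]
    have h1 : (f n).1 = (f m).1 := by rw [hf]
    have h2 : (f n).2 = (f m).2 := by rw [hf]
    have h1' : pos x ((k ^ n).1.1 x) = pos x ((k ^ m).1.1 x) := h1
    have h2' : ((k ^ n).1.1 x).2 = ((k ^ m).1.1 x).2 := h2
    rw [h1', h2']
  refine ⟨m - n, Nat.sub_pos_of_lt hnm, ?_⟩
  apply (k ^ n).1.1.injective
  have h3 : (k ^ n) * (k ^ (m - n)) = k ^ m := by
    rw [← pow_add, Nat.add_sub_of_le hnm.le]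
  have h4 : (k ^ n).1.1 ((k ^ (m - n)).1.1 x) = (k ^ m).1.1 x := by
    rw [← h3]
    rfl
  rw [h4, heq]

/-- the group `KG` as a group of permutations -/
def KP (B : Sys b F) : Subgroup (Equiv.Perm (Pt b F)) := B.KG.map B.G.subtype

omit [Fintype F] in
theorem mem_KP {g : Equiv.Perm (Pt b F)} : g ∈ B.KP ↔ ∃ k : B.KG, k.1.1 = g := by
  unfold KP
  rw [Subgroup.mem_map]
  constructor
  · rintro ⟨k, hk, rfl⟩
    exact ⟨⟨k, hk⟩, rfl⟩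
  · rintro ⟨k, rfl⟩
    exact ⟨k.1, k.2, rfl⟩

omit [Fintype F] in
theorem KP_le : B.KP ≤ B.G := by
  intro g hg
  obtain ⟨k, rfl⟩ := mem_KP.1 hg
  exact k.1.2

theorem KP_index {N : ℕ} (hN : B.BCN N) {u0 : ℝ} (hu0 : 0 < u0)
    (hU : ∀ x ∈ B.D, ∀ t, t ∈ B.Uset x ↔ ∃ n : ℤ, t = n * u0) : B.KP.relIndex B.G ≠ 0 := by
  have h1 : B.KP.subgroupOf B.G = B.KG := by
    ext g
    rw [Subgroup.mem_subgroupOf, mem_KP]
    constructor
    · rintro ⟨k, hk⟩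
      have h2 : k.1 = g := Subtype.ext hk
      rw [← h2]
      exact k.2
    · intro hg
      exact ⟨⟨g, hg⟩, rfl⟩
  have h2 : B.KG.FiniteIndex := KG_finiteIndex hN hu0 hU
  unfold Subgroup.relIndex
  rw [h1]
  exact h2.index_ne_zero

theorem tt_exists {N : ℕ} (hN : B.BCN N) {u0 : ℝ} (hu0 : 0 < u0)
    (hU : ∀ x ∈ B.D, ∀ t, t ∈ B.Uset x ↔ ∃ n : ℤ, t = n * u0) {x : Pt b F} (hx : x ∈ B.D) :
    ∃ k : B.KG, B.dh x (k.1.1 x) ≠ 0 := by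
  by_contra hcon
  push Not at hcon
  obtain ⟨K, hK⟩ := pos_bound hN
  have h1 : Unb B.G x := fun M => ⟨B.right x hx M, B.left x hx M⟩
  have h2 : Unb B.KP x := unb_index B.G_le_PW KP_le (KP_index hN hu0 hU) h1
  obtain ⟨⟨g, hg, h3⟩, -⟩ := h2 K
  obtain ⟨k, rfl⟩ := mem_KP.1 hg
  have h4 := hK x hx (k.1.1 x) ⟨k.1.1, k.1.2, rfl⟩
  rw [hcon k, abs_zero, zero_add, mul_one] at h4
  have h5 : ((K : ℤ) : ℝ) < ((pos x (k.1.1 x) : ℤ) : ℝ) := by exact_mod_cast h3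
  have h6 := (le_abs_self _).trans h4
  push_cast at h5
  linarith

theorem tt_ker_of_bd {N : ℕ} (hN : B.BCN N) {u0 : ℝ} (hu0 : 0 < u0)
    (hU : ∀ x ∈ B.D, ∀ t, t ∈ B.Uset x ↔ ∃ n : ℤ, t = n * u0) {x y : Pt b F} (hx : x ∈ B.D)
    (hy : y ∈ B.D) (hb : B.Bd ∅ x y) (k : B.KG) (hk : B.dh x (k.1.1 x) = 0) :
    B.dh y (k.1.1 y) = 0 := by
  by_contra hne
  obtain ⟨n, hn, hfix⟩ := tt_fix hN hu0 hU hx hk
  have hyn : B.dh y ((k ^ n).1.1 y) ≠ 0 := by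
    have h1 := (psi_hom hN hu0 hU hy).2.1 k (n : ℤ)
    rw [zpow_natCast] at h1
    rw [h1]
    refine mul_ne_zero ?_ hne
    have : (n : ℤ) ≠ 0 := by exact_mod_cast hn.ne'
    exact_mod_cast this
  have hunb := tt_unb hN hu0 hU hy hyn
  refine not_bd (T := {(k ^ n).1.1}) (Set.finite_singleton _) ?_ hunb hb
  intro t ht
  rw [Set.mem_singleton_iff] at ht
  rw [ht]
  refine ⟨(k ^ n).1.2, fun z hz => ?_⟩
  rcases hz with rfl | hz
  · exact hfix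
  · exact hz.elim

theorem tt_bd_of_ker {N : ℕ} (hN : B.BCN N) {u0 : ℝ} (hu0 : 0 < u0)
    (hU : ∀ x ∈ B.D, ∀ t, t ∈ B.Uset x ↔ ∃ n : ℤ, t = n * u0) {x y : Pt b F} (hx : x ∈ B.D)
    (hy : y ∈ B.D) (h : ∀ k : B.KG, B.dh x (k.1.1 x) = 0 → B.dh y (k.1.1 y) = 0) :
    B.Bd ∅ x y := by
  intro M hM
  obtain ⟨K, hK⟩ := pos_bound hN
  have hle : B.Stb M (insert x ∅) ≤ B.G := fun g hg => (Stb_le_Fix B M _ hg).1
  have h1 : (B.Stb M (insert x ∅) ⊓ B.KP).relIndex (B.Stb M (insert x ∅)) ≠ 0 := by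
    rw [Subgroup.inf_relIndex_left]
    exact fun h0 => KP_index hN hu0 hU (Subgroup.relIndex_eq_zero_of_le_right hle h0)
  have h2 := unb_index (hle.trans B.G_le_PW) inf_le_left h1 hM
  obtain ⟨⟨g, hg, h3⟩, -⟩ := h2 K
  obtain ⟨hg1, hg2⟩ := Subgroup.mem_inf.1 hg
  obtain ⟨k, rfl⟩ := mem_KP.1 hg2
  have hfx : k.1.1 x = x := (Stb_le_Fix B M _ hg1).2 x (Set.mem_insert _ _)
  have h0 : B.dh x (k.1.1 x) = 0 := by rw [hfx, dh_self]
  have h4 := hK y hy (k.1.1 y) ⟨k.1.1, k.1.2, rfl⟩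
  rw [h k h0, abs_zero, zero_add, mul_one] at h4
  have h5 : ((K : ℤ) : ℝ) < ((pos y (k.1.1 y) : ℤ) : ℝ) := by exact_mod_cast h3
  have h6 := (le_abs_self _).trans h4
  push_cast at h5
  linarith

theorem tt_ker_symm {N : ℕ} (hN : B.BCN N) {u0 : ℝ} (hu0 : 0 < u0)
    (hU : ∀ x ∈ B.D, ∀ t, t ∈ B.Uset x ↔ ∃ n : ℤ, t = n * u0) {x y : Pt b F} (hx : x ∈ B.D)
    (hy : y ∈ B.D) (h : ∀ k : B.KG, B.dh x (k.1.1 x) = 0 → B.dh y (k.1.1 y) = 0) (k : B.KG)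
    (hk : B.dh y (k.1.1 y) = 0) : B.dh x (k.1.1 x) = 0 := by
  obtain ⟨k1, hk1⟩ := tt_exists hN hu0 hU hy
  have hk1x : B.dh x (k1.1.1 x) ≠ 0 := fun h0 => hk1 (h k1 h0)
  obtain ⟨hm, hz, hi⟩ := psi_hom hN hu0 hU hx
  obtain ⟨hm', hz', -⟩ := psi_hom hN hu0 hU hy
  obtain ⟨a, ha⟩ := hi k
  obtain ⟨c, hc⟩ := hi k1
  have h1 : B.dh x ((k ^ c * k1 ^ (-a)).1.1 x) = 0 := by
    rw [hm, hz, hz, ha, hc]
    push_cast
    ring
  have h2 := h _ h1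
  rw [hm', hz', hz', hk, mul_zero, zero_add] at h2
  rcases mul_eq_zero.1 h2 with h3 | h3
  · have h4 : a = 0 := by
      have h5 : (-a : ℤ) = 0 := by exact_mod_cast h3
      omega
    rw [ha, h4]
    simp
  · exact absurd h3 hk1

theorem tt_asy {N : ℕ} (hN : B.BCN N) {u0 : ℝ} (hu0 : 0 < u0)
    (hU : ∀ x ∈ B.D, ∀ t, t ∈ B.Uset x ↔ ∃ n : ℤ, t = n * u0) {x x' : Pt b F} (hx : x ∈ B.D)
    (hx' : x' ∈ B.D) (h : ∀ n : ℕ, ∃ g ∈ B.G, Agree n (g x) (g x')) (k : B.KG) :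
    B.dh x (k.1.1 x) = B.dh x' (k.1.1 x') := by
  classical
  have hFI : B.KG.FiniteIndex := KG_finiteIndex hN hu0 hU
  have hfin : Finite (B.G ⧸ B.KG) := Subgroup.finite_quotient_of_finiteIndex
  haveI := Fintype.ofFinite (B.G ⧸ B.KG)
  have hrad : ∀ q : B.G ⧸ B.KG, ∃ r : ℕ, IsPW r ((Quotient.out q : B.G)⁻¹ : B.G).1 := by
    intro q
    obtain ⟨r, hr, -⟩ := B.G_le_PW ((Quotient.out q : B.G)⁻¹ : B.G).2
    exact ⟨r, hr⟩
  choose r hr using hrad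
  by_contra hne
  have hε : 0 < |B.dh x (k.1.1 x) - B.dh x' (k.1.1 x')| := abs_pos.2 (sub_ne_zero.2 hne)
  obtain ⟨N1, hN1⟩ := hδ_cont hN k.1.2 hε
  obtain ⟨g, hg, hag⟩ := h (Finset.univ.sup r + N1)
  set q : B.G ⧸ B.KG := QuotientGroup.mk (⟨g, hg⟩ : B.G) with hq
  have hmem : (Quotient.out q : B.G)⁻¹ * (⟨g, hg⟩ : B.G) ∈ B.KG :=
    QuotientGroup.eq.1 (QuotientGroup.out_eq' q)
  have hr1 : IsPW (Finset.univ.sup r) ((Quotient.out q : B.G)⁻¹ : B.G).1 :=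
    (hr q).mono (Finset.le_sup (f := r) (Finset.mem_univ q))
  have hag1 : Agree N1 (((Quotient.out q : B.G)⁻¹ : B.G).1 (g x))
      (((Quotient.out q : B.G)⁻¹ : B.G).1 (g x')) := agree_map hr1 hag
  have hD : ∀ z ∈ B.D, ((Quotient.out q : B.G)⁻¹ : B.G).1 (g z) ∈ B.D := fun z hz =>
    B.map_mem ((Quotient.out q : B.G)⁻¹ : B.G).2 (B.map_mem hg hz)
  have h3 := hN1 _ (hD x hx) _ (hD x' hx') hag1
  have h4 := psi_map hN hu0 hU hx k ⟨_, hmem⟩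
  have h5 := psi_map hN hu0 hU hx' k ⟨_, hmem⟩
  have e : ∀ z, ((Quotient.out q : B.G)⁻¹ * (⟨g, hg⟩ : B.G) : B.G).1 z =
      ((Quotient.out q : B.G)⁻¹ : B.G).1 (g z) := fun z => rfl
  rw [dh_map] at h4 h5
  simp only [e] at h4 h5
  rw [h4, h5] at h3
  exact lt_irrefl _ h3

omit [Fintype F] in
theorem tt_bd_trans [Finite F] (hB : B.TT) {x y y' : Pt b F} (hx : x ∈ B.D) (hy : y ∈ B.D)
    (hy' : y' ∈ B.D) (h : B.Bd ∅ x y) (h' : B.Bd ∅ x y') : B.Bd ∅ y y' := by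
  haveI := Fintype.ofFinite F
  obtain ⟨N, hN⟩ := B.exists_BCN
  obtain ⟨u0, hu0, hU⟩ := exists_period hN hB
  refine tt_bd_of_ker hN hu0 hU hy hy' fun k hk => ?_
  exact tt_ker_of_bd hN hu0 hU hx hy' h' k
    (tt_ker_symm hN hu0 hU hx hy (tt_ker_of_bd hN hu0 hU hx hy h) k hk)

omit [Fintype F] in
theorem tt_bd_asy [Finite F] (hB : B.TT) {x x' : Pt b F} (hx : x ∈ B.D) (hx' : x' ∈ B.D)
    (h : ∀ n : ℕ, ∃ g ∈ B.G, Agree n (g x) (g x')) : B.Bd ∅ x x' := by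
  haveI := Fintype.ofFinite F
  obtain ⟨N, hN⟩ := B.exists_BCN
  obtain ⟨u0, hu0, hU⟩ := exists_period hN hB
  exact tt_bd_of_ker hN hu0 hU hx hx' fun k hk =>
    (tt_asy hN hu0 hU hx hx' h k).symm.trans hk

end Sys

end Pool.Agent.helper98.NIG
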