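import Pool.Agent.helper35.NIG.V01
import Pool.Agent.helper35.NIG.Q04
import Pool.Agent.helper97.NIG.Quot
import Pool.Agent.helper98.NIG.C02

/-!
# NIG-V03: systems which are not of translation type

Let `B` be a system which is not of translation type (`hz : ∀ x ∈ B.D, ∀ t ∈ B.Uset x, t = 0`).
`exists_B0` and `exists_R` give `h : B.QH B0 R`; `q = quot h` is a reduced system on `B.Dq ⊆ B.D`
with the group `q.G = (barHom h).range` (`quot_G`), `barHom h g x = B.pr (g x)` for `x ∈ B.Dq`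
(`barHom_apply`, `barFun_of_mem`).  Recall `B.PRel x (B.pr x)`, `|pos x (pr x)| ≤ B0`
(`QH.pr_spec`, `QH.pos_le`).

**bar_disp.** For `g : B.G`, `x ∈ B.D`: `|disp (barHom h g) (pr x) - disp g x| ≤ 3 B0`.  Proof:
`disp_bar` at `pr x ∈ Dq` gives `|disp (barHom h g) (pr x) - disp g (pr x)| ≤ B0`; and
`pos (g x) (g (pr x)) = pos x (pr x) + disp g (pr x) - disp g x` (`pos_map`), where both positions
are at most `B0` in absolute value (`QH.pos_le`; `PRel.map`, `map_mem`).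

**bar_fix.** If `barHom h g (pr x) = pr x` then `B.PRel x (g x)`: `pr (g (pr x)) = pr x`, so
`PRel (g (pr x)) (pr x)`; `PRel x (pr x)` gives `PRel (g x) (g (pr x))` and so
`PRel x (g x)` by symmetry and transitivity.

**drift_of_rel.** If `(quot h).Rel (pr x) (pr y)` then `rel_drift` for the reduced system
`q = quot h` (with `q.BC` and `q.exists_SYN`) gives `σ = ±1` and a constant `C` with
`|disp k (pr y) - σ disp k (pr x)| ≤ C` for `k ∈ q.G`; apply it to `k = barHom h g` and use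
`bar_disp` twice: `|disp g y - σ disp g x| ≤ C + 6 B0`.

**not_bd_of_not_rel.** If `¬ (quot h).Rel (pr x) (pr y)` and `q = quot h` has `FREE2` then
`¬ B.Bd ∅ x y`.  Proof: `rel_iff` gives `n` with `¬ q.E n (pr x) (pr y)`; `FREE2` gives `M` with
`Unb (q.Stb M {pr x}) (pr y)`. Let `T' = {k ∈ q.W M | k (pr x) = pr x}` (finite); choose for every
`k ∈ T'` a `g_k : B.G` with `barHom h g_k = k` (`quot_G`), let `Γ ≤ B.G` be the closure of the
finite set `{g_k}`. The group `{g : B.G | B.PRel x (g x)}` is a subgroup and contains all `g_k`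
(`bar_fix`), so `Γ x ⊆ B.cls x`, a finite set (`cls_finite`).  `q.Stb M {pr x} =
closure T' ≤` the image of `Γ` under `barHom h`, so by `bar_disp` and `unb_of_near` `Unb Γ y`.
`unb_fix_index` gives a finite set `T ⊆ Γ` of elements which fix `x` with `Unb (closure T) y`, and
`not_bd` (with `Fix (insert x ∅)`) gives `¬ Bd ∅ x y`.
-/

namespace Pool.Agent.helper98.NIG

variable {b : Base} {F : Type} [Fintype F]

namespace Sys

variable {B : Sys b F}

theorem bar_disp {B0 R : ℕ} (h : B.QH B0 R) (g : B.G) {x : Pt b F} (hx : x ∈ B.D) :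
    |disp (barHom h g) (B.pr x) - disp g.1 x| ≤ 3 * (B0 : ℤ) := by
  obtain ⟨h1, h2, -⟩ := h.pr_spec hx
  have h3 := disp_bar h g (h.pr_mem hx)
  have h4 := pos_map g.2 h2.1
  have h5 := h.pos_le hx h1 h2
  have h6 := h.pos_le (B.map_mem g.2 hx) (B.map_mem g.2 h1) (h2.map g.2)
  rw [abs_le] at h3 h5 h6 ⊢
  constructor <;> linarith [h3.1, h3.2, h5.1, h5.2, h6.1, h6.2]

theorem bar_fix {B0 R : ℕ} (h : B.QH B0 R) (g : B.G) {x : Pt b F} (hx : x ∈ B.D)
    (hg : barHom h g (B.pr x) = B.pr x) : B.PRel x (g.1 x) := by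
  obtain ⟨h1, h2, -⟩ := h.pr_spec hx
  rw [barHom_apply, barFun_of_mem (h.pr_mem hx)] at hg
  obtain ⟨-, h4, -⟩ := h.pr_spec (B.map_mem g.2 h1)
  rw [hg] at h4
  exact (h2.trans h4.symm).trans (h2.map g.2).symm

theorem drift_of_rel {B0 R : ℕ} (h : B.QH B0 R) {x y : Pt b F} (hx : x ∈ B.D) (hy : y ∈ B.D)
    (hr : (quot h).Rel (B.pr x) (B.pr y)) :
    ∃ (s : ℤ) (C : ℕ), (s = 1 ∨ s = -1) ∧ ∀ g ∈ B.G, |disp g y - s * disp g x| ≤ C := by
  obtain ⟨Rq, hRq⟩ := (quot h).BC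
  obtain ⟨C, hC⟩ := rel_drift (quot_reduced h) (R := Rq) hRq (quot h).exists_SYN
  obtain ⟨s, hs, hs2⟩ := hC _ (h.pr_mem hx) _ (h.pr_mem hy) hr
  refine ⟨s, C + 6 * B0, hs, fun g hg => ?_⟩
  have hk : barHom h ⟨g, hg⟩ ∈ (quot h).G := by
    rw [quot_G]
    exact ⟨⟨g, hg⟩, rfl⟩
  have h1 := hs2 _ hk
  have h2 := bar_disp h ⟨g, hg⟩ hx
  have h3 := bar_disp h ⟨g, hg⟩ hy
  rw [abs_le] at h1 h2 h3 ⊢
  push_cast
  rcases hs with rfl | rfl
  · constructor <;> linarith [h1.1, h1.2, h2.1, h2.2, h3.1, h3.2]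
  · constructor <;> linarith [h1.1, h1.2, h2.1, h2.2, h3.1, h3.2]

theorem not_bd_of_not_rel {N : ℕ} (hN : B.BCN N) (hz : ∀ x ∈ B.D, ∀ t ∈ B.Uset x, t = 0)
    {B0 R : ℕ} (h : B.QH B0 R) (hf : (quot h).FREE2) {x y : Pt b F} (hx : x ∈ B.D)
    (hy : y ∈ B.D) (hr : ¬ (quot h).Rel (B.pr x) (B.pr y)) : ¬ B.Bd ∅ x y := by
  classical
  rw [rel_iff] at hr
  push Not at hr
  obtain ⟨n, hn⟩ := hr
  obtain ⟨M, hM⟩ := hf n
  have hu : Unb ((quot h).Stb M {B.pr x}) (B.pr y) := hM _ (h.pr_mem hx) _ (h.pr_mem hy) hn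
  have hlift : ∀ k ∈ {k | k ∈ (quot h).W M ∧ ∀ z ∈ ({B.pr x} : Set (Pt b F)), k z = z},
      ∃ g : B.G, barHom h g = k := by
    intro k hk
    have h1 : k ∈ (quot h).G := (quot h).W_le_G hk.1
    rw [quot_G] at h1
    exact h1
  choose! f hf' using hlift
  have hT'f : {k | k ∈ (quot h).W M ∧ ∀ z ∈ ({B.pr x} : Set (Pt b F)), k z = z}.Finite :=
    ((quot h).W_finite M).subset fun k hk => hk.1
  have hcl : ∀ T' : Set (Equiv.Perm (Pt b F)),
      T' = {k | k ∈ (quot h).W M ∧ ∀ z ∈ ({B.pr x} : Set (Pt b F)), k z = z} →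
      ¬ B.Bd ∅ x y := by
    intro T' hT'
    rw [← hT'] at hf' hT'f
    have hu' : Unb (Subgroup.closure T') (B.pr y) := by
      rw [hT']
      exact hu
    -- the lifts fix the class of `x`
    have hfix : ∀ k ∈ T', B.PRel x ((f k).1 x) := by
      intro k hk
      refine bar_fix h (f k) hx ?_
      rw [hf' k hk]
      rw [hT'] at hk
      exact hk.2 _ rfl
    have hfG : ∀ t ∈ (fun k => (f k).1) '' T', t ∈ B.G ∧ B.PRel x (t x) := by
      rintro t ⟨k, hk, rfl⟩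
      exact ⟨(f k).2, hfix k hk⟩
    have hΓ : ∀ g ∈ Subgroup.closure ((fun k => (f k).1) '' T'),
        g ∈ B.G ∧ B.PRel x (g x) := by
      intro g hg
      induction hg using Subgroup.closure_induction with
      | mem t ht => exact hfG t ht
      | one => exact ⟨B.G.one_mem, PRel.refl B x⟩
      | mul g k _ _ ihg ihk =>
        exact ⟨B.G.mul_mem ihg.1 ihk.1, ihg.2.trans (ihk.2.map ihg.1)⟩
      | inv g _ ih =>
        refine ⟨B.G.inv_mem ih.1, ?_⟩
        have h1 := ih.2.map (B.G.inv_mem ih.1)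
        rw [pinv_apply] at h1
        exact h1.symm
    have hlift2 : ∀ k ∈ Subgroup.closure T', ∃ g : B.G,
        g.1 ∈ Subgroup.closure ((fun k => (f k).1) '' T') ∧ barHom h g = k := by
      intro k hk
      induction hk using Subgroup.closure_induction with
      | mem t ht => exact ⟨f t, Subgroup.subset_closure ⟨t, ht, rfl⟩, hf' t ht⟩
      | one => exact ⟨1, Subgroup.one_mem _, map_one _⟩
      | mul g k _ _ ihg ihk =>
        obtain ⟨g1, h1, h2⟩ := ihg
        obtain ⟨g2, h3, h4⟩ := ihk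
        exact ⟨g1 * g2, Subgroup.mul_mem _ h1 h3, by rw [map_mul, h2, h4]⟩
      | inv g _ ih =>
        obtain ⟨g1, h1, h2⟩ := ih
        exact ⟨g1⁻¹, Subgroup.inv_mem _ h1, by rw [map_inv, h2]⟩
    have hle : Subgroup.closure ((fun k => (f k).1) '' T') ≤ PW b F :=
      fun g hg => B.G_le_PW (hΓ g hg).1
    have hUy : Unb (Subgroup.closure ((fun k => (f k).1) '' T')) y := by
      refine unb_of_near (C := 3 * (B0 : ℤ)) (fun k hk => ?_) hu'
      obtain ⟨g, hg, rfl⟩ := hlift2 k hk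
      refine ⟨g.1, hg, ?_⟩
      rw [abs_sub_comm]
      exact bar_disp h g hy
    have hfg : (Subgroup.closure ((fun k => (f k).1) '' T')).FG :=
      (Subgroup.fg_iff _).2 ⟨_, rfl, hT'f.image _⟩
    have hfin : {a | ∃ g ∈ Subgroup.closure ((fun k => (f k).1) '' T'), a = g x}.Finite := by
      refine (cls_finite hN hz hx).subset ?_
      rintro a ⟨g, hg, rfl⟩
      exact ⟨B.map_mem (hΓ g hg).1 hx, (hΓ g hg).2⟩
    obtain ⟨T, hTf, hT, hTU⟩ := unb_fix_index hle hfg hfin hUy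
    refine not_bd hTf (fun t ht => ?_) hTU
    refine ⟨(hΓ t (hT t ht).1).1, ?_⟩
    rintro z (rfl | hz')
    · exact (hT t ht).2
    · exact absurd hz' (Set.notMem_empty z)
  exact hcl _ rfl

omit [Fintype F] in
theorem n_drift [Finite F] (hfree : ∀ A : Sys b F, A.Reduced → A.FREE2) {B : Sys b F}
    (hB : ¬ B.TT) {x y : Pt b F} (hx : x ∈ B.D) (hy : y ∈ B.D) (hb : B.Bd ∅ x y) :
    ∃ (s : ℤ) (C : ℕ), (s = 1 ∨ s = -1) ∧ ∀ g ∈ B.G, |disp g y - s * disp g x| ≤ C := by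
  haveI := Fintype.ofFinite F
  have hz : ∀ x ∈ B.D, ∀ t ∈ B.Uset x, t = 0 := by
    intro x hx t ht
    by_contra hne
    exact hB ⟨x, hx, t, ht, hne⟩
  obtain ⟨N, hN⟩ := B.exists_BCN
  obtain ⟨B0, hB0⟩ := exists_B0 hN hz
  obtain ⟨R, hR⟩ := exists_R (A := B) B0
  have h : B.QH B0 R := ⟨hB0, hR⟩
  by_cases hr : (quot h).Rel (B.pr x) (B.pr y)
  · exact drift_of_rel h hx hy hr
  · exact absurd hb (not_bd_of_not_rel hN hz h (hfree _ (quot_reduced h)) hx hy hr)

omit [Fintype F] in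
/-- In a system which is not of translation type, two points of a line which stay at a bounded
distance are at distance at most `B0` (`exists_B0`): `pos (g x) (g y) = pos x y + disp g y - disp g x`
(`pos_map`), so `B.PRel x y`, `y ∈ B.cls x = B.PB B0 x`, and `g = 1` in the definition of `PB`. -/
theorem n_near [Finite F] {B : Sys b F} (hB : ¬ B.TT) : ∃ B0 : ℕ, ∀ x ∈ B.D, ∀ y ∈ B.D,
    SameLine x y → (∃ C : ℤ, ∀ g ∈ B.G, |disp g y - disp g x| ≤ C) → |pos x y| ≤ B0 := by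
  haveI := Fintype.ofFinite F
  have hz : ∀ x ∈ B.D, ∀ t ∈ B.Uset x, t = 0 := by
    intro x hx t ht
    by_contra hne
    exact hB ⟨x, hx, t, ht, hne⟩
  obtain ⟨N, hN⟩ := B.exists_BCN
  obtain ⟨B0, hB0⟩ := exists_B0 hN hz
  refine ⟨B0, fun x hx y hy hl hC => ?_⟩
  obtain ⟨C, hC⟩ := hC
  have hrel : B.PRel x y := by
    refine ⟨hl, |pos x y| + C, fun g hg => ?_⟩
    rw [pos_map hg hl, add_sub_assoc]
    exact (abs_add_le _ _).trans (add_le_add le_rfl (hC g hg))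
  have h1 : y ∈ B.cls x := ⟨hy, hrel⟩
  rw [hB0 x hx] at h1
  exact h1.2.2 1 B.G.one_mem

end Sys

end Pool.Agent.helper98.NIG
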