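import Pool.Agent.helper35.NIG.V02
import Pool.Agent.helper35.NIG.V03
import Pool.Agent.helper35.NIG.Q14
import Pool.Agent.helper98.NIG.C07

/-!
# NIG-V04: the component systems of the groups `Stb M Z`

`Z` is a finite subset of `A.D` with at most `m` elements, and `A` satisfies `Tr m` and `Fr m`.

**sparse_unif** (the uniform version of `sparse_NE`, Q14; same proof).  `Q07.sparse` with
`W = (2m+1)(ρ+1)` gives `N` such that for every `z ∈ D` at most two points of `D` in a window of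
length `W` of a line are `E N`-related to `z`. `E_mono` gives the same for `N' ≥ N`.  In the window
`[n, n + (2m+1)(ρ+1)]` (relative to `y`) there are at least `2m+1` points of the orbit of `y`
(one in each `[n + i(ρ+1), n + i(ρ+1) + ρ]`, `i = 0, …, 2m`, `A.syn`); at most `2 · ncard Z ≤ 2m` of
them are `E N'`-related to a point of `Z`.

**exists_NE_pt.** Hence there is a point of `D` with `NE N' Z`.

**lt_far.** `Q14.lt` for `N' = max N N1` (`N1` from `sparse_unif`) and `d = 2(2m+1)(ρ+1)` gives `M`: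
points `p, g p` of `D` with `NE N' Z` and `|disp g p| ≤ d` are joined by an element of `W M` which
fixes `Z`, i.e. by an element of `Stb M Z` (`mem_Stb`).  Let `x`, `g x` be `NE N Z` (so `NE N' Z`,
`NE_mono`) and (say) `disp g x ≥ 0`. For `i = 0, 1, …` let `L = (2m+1)(ρ+1)` and `g_i ∈ G` with
`i L ≤ disp g_i x ≤ (i+1) L`, `NE N' Z (g_i x)`. Consecutive points among
`x, g_0 x, g_1 x, …, g_j x, g x` (`j = ⌊disp g x / L⌋`) have distance at most `2 L = d`. So they are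
joined by elements of `Stb M Z`; take the product.  (If `disp g x < 0` exchange the two points:
start at `g x`, with `g⁻¹`, and take the inverse at the end.)
An alternative for the induction: prove by induction on `j : ℕ` that for every `p ∈ D`, `NE N' Z p`,
`g ∈ G`, `NE N' Z (g p)`, `|disp g p| ≤ j L`: there is `h ∈ Stb M Z` with `h p = g p`.  (If
`|disp g p| > d` there is an intermediate point.)

**exists_cmp.** Let `N` be given; enlarge it so that there is a point `x0 ∈ D` with `NE N Z x0`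
(`exists_NE_pt`; `NE_mono`: the statement for a larger `N` is stronger).  `lt_far` gives `M2` for `N`.
`Fr m` and `NR_of_NE` give `M3` with `Unb (Stb M3 Z) x0`. Let `M ≥ max M2 M3`.  Let
`S = {g ∈ W M | g fixes Z pointwise}` (finite, contains `1`, closed under inverses, of radius
`A.ρ * M`): this is a `Gen` with group `Stb M Z`. `Gen.exists_psys` gives a `PSys` `P` with
`P.S = S`, `P.D = Gen.Dinf R1 ∋ x0` (as `Unb (Stb M Z) x0`). `PSys.exists_sys` gives a system `B`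
with `B.D = P.cmp x0` and a surjection `π : P.G → B.G` with `π g p = g p` for `p ∈ B.D`. This gives
`act` and `lift` (`P.G = Stb M Z`).  `B.D ⊆ A.D`: a point `a ∈ P.cmp x0` is a limit of points `g x0`,
`g ∈ Stb M Z ≤ A.G`; `A.D` is clopen.  If `a ∈ A.D` is `NE N Z` then `a ∈ P.cmp x0`: let `N''` be
given, w.l.o.g. `N'' ≥ A.ρ * N` and `N'' ≥ A.ρ`; `A.minimal` gives `g ∈ A.G` with
`Agree N'' (g x0) a`; so `NE N Z (g x0)` (`E_congr`), and `lt_far` gives `h ∈ Stb M2 Z ≤ Stb M Z`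
with `h x0 = g x0`. (It is allowed to use `CmpN` below as the name of this property.)

**cmp_NR.** `Cmp M Z B` and `p ∈ B.D` imply `NR Z p`: if `A.Rel z p`, `z ∈ Z`, then `Stb M Z`
fixes `z`, so it fixes `p`; by `lift` `B.G` fixes `p`: this contradicts `B.right` (`disp 1 = 0`).

**Cmp.disp.** For `g ∈ Stb M Z` the `g' ∈ B.G` with `g' p = g p` for `p ∈ B.D` has
`disp g' p = disp g p` (both are `pos p (g p)`).

**Cmp.bd.** (from `A` to the component.) Let `Bd Z x y` and assume `Unb (B.Stb M' {x}) y`.  For every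
`t'` in the finite set `T' = {t' ∈ B.W M' | t' x = x}` choose by `lift` some `t ∈ A.Stb M Z` with
`t p = t' p` on `B.D`; let `T` be the set of these `t`.  `t x = x`, so `T ⊆ A.Fix (insert x Z)`.
Every `γ' ∈ closure T'` has a `γ ∈ closure T` with `γ p = γ' p` on `B.D` (`Subgroup.closure_induction`;
for the inverse: `γ'⁻¹ p = q` with `q ∈ B.D` means `γ' q = p`, so `γ q = p`). So `unb_of_near` gives
`Unb (closure T) y` and `not_bd` a contradiction.

**bd_of_cmp.** (from the components to `A`.)  Assume `Unb (A.Stb M0 (insert x Z)) y`; let `M ≥ M0`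
and `B` with `Cmp M Z B`, `x, y ∈ B.D` and `B.Bd ∅ x y`.
`A.Stb M0 (insert x Z) ≤ A.Stb M Z` (`Stb_anti`, `Stb_mono`).  For every `t` in the finite set
`T = {t ∈ A.W M0 | t fixes insert x Z}` choose `t' ∈ B.G` by `act`; `t' x = x`. As before
`Unb (closure T') y`, so `not_bd` for `B` (`Fix (insert x ∅)`) gives a contradiction.

**P1_of_TTu, P2_of_TTu.** Given `x, y, y'` take `N` with `NE N Z` for all of them (`exists_NE`,
`Z` finite, `NE_mono`).  For every `M0` there are `M ≥ M0` and `B` with `Cmp M Z B`, `B.TT` and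
`x, y, y' ∈ B.D`.  `Cmp.bd`, `tt_bd_trans`, `bd_of_cmp` give `P1`. For `P2`: `Asy Z x x'` with the
constant `M'`; for `M ≥ max M0 M'` the elements `g ∈ Stb M' Z ≤ Stb M Z` with `Agree k (g x) (g x')`
act on `B.D` as elements of `B.G`, so `tt_bd_asy` gives `B.Bd ∅ x x'`, and `bd_of_cmp`.
(In `bd_of_cmp` the hypothesis is needed for arbitrarily large `M` only.)

**P1.map, P2.map.** `P1 Z → P1 (g '' Z)` for `g ∈ A.G`: apply `Bd.map` with `g⁻¹`
(`g⁻¹ '' (g '' Z) = Z`), `NR (g '' Z) x ↔ NR Z (g⁻¹ x)` (`rel_map_iff`), then `Bd.map` with `g`.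
-/

namespace Pool.Agent.helper98.NIG

variable {b : Base} {F : Type}

namespace Sys

theorem sparse_unif [Finite F] {A : Sys b F} (hA : A.Reduced) (m : ℕ) : ∃ N : ℕ, ∀ N' : ℕ,
    N ≤ N' → ∀ Z : Set (Pt b F), Z.Finite → Z ⊆ A.D → Z.ncard ≤ m → ∀ y ∈ A.D, ∀ n : ℤ,
      ∃ g ∈ A.G, n ≤ disp g y ∧ disp g y ≤ n + ((2 * m + 1) * (A.ρ + 1) : ℕ) ∧
        A.NE N' Z (g y) := by
  classical
  obtain ⟨N, hN⟩ := sparse hA ((2 * m + 1) * (A.ρ + 1))
  refine ⟨N, fun N' hNN Z hf hZ hc y hy n => ?_⟩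
  obtain ⟨Zf, rfl⟩ := hf.exists_finset_coe
  rw [Set.ncard_coe_finset] at hc
  -- the points in the windows
  have hsyn : ∀ i : ℕ, ∃ g ∈ A.G, n + i * (A.ρ + 1) ≤ disp g y ∧
      disp g y < n + (i + 1) * (A.ρ + 1) := by
    intro i
    obtain ⟨g, hg, h1, h2⟩ := exists_SYN A y hy (n + i * (A.ρ + 1))
    refine ⟨g, hg, h1, ?_⟩
    push_cast at h2
    linarith
  choose g hg h1 h2 using hsyn
  have hmono : ∀ i j : ℕ, i < j → disp (g i) y < disp (g j) y := by
    intro i j hij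
    have e1 := h2 i
    have e2 := h1 j
    have e3 : ((i : ℤ) + 1) * (A.ρ + 1) ≤ j * (A.ρ + 1) :=
      mul_le_mul_of_nonneg_right (by omega) (by omega)
    linarith
  have hinj : ∀ i j : ℕ, g i y = g j y → i = j := by
    intro i j hij
    have e : disp (g i) y = disp (g j) y := by rw [disp, disp, hij]
    rcases lt_trichotomy i j with h | h | h
    · exact absurd e (hmono i j h).ne
    · exact h
    · exact absurd e (hmono j i h).ne'
  have hdist : ∀ i j : ℕ, i ≤ 2 * m → j ≤ 2 * m →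
      |pos (g i y) (g j y)| ≤ ((2 * m + 1) * (A.ρ + 1) : ℕ) := by
    intro i j hi hj
    have hl := sameLine_of_mem_PW (A.G_le_PW (hg i)) y
    have hl' := sameLine_of_mem_PW (A.G_le_PW (hg j)) y
    have e1 := pos_add (sameLine_symm hl) hl'
    rw [pos_neg hl] at e1
    have e2 : pos y (g i y) = disp (g i) y := rfl
    have e3 : pos y (g j y) = disp (g j) y := rfl
    have hb : ∀ k : ℕ, k ≤ 2 * m → n ≤ disp (g k) y ∧
        disp (g k) y ≤ n + (2 * m + 1) * (A.ρ + 1) := by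
      intro k hk
      have f1 := h1 k
      have f2 := h2 k
      have f3 : (0 : ℤ) ≤ k * (A.ρ + 1) := by positivity
      have f4 : ((k : ℤ) + 1) * (A.ρ + 1) ≤ (2 * m + 1) * (A.ρ + 1) :=
        mul_le_mul_of_nonneg_right (by omega) (by omega)
      exact ⟨by linarith, by linarith⟩
    rw [e1, e2, e3]
    have f5 := hb i hi
    have f6 := hb j hj
    push_cast
    rw [abs_le]
    constructor <;> linarith [f5.1, f5.2, f6.1, f6.2]
  -- pigeonhole
  have key : ∃ i ≤ 2 * m, A.NE N' Zf (g i y) := by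
    by_contra hcon
    push Not at hcon
    have hz : ∀ i : ℕ, ∃ z : Pt b F, i ≤ 2 * m → z ∈ Zf ∧ A.E N z (g i y) := by
      intro i
      by_cases hi : i ≤ 2 * m
      · have h3 := hcon i hi
        unfold NE at h3
        push Not at h3
        obtain ⟨z, hz, hz'⟩ := h3
        exact ⟨z, fun _ => ⟨hz, E_mono hNN hz'⟩⟩
      · exact ⟨y, fun h => absurd h hi⟩
    choose zf hzf using hz
    obtain ⟨z, hz, hlt⟩ := Finset.exists_lt_card_fiber_of_mul_lt_card_of_maps_to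
      (s := Finset.range (2 * m + 1)) (t := Zf) (f := zf) (n := 2)
      (fun i hi => (hzf i (by simpa [Nat.lt_succ_iff] using hi)).1)
      (by rw [Finset.card_range]; omega)
    obtain ⟨i1, i2, i3, m1, m2, m3, n12, n13, n23⟩ := Finset.two_lt_card_iff.1 hlt
    simp only [Finset.mem_filter, Finset.mem_range] at m1 m2 m3
    have k1 := (hzf i1 (by omega)).2
    have k2 := (hzf i2 (by omega)).2
    have k3 := (hzf i3 (by omega)).2
    rw [m1.2] at k1
    rw [m2.2] at k2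
    rw [m3.2] at k3
    have l : ∀ i j, SameLine (g i y) (g j y) := fun i j =>
      sameLine_trans (sameLine_symm (sameLine_of_mem_PW (A.G_le_PW (hg i)) y))
        (sameLine_of_mem_PW (A.G_le_PW (hg j)) y)
    rcases hN z (hZ hz) (g i1 y) (A.map_mem (hg _) hy) (g i2 y) (A.map_mem (hg _) hy) (g i3 y)
      (A.map_mem (hg _) hy) (l _ _) (l _ _) (hdist i1 i2 (by omega) (by omega))
      (hdist i1 i3 (by omega) (by omega)) k1 k2 k3 with h | h | h
    · exact n12 (hinj _ _ h)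
    · exact n13 (hinj _ _ h)
    · exact n23 (hinj _ _ h)
  obtain ⟨i, hi, hi'⟩ := key
  refine ⟨g i, hg i, ?_, ?_, hi'⟩
  · have f1 := h1 i
    have f3 : (0 : ℤ) ≤ i * (A.ρ + 1) := by positivity
    linarith
  · have f2 := h2 i
    have f4 : ((i : ℤ) + 1) * (A.ρ + 1) ≤ (2 * m + 1) * (A.ρ + 1) :=
      mul_le_mul_of_nonneg_right (by omega) (by omega)
    push_cast
    linarith

/-- set version of `Tr` -/
theorem Tr.set {A : Sys b F} {m : ℕ} (hT : A.Tr m) {Z : Set (Pt b F)} (hf : Z.Finite)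
    (hZ : Z ⊆ A.D) (hc : Z.ncard ≤ m) {x : Pt b F} (hx : x ∈ A.D) {g : Equiv.Perm (Pt b F)}
    (hg : g ∈ A.G) (h1 : A.NR Z x) (h2 : A.NR Z (g x)) : ∃ h ∈ A.Fix Z, h x = g x := by
  have e : (hf.toFinset : Set (Pt b F)) = Z := hf.coe_toFinset
  have := hT hf.toFinset (by rw [e]; exact hZ)
    (by rw [← Set.ncard_eq_toFinset_card Z hf]; exact hc) x hx g hg
    (by rw [e]; exact h1) (by rw [e]; exact h2)
  rwa [e] at this

/-- set version of `Fr` -/
theorem Fr.set {A : Sys b F} {m : ℕ} (hF : A.Fr m) {Z : Set (Pt b F)} (hf : Z.Finite)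
    (hZ : Z ⊆ A.D) (hc : Z.ncard ≤ m) {y : Pt b F} (hy : y ∈ A.D) (h : A.NR Z y) :
    ∃ M : ℕ, Unb (A.Stb M Z) y := by
  have e : (hf.toFinset : Set (Pt b F)) = Z := hf.coe_toFinset
  have := hF hf.toFinset (by rw [e]; exact hZ)
    (by rw [← Set.ncard_eq_toFinset_card Z hf]; exact hc) y hy (by rw [e]; exact h)
  rwa [e] at this

theorem lt_far [Finite F] {A : Sys b F} (hA : A.Reduced) {m : ℕ} (hT : A.Tr m)
    {Z : Set (Pt b F)} (hf : Z.Finite) (hZ : Z ⊆ A.D) (hc : Z.ncard ≤ m) (N : ℕ) : ∃ M : ℕ,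
      ∀ x ∈ A.D, ∀ g ∈ A.G, A.NE N Z x → A.NE N Z (g x) → ∃ h ∈ A.Stb M Z, h x = g x := by
  classical
  obtain ⟨N0, hN0⟩ := sparse_unif hA m
  set W : ℕ := (2 * m + 1) * (A.ρ + 1) with hW
  set N' : ℕ := max N0 N with hN'
  have e : (hf.toFinset : Set (Pt b F)) = Z := hf.coe_toFinset
  obtain ⟨M, hM⟩ := lt (Z := hf.toFinset) hT (by rw [e]; exact hZ)
    (by rw [← Set.ncard_eq_toFinset_card Z hf]; exact hc) N' (W + 1)
  rw [e] at hM
  have hN0' := hN0 N' (le_max_left _ _) Z hf hZ hc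
  have up : ∀ x, A.NE N Z x → A.NE N' Z x := fun x h => A.NE_mono (le_max_right _ _) h
  have claim : ∀ (k : ℕ) (y1 : Pt b F) (g : Equiv.Perm (Pt b F)), y1 ∈ A.D → g ∈ A.G →
      (disp g y1).natAbs = k → A.NE N' Z y1 → A.NE N' Z (g y1) →
      ∃ h ∈ A.Stb M Z, g y1 = h y1 := by
    intro k
    induction k using Nat.strong_induction_on with
    | _ k ih =>
      intro y1 g hy1 hg hk h1 hgN
      by_cases hsmall : |disp g y1| ≤ (W + 1 : ℕ)
      · obtain ⟨h, hh, hhZ, hhx⟩ := hM y1 hy1 g hg hsmall h1 hgN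
        exact ⟨h, A.mem_Stb hh (fun z hz => hhZ z (hf.mem_toFinset.2 hz)), hhx.symm⟩
      · -- a point in between
        have hex : ∃ g' ∈ A.G, (disp g' y1).natAbs < k ∧
            |disp g y1 - disp g' y1| ≤ (W + 1 : ℕ) ∧ A.NE N' Z (g' y1) := by
          push Not at hsmall
          rcases lt_abs.1 hsmall with hp | hp
          · obtain ⟨g', hg', h2, h3, h4⟩ := hN0' y1 hy1 (disp g y1 - W - 1)
            push_cast at hp h3
            refine ⟨g', hg', by omega, ?_, h4⟩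
            rw [abs_le]
            push_cast
            constructor <;> linarith
          · obtain ⟨g', hg', h2, h3, h4⟩ := hN0' y1 hy1 (disp g y1 + 1)
            push_cast at hp h3
            refine ⟨g', hg', by omega, ?_, h4⟩
            rw [abs_le]
            push_cast
            constructor <;> linarith
        obtain ⟨g', hg', h2, h3, h4⟩ := hex
        obtain ⟨h', hh', hh'x⟩ := ih _ h2 y1 g' hy1 hg' rfl h1 h4
        have hg'' : g * g'⁻¹ ∈ A.G := A.G.mul_mem hg (A.G.inv_mem hg')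
        have e1 : (g * g'⁻¹) (g' y1) = g y1 := by
          rw [← Equiv.Perm.mul_apply, inv_mul_cancel_right]
        have e2 : disp (g * g'⁻¹) (g' y1) = disp g y1 - disp g' y1 := by
          have := disp_mul (A.G_le_PW hg'') (A.G_le_PW hg') y1
          rw [inv_mul_cancel_right] at this
          linarith
        obtain ⟨h, hh, hhZ, hhx⟩ := hM (g' y1) ((A.map_mem_iff hg').2 hy1) (g * g'⁻¹) hg''
          (by rw [e2]; exact h3) h4 (by rw [e1]; exact hgN)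
        refine ⟨h * h', (A.Stb M Z).mul_mem
          (A.mem_Stb hh (fun z hz => hhZ z (hf.mem_toFinset.2 hz))) hh', ?_⟩
        rw [Equiv.Perm.mul_apply, ← hh'x, hhx, e1]
  refine ⟨M, fun x hx g hg h1 h2 => ?_⟩
  obtain ⟨h, hh, hhx⟩ := claim _ x g hx hg rfl (up _ h1) (up _ h2)
  exact ⟨h, hh, hhx.symm⟩

theorem exists_cmp [Finite F] {A : Sys b F} (hA : A.Reduced) {m : ℕ} (hT : A.Tr m)
    (hF : A.Fr m) {Z : Set (Pt b F)} (hf : Z.Finite) (hZ : Z ⊆ A.D) (hc : Z.ncard ≤ m)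
    (N : ℕ) : ∃ M1 : ℕ, ∀ M : ℕ, M1 ≤ M → ∃ B : Sys b F, A.Cmp M Z B ∧
      ∀ a ∈ A.D, A.NE N Z a → a ∈ B.D := by
  classical
  obtain ⟨N0, hN0⟩ := sparse_unif hA m
  obtain ⟨y, hy⟩ := A.nonempty
  obtain ⟨g0, hg0, -, -, hx0N⟩ := hN0 (max N0 N) (le_max_left _ _) Z hf hZ hc y hy 0
  have hx0 : g0 y ∈ A.D := A.map_mem hg0 hy
  obtain ⟨x0, hx0e⟩ : ∃ x0, x0 = g0 y := ⟨_, rfl⟩
  rw [← hx0e] at hx0 hx0N
  obtain ⟨M2, hM2⟩ := lt_far hA hT hf hZ hc (max N0 N)
  obtain ⟨M3, hM3⟩ := hF.set hf hZ hc hx0 (NR_of_NE hx0N)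
  refine ⟨max M2 M3, fun M hM => ?_⟩
  have hSf : {g | g ∈ A.W M ∧ ∀ z ∈ Z, g z = z}.Finite :=
    (A.W_finite M).subset fun g hg => hg.1
  let A' : Gen b F :=
    { S := hSf.toFinset
      ρ := A.ρ * M
      pw := fun s hs => by
        have hs' := (hSf.mem_toFinset.1 hs).1
        exact ⟨A.W_isPW hs', A.W_isPW (A.W_inv hs')⟩
      one_mem := hSf.mem_toFinset.2 ⟨A.W_mono (Nat.zero_le M) rfl, fun _ _ => rfl⟩
      inv_mem := fun s hs => by
        obtain ⟨h1, h2⟩ := hSf.mem_toFinset.1 hs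
        refine hSf.mem_toFinset.2 ⟨A.W_inv h1, fun z hz => ?_⟩
        rw [Equiv.Perm.inv_eq_iff_eq]
        exact (h2 z hz).symm }
  have hA'G : A'.G = A.Stb M Z := by
    change Subgroup.closure ((hSf.toFinset : Finset (Equiv.Perm (Pt b F))) :
      Set (Equiv.Perm (Pt b F))) = _
    rw [hSf.coe_toFinset]
    rfl
  obtain ⟨P, R1, hPS, hPD⟩ := A'.exists_psys
  have hPG : P.G = A.Stb M Z := by
    rw [← hA'G]
    unfold PSys.G Gen.G
    rw [hPS]
  have hx0P : x0 ∈ P.D := by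
    rw [hPD]
    obtain ⟨⟨g, hg, h1⟩, -⟩ := hM3 R1
    refine ⟨g, ?_, h1.le.trans (le_abs_self _)⟩
    rw [hA'G]
    exact A.Stb_mono ((le_max_right _ _).trans hM) Z hg
  obtain ⟨B, π, hBD, hsurj, hπ⟩ := P.exists_sys hx0P
  refine ⟨B, ⟨?_, ?_, ?_⟩, ?_⟩
  · intro a ha
    rw [hBD] at ha
    obtain ⟨g, hg, h1⟩ := ha A.ρ
    rw [hPG] at hg
    exact (A.clopen _ _ h1).1 (A.map_mem (Stb_le_Fix A M Z hg).1 hx0)
  · intro g hg
    rw [← hPG] at hg
    refine ⟨π ⟨g, hg⟩, (π ⟨g, hg⟩).2, fun p hp => ?_⟩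
    rw [hBD] at hp
    exact hπ ⟨g, hg⟩ p hp
  · intro g' hg'
    obtain ⟨g, h1⟩ := hsurj ⟨g', hg'⟩
    refine ⟨g, by rw [← hPG]; exact g.2, fun p hp => ?_⟩
    rw [hBD] at hp
    have := hπ g p hp
    rw [h1] at this
    exact this
  · intro a ha haN
    rw [hBD]
    intro n
    have haN' := A.NE_mono (le_max_right N0 N) haN
    obtain ⟨g, hg, h1⟩ := A.minimal x0 hx0 a ha (max n (A.ρ * max N0 N))
    have h2 : A.NE (max N0 N) Z (g x0) := by
      intro z hz hE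
      exact haN' z hz ((E_congr (le_max_right n _) (Agree.refl _ z) h1).1 hE)
    obtain ⟨h, hh, h3⟩ := hM2 x0 hx0 g hg hx0N h2
    refine ⟨h, ?_, ?_⟩
    · rw [hPG]
      exact A.Stb_mono ((le_max_left _ _).trans hM) Z hh
    · rw [h3]
      exact h1.mono (le_max_left _ _)

theorem Cmp.NR {A B : Sys b F} {M : ℕ} {Z : Set (Pt b F)} (h : A.Cmp M Z B) {p : Pt b F}
    (hp : p ∈ B.D) : A.NR Z p := by
  intro z hz hr
  obtain ⟨g', hg', h1⟩ := B.right p hp 0
  obtain ⟨g, hg, h2⟩ := h.lift g' hg'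
  have h3 := Stb_le_Fix A M Z hg
  have h4 : g p = p := (hr g h3.1).1 (h3.2 z hz)
  unfold disp at h1
  rw [h2 p hp, h4, pos_self] at h1
  exact lt_irrefl _ h1

theorem Cmp.act' {A B : Sys b F} {M : ℕ} {Z : Set (Pt b F)} (h : A.Cmp M Z B)
    {g : Equiv.Perm (Pt b F)} (hg : g ∈ A.Stb M Z) :
    ∃ g' ∈ B.G, ∀ p ∈ B.D, g' p = g p ∧ disp g' p = disp g p := by
  obtain ⟨g', hg', h1⟩ := h.act g hg
  refine ⟨g', hg', fun p hp => ⟨h1 p hp, ?_⟩⟩
  unfold disp
  rw [h1 p hp]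

theorem Cmp.lift' {A B : Sys b F} {M : ℕ} {Z : Set (Pt b F)} (h : A.Cmp M Z B)
    {g' : Equiv.Perm (Pt b F)} (hg' : g' ∈ B.G) :
    ∃ g ∈ A.Stb M Z, ∀ p ∈ B.D, g' p = g p ∧ disp g' p = disp g p := by
  obtain ⟨g, hg, h1⟩ := h.lift g' hg'
  refine ⟨g, hg, fun p hp => ⟨h1 p hp, ?_⟩⟩
  unfold disp
  rw [h1 p hp]

theorem Cmp.map_mem {A B : Sys b F} {M : ℕ} {Z : Set (Pt b F)} (h : A.Cmp M Z B)
    {g : Equiv.Perm (Pt b F)} (hg : g ∈ A.Stb M Z) {p : Pt b F} : g p ∈ B.D ↔ p ∈ B.D := by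
  have key : ∀ k ∈ A.Stb M Z, ∀ q ∈ B.D, k q ∈ B.D := by
    intro k hk q hq
    obtain ⟨k', hk', h1⟩ := h.act k hk
    rw [← h1 q hq]
    exact (B.map_mem_iff hk').2 hq
  refine ⟨fun hp => ?_, key g hg p⟩
  have h1 := key g⁻¹ ((A.Stb M Z).inv_mem hg) _ hp
  have h2 : g⁻¹ (g p) = p := g.symm_apply_apply p
  rwa [h2] at h1

/-- transfer of a closure: elements of `T'` which leave `E` invariant and agree on `E` with
elements of `closure T` -/
theorem cmp_closure {E : Set (Pt b F)} {T T' : Set (Equiv.Perm (Pt b F))}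
    (hE : ∀ t ∈ T', ∀ p, t p ∈ E ↔ p ∈ E)
    (h : ∀ t' ∈ T', ∃ t ∈ Subgroup.closure T, ∀ p ∈ E, t' p = t p) :
    ∀ γ' ∈ Subgroup.closure T', (∀ p, γ' p ∈ E ↔ p ∈ E) ∧
      ∃ γ ∈ Subgroup.closure T, ∀ p ∈ E, γ' p = γ p := by
  intro γ' hγ'
  induction hγ' using Subgroup.closure_induction with
  | mem t ht => exact ⟨hE t ht, h t ht⟩
  | one => exact ⟨fun p => Iff.rfl, 1, Subgroup.one_mem _, fun p _ => rfl⟩
  | mul g k _ _ ihg ihk =>
    obtain ⟨h1, g1, hg1, h2⟩ := ihg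
    obtain ⟨h3, k1, hk1, h4⟩ := ihk
    refine ⟨fun p => (h1 (k p)).trans (h3 p), g1 * k1, Subgroup.mul_mem _ hg1 hk1,
      fun p hp => ?_⟩
    rw [Equiv.Perm.mul_apply, Equiv.Perm.mul_apply, ← h4 p hp]
    exact h2 _ ((h3 p).2 hp)
  | inv g _ ih =>
    obtain ⟨h1, g1, hg1, h2⟩ := ih
    have e : ∀ (k : Equiv.Perm (Pt b F)) (q : Pt b F), k (k⁻¹ q) = q :=
      fun k q => k.apply_symm_apply q
    have h3 : ∀ p, g⁻¹ p ∈ E ↔ p ∈ E := fun p => by rw [← h1 (g⁻¹ p), e]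
    refine ⟨h3, g1⁻¹, Subgroup.inv_mem _ hg1, fun p hp => ?_⟩
    have h4 := h2 _ ((h3 p).2 hp)
    rw [e] at h4
    rw [Equiv.Perm.eq_inv_iff_eq]
    exact h4.symm

theorem Cmp.bd {A B : Sys b F} {M : ℕ} {Z : Set (Pt b F)} (h : A.Cmp M Z B) {x y : Pt b F}
    (hx : x ∈ B.D) (hy : y ∈ B.D) (hb : A.Bd Z x y) : B.Bd ∅ x y := by
  classical
  intro M' hU
  set T' : Set (Equiv.Perm (Pt b F)) :=
    {g | g ∈ B.W M' ∧ ∀ z ∈ (insert x ∅ : Set (Pt b F)), g z = z} with hT'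
  have hfin : T'.Finite := (B.W_finite M').subset fun g hg => hg.1
  have hch : ∀ t' : Equiv.Perm (Pt b F), ∃ t : Equiv.Perm (Pt b F), t' ∈ B.G →
      (t ∈ A.Stb M Z ∧ ∀ p ∈ B.D, t' p = t p) := by
    intro t'
    by_cases ht' : t' ∈ B.G
    · obtain ⟨t, ht, h1⟩ := h.lift t' ht'
      exact ⟨t, fun _ => ⟨ht, h1⟩⟩
    · exact ⟨1, fun h0 => absurd h0 ht'⟩
  choose f hf using hch
  have hG : ∀ t ∈ T', t ∈ B.G := fun t ht => B.W_le_G ht.1
  refine not_bd (T := f '' T') (hfin.image _) ?_ ?_ hb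
  · rintro _ ⟨t, ht, rfl⟩
    obtain ⟨h1, h2⟩ := hf t (hG t ht)
    have h3 := Stb_le_Fix A M Z h1
    refine ⟨h3.1, fun z hz => ?_⟩
    rcases hz with rfl | hz
    · rw [← h2 _ hx]
      exact ht.2 _ (Set.mem_insert _ _)
    · exact h3.2 z hz
  · have hcl := cmp_closure (E := B.D) (T := f '' T') (T' := T')
      (fun t ht p => B.map_mem_iff (hG t ht))
      (fun t ht => ⟨f t, Subgroup.subset_closure ⟨t, ht, rfl⟩, (hf t (hG t ht)).2⟩)
    refine unb_of_near (C := 0) (fun k hk => ?_) hU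
    obtain ⟨-, k1, hk1, h1⟩ := hcl k hk
    refine ⟨k1, hk1, ?_⟩
    unfold disp
    rw [h1 y hy, sub_self, abs_zero]

theorem bd_of_cmp {A : Sys b F} {Z : Set (Pt b F)} {x y : Pt b F}
    (h : ∀ M0 : ℕ, ∃ M : ℕ, M0 ≤ M ∧ ∃ B : Sys b F, A.Cmp M Z B ∧ x ∈ B.D ∧ y ∈ B.D ∧
      B.Bd ∅ x y) : A.Bd Z x y := by
  classical
  intro M0 hU
  obtain ⟨M, hM, B, hc, hx, hy, hb⟩ := h M0
  set T' : Set (Equiv.Perm (Pt b F)) :=
    {g | g ∈ A.W M0 ∧ ∀ z ∈ (insert x Z : Set (Pt b F)), g z = z} with hT'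
  have hfin : T'.Finite := (A.W_finite M0).subset fun g hg => hg.1
  have hS : ∀ t ∈ T', t ∈ A.Stb M Z := fun t ht =>
    A.mem_Stb (A.W_mono hM ht.1) fun z hz => ht.2 z (Set.mem_insert_of_mem _ hz)
  have hch : ∀ t : Equiv.Perm (Pt b F), ∃ t' : Equiv.Perm (Pt b F), t ∈ A.Stb M Z →
      (t' ∈ B.G ∧ ∀ p ∈ B.D, t' p = t p) := by
    intro t
    by_cases ht : t ∈ A.Stb M Z
    · obtain ⟨t', ht', h1⟩ := hc.act t ht
      exact ⟨t', fun _ => ⟨ht', h1⟩⟩
    · exact ⟨1, fun h0 => absurd h0 ht⟩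
  choose f hf using hch
  refine not_bd (A := B) (Z := ∅) (T := f '' T') (hfin.image _) ?_ ?_ hb
  · rintro _ ⟨t, ht, rfl⟩
    obtain ⟨h1, h2⟩ := hf t (hS t ht)
    refine ⟨h1, fun z hz => ?_⟩
    rcases hz with rfl | hz
    · rw [h2 _ hx]
      exact ht.2 _ (Set.mem_insert _ _)
    · exact hz.elim
  · have hcl := cmp_closure (E := B.D) (T := f '' T') (T' := T')
      (fun t ht p => hc.map_mem (hS t ht))
      (fun t ht => ⟨f t, Subgroup.subset_closure ⟨t, ht, rfl⟩,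
        fun p hp => ((hf t (hS t ht)).2 p hp).symm⟩)
    refine unb_of_near (C := 0) (fun k hk => ?_) hU
    obtain ⟨-, k1, hk1, h1⟩ := hcl k hk
    refine ⟨k1, hk1, ?_⟩
    unfold disp
    rw [h1 y hy, sub_self, abs_zero]

theorem P1_of_TTu [Finite F] {A : Sys b F} {Z : Set (Pt b F)} (hf : Z.Finite)
    (h : A.TTu Z) : A.P1 Z := by
  intro x hx y hy y' hy' hNx hNy hNy' hxy hxy'
  obtain ⟨n1, h1⟩ := exists_NE hf hNx
  obtain ⟨n2, h2⟩ := exists_NE hf hNy
  obtain ⟨n3, h3⟩ := exists_NE hf hNy'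
  refine bd_of_cmp fun M0 => ?_
  obtain ⟨M, hM, B, hB, hD, hT⟩ := h M0 (max n1 (max n2 n3))
  have hxB : x ∈ B.D := hD x hx (NE_mono (le_max_left _ _) h1)
  have hyB : y ∈ B.D := hD y hy (NE_mono ((le_max_left _ _).trans (le_max_right _ _)) h2)
  have hyB' : y' ∈ B.D := hD y' hy' (NE_mono ((le_max_right _ _).trans (le_max_right _ _)) h3)
  exact ⟨M, hM, B, hB, hyB, hyB',
    tt_bd_trans hT hxB hyB hyB' (hB.bd hxB hyB hxy) (hB.bd hxB hyB' hxy')⟩

theorem P2_of_TTu [Finite F] {A : Sys b F} {Z : Set (Pt b F)} (hf : Z.Finite)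
    (h : A.TTu Z) : A.P2 Z := by
  intro x hx x' hx' hNx hNx' hA
  obtain ⟨n1, h1⟩ := exists_NE hf hNx
  obtain ⟨n2, h2⟩ := exists_NE hf hNx'
  obtain ⟨M', hM'⟩ := hA
  refine bd_of_cmp fun M0 => ?_
  obtain ⟨M, hM, B, hB, hD, hT⟩ := h (max M0 M') (max n1 n2)
  have hxB : x ∈ B.D := hD x hx (NE_mono (le_max_left _ _) h1)
  have hxB' : x' ∈ B.D := hD x' hx' (NE_mono (le_max_right _ _) h2)
  refine ⟨M, (le_max_left _ _).trans hM, B, hB, hxB, hxB', tt_bd_asy hT hxB hxB' fun n => ?_⟩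
  obtain ⟨g, hg, hgn⟩ := hM' n
  obtain ⟨g', hg', e⟩ := hB.act g (A.Stb_mono ((le_max_right _ _).trans hM) Z hg)
  refine ⟨g', hg', ?_⟩
  rw [e x hxB, e x' hxB']
  exact hgn

private theorem v04e_inv_apply (g : Equiv.Perm (Pt b F)) (x : Pt b F) : g⁻¹ (g x) = x :=
  g.symm_apply_apply x

private theorem v04e_apply_inv (g : Equiv.Perm (Pt b F)) (x : Pt b F) : g (g⁻¹ x) = x :=
  g.apply_symm_apply x

private theorem v04e_image (g : Equiv.Perm (Pt b F)) (Z : Set (Pt b F)) :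
    ⇑(g⁻¹) '' (⇑g '' Z) = Z := by
  rw [← Set.image_comp]
  have e : (⇑g⁻¹ ∘ ⇑g : Pt b F → Pt b F) = id := funext fun x => v04e_inv_apply g x
  rw [e, Set.image_id]

private theorem v04e_NR {A : Sys b F} {Z : Set (Pt b F)} {g : Equiv.Perm (Pt b F)}
    (hg : g ∈ A.G) {x : Pt b F} (h : A.NR (g '' Z) x) : A.NR Z (g⁻¹ x) := by
  intro z hz hr
  apply h (g z) ⟨z, hz, rfl⟩
  have h1 := (rel_map_iff hg).2 hr
  rwa [v04e_apply_inv] at h1

theorem P1.map {A : Sys b F} {Z : Set (Pt b F)} (h : A.P1 Z) {g : Equiv.Perm (Pt b F)}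
    (hg : g ∈ A.G) : A.P1 (g '' Z) := by
  intro x hx y hy y' hy' hNx hNy hNy' hxy hxy'
  have hg' : g⁻¹ ∈ A.G := A.G.inv_mem hg
  have h1 := hxy.map hg'
  have h2 := hxy'.map hg'
  rw [v04e_image] at h1 h2
  have h3 := h _ (A.map_mem hg' hx) _ (A.map_mem hg' hy) _ (A.map_mem hg' hy')
    (v04e_NR hg hNx) (v04e_NR hg hNy) (v04e_NR hg hNy') h1 h2
  have h4 := h3.map hg
  rwa [v04e_apply_inv, v04e_apply_inv] at h4

theorem P2.map {A : Sys b F} {Z : Set (Pt b F)} (h : A.P2 Z) {g : Equiv.Perm (Pt b F)}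
    (hg : g ∈ A.G) : A.P2 (g '' Z) := by
  intro x hx x' hx' hNx hNx' hA
  have hg' : g⁻¹ ∈ A.G := A.G.inv_mem hg
  have h1 := hA.map hg'
  rw [v04e_image] at h1
  have h3 := h _ (A.map_mem hg' hx) _ (A.map_mem hg' hx')
    (v04e_NR hg hNx) (v04e_NR hg hNx') h1
  have h4 := h3.map hg
  rwa [v04e_apply_inv, v04e_apply_inv] at h4

end Sys

end Pool.Agent.helper98.NIG
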