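import Pool.Agent.helper35.NIG.V04
import Pool.Agent.helper35.NIG.Q02
import Pool.Agent.helper35.NIG.R02
import Pool.Agent.helper2.NIG.L24

/-!
# NIG-V05: uniform versions (the point `z` of the set `insert z a` moves) and visible twins

`a` is a finite subset of `A.D`, `a.ncard + 1 ≤ m`.  So `(insert z a).ncard ≤ m`
(`Set.ncard_insert_le`).

**unb_unif2.** `compact2` (Q02) with `C z y := z ∈ D ∧ y ∈ D ∧ NE N a z ∧ NE N (insert z a) y`
(constant `max A.ρ (A.ρ * N)`: `E_congr` and `A.clopen`), `P n z y := Unb (Stb n (insert z a)) y`.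
Monotone: `Stb_mono`, `unb_mono`. Open: if `Agree (A.ρ * n) z z'` then the elements of `W n` which
fix `z` are those which fix `z'` (`W_isPW`, `fix_iff_of_agree`), so
`Stb n (insert z a) = Stb n (insert z' a)`; and `unb_Stb_open` (Q03) for `y`.  Existence: `Fr m`
(`Fr.set`), `NR_of_NE`.

**lt2.** `compact2` with the same `C z x`, and `P n z x := ∀ g ∈ G, |disp g x| ≤ d →
NE N (insert z a) (g x) → ∃ h ∈ W n, (∀ w ∈ insert z a, h w = w) ∧ h x = g x`.  Monotone: `W_mono`.
Open and existence: by `conn_fin` (Q01; `exists_CONN`) there is `w` such that every `g x` with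
`|disp g x| ≤ d` is `g' x` with `g' ∈ W w`, a finite set. Existence: for every `g' ∈ W w` with
`|disp g' x| ≤ d`, `NE N (insert z a) (g' x)` take `h ∈ Fix (insert z a)` from `Tr m` and `n` from
`exists_Stb`; take the maximum over the finitely many `g'`. Open: let `z', x'` agree with `z, x` on a
window of radius `≥ A.ρ * (n + w + N) + A.ρ * w`, and let `g ∈ G` with `|disp g x'| ≤ d`,
`NE N (insert z' a) (g x')`; write `g x' = g' x'`, `g' ∈ W w`; then `disp g' x = disp g' x'`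
and `NE N (insert z a) (g' x)` (`agree_W`, `E_congr`); so there is `h ∈ W n` which fixes
`insert z a` with `h x = g' x`; then `h z' = z'` (`fix_iff_of_agree`) and `h x' = g' x'`
(`eq_iff_of_agree`).  (Compare with the proof of `lt` in Q14, the case of a fixed set `Z`.)

**exists_twins.** Visible twins far to the right which are `NE N a`.  The hypothesis `hN` says that
the points `NE N a` are syndetic in the orbits.  Let `R` be from
`A.BC` (`BCon R`), `K1 = max K (A.ρ * N + 1) + R + A.ρ + 1`. `exists_visible` (δ = 1, with `K1`)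
gives visible twins at `n1 ≥ K1`, `φ1`. By `hN` for `y = tw b false n1 φ1`, `n = 0`, there is
`g ∈ G` with `0 ≤ disp g y` and `NE N a (g y)`; `g y = tw b false n φ` with `n = n1 + disp g y ≥ K1`
(`map_tw`).  `simul` (R02; `tw b h n φ = atp b h 0 (n, φ)`) gives `g1 ∈ G` which maps `tw b h n1 φ1`
to `tw b h n φ` for both `h`. So the new twins are in `D` and not related (`rel_map_iff`);
`NE N a` for `tw b true n φ` by `agree_tw` and `E_congr` (`n > A.ρ * N`).
-/

namespace Pool.Agent.helper98.NIG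

variable {b : Base} {F : Type}

namespace Sys

theorem unb_unif2 [Finite F] {A : Sys b F} {m : ℕ} (hF : A.Fr m) {a : Set (Pt b F)}
    (hf : a.Finite) (ha : a ⊆ A.D) (hc : a.ncard + 1 ≤ m) (N : ℕ) : ∃ M : ℕ, ∀ z ∈ A.D,
      ∀ y ∈ A.D, A.NE N a z → A.NE N (insert z a) y → Unb (A.Stb M (insert z a)) y := by
  have hρ1 : A.ρ ≤ A.ρ * (N + 1) := Nat.le_mul_of_pos_right _ (Nat.succ_pos _)
  have hρ2 : A.ρ * N ≤ A.ρ * (N + 1) := Nat.mul_le_mul_left _ (Nat.le_succ _)
  -- the short words which fix `insert z a` only depend on a window at `z`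
  have hle : ∀ (n : ℕ) (z z' : Pt b F), Agree (A.ρ * n) z z' →
      A.Stb n (insert z a) ≤ A.Stb n (insert z' a) := by
    intro n z z' h
    refine Subgroup.closure_mono ?_
    rintro g ⟨hg, hg'⟩
    refine ⟨hg, ?_⟩
    rintro w (rfl | hw)
    · exact (fix_iff_of_agree (A.W_isPW hg) h).1 (hg' z (Set.mem_insert _ _))
    · exact hg' w (Set.mem_insert_of_mem _ hw)
  obtain ⟨M, hM⟩ := compact2
    (fun z y => z ∈ A.D ∧ y ∈ A.D ∧ A.NE N a z ∧ A.NE N (insert z a) y) (A.ρ * (N + 1))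
    (by
      rintro z y z' y' hz hy ⟨h1, h2, h3, h4⟩
      refine ⟨(A.clopen _ _ (hz.mono hρ1)).1 h1, (A.clopen _ _ (hy.mono hρ1)).1 h2, ?_, ?_⟩
      · intro w hw hE
        exact h3 w hw ((E_congr hρ2 (Agree.refl _ _) hz).2 hE)
      · rintro w (rfl | hw) hE
        · exact h4 z (Set.mem_insert _ _) ((E_congr hρ2 hz hy).2 hE)
        · exact h4 w (Set.mem_insert_of_mem _ hw) ((E_congr hρ2 (Agree.refl _ _) hy).2 hE))
    (fun n z y => Unb (A.Stb n (insert z a)) y)
    (fun n m z y hnm hx => unb_mono (A.Stb_mono hnm _) hx)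
    (fun n z y _ hx => by
      obtain ⟨N', hN'⟩ := unb_Stb_open hx
      refine ⟨max (A.ρ * n) N', fun z' y' _ hz' hy' => ?_⟩
      exact unb_mono (hle n z z' (hz'.mono (le_max_left _ _)))
        (hN' y' (hy'.mono (le_max_right _ _))))
    (by
      rintro z y ⟨h1, h2, -, h4⟩
      exact hF.set (hf.insert z) (Set.insert_subset h1 ha)
        ((Set.ncard_insert_le z a).trans hc) h2 (NR_of_NE h4))
  exact ⟨M, fun z hz y hy h1 h2 => hM z y ⟨hz, hy, h1, h2⟩⟩

theorem lt2 [Finite F] {A : Sys b F} {m : ℕ} (hT : A.Tr m) {a : Set (Pt b F)}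
    (hf : a.Finite) (ha : a ⊆ A.D) (hc : a.ncard + 1 ≤ m) (N d : ℕ) : ∃ M : ℕ, ∀ z ∈ A.D,
      ∀ x ∈ A.D, A.NE N a z → A.NE N (insert z a) x → ∀ g ∈ A.G, |disp g x| ≤ d →
        A.NE N (insert z a) (g x) → ∃ h ∈ A.W M, (∀ w ∈ insert z a, h w = w) ∧ h x = g x := by
  classical
  obtain ⟨K, -, hK⟩ := exists_CONN A
  -- one element
  have one : ∀ (n : ℕ) (g : Equiv.Perm (Pt b F)), g ∈ A.W n → ∃ M : ℕ, ∀ z ∈ A.D, ∀ x ∈ A.D,
      A.NE N a z → A.NE N (insert z a) x → A.NE N (insert z a) (g x) →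
        ∃ h ∈ A.W M, (∀ w ∈ insert z a, h w = w) ∧ h x = g x := by
    intro n g hg
    obtain ⟨M, hM⟩ := compact2 (fun z x => z ∈ A.D ∧ x ∈ A.D ∧ A.NE N a z ∧
        A.NE N (insert z a) x ∧ A.NE N (insert z a) (g x))
      (A.ρ * n + A.ρ * N + A.ρ) (by
        rintro z x z' x' hzz hxx ⟨h1, h2, h3, h4, h5⟩
        have ez : Agree (A.ρ * N) z z' := hzz.mono (by omega)
        have e1 : Agree (A.ρ * N) x x' := hxx.mono (by omega)
        have e2 : Agree (A.ρ * N) (g x) (g x') := (agree_W (n := n) (hxx.mono (by omega)) hg).1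
        refine ⟨(A.clopen _ _ (hzz.mono (by omega))).1 h1,
          (A.clopen _ _ (hxx.mono (by omega))).1 h2, fun w hw h => h3 w hw ?_, ?_, ?_⟩
        · exact (E_congr le_rfl (Agree.refl _ w) ez).2 h
        · rintro w (rfl | hw) h
          · exact h4 z (Set.mem_insert _ _) ((E_congr le_rfl ez e1).2 h)
          · exact h4 w (Set.mem_insert_of_mem _ hw) ((E_congr le_rfl (Agree.refl _ w) e1).2 h)
        · rintro w (rfl | hw) h
          · exact h5 z (Set.mem_insert _ _) ((E_congr le_rfl ez e2).2 h)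
          · exact h5 w (Set.mem_insert_of_mem _ hw) ((E_congr le_rfl (Agree.refl _ w) e2).2 h))
      (fun M z x => ∃ h ∈ A.W M, (∀ w ∈ insert z a, h w = w) ∧ h x = g x)
      (by
        rintro m m' z x hmm ⟨h, h1, h2, h3⟩
        exact ⟨h, A.W_mono hmm h1, h2, h3⟩)
      (by
        rintro M z x - ⟨h, h1, h2, h3⟩
        refine ⟨A.ρ * M + A.ρ * n, fun z' x' _ hzz hxx => ⟨h, h1, ?_, ?_⟩⟩
        · rintro w (rfl | hw)
          · exact (fix_iff_of_agree (A.W_isPW h1) (hzz.mono (by omega))).1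
              (h2 z (Set.mem_insert _ _))
          · exact h2 w (Set.mem_insert_of_mem _ hw)
        · exact (eq_iff_of_agree ((A.W_isPW h1).mono (by omega)) ((A.W_isPW hg).mono (by omega))
            hxx).1 h3)
      (by
        rintro z x ⟨h1, h2, h3, h4, h5⟩
        obtain ⟨h, hh, hx⟩ := hT.set (Z := insert z a) (hf.insert z)
          (Set.insert_subset h1 ha) ((Set.ncard_insert_le z a).trans hc) h2 (A.W_le_G hg)
          (NR_of_NE h4) (NR_of_NE h5)
        obtain ⟨M, hM⟩ := A.exists_W hh.1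
        exact ⟨M, h, hM, fun w hw => hh.2 w hw, hx⟩)
    exact ⟨M, fun z hz x hx h1 h2 h3 => hM z x ⟨hz, hx, h1, h2, h3⟩⟩
  choose! Mf hMf using one (K * (d + 1))
  have hfin := A.W_finite (K * (d + 1))
  refine ⟨hfin.toFinset.sup Mf, fun z hz x hx hz1 h1 g hg hd h2 => ?_⟩
  obtain ⟨g', hg', hgx⟩ := conn_fin hK hx hg hd
  obtain ⟨h, hh, hw, hhx⟩ := hMf g' hg' z hz x hx hz1 h1 (by rw [hgx]; exact h2)
  exact ⟨h, A.W_mono (Finset.le_sup (f := Mf) (hfin.mem_toFinset.2 hg')) hh, hw, by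
    rw [hhx, hgx]⟩

theorem exists_twins [Finite F] {A : Sys b F} (hA : A.Reduced) {a : Set (Pt b F)} {N L : ℕ}
    (hN : ∀ y ∈ A.D, ∀ n : ℤ, ∃ g ∈ A.G, n ≤ disp g y ∧ disp g y ≤ n + L ∧ A.NE N a (g y))
    (K : ℕ) : ∃ (n : ℤ) (φ : F), (K : ℤ) ≤ n ∧ tw b false n φ ∈ A.D ∧ tw b true n φ ∈ A.D ∧
      ¬ A.Rel (tw b false n φ) (tw b true n φ) ∧ A.NE N a (tw b false n φ) ∧
      A.NE N a (tw b true n φ) := by
  obtain ⟨R, hR⟩ := A.BC
  have ea : ∀ (h : Bool) (n : ℤ) (φ : F), atp b h 0 (n, φ) = tw b h n φ := fun h n φ => by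
    simp [atp]
  obtain ⟨n1, φ1, h1, hf, ht, hrel⟩ := exists_visible hA hR A.exists_SYN (δ := 1) (Or.inl rfl)
    (K + (A.ρ * N + 1) + R + A.ρ + 1)
  rw [one_mul] at h1
  push_cast at h1
  obtain ⟨g, hg, hd, -, hne⟩ := hN _ hf 0
  have e1 := map_tw (A.G_le_PW hg) false n1 φ1
  obtain ⟨n, hn⟩ : ∃ n, n = n1 + disp g (tw b false n1 φ1) := ⟨_, rfl⟩
  obtain ⟨φ, hφ⟩ : ∃ φ, φ = (g (tw b false n1 φ1)).2 := ⟨_, rfl⟩
  rw [← hn, ← hφ] at e1
  have hρ : (0 : ℤ) ≤ A.ρ * N := by positivity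
  have hρ' : (0 : ℤ) ≤ A.ρ := by positivity
  have hR' : (0 : ℤ) ≤ R := by positivity
  have hK' : (0 : ℤ) ≤ K := by positivity
  obtain ⟨g1, hg1, H⟩ := simul (A := A) hR (q := (n1, φ1)) (q' := (n, φ))
    (Or.inl ⟨by simp only; linarith, by simp only; linarith⟩) (by rw [ea]; exact hf)
    ⟨g, hg, by rw [ea, ea]; exact e1.symm⟩
  have H' : ∀ h : Bool, g1 (tw b h n1 φ1) = tw b h n φ := fun h => by
    have := H h
    rwa [ea, ea] at this
  have hnf : A.NE N a (tw b false n φ) := by rw [← e1]; exact hne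
  refine ⟨n, φ, by linarith, ?_, ?_, ?_, hnf, ?_⟩
  · rw [← H' false]
    exact (A.map_mem_iff hg1).2 hf
  · rw [← H' true]
    exact (A.map_mem_iff hg1).2 ht
  · rw [← H' true, ← H' false, rel_map_iff hg1]
    exact hrel
  · intro z hz hE
    refine hnf z hz ((A.E_congr (le_refl (A.ρ * N)) (Agree.refl _ z)
      (agree_tw true false n φ ?_)).1 hE)
    rw [abs_of_nonneg (by linarith)]
    push_cast
    linarith

/-- **Walking to the right.**  `lt2`-data for the set `Z = insert z a` (hypothesis `hM`), the syndetic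
set of the `NE N Z` points (hypothesis `hN`), twins at `n > A.ρ * M` which are `NE N Z`: then the
twins are asymptotic under `Stb M Z`.  Proof: by induction on `i : ℕ` there are `g ∈ Stb M Z`,
`n' ≥ n + i` and `φ'` with `g (tw b h n φ) = tw b h n' φ'` for both `h`, and `NE N Z` for
`tw b false n' φ'`. Step: `p = tw b false n' φ'`; `hN` at `1` gives `g1 ∈ G` with
`1 ≤ disp g1 p ≤ L + 1`, `NE N Z (g1 p)`; `hM` gives `h1 ∈ W M` which fixes `Z` with `h1 p = g1 p`; so
`h1 ∈ Stb M Z` (`mem_Stb`). `Agree (A.ρ * M) (tw b false n' φ') (tw b true n' φ')` (`agree_tw`,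
`n' > A.ρ * M`), so `h1` has the same displacement at both twins and the same second coordinate of
the image (`W_isPW`, definition of `IsPW`; `map_tw`). Finally `agree_tw` for `n' > k`. -/
theorem asy_walk {A : Sys b F} {Z : Set (Pt b F)} {N M L : ℕ}
    (hN : ∀ y ∈ A.D, ∀ n : ℤ, ∃ g ∈ A.G, n ≤ disp g y ∧ disp g y ≤ n + L ∧ A.NE N Z (g y))
    (hM : ∀ x ∈ A.D, A.NE N Z x → ∀ g ∈ A.G, |disp g x| ≤ (L + 1 : ℕ) → A.NE N Z (g x) →
      ∃ h ∈ A.W M, (∀ w ∈ Z, h w = w) ∧ h x = g x) {n : ℤ} {φ : F}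
    (hn : ((A.ρ * M : ℕ) : ℤ) < n) (h0 : tw b false n φ ∈ A.D)
    (hE : A.NE N Z (tw b false n φ)) : A.Asy Z (tw b false n φ) (tw b true n φ) := by
  have claim : ∀ i : ℕ, ∃ g ∈ A.Stb M Z, ∃ (n' : ℤ) (φ' : F), n + i ≤ n' ∧
      (∀ h : Bool, g (tw b h n φ) = tw b h n' φ') ∧ A.NE N Z (tw b false n' φ') := by
    intro i
    induction i with
    | zero =>
      exact ⟨1, (A.Stb M Z).one_mem, n, φ, by simp, fun h => rfl, hE⟩
    | succ i ih =>
      obtain ⟨g, hg, n', φ', hn', hgt, hE'⟩ := ih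
      have hgG : g ∈ A.G := (A.Stb_le_Fix M Z hg).1
      have hpD : tw b false n' φ' ∈ A.D := by
        rw [← hgt false]
        exact A.map_mem hgG h0
      obtain ⟨g1, hg1, hd1, hd2, hE1⟩ := hN _ hpD 1
      have habs : |disp g1 (tw b false n' φ')| ≤ (L + 1 : ℕ) := by
        rw [abs_of_nonneg (by linarith)]
        push_cast
        linarith
      obtain ⟨h1, hh1, hfix, he⟩ := hM _ hpD hE' g1 hg1 habs hE1
      have hi0 : (0 : ℤ) ≤ (i : ℤ) := Int.natCast_nonneg i
      have hpos : ((A.ρ * M : ℕ) : ℤ) < n' := by linarith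
      have hpos' : ((A.ρ * M : ℕ) : ℤ) < |n'| := lt_of_lt_of_le hpos (le_abs_self n')
      have hPW := A.W_isPW hh1
      have hd : disp h1 (tw b false n' φ') = disp g1 (tw b false n' φ') := by
        unfold disp
        rw [he]
      have hmap : ∀ h : Bool, h1 (tw b h n' φ') =
          tw b h (n' + disp g1 (tw b false n' φ')) (g1 (tw b false n' φ')).2 := by
        intro h
        have hag : Agree (A.ρ * M) (tw b false n' φ') (tw b h n' φ') :=
          agree_tw false h n' φ' hpos'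
        rw [map_tw (A.G_le_PW (A.W_le_G hh1)) h n' φ', ← disp_eq_of_agree hPW hag, hd]
        congr 1
        obtain ⟨c, -, H⟩ := hPW (tw b false n' φ')
        rw [(H _ hag).2, he]
      refine ⟨h1 * g, (A.Stb M Z).mul_mem (A.mem_Stb hh1 hfix) hg,
        n' + disp g1 (tw b false n' φ'), (g1 (tw b false n' φ')).2, ?_, ?_, ?_⟩
      · push_cast
        linarith
      · intro h
        rw [Equiv.Perm.mul_apply, hgt h, hmap h]
      · rw [← hmap false, he]
        exact hE1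
  refine ⟨M, fun k => ?_⟩
  obtain ⟨g, hg, n', φ', hn', hgt, -⟩ := claim (k + 1)
  refine ⟨g, hg, ?_⟩
  rw [hgt false, hgt true]
  apply agree_tw
  refine lt_of_lt_of_le ?_ (le_abs_self n')
  have h2 : (0 : ℤ) ≤ ((A.ρ * M : ℕ) : ℤ) := Int.natCast_nonneg _
  push_cast at hn'
  linarith

end Sys

end Pool.Agent.helper98.NIG
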