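import Pool.Agent.helper35.NIG.V05
import Pool.Agent.helper35.NIG.V00
import Pool.Agent.helper35.NIG.Q07

/-!
# NIG-V06: the case of translation type

`a ⊆ A.D` is finite with `a.ncard + 1 ≤ m`, `z0 ∈ A.D` is not related to `a`, `A` satisfies `Tr m` and
`Fr m`, and `P1 (insert z0 a)`, `P2 (insert z0 a)` hold.  We derive a contradiction (`t_case`).

**p_move.** `P1 (insert z a)` and `P2 (insert z a)` hold for all `z ∈ A.orb z0` with `NR a z`: `Tr m`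
(`Tr.set` for the set `a`) gives `h ∈ Fix a` with `h z0 = z`; `h '' (insert z0 a) = insert z a`
(`Set.image_insert_eq`, `h` fixes `a` pointwise); `P1.map`, `P2.map`.

**rec_not_sml.** For every `N` there is `ε > 0` such that for all `z0, y1 ∈ D` the set of the
`z ∈ orb z0` with `Agree N z y1` is not `ε`-small.  Proof: `recur` (Q01) gives `w`. For every `n : ℤ`
`A.syn` gives a point `p ∈ orb z0` with `n + ρ w ≤ pos z0 p ≤ n + ρ w + ρ`, and `h ∈ W w` with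
`Agree N (h p) y1`, `|disp h p| ≤ ρ w` (`abs_disp_W`). So the set meets
`[n, n + 2 ρ w + ρ]` for every `n`, and `sml_syn` with `L = 2ρw + ρ` shows that it is not `ε`-small for
`ε = 1/(2(L+1))`.

**col_map.** For `h ∈ Fix (insert p0 a)`: `z ∈ Col a z0 p0 y` implies `h z ∈ Col a z0 p0 (h y)`
(`orb_map`, `NR_Fix` for `a`, `Bd.map` with `h '' (insert z a) = insert (h z) a`, `h p0 = p0`).

**col_move.** Let `p1, g p1` be not related to `insert p0 a`.  By `Tr m` (`Tr.set`,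
`(insert p0 a).ncard ≤ m`) there is `h ∈ Fix (insert p0 a)` with `h p1 = g p1`. If
`w ∈ orb z0 \ Col (g p1)` then `h⁻¹ w ∈ orb z0 \ Col p1` (otherwise `w = h (h⁻¹ w) ∈ Col (h p1)`
by `col_map`). So `orb z0 \ Col (g p1) ⊆ h '' (orb z0 \ Col p1)`; `sml_map`, `sml_mono`.

**col_base.** For every `ε > 0` there are `p0, p1 ∈ D`, not related to each other and to `a`, such
that `orb z0 \ Col a z0 p0 p1` is `ε`-small.  Proof: let `N1` be from `sparse_unif` (for `m`),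
`L = (2m+1)(ρ+1)`, `N2` from `sml_E` for `ε / m` (`m ≥ 1`), `N = max N1 N2`.  Let `M` be from `lt2` for
`N` and `d = L + 1`.  Let `K = ρ (M + N) + 1`, and let `p0 = tw b false n φ`, `p1 = tw b true n φ` be
from `exists_twins` for `N, K`. They are `NE N a`, so `NR a` (`NR_of_NE`).  Claim: if `z ∈ orb z0`
is `NE N a` and `¬ E N p0 z` then `z ∈ Col a z0 p0 p1`: `NR a z` by `NR_of_NE`; `p0` is `NE N
(insert z a)`, and so is `p1` (`agree_tw`, `E_congr`, `n > ρ N`); `asy_walk` for `Z = insert z a`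
(`hN` from `sparse_unif`; `hM` from `lt2` for this `z`) gives `Asy (insert z a) p0 p1`, and
`P2 (insert z a)` (hypothesis `hP`) gives `Bd (insert z a) p0 p1`.  So
`orb z0 \ Col ⊆ ⋃_{w ∈ insert p0 a} {z ∈ D | E N w z}`, and `sml_bunion`, `sml_E`, `E_mono` (at most
`m` sets which are `ε / m`-small; `insert p0 a ⊆ D`).

**t_case.** Constants: `N0` from `sparse_unif` (for `m`), `L = (2m+1)(ρ+1)`; `M0'` from `unb_unif2`
for `N0`; `M0 = max M0' N0`; `ε1` from `rec_not_sml` for `N = ρ M0`; `k = (L+1) |F|`;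
`ε = ε1 / k` (`|F| ≥ 1`).  `col_base` for `ε` gives `p0, p1`.
The points of `orb p1` which are related to a point of `insert p0 a` are finitely many
(`rel_finite`), so there is `K1` with `pos p1 y < K1` for all of them.  `sparse_unif` (for the
set `a`) gives `y1 ∈ orb p1` with `pos p1 y1 ≥ K1` and `NE N0 a y1`. Let
`J = {y ∈ orb p1 | 0 ≤ pos y1 y ≤ L}`, a finite set with at most `k` elements (`y` is determined by
`pos y1 y` and `y.2`). All `y ∈ J` satisfy `pos p1 y ≥ K1`, so `NR (insert p0 a) y`; `p1` itself is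
not related to `insert p0 a`, so by `col_move` `orb z0 \ Col a z0 p0 y` is `ε`-small for
`y ∈ J`. The set of the `z ∈ orb z0` which are related to `p0` or to a point of `J` is finite
(`rel_finite`; `Rel.symm`). So with `T = ⋂_{y ∈ J} Col a z0 p0 y ∩ {z | z` not related to `p0`
and `J}` the set `orb z0 \ T` is `ε1`-small (`sml_bunion`, `sml_of_finite` with `0`).
Let `E = {z ∈ orb z0 | Agree (ρ M0) z y1}`, not `ε1`-small.  `sml_inter_nonempty` gives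
`z ∈ E ∩ T` (`E \ T ⊆ orb z0 \ T`).
`Agree (ρ M0) z y1` and `NE N0 a y1` give `NE N0 a z` (`E_congr`, `M0 ≥ N0`).
`sparse_unif` for the set `insert z a` and `y1` gives `g ∈ G` with `0 ≤ disp g y1 ≤ L`
and `NE N0 (insert z a) y`, `y = g y1 ∈ J`. `unb_unif2` gives `Unb (Stb M0' (insert z a)) y`, so
`Unb (Stb M0 (insert z a)) y`. `Stb_le_of_agree` (`z ∈ insert z a`): `Stb M0 (insert z a) ≤
Fix (insert y1 (insert z a))`; with `stb_fg` and `not_bd` (or `unb_fg`) this gives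
`¬ Bd (insert z a) y1 y`.  On the other hand `z ∈ Col y1` and `z ∈ Col y` (`y1 ∈ J`):
`Bd (insert z a) p0 y1` and `Bd (insert z a) p0 y`; `p0`, `y1`, `y` are not related to
`insert z a` (choice of `T`; `NR a p0`; `NR a y1`, `NR a y` from `NR (insert p0 a)`).  `P1 (insert z a)`
(`p_move`, `z ∈ Col` gives `NR a z`) gives `Bd (insert z a) y1 y`: contradiction.
-/

namespace Pool.Agent.helper98.NIG

variable {b : Base} {F : Type}

namespace Sys

theorem rec_not_sml [Finite F] (A : Sys b F) (N : ℕ) : ∃ ε : ℝ, 0 < ε ∧ ∀ z0 ∈ A.D,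
    ∀ y1 ∈ A.D, ¬ Sml z0 {z | z ∈ A.orb z0 ∧ Agree N z y1} ε := by
  obtain ⟨w, hw⟩ := A.recur N
  refine ⟨1 / (2 * (((2 * (A.ρ * w) + A.ρ : ℕ) : ℝ) + 1)), by positivity,
    fun z0 hz0 y1 hy1 hs => ?_⟩
  have h1 := sml_syn (L := 2 * (A.ρ * w) + A.ρ) ?_ hs
  · have h2 : (0 : ℝ) < ((2 * (A.ρ * w) + A.ρ : ℕ) : ℝ) + 1 := by positivity
    have h3 : 1 / (2 * (((2 * (A.ρ * w) + A.ρ : ℕ) : ℝ) + 1)) *
        (((2 * (A.ρ * w) + A.ρ : ℕ) : ℝ) + 1) = 1 / 2 := by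
      field_simp
    rw [h3] at h1
    norm_num at h1
  · intro n
    obtain ⟨g, hg, hg1, hg2⟩ := A.syn hz0 (n + A.ρ * w)
    obtain ⟨h, hh, hh'⟩ := hw (g z0) (A.map_mem hg hz0) y1 hy1
    have hhG := A.W_le_G hh
    have hd := abs_le.1 (A.abs_disp_W hh (g z0))
    have hm : disp (h * g) z0 = disp h (g z0) + disp g z0 :=
      disp_mul (A.G_le_PW hhG) (A.G_le_PW hg) z0
    have hp : pos z0 (h (g z0)) = disp h (g z0) + disp g z0 := hm
    refine ⟨h (g z0), ⟨⟨h * g, A.G.mul_mem hhG hg, rfl⟩, hh'⟩,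
      sameLine_of_mem_PW (A.G_le_PW (A.G.mul_mem hhG hg)) z0, ?_, ?_⟩
    · rw [hp]
      linarith [hd.1]
    · rw [hp]
      push_cast
      linarith [hd.2]

private theorem V06_image {a : Set (Pt b F)} {h : Equiv.Perm (Pt b F)} (hh : ∀ z ∈ a, h z = z) :
    h '' a = a := by
  ext z
  constructor
  · rintro ⟨w, hw, rfl⟩
    rw [hh w hw]
    exact hw
  · intro hz
    exact ⟨z, hz, hh z hz⟩

theorem p_move {A : Sys b F} {m : ℕ} (hT : A.Tr m) {a : Set (Pt b F)} (hf : a.Finite)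
    (ha : a ⊆ A.D) (hc : a.ncard + 1 ≤ m) {z0 : Pt b F} (hz0 : z0 ∈ A.D) (hr : A.NR a z0)
    (h1 : A.P1 (insert z0 a)) (h2 : A.P2 (insert z0 a)) {z : Pt b F} (hz : z ∈ A.orb z0)
    (hza : A.NR a z) : A.P1 (insert z a) ∧ A.P2 (insert z a) := by
  obtain ⟨g, hg, rfl⟩ := hz
  obtain ⟨h, hh, hh'⟩ := hT.set hf ha (by omega) hz0 hg hr hza
  have e1 : h '' (insert z0 a) = insert (g z0) a := by
    rw [Set.image_insert_eq, V06_image hh.2, hh']
  rw [← e1]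
  exact ⟨h1.map hh.1, h2.map hh.1⟩

/-- the column of `y` -/
def Col (A : Sys b F) (a : Set (Pt b F)) (z0 p0 y : Pt b F) : Set (Pt b F) :=
  {z | z ∈ A.orb z0 ∧ A.NR a z ∧ A.Bd (insert z a) p0 y}

theorem col_map {A : Sys b F} {a : Set (Pt b F)} {z0 p0 y : Pt b F}
    {h : Equiv.Perm (Pt b F)} (hh : h ∈ A.Fix (insert p0 a)) {z : Pt b F}
    (hz : z ∈ A.Col a z0 p0 y) : h z ∈ A.Col a z0 p0 (h y) := by
  obtain ⟨⟨g, hg, hz1⟩, hz2, hz3⟩ := hz
  have hha : h ∈ A.Fix a := A.Fix_anti (Set.subset_insert p0 a) hh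
  have e0 : h p0 = p0 := hh.2 p0 (Set.mem_insert p0 a)
  have e1 : h '' (insert z a) = insert (h z) a := by
    rw [Set.image_insert_eq, V06_image hha.2]
  refine ⟨⟨h * g, A.G.mul_mem hh.1 hg, by rw [hz1]; rfl⟩, (NR_Fix hha).2 hz2, ?_⟩
  have h1 := hz3.map hh.1
  rw [e1, e0] at h1
  exact h1

theorem col_move [Finite F] {A : Sys b F} {m : ℕ} (hT : A.Tr m) {a : Set (Pt b F)}
    (hf : a.Finite) (ha : a ⊆ A.D) (hc : a.ncard + 1 ≤ m) {z0 p0 p1 : Pt b F}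
    (hp0 : p0 ∈ A.D) (hp1 : p1 ∈ A.D) (hr : A.NR (insert p0 a) p1) {y : Pt b F}
    (hy : y ∈ A.orb p1) (hry : A.NR (insert p0 a) y) {ε : ℝ}
    (h : Sml z0 (A.orb z0 \ A.Col a z0 p0 p1) ε) : Sml z0 (A.orb z0 \ A.Col a z0 p0 y) ε := by
  obtain ⟨g, hg, rfl⟩ := hy
  have hsub : insert p0 a ⊆ A.D := Set.insert_subset hp0 ha
  have hcard : (insert p0 a).ncard ≤ m := (Set.ncard_insert_le p0 a).trans hc
  obtain ⟨k, hk, hk'⟩ := hT.set (hf.insert p0) hsub hcard hp1 hg hr hry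
  refine sml_mono (S' := k '' (A.orb z0 \ A.Col a z0 p0 p1)) ?_ le_rfl
    (sml_map (A.G_le_PW hk.1) h)
  rintro w ⟨⟨g', hg', hw⟩, hw2⟩
  refine ⟨k⁻¹ w, ⟨⟨k⁻¹ * g', A.G.mul_mem (A.G.inv_mem hk.1) hg', by rw [hw]; rfl⟩,
    fun hcol => hw2 ?_⟩, ?_⟩
  · have h1 := col_map hk hcol
    rw [hk'] at h1
    have e : k (k⁻¹ w) = w := k.apply_symm_apply w
    rwa [e] at h1
  · exact k.apply_symm_apply w

theorem col_base [Finite F] {A : Sys b F} (hA : A.Reduced) {m : ℕ} (hT : A.Tr m)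
    {a : Set (Pt b F)} (hf : a.Finite) (ha : a ⊆ A.D) (hc : a.ncard + 1 ≤ m) {z0 : Pt b F}
    (hz0 : z0 ∈ A.D) (hP : ∀ z ∈ A.orb z0, A.NR a z → A.P2 (insert z a)) {ε : ℝ} (hε : 0 < ε) :
    ∃ p0 ∈ A.D, ∃ p1 ∈ A.D, ¬ A.Rel p0 p1 ∧ A.NR a p0 ∧ A.NR a p1 ∧
      Sml z0 (A.orb z0 \ A.Col a z0 p0 p1) ε := by
  have hm0 : (0 : ℝ) < m := by exact_mod_cast (show 0 < m by omega)
  have hcard : ∀ z : Pt b F, (insert z a).ncard ≤ m :=
    fun z => (Set.ncard_insert_le z a).trans hc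
  obtain ⟨N1, hN1⟩ := sparse_unif hA m
  obtain ⟨N2, hN2⟩ := sml_E hA (div_pos hε hm0)
  obtain ⟨N, hNN1, hNN2⟩ : ∃ N : ℕ, N1 ≤ N ∧ N2 ≤ N := ⟨max N1 N2, le_max_left _ _, le_max_right _ _⟩
  set L : ℕ := (2 * m + 1) * (A.ρ + 1) with hL
  obtain ⟨M, hM⟩ := lt2 hT hf ha hc N (L + 1)
  obtain ⟨n, φ, hn, hD0, hD1, hnr, hE0, hE1⟩ := exists_twins hA
    (fun y hy k => hN1 N hNN1 a hf ha (by omega) y hy k) (A.ρ * (M + N) + 1)
  have hnM : ((A.ρ * M : ℕ) : ℤ) < n := by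
    have h1 : A.ρ * M ≤ A.ρ * (M + N) := Nat.mul_le_mul_left _ (by omega)
    have h2 : ((A.ρ * M : ℕ) : ℤ) ≤ ((A.ρ * (M + N) : ℕ) : ℤ) := by exact_mod_cast h1
    rw [Nat.cast_add, Nat.cast_one] at hn
    linarith
  have hnN : ((A.ρ * N : ℕ) : ℤ) < |n| := by
    have h1 : A.ρ * N ≤ A.ρ * (M + N) := Nat.mul_le_mul_left _ (by omega)
    have h2 : ((A.ρ * N : ℕ) : ℤ) ≤ ((A.ρ * (M + N) : ℕ) : ℤ) := by exact_mod_cast h1
    have h3 := le_abs_self n
    rw [Nat.cast_add, Nat.cast_one] at hn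
    linarith
  refine ⟨tw b false n φ, hD0, tw b true n φ, hD1, hnr, NR_of_NE hE0, NR_of_NE hE1, ?_⟩
  have claim : ∀ z ∈ A.orb z0, A.NE N a z → ¬ A.E N (tw b false n φ) z →
      z ∈ A.Col a z0 (tw b false n φ) (tw b true n φ) := by
    intro z hz hza hzp
    have hzD : z ∈ A.D := by
      obtain ⟨g, hg, rfl⟩ := hz
      exact A.map_mem hg hz0
    have hZE0 : A.NE N (insert z a) (tw b false n φ) := by
      rintro w (rfl | hw)
      · exact fun h => hzp (E_symm h)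
      · exact hE0 w hw
    have hZE1 : A.NE N (insert z a) (tw b true n φ) := by
      intro w hw h
      exact hZE0 w hw ((E_congr le_rfl (Agree.refl _ w) (agree_tw true false n φ hnN)).1 h)
    have hsub : insert z a ⊆ A.D := Set.insert_subset hzD ha
    refine ⟨hz, NR_of_NE hza, hP z hz (NR_of_NE hza) _ hD0 _ hD1 (NR_of_NE hZE0)
      (NR_of_NE hZE1) ?_⟩
    exact asy_walk (N := N) (M := M) (L := L)
      (fun y hy k => hN1 N hNN1 (insert z a) (hf.insert z) hsub (hcard z) y hy k)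
      (fun x hx hxE g hg hd hgE => hM z hzD x hx hza hxE g hg hd hgE) hnM hD0 hZE0
  have hsub : A.orb z0 \ A.Col a z0 (tw b false n φ) (tw b true n φ) ⊆
      ⋃ w ∈ insert (tw b false n φ : Pt b F) a, {y | y ∈ A.D ∧ A.E N2 w y} := by
    rintro z ⟨hz, hz'⟩
    have hzD : z ∈ A.D := by
      obtain ⟨g, hg, rfl⟩ := hz
      exact A.map_mem hg hz0
    rw [Set.mem_iUnion₂]
    by_contra hcon
    apply hz'
    refine claim z hz (fun w hw hE => hcon ⟨w, Set.mem_insert_of_mem _ hw, hzD, E_mono hNN2 hE⟩)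
      (fun hE => hcon ⟨_, Set.mem_insert _ _, hzD, E_mono hNN2 hE⟩)
  refine sml_mono hsub ?_ (sml_bunion (hf.insert _) (hcard _) (div_pos hε hm0).le fun w hw => ?_)
  · rw [mul_div_cancel₀ _ hm0.ne']
  · refine hN2 w ?_ z0
    rcases hw with rfl | hw
    · exact hD0
    · exact ha hw

theorem t_case [Finite F] {A : Sys b F} (hA : A.Reduced) {m : ℕ} (hT : A.Tr m) (hF : A.Fr m)
    {a : Set (Pt b F)} (hf : a.Finite) (ha : a ⊆ A.D) (hc : a.ncard + 1 ≤ m) {z0 : Pt b F}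
    (hz0 : z0 ∈ A.D) (hr : A.NR a z0) (h1 : A.P1 (insert z0 a)) (h2 : A.P2 (insert z0 a)) :
    False := by
  classical
  have hP : ∀ z ∈ A.orb z0, A.NR a z → A.P1 (insert z a) ∧ A.P2 (insert z a) :=
    fun z hz hza => p_move hT hf ha hc hz0 hr h1 h2 hz hza
  have orbD : ∀ {x y : Pt b F}, x ∈ A.D → y ∈ A.orb x → y ∈ A.D := by
    rintro x y hx ⟨g, hg, rfl⟩
    exact (A.map_mem_iff hg).2 hx
  have orbL : ∀ {x y : Pt b F}, y ∈ A.orb x → SameLine x y := by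
    rintro x y ⟨g, hg, rfl⟩
    exact sameLine_of_mem_PW (A.G_le_PW hg) x
  have hFn : Nonempty F := ⟨z0.2⟩
  obtain ⟨N0, hN0⟩ := sparse_unif hA m
  obtain ⟨L, hL⟩ : ∃ L : ℕ, L = (2 * m + 1) * (A.ρ + 1) := ⟨_, rfl⟩
  rw [← hL] at hN0
  obtain ⟨M0', hM0'⟩ := unb_unif2 hF hf ha hc N0
  obtain ⟨M0, hM0⟩ : ∃ M0 : ℕ, M0 = max M0' N0 := ⟨_, rfl⟩
  obtain ⟨ε1, hε1, hrec⟩ := rec_not_sml A (A.ρ * M0)
  obtain ⟨k, hk⟩ : ∃ k : ℕ, k = (L + 1) * Nat.card F := ⟨_, rfl⟩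
  have hkpos : 0 < k := by
    rw [hk]
    exact Nat.mul_pos (Nat.succ_pos _) Nat.card_pos
  have hkR : (0 : ℝ) < k := by exact_mod_cast hkpos
  obtain ⟨p0, hp0, p1, hp1, hp01, hap0, hap1, hsml⟩ := col_base hA hT hf ha hc hz0
    (fun z hz hza => (hP z hz hza).2) (div_pos hε1 hkR)
  have hins : ∀ {y : Pt b F}, A.NR (insert p0 a) y → A.NR a y := fun h w hw =>
    h w (Set.mem_insert_of_mem _ hw)
  have hr1 : A.NR (insert p0 a) p1 := by
    rintro w (rfl | hw)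
    · exact hp01
    · exact hap1 w hw
  -- the points related to `insert p0 a`
  have hfin1 : {y | y ∈ A.orb p1 ∧ ∃ w ∈ insert p0 a, A.Rel w y}.Finite := by
    refine ((hf.insert p0).biUnion (t := fun w => {y | y ∈ A.orb p1 ∧ A.Rel w y})
      (fun w hw => ?_)).subset ?_
    · refine rel_finite hA ?_ hp1
      rcases hw with rfl | hw
      · exact hp0
      · exact ha hw
    · rintro y ⟨hy, w, hw, hwy⟩
      exact Set.mem_iUnion₂.2 ⟨w, hw, hy, hwy⟩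
  obtain ⟨K0, hK0⟩ := (hfin1.image (pos p1)).bddAbove
  have hK1 : ∀ y ∈ A.orb p1, K0 + 1 ≤ pos p1 y → A.NR (insert p0 a) y := by
    intro y hy hle w hw hwy
    have := hK0 (Set.mem_image_of_mem (pos p1) ⟨hy, w, hw, hwy⟩)
    linarith
  obtain ⟨g1, hg1, hd1, -, hney1⟩ := hN0 N0 le_rfl a hf ha (by omega) p1 hp1 (K0 + 1)
  have hy1o : g1 p1 ∈ A.orb p1 := ⟨g1, hg1, rfl⟩
  obtain ⟨y1, hy1⟩ : ∃ y1, y1 = g1 p1 := ⟨_, rfl⟩
  have hd1' : K0 + 1 ≤ pos p1 y1 := by rw [hy1]; exact hd1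
  rw [← hy1] at hy1o hney1
  have hy1D : y1 ∈ A.D := orbD hp1 hy1o
  -- the finite set `J`
  obtain ⟨J, hJ⟩ : ∃ J : Set (Pt b F), J = {y | y ∈ A.orb p1 ∧ 0 ≤ pos y1 y ∧ pos y1 y ≤ L} :=
    ⟨_, rfl⟩
  have hJline : ∀ y ∈ J, SameLine y1 y := by
    intro y hy
    rw [hJ] at hy
    exact sameLine_trans (sameLine_symm (orbL hy1o)) (orbL hy.1)
  have hJsub : J ⊆ (fun q : ℤ × F => ((sh q.1 y1.1, q.2) : Pt b F)) ''
      (Set.Icc (0 : ℤ) L ×ˢ Set.univ) := by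
    intro y hy
    have hl := hJline y hy
    rw [hJ] at hy
    refine ⟨(pos y1 y, y.2), ⟨⟨hy.2.1, hy.2.2⟩, Set.mem_univ _⟩, ?_⟩
    exact (eq_of_pos hl).symm
  have hbox : (Set.Icc (0 : ℤ) L ×ˢ (Set.univ : Set F)).Finite :=
    (Set.finite_Icc _ _).prod Set.finite_univ
  have hJfin : J.Finite := (hbox.image _).subset hJsub
  have hJcard : J.ncard ≤ k := by
    refine (Set.ncard_le_ncard hJsub (hbox.image _)).trans ((Set.ncard_image_le hbox).trans ?_)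
    rw [Set.ncard_prod, Set.ncard_univ, hk, ← Finset.coe_Icc, Set.ncard_coe_finset,
      Int.card_Icc]
    simp
  have hJNR : ∀ y ∈ J, A.NR (insert p0 a) y := by
    intro y hy
    have hl := hJline y hy
    rw [hJ] at hy
    refine hK1 y hy.1 ?_
    rw [pos_add (orbL hy1o) hl]
    linarith [hy.2.1]
  have hJD : ∀ y ∈ J, y ∈ A.D := fun y hy => by
    rw [hJ] at hy
    exact orbD hp1 hy.1
  have hJsml : ∀ y ∈ J, Sml z0 (A.orb z0 \ A.Col a z0 p0 y) (ε1 / k) := by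
    intro y hy
    have hry := hJNR y hy
    rw [hJ] at hy
    exact col_move hT hf ha hc hp0 hp1 hr1 hy.1 hry hsml
  have hU : Sml z0 (⋃ y ∈ J, (A.orb z0 \ A.Col a z0 p0 y)) ε1 := by
    have := sml_bunion hJfin hJcard (S := fun y => A.orb z0 \ A.Col a z0 p0 y)
      (div_nonneg hε1.le hkR.le) hJsml
    rwa [mul_div_cancel₀ _ hkR.ne'] at this
  have hfin2 : {z | z ∈ A.orb z0 ∧ ∃ w ∈ insert p0 J, A.Rel w z}.Finite := by
    refine ((hJfin.insert p0).biUnion (t := fun w => {y | y ∈ A.orb z0 ∧ A.Rel w y})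
      (fun w hw => ?_)).subset ?_
    · refine rel_finite hA ?_ hz0
      rcases hw with rfl | hw
      · exact hp0
      · exact hJD w hw
    · rintro y ⟨hy, w, hw, hwy⟩
      exact Set.mem_iUnion₂.2 ⟨w, hw, hy, hwy⟩
  obtain ⟨T, hTdef⟩ : ∃ T : Set (Pt b F), T = {z | (∀ y ∈ J, z ∈ A.Col a z0 p0 y) ∧
      ∀ w ∈ insert p0 J, ¬ A.Rel w z} := ⟨_, rfl⟩
  have hTs : Sml z0 ({z | z ∈ A.orb z0 ∧ Agree (A.ρ * M0) z y1} \ T) ε1 := by
    have h3 := sml_union hU (sml_of_finite (x := z0) hfin2 (le_refl (0 : ℝ)))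
    rw [add_zero] at h3
    refine sml_mono ?_ le_rfl h3
    rintro z ⟨⟨hz, -⟩, hzT⟩
    by_cases hc1 : ∀ y ∈ J, z ∈ A.Col a z0 p0 y
    · right
      by_contra hcon
      apply hzT
      rw [hTdef]
      refine ⟨hc1, fun w hw hwz => hcon ⟨hz, w, hw, hwz⟩⟩
    · left
      push Not at hc1
      obtain ⟨y, hy, hzy⟩ := hc1
      exact Set.mem_iUnion₂.2 ⟨y, hy, hz, hzy⟩
  obtain ⟨z, ⟨hz, hzag⟩, hzT⟩ := sml_inter_nonempty hε1.le (hrec z0 hz0 y1 hy1D) hTs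
  rw [hTdef] at hzT
  obtain ⟨hzcol, hznr⟩ := hzT
  have hzD : z ∈ A.D := orbD hz0 hz
  have hmul : A.ρ * N0 ≤ A.ρ * M0 := Nat.mul_le_mul_left _ (by omega)
  have hmul' : A.ρ * M0' ≤ A.ρ * M0 := Nat.mul_le_mul_left _ (by omega)
  have hneza : A.NE N0 a z := by
    intro w hw hE
    exact hney1 w hw ((A.E_congr hmul (Agree.refl _ w) hzag).1 hE)
  have hfz : (insert z a).Finite := hf.insert z
  have hsz : insert z a ⊆ A.D := Set.insert_subset hzD ha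
  have hcz : (insert z a).ncard ≤ m := (Set.ncard_insert_le z a).trans hc
  obtain ⟨g2, hg2, hd2, hd2', hney⟩ := hN0 N0 le_rfl (insert z a) hfz hsz hcz y1 hy1D 0
  obtain ⟨y, hy⟩ : ∃ y, y = g2 y1 := ⟨_, rfl⟩
  rw [← hy] at hney
  have hyJ : y ∈ J := by
    rw [hJ, hy]
    refine ⟨⟨g2 * g1, mul_mem hg2 hg1, ?_⟩, hd2, ?_⟩
    · rw [hy1]
      rfl
    · show disp g2 y1 ≤ L
      linarith
  have hy1J : y1 ∈ J := by
    rw [hJ]
    refine ⟨hy1o, ?_, ?_⟩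
    · rw [pos_self]
    · rw [pos_self]
      positivity
  have hunb := hM0' z hzD y (hJD y hyJ) hneza hney
  have hnbd : ¬ A.Bd (insert z a) y1 y := by
    refine not_bd (T := {g | g ∈ A.W M0' ∧ ∀ w ∈ insert z a, g w = w})
      ((A.W_finite M0').subset fun g hg => hg.1) (fun t ht => ?_) hunb
    exact Stb_le_of_agree (Set.mem_insert z a) (hzag.mono hmul')
      (Subgroup.subset_closure ht)
  have hzc := (hzcol y hyJ).2.1
  refine hnbd ((hP z hz hzc).1 p0 hp0 y1 hy1D y (hJD y hyJ) ?_ ?_ ?_ (hzcol y1 hy1J).2.2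
    (hzcol y hyJ).2.2)
  · rintro w (rfl | hw) h
    · exact hznr p0 (Set.mem_insert _ _) h.symm
    · exact hap0 w hw h
  · rintro w (rfl | hw) h
    · exact hznr y1 (Set.mem_insert_of_mem _ hy1J) h.symm
    · exact hins (hJNR y1 hy1J) w hw h
  · rintro w (rfl | hw) h
    · exact hznr y (Set.mem_insert_of_mem _ hyJ) h.symm
    · exact hins (hJNR y hyJ) w hw h

end Sys

end Pool.Agent.helper98.NIG
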