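import Pool.Agent.helper35.NIG.V04
import Pool.Agent.helper35.NIG.V00

/-!
# NIG-V07: the case which is not of translation type

`a ⊆ A.D` is finite, `a.ncard + 1 ≤ m`, `A` satisfies `Tr m` and `Fr m`; `x, z ∈ A.D` are not related
to `a` and not to each other; `y ∈ A.D` is not related to `insert x (insert z a)`; and
`¬ TTu (insert z a)`, `¬ TTu (insert x a)`.  We show that `Unb (Stb M (insert x (insert z a))) y`
for some `M`.  Assume not.

**exists_cmp_N.** `¬ TTu Z` gives `M0, N0` such that no component system `B` of level `M ≥ M0`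
which contains all `NE N0 Z` points has `TT`.  `exists_cmp` for `max N N0` (`NE N → NE (max N N0)`,
`NE_mono`).

**far_return.** In every system `B`: for `z ∈ B.D` and all `N, K` there is `g ∈ B.G` with
`Agree N (g z) z` and `K ≤ |disp g z|`: `recur` gives `w`; `B.right` gives `g1` with
`disp g1 z > K + ρ w`; `recur` gives `g2 ∈ W w` with `Agree N (g2 (g1 z)) z`, `|disp g2 _| ≤ ρ w`.

**stb_agree.** `Agree (A.ρ * M) z z'` implies `Stb M (insert z a) = Stb M (insert z' a)`: the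
elements of `W M` which fix `z` are those which fix `z'` (`W_isPW`, `fix_iff_of_agree`).

**drift_comm.** Assume that for every `M` there are `s = ±1`, `C` with
`|disp k y - s disp k x| ≤ C` for all `k ∈ Stb M (insert z a)`.  Let `h ∈ Fix (insert x a)` with
`Agree (A.ρ * M) z (h z)`.  Then there is `C` with `|disp k (h y) - disp k y| ≤ C` for all
`k ∈ Γ = Stb M (insert z a)`.  Proof: `Γ = Stb M (insert (h z) a)` (`stb_agree`).  Let `h ∈ W n`
(`exists_W`). `h⁻¹ Γ h ≤ Stb (n + M + n) (insert z a)` by `stb_conj` (V01, with `g = h⁻¹`,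
`h⁻¹ '' (insert (h z) a) = insert z a`). Let `M' = n + M + n`, `s`, `C1` the constants for `M'`.
For `k ∈ Γ`, `k' = h⁻¹ k h`: `|disp k' y - s disp k' x| ≤ C1`, and
`disp k' y = disp h⁻¹ (k (h y)) + disp k (h y) + disp h y`,
`disp k' x = disp h⁻¹ (k x) + disp k x + disp h x`, where all terms with `h` are at most `ρ n` in
absolute value, and `h x = x`. So `|disp k (h y) - s disp k x| ≤ C1 + 4 ρ n`. And `k ∈ Γ ≤ Stb M'`
gives `|disp k y - s disp k x| ≤ C1`.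

**density.** Let `Z` be finite, `Z ⊆ A.D`, `Z.ncard ≤ m`, `y ∈ A.D`. Let `B1` be a component system
of level `M1` which contains all `NE N1 Z` points, with `B1` not of translation type; assume that
`NE N1 Z` points of an orbit are joined by elements of `Stb M1 Z` (`hfar`), that they are syndetic
(`hsyn`) and that `NE N1 Z y`.  Then there is `N` such that for every component system `B` of
level `M ≥ M1` which contains all `NE N Z` points, every point `y'` on the line of `y` with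
`|disp k y' - disp k y| ≤ C` for all `k ∈ Stb M Z` (some `C`) lies in `B.D`.  Proof: let `B0` be from
`n_near` for `B1`, `ε = 1 / (2 (2 B0 + 1) |F| (m + 1) (L + 1))`, `N` from `sml_E` for `ε`.
Assume `y' ∉ B.D`.  Then `k y' ∉ B.D` for all `k ∈ Stb M Z` (`Cmp.map_mem`), so `k y'` is not
`NE N Z`: `k y' ∈ S' = ⋃_{w ∈ Z} {q ∈ D | E N w q}`, which is `m ε`-small (`sml_bunion`).  Let `Y = {p ∈ orb y | NE N1 Z p}`. For
`p ∈ Y` choose `k_p ∈ Stb M1 Z ≤ Stb M Z` with `k_p y = p` (`hfar`), `f p = k_p y'`.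
`pos p (f p) = pos y y' + disp k_p y' - disp k_p y` is bounded (`pos_map`). If `f p = f p'` (`= q`)
then for all `k ∈ Stb M Z`: `disp k p = disp (k k_p) y - disp k_p y` and
`disp k q = disp (k k_p) y' - disp k_p y'`, so `|disp k p - disp k q| ≤ 2C`, same for `p'`, so
`|disp k p - disp k p'| ≤ 4 C` for all `k ∈ Stb M Z ≥ Stb M1 Z`; `p, p' ∈ B1.D`; by `Cmp.lift'` and
`n_near` `|pos p p'| ≤ B0`. So `sml_fibre` shows that `Y` is `(2 B0 + 1)|F| m ε`-small; `hsyn`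
(for `y`) and `sml_syn` give `1 ≤ (2 B0 + 1)|F| m ε (L + 1) ≤ 1/2`, contradiction.

**n_level.** Let `x, y` be not related to `Z` and `Bd Z x y`. `exists_NE`
gives `N` with `NE N Z x`, `NE N Z y` (`NE_mono`); `exists_cmp_N` gives `M ≥ M0` and `B`, `¬ TT`, which
contains `x, y`; `Cmp.bd`, `n_drift` (V03); `Cmp.act'` transfers the bound to `Stb M Z`.

**n_case.** (assembly.)  Let `Z = insert z a`, `Z' = insert x a`.  `hb` says `Bd Z x y`; and
`Bd Z' z y` (`Set.insert_comm`).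
1. For every `M` there are `s, C` with `|disp k y - s disp k x| ≤ C` for `k ∈ Stb M Z`: `n_level` for
   `Z, x, y` and some level `M' ≥ M`, `Stb M Z ≤ Stb M' Z` (`x` is not related to `z` and `a`).
2. `n_level` for `Z'`, `z, y`: a level `M3` and a component system `B3` (level `M3`, of `Z'`)
   with `z, y ∈ B3.D`, and `s3, C3` with `|disp g y - s3 disp g z| ≤ C3` for `g ∈ Stb M3 Z'`.
3. `N1`: at least the constant of `sparse_unif` and `NE N1 Z y`. `M1`: at least the constants of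
   `exists_cmp_N` and of `lt_far` for `N1`. `B1` the component system of level `M1`. `density` gives
   `N`.
4. `M ≥ M1`, `B`: `exists_cmp_N` for `max N N'`, where `NE N' Z y`; `y ∈ B.D`, `¬ B.TT`.
   `n_near` for `B` gives `B0`.
5. `far_return` for `B3`, `z`, with `A.ρ * M` and `B0 + C3 + 1`; `Cmp.lift'` gives `h ∈ Stb M3 Z'` with
   `Agree (A.ρ * M) (h z) z`, `|disp h z| ≥ B0 + C3 + 1`, `|disp h y - s3 disp h z| ≤ C3`.
   `h ∈ Fix Z'` (`Stb_le_Fix`). So `|disp h y| ≥ B0 + 1`.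
6. `drift_comm` gives `C` with `|disp k (h y) - disp k y| ≤ C` for `k ∈ Stb M Z`; `density` gives
   `h y ∈ B.D`; by `Cmp.lift'` and `n_near` (for `y, h y`), `|disp h y| = |pos y (h y)| ≤ B0`:
   contradiction.
-/

namespace Pool.Agent.helper98.NIG

variable {b : Base} {F : Type}

namespace Sys

theorem exists_cmp_N [Finite F] {A : Sys b F} (hA : A.Reduced) {m : ℕ} (hT : A.Tr m)
    (hF : A.Fr m) {Z : Set (Pt b F)} (hf : Z.Finite) (hZ : Z ⊆ A.D) (hc : Z.ncard ≤ m)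
    (hn : ¬ A.TTu Z) (N : ℕ) : ∃ M1 : ℕ, ∀ M : ℕ, M1 ≤ M → ∃ B : Sys b F, A.Cmp M Z B ∧
      (∀ p ∈ A.D, A.NE N Z p → p ∈ B.D) ∧ ¬ B.TT := by
  unfold TTu at hn
  push Not at hn
  obtain ⟨M0, N0, h0⟩ := hn
  obtain ⟨M1, h1⟩ := exists_cmp hA hT hF hf hZ hc (max N N0)
  refine ⟨max M0 M1, fun M hM => ?_⟩
  obtain ⟨B, hB, hD⟩ := h1 M ((le_max_right _ _).trans hM)
  refine ⟨B, hB, fun p hp hE => hD p hp (NE_mono (le_max_left _ _) hE), ?_⟩
  exact h0 M ((le_max_left _ _).trans hM) B hB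
    (fun p hp hE => hD p hp (NE_mono (le_max_right _ _) hE))

theorem far_return [Finite F] (B : Sys b F) {z : Pt b F} (hz : z ∈ B.D) (N K : ℕ) :
    ∃ g ∈ B.G, Agree N (g z) z ∧ (K : ℤ) ≤ |disp g z| := by
  obtain ⟨w, hw⟩ := recur B N
  obtain ⟨g1, hg1, h1⟩ := B.right z hz (K + B.ρ * w)
  obtain ⟨g2, hg2, h2⟩ := hw (g1 z) (B.map_mem hg1 hz) z hz
  have hg2G := B.W_le_G hg2
  refine ⟨g2 * g1, B.G.mul_mem hg2G hg1, h2, ?_⟩
  rw [disp_mul (B.G_le_PW hg2G) (B.G_le_PW hg1)]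
  have hb := abs_le.1 (B.abs_disp_W hg2 (g1 z))
  have h3 : (K : ℤ) ≤ disp g2 (g1 z) + disp g1 z := by linarith [hb.1]
  exact h3.trans (le_abs_self _)

theorem stb_agree {A : Sys b F} {M : ℕ} {z z' : Pt b F} (h : Agree (A.ρ * M) z z')
    (a : Set (Pt b F)) : A.Stb M (insert z a) = A.Stb M (insert z' a) := by
  unfold Stb
  congr 1
  ext g
  simp only [Set.mem_ofPred_eq, Set.mem_insert_iff, forall_eq_or_imp]
  constructor
  · rintro ⟨hg, h1, h2⟩
    exact ⟨hg, (fix_iff_of_agree (A.W_isPW hg) h).1 h1, h2⟩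
  · rintro ⟨hg, h1, h2⟩
    exact ⟨hg, (fix_iff_of_agree (A.W_isPW hg) h).2 h1, h2⟩

theorem drift_comm {A : Sys b F} {a : Set (Pt b F)} {x y z : Pt b F}
    (hd : ∀ M : ℕ, ∃ (s : ℤ) (C : ℕ), (s = 1 ∨ s = -1) ∧
      ∀ k ∈ A.Stb M (insert z a), |disp k y - s * disp k x| ≤ C) {M : ℕ}
    {h : Equiv.Perm (Pt b F)} (hh : h ∈ A.Fix (insert x a)) (hag : Agree (A.ρ * M) z (h z)) :
    ∃ C : ℕ, ∀ k ∈ A.Stb M (insert z a), |disp k (h y) - disp k y| ≤ C := by
  obtain ⟨n, hn⟩ := A.exists_W hh.1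
  obtain ⟨s, C1, hs, hC1⟩ := hd (n + M + n)
  refine ⟨C1 + C1 + 4 * (A.ρ * n), fun k hk => ?_⟩
  have hkG : k ∈ A.G := (A.Stb_le_Fix M _ hk).1
  have hkP : k ∈ PW b F := A.G_le_PW hkG
  have hhP : h ∈ PW b F := A.G_le_PW hh.1
  have hiP : h⁻¹ ∈ PW b F := (PW b F).inv_mem hhP
  have hk' := hk
  rw [stb_agree hag a] at hk'
  have hc := stb_conj (A.W_inv hn) hk'
  have himg : (h⁻¹ : Equiv.Perm (Pt b F)) '' (insert (h z) a) = insert z a := by
    rw [Set.image_insert_eq]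
    have e1 : h⁻¹ (h z) = z := by
      rw [← Equiv.Perm.mul_apply, inv_mul_cancel, Equiv.Perm.one_apply]
    have e2 : (h⁻¹ : Equiv.Perm (Pt b F)) '' a = a := by
      have : ∀ w ∈ a, h⁻¹ w = w := by
        intro w hw
        rw [Equiv.Perm.inv_eq_iff_eq]
        exact (hh.2 w (Set.mem_insert_of_mem _ hw)).symm
      ext w
      constructor
      · rintro ⟨u, hu, rfl⟩
        rw [this u hu]
        exact hu
      · intro hw
        exact ⟨w, hw, this w hw⟩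
    rw [e1, e2]
  rw [himg, inv_inv] at hc
  have d1 := hC1 _ hc
  have d2 := hC1 k (A.Stb_mono (by omega) _ hk)
  rw [disp_mul ((PW b F).mul_mem hiP hkP) hhP, disp_mul hiP hkP,
    disp_mul ((PW b F).mul_mem hiP hkP) hhP, disp_mul hiP hkP,
    hh.2 x (Set.mem_insert _ _)] at d1
  have b1 := abs_le.1 (A.abs_disp_W (A.W_inv hn) (k (h y)))
  have b2 := abs_le.1 (A.abs_disp_W hn y)
  have b3 := abs_le.1 (A.abs_disp_W (A.W_inv hn) (k x))
  have b4 := abs_le.1 (A.abs_disp_W hn x)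
  rw [abs_le] at d1 d2
  rw [abs_le]
  push_cast
  rcases hs with rfl | rfl
  · constructor <;> linarith [d1.1, d1.2, d2.1, d2.2, b1.1, b1.2, b2.1, b2.2, b3.1, b3.2, b4.1, b4.2]
  · constructor <;> linarith [d1.1, d1.2, d2.1, d2.2, b1.1, b1.2, b2.1, b2.2, b3.1, b3.2, b4.1, b4.2]

theorem density [Finite F] {A : Sys b F} (hA : A.Reduced) {m : ℕ} {Z : Set (Pt b F)}
    (hf : Z.Finite) (hZ : Z ⊆ A.D) (hc : Z.ncard ≤ m) {y : Pt b F} (hy : y ∈ A.D)
    {M1 N1 L : ℕ} {B1 : Sys b F} (hB1 : A.Cmp M1 Z B1)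
    (hD1 : ∀ p ∈ A.D, A.NE N1 Z p → p ∈ B1.D) (hn1 : ¬ B1.TT) (hy1 : A.NE N1 Z y)
    (hfar : ∀ x ∈ A.D, ∀ g ∈ A.G, A.NE N1 Z x → A.NE N1 Z (g x) →
      ∃ h ∈ A.Stb M1 Z, h x = g x)
    (hsyn : ∀ n : ℤ, ∃ g ∈ A.G, n ≤ disp g y ∧ disp g y ≤ n + L ∧ A.NE N1 Z (g y)) :
    ∃ N : ℕ, ∀ M : ℕ, M1 ≤ M → ∀ B : Sys b F, A.Cmp M Z B →
      (∀ p ∈ A.D, A.NE N Z p → p ∈ B.D) → ∀ y' ∈ A.D, SameLine y y' →
        (∃ C : ℕ, ∀ k ∈ A.Stb M Z, |disp k y' - disp k y| ≤ C) → y' ∈ B.D := by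
  classical
  obtain ⟨B0, hB0⟩ := n_near hn1
  obtain ⟨N, hN⟩ := sml_E hA (ε := 1 / (2 * ((((2 * B0 + 1) * Nat.card F : ℕ) : ℝ) + 1) *
    ((m : ℝ) + 1) * ((L : ℝ) + 1))) (by positivity)
  refine ⟨N, fun M hM B hB hD y' hy' hl hC => ?_⟩
  obtain ⟨C, hC⟩ := hC
  by_contra hyB
  set ε0 : ℝ := 1 / (2 * ((((2 * B0 + 1) * Nat.card F : ℕ) : ℝ) + 1) *
    ((m : ℝ) + 1) * ((L : ℝ) + 1)) with hε0
  have hε0' : 0 < ε0 := by positivity
  have hSG : ∀ {k : Equiv.Perm (Pt b F)}, k ∈ A.Stb M Z → k ∈ A.G :=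
    fun hk => (A.Stb_le_Fix M Z hk).1
  have hSM : A.Stb M1 Z ≤ A.Stb M Z := A.Stb_mono hM Z
  have hSPW : ∀ {k : Equiv.Perm (Pt b F)}, k ∈ A.Stb M Z → k ∈ PW b F :=
    fun hk => A.G_le_PW (hSG hk)
  -- the images of `y'` are locked to `Z`
  have hlock : ∀ k ∈ A.Stb M Z, k y' ∈ ⋃ w ∈ Z, {q | q ∈ A.D ∧ A.E N w q} := by
    intro k hk
    have h1 : k y' ∈ A.D := A.map_mem (hSG hk) hy'
    have h2 : k y' ∉ B.D := fun h => hyB ((hB.map_mem hk).1 h)
    have h3 : ¬ A.NE N Z (k y') := fun h => h2 (hD _ h1 h)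
    unfold NE at h3
    push Not at h3
    obtain ⟨w, hw, hE⟩ := h3
    rw [Set.mem_iUnion₂]
    exact ⟨w, hw, h1, hE⟩
  have hS' : Sml y (⋃ w ∈ Z, {q | q ∈ A.D ∧ A.E N w q}) (m * ε0) :=
    sml_bunion hf hc hε0'.le fun w hw => hN w (hZ hw) y
  -- the points of the orbit of `y` which are not locked to `Z`
  set Y : Set (Pt b F) := {p | ∃ g ∈ A.G, p = g y ∧ A.NE N1 Z p} with hY
  have hex : ∀ p : Pt b F, ∃ k : Equiv.Perm (Pt b F), p ∈ Y → k ∈ A.Stb M1 Z ∧ k y = p := by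
    intro p
    by_cases hp : p ∈ Y
    · obtain ⟨g, hg, rfl, hNE⟩ := hp
      obtain ⟨h, hh, hh'⟩ := hfar y hy g hg hy1 hNE
      exact ⟨h, fun _ => ⟨hh, hh'⟩⟩
    · exact ⟨1, fun h => absurd h hp⟩
  choose K hK using hex
  have hYD : ∀ p ∈ Y, p ∈ B1.D := by
    rintro p ⟨g, hg, rfl, hNE⟩
    exact hD1 _ (A.map_mem hg hy) hNE
  have hdiff : ∀ p ∈ Y, ∀ k ∈ A.Stb M Z, |disp k (K p y') - disp k p| ≤ 2 * (C : ℤ) := by
    intro p hp k hk
    obtain ⟨h1, h2⟩ := hK p hp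
    have h1' := hSM h1
    have e1 := disp_mul (hSPW hk) (hSPW h1') y
    have e2 := disp_mul (hSPW hk) (hSPW h1') y'
    rw [h2] at e1
    have b1 := abs_le.1 (hC _ ((A.Stb M Z).mul_mem hk h1'))
    have b2 := abs_le.1 (hC _ h1')
    rw [abs_le]
    constructor <;> linarith [b1.1, b1.2, b2.1, b2.2]
  have hfib : Sml y Y (((2 * B0 + 1) * Nat.card F : ℕ) * (m * ε0)) := by
    refine sml_fibre (f := fun p => K p y') (c0 := (pos y y').natAbs + C) ?_ ?_
      (by positivity) hS'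
    · intro p hp hlp
      obtain ⟨h1, h2⟩ := hK p hp
      have h1' := hSM h1
      refine ⟨hlock _ h1', ?_, ?_⟩
      · have h3 := sameLine_map (A := A) (hSG h1') hl
        rwa [h2] at h3
      · have h3 := pos_map (A := A) (hSG h1') hl
        rw [h2] at h3
        rw [h3]
        have b1 := abs_le.1 (hC _ h1')
        have b2 := abs_le.1 (le_refl |pos y y'|)
        rw [abs_le]
        push_cast
        constructor <;> linarith [b1.1, b1.2, b2.1, b2.2]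
    · intro p hp p' hp' hlp hlp' hpp
      refine hB0 p (hYD p hp) p' (hYD p' hp') (sameLine_trans (sameLine_symm hlp) hlp')
        ⟨4 * C, fun g' hg' => ?_⟩
      obtain ⟨g, hg, hg2⟩ := hB1.lift' hg'
      have e1 := (hg2 p (hYD p hp)).2
      have e2 := (hg2 p' (hYD p' hp')).2
      have b1 := abs_le.1 (hdiff p hp g (hSM hg))
      have b2 := abs_le.1 (hdiff p' hp' g (hSM hg))
      rw [← hpp] at b2
      rw [e1, e2, abs_le]
      constructor <;> linarith [b1.1, b1.2, b2.1, b2.2]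
  have hfin := sml_syn (L := L) (fun n => by
    obtain ⟨g, hg, h1, h2, h3⟩ := hsyn n
    exact ⟨g y, ⟨g, hg, rfl, h3⟩, sameLine_of_mem_PW (A.G_le_PW hg) y, h1, h2⟩) hfib
  have h1 : (((2 * B0 + 1) * Nat.card F : ℕ) : ℝ) * (m * ε0) * (L + 1) ≤ 1 / 2 := by
    rw [hε0]
    set c : ℝ := (((2 * B0 + 1) * Nat.card F : ℕ) : ℝ) with hc'
    have hc0 : 0 ≤ c := by positivity
    have hm0 : (0 : ℝ) ≤ m := by positivity
    have hL0 : (0 : ℝ) ≤ L := by positivity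
    have e : c * ((m : ℝ) * (1 / (2 * (c + 1) * ((m : ℝ) + 1) * ((L : ℝ) + 1)))) *
        ((L : ℝ) + 1) = (c / (c + 1)) * ((m : ℝ) / (m + 1)) * (1 / 2) := by
      field_simp
    rw [e]
    have a1 : c / (c + 1) ≤ 1 := by
      rw [div_le_one (by positivity)]
      linarith
    have a2 : (m : ℝ) / (m + 1) ≤ 1 := by
      rw [div_le_one (by positivity)]
      linarith
    have a3 : 0 ≤ c / (c + 1) := by positivity
    have a4 : (0 : ℝ) ≤ (m : ℝ) / (m + 1) := by positivity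
    have a5 : c / (c + 1) * ((m : ℝ) / (m + 1)) ≤ 1 := mul_le_one₀ a1 a4 a2
    linarith
  linarith

theorem n_level [Finite F] (hfree : ∀ A : Sys b F, A.Reduced → A.FREE2) {A : Sys b F}
    (hA : A.Reduced) {m : ℕ} (hT : A.Tr m) (hF : A.Fr m) {Z : Set (Pt b F)} (hf : Z.Finite)
    (hZ : Z ⊆ A.D) (hc : Z.ncard ≤ m) (hn : ¬ A.TTu Z) {x y : Pt b F} (hx : x ∈ A.D)
    (hy : y ∈ A.D) (hxZ : A.NR Z x) (hyZ : A.NR Z y) (hb : A.Bd Z x y) (M0 : ℕ) :
    ∃ M : ℕ, M0 ≤ M ∧ ∃ B : Sys b F, A.Cmp M Z B ∧ x ∈ B.D ∧ y ∈ B.D ∧ ¬ B.TT ∧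
      ∃ (s : ℤ) (C : ℕ), (s = 1 ∨ s = -1) ∧ ∀ k ∈ A.Stb M Z, |disp k y - s * disp k x| ≤ C := by
  obtain ⟨Nx, hNx⟩ := exists_NE hf hxZ
  obtain ⟨Ny, hNy⟩ := exists_NE hf hyZ
  obtain ⟨M1, h1⟩ := exists_cmp_N hA hT hF hf hZ hc hn (max Nx Ny)
  obtain ⟨B, hB, hD, hTT⟩ := h1 (max M0 M1) (le_max_right _ _)
  have hxB := hD x hx (NE_mono (le_max_left _ _) hNx)
  have hyB := hD y hy (NE_mono (le_max_right _ _) hNy)
  obtain ⟨s, C, hs, hC⟩ := n_drift hfree hTT hxB hyB (hB.bd hxB hyB hb)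
  refine ⟨max M0 M1, le_max_left _ _, B, hB, hxB, hyB, hTT, s, C, hs, fun k hk => ?_⟩
  obtain ⟨k', hk', hp⟩ := hB.act' hk
  rw [← (hp y hyB).2, ← (hp x hxB).2]
  exact hC k' hk'

theorem n_case [Finite F] (hfree : ∀ A : Sys b F, A.Reduced → A.FREE2) {A : Sys b F}
    (hA : A.Reduced) {m : ℕ} (hT : A.Tr m) (hF : A.Fr m) {a : Set (Pt b F)} (hf : a.Finite)
    (ha : a ⊆ A.D) (hc : a.ncard + 1 ≤ m) {x y z : Pt b F} (hx : x ∈ A.D) (hy : y ∈ A.D)
    (hz : z ∈ A.D) (hxa : A.NR a x) (hza : A.NR a z) (hzx : ¬ A.Rel z x)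
    (hr : A.NR (insert x (insert z a)) y) (hn : ¬ A.TTu (insert z a))
    (hn' : ¬ A.TTu (insert x a)) :
    ∃ M : ℕ, Unb (A.Stb M (insert x (insert z a))) y := by
  by_contra hcon
  push Not at hcon
  have hb : A.Bd (insert z a) x y := hcon
  have hb' : A.Bd (insert x a) z y := by
    intro M
    rw [Set.insert_comm]
    exact hcon M
  have hZf : (insert z a).Finite := hf.insert z
  have hZf' : (insert x a).Finite := hf.insert x
  have hZD : insert z a ⊆ A.D := Set.insert_subset hz ha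
  have hZD' : insert x a ⊆ A.D := Set.insert_subset hx ha
  have hZc : (insert z a).ncard ≤ m := (Set.ncard_insert_le z a).trans hc
  have hZc' : (insert x a).ncard ≤ m := (Set.ncard_insert_le x a).trans hc
  have hxZ : A.NR (insert z a) x := by
    intro w hw
    rcases hw with rfl | hw
    · exact hzx
    · exact hxa w hw
  have hyZ : A.NR (insert z a) y := fun w hw => hr w (Set.mem_insert_of_mem _ hw)
  have hzZ' : A.NR (insert x a) z := by
    intro w hw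
    rcases hw with rfl | hw
    · exact fun h => hzx h.symm
    · exact hza w hw
  have hyZ' : A.NR (insert x a) y := by
    intro w hw
    rcases hw with rfl | hw
    · exact hr w (Set.mem_insert _ _)
    · exact hr w (Set.mem_insert_of_mem _ (Set.mem_insert_of_mem _ hw))
  have hd : ∀ M : ℕ, ∃ (s : ℤ) (C : ℕ), (s = 1 ∨ s = -1) ∧
      ∀ k ∈ A.Stb M (insert z a), |disp k y - s * disp k x| ≤ C := by
    intro M
    obtain ⟨M', hM', B, -, -, -, -, s, C, hs, hC⟩ :=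
      n_level hfree hA hT hF hZf hZD hZc hn hx hy hxZ hyZ hb M
    exact ⟨s, C, hs, fun k hk => hC k (A.Stb_mono hM' _ hk)⟩
  obtain ⟨M3, -, B3, hB3, hzB3, hyB3, -, s3, C3, hs3, hC3⟩ :=
    n_level hfree hA hT hF hZf' hZD' hZc' hn' hz hy hzZ' hyZ' hb' 0
  obtain ⟨N0, hN0⟩ := sparse_unif hA m
  obtain ⟨Ny, hNy⟩ := exists_NE hZf hyZ
  obtain ⟨M1a, hM1a⟩ := exists_cmp_N hA hT hF hZf hZD hZc hn (max N0 Ny)
  obtain ⟨M1b, hM1b⟩ := lt_far hA hT hZf hZD hZc (max N0 Ny)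
  obtain ⟨B1, hB1, hD1, hn1⟩ := hM1a (max M1a M1b) (le_max_left _ _)
  have hy1 : A.NE (max N0 Ny) (insert z a) y := NE_mono (le_max_right _ _) hNy
  obtain ⟨N, hN⟩ := density hA hZf hZD hZc hy hB1 hD1 hn1 hy1 (fun x hx g hg h1 h2 => by
      obtain ⟨h, hh, he⟩ := hM1b x hx g hg h1 h2
      exact ⟨h, A.Stb_mono (le_max_right _ _) _ hh, he⟩)
    (fun n => hN0 _ (le_max_left _ _) _ hZf hZD hZc y hy n)
  obtain ⟨M2, hM2⟩ := exists_cmp_N hA hT hF hZf hZD hZc hn (max N Ny)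
  obtain ⟨B, hB, hD, hnB⟩ := hM2 (max M2 (max M1a M1b)) (le_max_left _ _)
  have hyB : y ∈ B.D := hD y hy (NE_mono (le_max_right _ _) hNy)
  obtain ⟨B0, hB0⟩ := n_near hnB
  obtain ⟨g3, hg3, hag, hfar⟩ :=
    far_return B3 hzB3 (A.ρ * max M2 (max M1a M1b)) (B0 + C3 + 1)
  obtain ⟨h, hh, hp⟩ := hB3.lift' hg3
  have e1 := hp z hzB3
  have hF' : h ∈ A.Fix (insert x a) := A.Stb_le_Fix _ _ hh
  rw [e1.1] at hag
  rw [e1.2] at hfar
  have hdr := hC3 h hh
  obtain ⟨C, hC⟩ := drift_comm hd hF' hag.symm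
  have hhG := hF'.1
  have hl : SameLine y (h y) := sameLine_of_mem_PW (A.G_le_PW hhG) y
  have hhy : h y ∈ B.D := hN _ (le_max_right _ _) B hB
    (fun p hp hE => hD p hp (NE_mono (le_max_left _ _) hE)) (h y) (A.map_mem hhG hy) hl ⟨C, hC⟩
  have hpos := hB0 y hyB (h y) hhy hl ⟨C, fun g hg => by
    obtain ⟨k, hk, hkp⟩ := hB.lift' hg
    rw [(hkp y hyB).2, (hkp (h y) hhy).2]
    exact hC k hk⟩
  have e3 : pos y (h y) = disp h y := rfl
  rw [e3] at hpos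
  have e4 : |s3 * disp h z| = |disp h z| := by
    rcases hs3 with rfl | rfl
    · rw [one_mul]
    · rw [neg_one_mul, abs_neg]
  have e5 : |s3 * disp h z| ≤ |disp h y| + |disp h y - s3 * disp h z| := by
    have := abs_sub_abs_le_abs_sub (s3 * disp h z) (disp h y)
    rw [abs_sub_comm] at this
    linarith
  rw [e4] at e5
  push_cast at hfar
  linarith

end Sys

end Pool.Agent.helper98.NIG
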