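import Pool.Agent.helper35.NIG.V06
import Pool.Agent.helper35.NIG.V07

/-!
# NIG-V08: `Fr m` and `Tr m` imply `Fr (m + 1)`

**stb_erase.** If `v` is related to a point `z` of `Z` then `Stb M Z = Stb M (insert v Z)`: an element of
`A.G` which fixes `z` fixes `v` (definition of `Rel`).

**fr_succ.** Let `Z ⊆ A.D` be a finite set with at most `m + 1` elements, `y ∈ A.D` not related to
`Z`.  If `Z.card ≤ m` use `Fr m`. Let `Z.card = m + 1`.
If there are `v ≠ z` in `Z` with `Rel z v`, let `Z1 = Z \ {v}` (`m` elements): `Fr m` gives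
`Unb (Stb M Z1) y`, and `Stb M Z1 = Stb M (insert v Z1) = Stb M Z` (`stb_erase`).
Otherwise choose `z ≠ x` in `Z` (`m + 1 ≥ 2`) and `a = Z \ {z, x}`, `a.ncard = m - 1`,
`Z = insert x (insert z a)`.  By `t_case` (V06) and `P1_of_TTu`, `P2_of_TTu` (V04) `TTu (insert z a)`
and `TTu (insert x a)` fail (`z` and `x` are not related to `a`).  So `n_case` (V07) gives
`Unb (Stb M Z) y` for some `M`.
-/

namespace Pool.Agent.helper98.NIG

variable {b : Base} {F : Type}

namespace Sys

theorem stb_erase {A : Sys b F} {Z : Set (Pt b F)} {z v : Pt b F} (hz : z ∈ Z)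
    (h : A.Rel z v) (M : ℕ) : A.Stb M (insert v Z) = A.Stb M Z := by
  have hset : {g | g ∈ A.W M ∧ ∀ w ∈ insert v Z, g w = w} = {g | g ∈ A.W M ∧ ∀ w ∈ Z, g w = w} := by
    ext g
    constructor
    · rintro ⟨hg, hg'⟩
      exact ⟨hg, fun w hw => hg' w (Set.mem_insert_of_mem _ hw)⟩
    · rintro ⟨hg, hg'⟩
      refine ⟨hg, ?_⟩
      intro w hw
      rcases Set.mem_insert_iff.1 hw with rfl | hw
      · exact (h g (A.W_le_G hg)).1 (hg' z hz)
      · exact hg' w hw
  unfold Stb
  rw [hset]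

theorem fr_succ [Finite F] (hfree : ∀ A : Sys b F, A.Reduced → A.FREE2) {A : Sys b F}
    (hA : A.Reduced) {m : ℕ} (hm : 1 ≤ m) (hT : A.Tr m) (hF : A.Fr m) : A.Fr (m + 1) := by
  classical
  intro Z hZ hcard y hy hNR
  rcases Nat.lt_or_ge m Z.card with hlt | hle
  swap
  · exact hF Z hZ hle y hy hNR
  have hc : Z.card = m + 1 := by omega
  by_cases hex : ∃ z ∈ Z, ∃ v ∈ Z, v ≠ z ∧ A.Rel z v
  · obtain ⟨z, hz, v, hv, hvz, hrel⟩ := hex
    have h1 : (Z.erase v).card ≤ m := by
      rw [Finset.card_erase_of_mem hv]; omega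
    have h2 : ((Z.erase v : Finset (Pt b F)) : Set (Pt b F)) ⊆ A.D := fun w hw =>
      hZ (Finset.mem_coe.2 (Finset.mem_of_mem_erase (Finset.mem_coe.1 hw)))
    have h3 : A.NR ((Z.erase v : Finset (Pt b F)) : Set (Pt b F)) y := fun w hw =>
      hNR w (Finset.mem_coe.2 (Finset.mem_of_mem_erase (Finset.mem_coe.1 hw)))
    obtain ⟨M, hM⟩ := hF (Z.erase v) h2 h1 y hy h3
    refine ⟨M, ?_⟩
    have h4 : (insert v ((Z.erase v : Finset (Pt b F)) : Set (Pt b F))) = (Z : Set (Pt b F)) := by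
      rw [← Finset.coe_insert, Finset.insert_erase hv]
    have h5 := stb_erase (A := A) (Z := ((Z.erase v : Finset (Pt b F)) : Set (Pt b F)))
      (Finset.mem_coe.2 (Finset.mem_erase.2 ⟨Ne.symm hvz, hz⟩)) hrel M
    rw [h4] at h5
    rw [h5]
    exact hM
  · push Not at hex
    obtain ⟨z, hz, x, hx, hzx⟩ := Finset.one_lt_card.1 (show 1 < Z.card by omega)
    set a : Set (Pt b F) := (((Z.erase z).erase x : Finset (Pt b F)) : Set (Pt b F)) with ha
    have hxz' : x ∈ Z.erase z := Finset.mem_erase.2 ⟨Ne.symm hzx, hx⟩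
    have haf : a.Finite := Finset.finite_toSet _
    have hmem : ∀ w ∈ a, w ∈ Z ∧ w ≠ z ∧ w ≠ x := by
      intro w hw
      have h1 := Finset.mem_coe.1 hw
      have h2 := Finset.mem_erase.1 h1
      have h3 := Finset.mem_erase.1 h2.2
      exact ⟨h3.2, h3.1, h2.1⟩
    have haD : a ⊆ A.D := fun w hw => hZ (Finset.mem_coe.2 (hmem w hw).1)
    have hac : a.ncard + 1 ≤ m := by
      rw [ha, Set.ncard_coe_finset, Finset.card_erase_of_mem hxz', Finset.card_erase_of_mem hz]
      omega
    have hins : (insert x (insert z a)) = (Z : Set (Pt b F)) := by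
      ext w
      simp only [Set.mem_insert_iff]
      constructor
      · rintro (rfl | rfl | hw)
        · exact hx
        · exact hz
        · exact (hmem w hw).1
      · intro hw
        by_cases h1 : w = x
        · exact Or.inl h1
        · by_cases h2 : w = z
          · exact Or.inr (Or.inl h2)
          · right; right
            exact Finset.mem_coe.2 (Finset.mem_erase.2 ⟨h1, Finset.mem_erase.2 ⟨h2, hw⟩⟩)
    have hza : A.NR a z := fun w hw => hex w (hmem w hw).1 z hz (Ne.symm (hmem w hw).2.1)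
    have hxa : A.NR a x := fun w hw => hex w (hmem w hw).1 x hx (Ne.symm (hmem w hw).2.2)
    have hzx' : ¬ A.Rel z x := hex z hz x hx (Ne.symm hzx)
    have hzD : z ∈ A.D := hZ hz
    have hxD : x ∈ A.D := hZ hx
    have hn : ¬ A.TTu (insert z a) := fun h =>
      t_case hA hT hF haf haD hac hzD hza (P1_of_TTu (haf.insert z) h) (P2_of_TTu (haf.insert z) h)
    have hn' : ¬ A.TTu (insert x a) := fun h =>
      t_case hA hT hF haf haD hac hxD hxa (P1_of_TTu (haf.insert x) h) (P2_of_TTu (haf.insert x) h)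
    rw [← hins] at hNR
    obtain ⟨M, hM⟩ := n_case hfree hA hT hF haf haD hac hxD hy hzD hxa hza hzx' hNR hn hn'
    rw [hins] at hM
    exact ⟨M, hM⟩

end Sys

end Pool.Agent.helper98.NIG
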