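import Pool.Agent.helper35.NIG.V08
import Pool.Agent.helper35.NIG.R09

/-!
# NIG-V09: reduced systems have exponential growth, given `FREE2`

The parts P6 (transitivity), P7 (freeness of the stabilisers of many points) and P8 (endgame)
together; the only hypothesis is `FREE2` for all reduced systems (P5).
-/

namespace Pool.Agent.helper98.NIG

variable {b : Base} {F : Type}

namespace Sys

theorem exp_reduced [Finite F] (hfree : ∀ A : Sys b F, A.Reduced → A.FREE2) (A : Sys b F)
    (hA : A.Reduced) : ExpGrowth A.G :=
  exp_all_reduced hfree (fun _ hA _ hm hT hF => fr_succ hfree hA hm hT hF) A hA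

end Sys

end Pool.Agent.helper98.NIG
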