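import Pool.Agent.helper35.NIG.QDefs
import Pool.Agent.helper97.NIG.PLim

/-!
# NIG-VDefs: definitions for the part on the freeness of stabilisers of many points (P7)

* `Bd Z x y`: no finitely generated group of elements which fix `Z` and `x` has an unbounded orbit
  at `y`.
* `Asy Z x x'`: a finitely generated group of elements which fix `Z` moves `x` and `x'` to points
  which agree on windows as large as one likes.
* `TT`: the system has translation type (it has a pair of different points of the same orbit, in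
  different positions of the harmonic coordinate, which stay at bounded distance).
* `Cmp M Z B`: the system `B` is the action of `A.Stb M Z` on an invariant clopen set.
* `TTu Z`: arbitrarily large component systems of the stabiliser of `Z` have translation type.
* `P1 Z`, `P2 Z`: what we use of `TTu Z`.
-/

namespace Pool.Agent.helper98.NIG

variable {b : Base} {F : Type}

namespace Sys

/-- finitely generated groups of elements which fix `Z` and `x` have bounded orbits at `y` -/
def Bd (A : Sys b F) (Z : Set (Pt b F)) (x y : Pt b F) : Prop :=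
  ∀ M : ℕ, ¬ Unb (A.Stb M (insert x Z)) y

/-- `x` and `x'` are asymptotic under a finitely generated subgroup of the stabiliser of `Z` -/
def Asy (A : Sys b F) (Z : Set (Pt b F)) (x x' : Pt b F) : Prop :=
  ∃ M : ℕ, ∀ k : ℕ, ∃ g ∈ A.Stb M Z, Agree k (g x) (g x')

/-- translation type -/
def TT (B : Sys b F) : Prop := ∃ x ∈ B.D, ∃ t ∈ B.Uset x, t ≠ 0

/-- `B` is the action of `A.Stb M Z` on an invariant set -/
structure Cmp (A : Sys b F) (M : ℕ) (Z : Set (Pt b F)) (B : Sys b F) : Prop where
  sub : B.D ⊆ A.D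
  act : ∀ g ∈ A.Stb M Z, ∃ g' ∈ B.G, ∀ p ∈ B.D, g' p = g p
  lift : ∀ g' ∈ B.G, ∃ g ∈ A.Stb M Z, ∀ p ∈ B.D, g' p = g p

/-- arbitrarily large component systems of the stabiliser of `Z` have translation type -/
def TTu (A : Sys b F) (Z : Set (Pt b F)) : Prop :=
  ∀ M0 N : ℕ, ∃ M : ℕ, M0 ≤ M ∧ ∃ B : Sys b F, A.Cmp M Z B ∧
    (∀ a ∈ A.D, A.NE N Z a → a ∈ B.D) ∧ B.TT

/-- consequence of `TTu`: `Bd Z` is a right Euclidean relation -/
def P1 (A : Sys b F) (Z : Set (Pt b F)) : Prop :=
  ∀ x ∈ A.D, ∀ y ∈ A.D, ∀ y' ∈ A.D, A.NR Z x → A.NR Z y → A.NR Z y' →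
    A.Bd Z x y → A.Bd Z x y' → A.Bd Z y y'

/-- consequence of `TTu`: asymptotic points are `Bd`-related -/
def P2 (A : Sys b F) (Z : Set (Pt b F)) : Prop :=
  ∀ x ∈ A.D, ∀ x' ∈ A.D, A.NR Z x → A.NR Z x' → A.Asy Z x x' → A.Bd Z x x'

end Sys

end Pool.Agent.helper98.NIG
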